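import Pool.Agent.ME.DefsE2
import Pool.Agent.MUX.StHX2
import Pool.Agent.MUX.StHX
import Pool.Agent.MUX.StXF
import Pool.Agent.MUX.StXT
/-!
# MUX, block H, bridge (helper16): from theta series of ideals to `HypA`, and the final statement of the block

`StHX.lean` (helper27) is the abstract part: `HypA` implies `Sx_HA`. Here: for the family `R : Reps A B (p * f) ι`,
an odd character `e` of conductor dividing `f cjI P` and units `kk : ι → ℂ` the symbols
`PP R P e kk i = (Σ_c kk_c/e(N b_c) PhiI (b_c P^i) e)/om_(i0)` satisfy `HypA` (`Sy_BRG`), the quantity of the final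
statement is a character sum of `PP .. 0` (`Sy_QSX`), and the final statement is `Sy_HFX`. Both `p = 3` and `p = 2`
(for `p = 2` with the factor `1/2`).

Every statement is a `def Sy_X : Prop`; a module proves `theorem ty_X (h : ..) ... : Sy_X` in the file `HY_X.lean`,
namespace `Pool.Agent.MUXHY`; the hypotheses are the statements named under USES (fewer is fine). `Sx_..` in USES is
`Pool.Agent.MUXF.Sx_..` (`StXF.lean`), `Xs_FTI` is `Pool.Agent.MUXT.Xs_FTI` (`StXT.lean`). The structures `CQ`,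
`IsEI`, `IsLI` exist twice (`MUX`, `MUXF`), with the conversions `toCQ`, `toEI`, `toLI` below; all functions
(`nI`, `cjI`, `PhiI`, `chiX` = `chiQ`, `nuX` = `nuQ`) are equal by `rfl` (lemmas below). `v = V.valuation`:
`v x ≤ 1 ↔ x ∈ V`, `v x < 1 ↔ x ∈ V.nonunits` (`ValuationSubring.valuation_le_one_iff`,
`ValuationSubring.mem_nonunits_iff`).
-/

set_option autoImplicit false

namespace Pool.Agent.MUXHY

open _root_.MU3 Pool.Agent.MU3A Pool.Agent.MU3B Pool.Agent.MU3F Pool.Agent.MUX Pool.Agent.ME Pool.Agent.MUXH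
  Pool.Agent.MuSym OnePoint
open scoped ComplexConjugate

noncomputable section

/-! ## The two sets of definitions -/

section
variable {A B : ℤ}

end

/-! ## The cycle of symbols -/

/-- `PP_E i = (Σ_c kk_c/e(N b_c) PhiI (b_c P^i) e)/om_(i0)` -/
def PP_E {A B : ℤ} {n : ℕ} {ι : Type} [Fintype ι] (R : RepsE A B n ι) (P : Ideal (OO A B))
    (e : OO A B → ℂ) (kk : ι → ℂ) (i : ℕ) (x y : OnePoint ℚ) : ℂ :=
  (∑ c, kk c / e ((nI (R.b c) : ℕ) : OO A B) * PhiI (R.b c * P ^ i) e x y) / R.om R.i0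

/-! ## Inputs from other blocks -/

/-! ## Valuations and ideals -/

/-! ## The character -/

/-! ## The symbols `PP i` -/

/-! ## The character sum -/

/-- (QSX) the quantity of the final statement as a character sum. Model: `MU3/H_QS.lean` (copy and adapt).

USES `Sx_F5`, `Sx_PRD`. PROOF. `m = lvX p f n = f M`, `M = q0 p * p ^ n` (a power of `p`). `Sx_F5` for `b_i`, `L_i`, `om_i` (`nl i`; `m ∈ g` because `p f ∈ g` and `p ∣ q0 p`; `N b_i` is prime to `p f`, so to `m`): `SnXE i c = (2 f/(om_(i0) e(N b_i))) Σ_(b < M) ex(-b c/M) PhiI b_i e ∞ (b/M)`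
(`mu_i = om_i N b_i/om_(i0)`, `m/M = f`), so `Σ_i kk_i SnXE i c = 2 f Σ_b ex(-b c/M) F b`, `F b = PP_E R P e kk 0 ∞ (b/M)` (`P ^ 0 = 1`). `F` depends only on the class of `b` modulo `M`: `Sx_PRD` gives `IvI b e (r + k) = IvI b e r`. The rest as in `H_QS.lean` with `4`, `6 f`, `3 ^ (n + 1)`
replaced by `1 + q0 p`, `2 q0 p f`, `M`: both `1 + q0 p` and `a = aX p f = 1 + 2 q0 p f` are prime to `M`; the substitutions `b = u^(N-j) b'` and `b = u^(N-j) a² b'` (`u = 1 + q0 p`) in the sums `W c = Σ_b ex(-b c/M) (F b + s F (-b))`. -/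
def Sy_QSX_E : Prop :=
  ∀ (p : ℕ) (_ : p.Prime) (A B : ℤ) (_ : CQ A B) (P : Ideal (OO A B)) (f : ℕ) (_ : f ≠ 0)
    (ι : Type) (_ : Fintype ι) (R : RepsE A B (p * f) ι) (g : Ideal (OO A B)) (e : OO A B → ℂ)
    (_ : IsEI g e) (_ : ((p * f : ℕ) : OO A B) ∈ g) (kk : ι → ℂ) (s : ℤ) (N n : ℕ),
    ∑ j ∈ Finset.range (N + 1), ((-1 : ℂ) ^ (N - j) * (N.choose j : ℂ)) *
        (STXE R (lvX p f n) (q0 p * p ^ n) (aX p f) e kk ((1 + (q0 p : ℤ)) ^ j) +
          s * STXE R (lvX p f n) (q0 p * p ^ n) (aX p f) e kk (-(1 + (q0 p : ℤ)) ^ j)) =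
      2 * f * ∑ b ∈ Finset.range (q0 p * p ^ n),
        ex (-((1 + (q0 p : ℚ)) ^ N * (aX p f : ℚ) ^ 2) / ((q0 p * p ^ n : ℕ) : ℚ)) ^ b *
          comb (aX p f) (1 + (q0 p : ℤ)) N (fun b => sgnPart (s : ℂ) (PP_E R P e kk 0) ∞
            ((b / ((q0 p * p ^ n : ℕ) : ℚ) : ℚ) : OnePoint ℚ)) b

/-! ## The final statement -/

end

end Pool.Agent.MUXHY
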