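import Pool.Agent.ME.DefsE2
import Pool.Agent.MUX.StYX
import Pool.Agent.MUX.StXF
import Pool.Agent.MUX.StU
/-!
# MUX, section 9 of `PAPER_X.md`: rationality of the modular symbols of theta series of ideals (helper41)

Every statement is a `def Sy_X : Prop`. A module proves `theorem ty_X (h : ..) .. : Sy_X` in the file
`Pool/Agent/MUX/Y_X.lean`, namespace `Pool.Agent.MUXY`, where the hypotheses are the statements named under USES
(`Sy_..` of this file, `Sx_..` of `StXF.lean`, `Su_..` of `StU.lean`; fewer is fine). The statements of block B of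
MU3 are theorems in `Pool/Agent/MU3/BAll.lean` (`Pool.Agent.MU3B.b_TRA`, `b_HAL`, `b_NEQ`, `b_PER`, `b_ZER`, `b_DSC`, ..),
scaling of a lattice is `Pool.Agent.MU3A.ta_SCP` (`A_SCP.lean`).

The definitions of `TDefs.lean` (namespace `MUXF`: `CQ`, `IsLI`, `IsEI`, `nI`, `cjI`, `sp`, `PhiI`, ..) are the same as those
of `DefsX.lean` (namespace `MUX`); `nI`, `cjI`, `sp`, `PhiI` are equal by `rfl`, the structures are converted by `cqF`, `liF`,
`eiF`. The first part uses those of `MUXF`, the second part (from `SAM` on) those of `MUX`.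

`b`, `c` ideals, `L = om * emb b`, `L' = om' * emb c`, `L' = L^σ = mu a⁻¹ L`. Facts on `emb`: `Sx_ALG` (`emb` is multiplicative and
additive, `emb x = 0` only for `x = 0`, so `emb` is injective).
-/

set_option autoImplicit false

namespace Pool.Agent.MUXY

open Pool.Agent.ME

open _root_.MU3 Pool.Agent.MU3A Pool.Agent.MU3B Pool.Agent.MUXU OnePoint
open Pool.Agent.MU3F (ex)
open Pool.Agent.MUXF (Sx_ALG Sx_IDL Sx_NIM Sx_QB Sx_SMB Sx_F4 qb sumB)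

noncomputable section

/-! ## Bridges between the two copies of the definitions -/

/-! ## The function `ee` and conjugation -/

/-! ## The map `x ↦ (mu om / om') x` from `b` to `c` -/

/-! ## Conjugation of the symbol -/

/-! ## Second part: the lattices `R.L i` -/

/-- (SAM) normalised lattices of the same class are equal.

USES Sx_ALG (by `cqF`). PROOF. `s := om emb y/(emb x om')`: `z ∈ L ↔ z = om emb t, t ∈ b`. `sp x * b = sp y * b'`: for `t ∈ b` there is `t' ∈ b'` with `x t = y t'` and conversely. So `z ∈ L'` iff `s z ∈ L`: for `z = om' emb t'`, `s z = om emb y emb t'/emb x = om emb t`.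
By `Pool.Agent.MU3A.ta_SCP` (with `a = s`, from `L'` to `L`): `g₂(L) = g₂(L')/s⁴`, `g₃(L) = g₃(L')/s⁶`. `g₂ = -18 g₃` for both: `g₂(L') (s² - 1) = 0`; `g₂(L') ≠ 0` (otherwise `g₃(L') = 0`, against `b_DSC`: `g₂³ ≠ 27 g₃²`). So `s = ±1` and the lattices are equal. -/
def Sy_SAM_E : Prop :=
  ∀ A B : ℤ, ME.CaseE A B → ∀ (b b' : Ideal (OO A B)) (L L' : PeriodPair) (om om' : ℂ)
    (x y : OO A B), ME.IsNE b L om → ME.IsNE b' L' om' → x ≠ 0 → y ≠ 0 →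
    MUX.sp x * b = MUX.sp y * b' → ∀ z : ℂ, z ∈ L.lattice ↔ z ∈ L'.lattice

/-- (BRI) from `ActE` to `ActN`, and change of the target by an equal lattice.

USES Sx_ALG (by `cqF`). PROOF. `L'` and `L''` have the same lattice, so (`ta_SCP` with `a = 1`) the same `℘`, `℘'`, `g₂`, `g₃`. `cj`: `kapE L' = σ (kapE L)` gives `g₂(L') = σ (g₂ L)` (`σ` fixes rational numbers), and
`g₃ = -g₂/18` for both. `isq` of `ActE` is an `IsQ`. `act`: `m z ∈ L` gives `Tor (sp m) L z` (`emb (m t) z = emb t (m z)`, `om emb (t s)`, an element of `sp m` is `m t`); `PME` with `z ∉ L`: second case; `xnE = ℘ - 1/12`, `yy = ℘'/2`. -/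
def Sy_BRI_E : Prop :=
  ∀ A B : ℤ, ME.CaseE A B → ∀ (σ : ℂ ≃+* ℂ) (m : ℕ) (a b b' : Ideal (OO A B))
    (L L' L'' : PeriodPair) (om om' mu : ℂ), ME.IsNE b L om → ME.IsNE b' L' om' →
    ME.ActE σ (MUX.idl m) a L L' mu → (∀ z : ℂ, z ∈ L'.lattice ↔ z ∈ L''.lattice) →
    ActN σ m a L L'' mu

/-- (EXI) existence of the action for the lattices `R.L i`.

USES SAM, BRI. PROOF. `σ` fixes `wC`. `TorXE.act` for `idl m` (`≠ ⊥`: `m ≠ 0`) gives `a`, and for `L = R.L i` `b', L', om', mu` with `IsNE b' L' om'` and `ActE`. `TorXE.zeta` with `M = m`, `m = idl m` gives the action on roots of unity.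
`R.surj b'`: `j, x, y` with `sp x * b' = sp y * R.b j`: (SAM) `L'.lattice = (R.L j).lattice`, (BRI). -/
def Sy_EXI_E : Prop :=
  ∀ A B : ℤ, ME.CaseE A B → ME.TorXE A B → ∀ (n : ℕ) (ι : Type) (R : ME.RepsE A B n ι)
    (σ : ℂ ≃+* ℂ), MUX.FixK A B σ → ∀ (m : ℕ), m ≠ 0 → ∀ i : ι, ∃ (j : ι) (a : Ideal (OO A B))
    (mu : ℂ), ActN σ m a (R.L i) (R.L j) mu ∧ ∀ z : ℂ, z ^ m = 1 → σ z = z ^ MUX.nI a

/-- (UNJ) the lattice `R.L j` is determined by its invariants.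

USES Sx_ALG, Sx_IDL (by `cqF`), Su_DET. PROOF. (DET) `R.L j` and `R.L j'` have the same lattice, `om_j emb b_j = om_(j') emb b_(j')`. Take `0 ≠ t ∈ b_j`; `om_j emb t = om_(j') emb t'`, `t' ∈ b_(j')`, `t' ≠ 0`.
`sp t' * b_j = sp t * b_(j')`: for `s ∈ b_j`, `om_j emb s = om_(j') emb s'`, `s' ∈ b_(j')`, so `t' s = t s'` (multiply); and conversely. `R.inj`. -/
def Sy_UNJ_E : Prop :=
  ∀ A B : ℤ, ME.CaseE A B → ∀ (n : ℕ) (ι : Type) (R : ME.RepsE A B n ι) (j j' : ι),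
    (R.L j).g₂ = (R.L j').g₂ → (R.L j).g₃ = (R.L j').g₃ → j = j'

/-- (FIN) conjugation of `PhiI (R.b i) e / om_i` at finitely many pairs of cusps, with the value of the constant.

USES ALG, IDL, NIM (by `cqF`), RAT, EXI. PROOF. `m` = the product of all denominators of the cusps in `S` and of the norm `N(g) ∈ g` (NIM; `N(g) ≠ 0` by IDL): `m ≠ 0`, `m ∈ g`, `Dn m x` for all cusps in `S`. (EXI), then (RAT) with
`b = R.b i`, `c = R.b j` (`liF`, `eiF`, `phiF`). -/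
def Sy_FIN_E : Prop :=
  ∀ A B : ℤ, ME.CaseE A B → ME.TorXE A B → ∀ (n : ℕ) (ι : Type) (R : ME.RepsE A B n ι)
    (g : Ideal (OO A B)) (e : OO A B → ℂ), g ≠ ⊥ → g ≠ ⊤ → MUX.IsEI g e →
    (∀ i, IsCoprime (MUX.sp ((MUX.nI (R.b i) : ℕ) : OO A B)) g) →
    ∀ (σ : ℂ ≃+* ℂ), MUX.FixK A B σ → ∀ (i : ι) (S : Finset (OnePoint ℚ × OnePoint ℚ)),
    ∃ (j : ι) (C : ℂ), IsCj σ (R.L i) (R.L j) ∧ C ≠ 0 ∧
      (∃ x₁ x₂ : OO A B, e x₁ ≠ 0 ∧ e x₂ ≠ 0 ∧
        C = MUX.nI (R.b i) * σ (e x₁) / (MUX.nI (R.b j) * σ (e x₂))) ∧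
      ∀ q ∈ S, σ (MUX.PhiI (R.b i) e q.1 q.2 / R.om i) =
        C * (MUX.PhiI (R.b j) (fun x => σ (e x)) q.1 q.2 / R.om j)

/-- (CON) conjugation of the symbols, for all pairs of cusps at once. THE RESULT FOR THEOREM G.

USES FIN, UNJ. PROOF. `j₀` from (FIN) for `S = ∅`; every `j` of (FIN) is `j₀` (UNJ: `g₂`, `g₃` of `R.L j` are `σ` of those of `R.L i`). Write `P(q) = PhiI (R.b i) e q.1 q.2/om_i`, `P'(q) = PhiI (R.b j₀) (σ ∘ e) q.1 q.2/om_(j₀)`. If `P'(q) = 0` for all `q`: `P(q) = 0` for all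
`q` (FIN for `{q}`), `C = 1`. Otherwise choose `q₀` with `P'(q₀) ≠ 0` and `C = σ(P(q₀))/P'(q₀)`; for `q` apply (FIN) to `{q₀, q}`: its constant is `C` (from `q₀`; `C ≠ 0`). `σ(PhiI .../Om) = σ(P(q)) σ(om_i/Om)` with `Om = R.om R.i0`, and
`P'(q) = (PhiI (R.b j₀) (σ ∘ e) q.1 q.2/Om) (Om/om_(j₀))`: the constant is multiplied by `σ(om_i/Om) Om/om_(j₀) ≠ 0`. -/
def Sy_CON_E : Prop :=
  ∀ A B : ℤ, ME.CaseE A B → ME.TorXE A B → ∀ (n : ℕ) (ι : Type) (R : ME.RepsE A B n ι)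
    (g : Ideal (OO A B)) (e : OO A B → ℂ), g ≠ ⊥ → g ≠ ⊤ → MUX.IsEI g e →
    (∀ i, IsCoprime (MUX.sp ((MUX.nI (R.b i) : ℕ) : OO A B)) g) →
    ∀ (σ : ℂ ≃+* ℂ), MUX.FixK A B σ → ∀ i : ι, MUX.IsEI g (fun x => σ (e x)) ∧
    ∃ (j : ι) (C : ℂ), ME.kapE (R.L j) = σ (ME.kapE (R.L i)) ∧ C ≠ 0 ∧
      ∀ x y : OnePoint ℚ, σ (MUX.PhiI (R.b i) e x y / R.om R.i0) =
        C * (MUX.PhiI (R.b j) (fun x => σ (e x)) x y / R.om R.i0)

/-! ## Algebraicity -/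

/-- (MUI) the multiplier of `L_(i0) → L_i`, `b_i = R.b i`: `L_i = mu_i (cjI b_i)⁻¹ L_(i0)`, `mu_i = om_i N(b_i)/om_(i0) = ME.muXE R i`.

USES ALG, IDL, NIM (by `cqF`). PROOF. `L_(i0) = Om emb O`. `z = Om t`: `mu_i z = om_i N(b_i) t`. If `mu_i z ∈ L_i`, then `N(b_i) t = emb s`, `s ∈ b_i`; for `x ∈ cjI b_i`: `emb (x s) = N(b_i) emb r` (`b_i cjI b_i = (N b_i)`), so `emb x t = emb r`. Conversely
let `emb x t ∈ emb O` for all `x ∈ cjI b_i`. `N(b_i) = Σ s_k x_k`, `s_k ∈ b_i`, `x_k ∈ cjI b_i`, so `N(b_i) t = Σ emb s_k (emb x_k t) ∈ emb b_i` (induction over `Submodule.mul_induction_on`: for `r ∈ b_i cjI b_i`, `emb r t ∈ emb b_i`). -/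
def Sy_MUI_E : Prop :=
  ∀ A B : ℤ, MUX.CQ A B → ∀ (n : ℕ) (ι : Type) (R : ME.RepsE A B n ι) (i : ι),
    MUX.IsQ (MUX.cjI (R.b i)) (R.L R.i0) (R.L i) (ME.muXE R i)

/-- (ALM) the multipliers are algebraic.

USES ALG, IDL (by `cqF`), EXI (with `m = 1`: `IsCj`), MUC, MUU, MUI, Su_AUT (with `F = kk A B`, `emb`.. : `kk A B = ℚ(wC)` is algebraic over `ℚ`: `wC² = A + B wC`). PROOF. For `σ` fixing `k`: `IsCj σ (R.L R.i0) (R.L l)`, `IsCj σ (R.L i) (R.L j)` for some `l, j` (EXI), so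
by (MUI), (MUC) `σ (mu_i)` is a multiplier `IsQ (cjI b_i) (R.L l) (R.L j)`; for every pair `(l, j)` it has at most two values (MUU): `ι` is finite, so the orbit of `mu_i` is finite and `mu_i` is algebraic (AUT). -/
def Sy_ALM_E : Prop :=
  ∀ A B : ℤ, ME.CaseE A B → ME.TorXE A B → ∀ (n : ℕ) (ι : Type) (_ : Finite ι)
    (R : ME.RepsE A B n ι) (i : ι),
    IsAlgebraic ℚ (ME.muXE R i) ∧ IsAlgebraic ℚ (R.om i / R.om R.i0)

/-- (ALP) the values of the symbols are algebraic. THE SECOND RESULT.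

USES FIN, FEC, ALM, Su_AUT. PROOF. `P = PhiI (R.b i) e x y/om_i`. By (FIN) for `S = {(x, y)}` every conjugate `σ P`, `σ` fixing `k`, is `(N(b_i) z₁/(N(b_j) z₂)) (PhiI (R.b j) e' x y/om_j)`, `j ∈ ι` (finite), `e'`, `z₁`, `z₂` in the finite sets of (FEC): the orbit is finite, `P` is algebraic
(AUT with `F = kk A B`; `σ` fixes `kk A B` iff it fixes `wC`). Multiply by `om_i/Om` (ALM). -/
def Sy_ALP_E : Prop :=
  ∀ A B : ℤ, ME.CaseE A B → ME.TorXE A B → ∀ (n : ℕ) (ι : Type) (_ : Finite ι)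
    (R : ME.RepsE A B n ι) (g : Ideal (OO A B)) (e : OO A B → ℂ), g ≠ ⊥ → g ≠ ⊤ →
    MUX.IsEI g e → (∀ i, IsCoprime (MUX.sp ((MUX.nI (R.b i) : ℕ) : OO A B)) g) →
    ∀ r : ℕ, r ≠ 0 → (∀ x, e x ≠ 0 → e x ^ r = 1) → ∀ (i : ι) (x y : OnePoint ℚ),
    IsAlgebraic ℚ (MUX.PhiI (R.b i) e x y / R.om i) ∧
      IsAlgebraic ℚ (MUX.PhiI (R.b i) e x y / R.om R.i0)

/-- (COP) the norms of the `b_i` are prime to the conductor, from `R : RepsE A B n ι`.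

PROOF. `nI (R.b i)` is prime to `n`, so to `n^t`: `u nI + v n^t = 1` in `ℤ`, and `n^t ∈ g`. -/
def Sy_COP_E : Prop :=
  ∀ (A B : ℤ) (n : ℕ) (ι : Type) (R : ME.RepsE A B n ι) (g : Ideal (OO A B)) (t : ℕ),
    ((n : ℕ) : OO A B) ^ t ∈ g → ∀ i, IsCoprime (MUX.sp ((MUX.nI (R.b i) : ℕ) : OO A B)) g

end

end Pool.Agent.MUXY
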