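import Pool.Agent.ME.DefsE2
import Pool.Agent.MUX.StIX
import Pool.Agent.MUX.StXE2
import Pool.Agent.ME.X.StHX2
import Pool.Agent.ME.X.StYX
import Pool.Agent.MUX.StKX
import Pool.Agent.MU3.StI2
/-!
# MUX, block IX (helper36): from blocks E and H to the input (I3) of block K, `p = 2` and `p = 3` at once

`PAPER_X.md`, section 6. Every statement is a `def Si_X : Prop`; a module proves `theorem ti_X (h : Si_Y) ... : Si_X`
in the file `Pool/Agent/MUX/I_X.lean`, namespace `Pool.Agent.MUXI`; the hypotheses are the statements named under USES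
(fewer is fine). `Sx_..` in USES is `Pool.Agent.MUXF.Sx_..` (`StXF.lean`; theorems `Pool.Agent.MUXF.xf_..` in `XFAll.lean`), `Sy_..` is
`Pool.Agent.MUXY.Sy_..` (`StYX.lean`), `S_..X` is `Pool.Agent.MUXK.S_..X` (`StKX.lean`). The structures `CQ`, `IsLI` exist twice (`MUX`,
`MUXF`): conversions `Pool.Agent.MUXY.cqF`, `liF`; `nI`, `cjI` are equal by `rfl`.

`v = V.valuation`: `v x ≤ 1 ↔ x ∈ V`, `v x < 1 ↔ x ∈ V.nonunits`. Levels `m = lvX p f n = f q0 p^n`, `M = q0 p^n`, `q0 = q0 p` (3 or 4);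
`a = aX p f = 1 + 2 q0 f`; `g0 = 1 + q0` (4 or 5).

* `IA σ m a` : the automorphism `σ` of `ℂ / k` acts as the ideal `a` on level `m`; `RE m a a'` : equal ray classes.
* `AR h m τ a` : the automorphism `τ` of `D / k`, `D ≤ RF m`, is the Artin symbol of `a`.
* `XM ..` : abstract form of the sets `XX R m h τ`.
-/

set_option autoImplicit false

namespace Pool.Agent.MUXI

open _root_.MU3 Pool.Agent.MU3 Pool.Agent.MU3A Pool.Agent.MU3B Pool.Agent.RI Pool.Agent.RID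
  Pool.Agent.MUX Pool.Agent.ME Pool.Agent.MUXE Pool.Agent.MUXK
open Pool.Agent.MU3I (w3 zt)

noncomputable section

/-! ## Definitions -/

/-- the automorphism `σ` of `ℂ`, trivial on `k`, acts as the ideal `a` on level `m` -/
structure IA_E {A B : ℤ} (σ : ℂ ≃+* ℂ) (m a : Ideal (OO A B)) : Prop where
  fix : FixK A B σ
  cop : IsCoprime a m
  act : ∀ (b : Ideal (OO A B)) (L : PeriodPair) (om : ℂ), IsNE b L om →
    ∃ (b' : Ideal (OO A B)) (L' : PeriodPair) (om' mu : ℂ), IsNE b' L' om' ∧ ActE σ m a L L' mu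

/-- the automorphism `τ` of `D / k` is the Artin symbol of `a` (level `m`) -/
def AR_E {A B : ℤ} {D : IntermediateField ℚ ℂ} (h : kk A B ≤ D) (m : Ideal (OO A B))
    (τ : letI := algC h; D ≃ₐ[kk A B] D) (a : Ideal (OO A B)) : Prop :=
  ∃ σ : ℂ ≃+* ℂ, IA_E σ m a ∧ ExtC h τ σ

/-- the sets `X τ` of pairs `(i, x)` of level `lvX p f n`, abstractly: `Δ` is the group of the automorphisms
trivial on the layer, `γ` acts on the layer as `1 + q0` -/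
structure XM_E {A B : ℤ} {n₀ : ℕ} {ι : Type} (R : RepsE A B n₀ ι) (p f n : ℕ) {G : Type} [Group G]
    (γ : G) (Δ : Subgroup G)
    (X : G → Set (ι × (OO A B ⧸ idl (A := A) (B := B) (lvX p f n)))) : Prop where
  comm : ∀ σ τ : G, σ * τ = τ * σ
  cop : ∀ τ, ∀ q ∈ X τ, IsCoprime (Quotient.out q.2 : OO A B) ((lvX p f n : ℕ) : OO A B)
  two : ∀ τ, ∀ q ∈ X τ, (Quotient.out q.2 : OO A B) - 1 ∈ idl (A := A) (B := B) 2
  ex : ∀ q : ι × (OO A B ⧸ idl (A := A) (B := B) (lvX p f n)),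
    IsCoprime (Quotient.out q.2 : OO A B) ((lvX p f n : ℕ) : OO A B) →
    (Quotient.out q.2 : OO A B) - 1 ∈ idl (A := A) (B := B) 2 → ∃ τ, q ∈ X τ
  uniq : ∀ q τ τ', q ∈ X τ → q ∈ X τ' → τ = τ'
  nrm : ∀ q τ, q ∈ X τ → ∀ j : ℕ, (τ * (γ ^ j)⁻¹ ∈ Δ ↔
    ((q0 p * p ^ n : ℕ) : ℤ) ∣ nm (Quotient.out q.2) * nI (R.b q.1) - (1 + (q0 p : ℤ)) ^ j ∨
    ((q0 p * p ^ n : ℕ) : ℤ) ∣ nm (Quotient.out q.2) * nI (R.b q.1) + (1 + (q0 p : ℤ)) ^ j)

/-! ## Valuations and characters -/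

/-! ## The action of automorphisms of `ℂ` through ideals -/

/-- (IAF) facts on `IA_E`, first part.

USES Su_DET. PROOF. (1), (2): `act`, `surj` of `TorXE`. (3) `comp`, `FixK`; the product of two ideals prime to `m` is prime to `m`. (4) For the given normalised lattice `L`: `ActE σ m a L L₁ mu`, `ActE σ m a' L L₂ mu'`; `kapE L₁ = σ (kapE L) = kapE L₂`, so `g₂` is the same (`kapE L = (12 g₂ - 1)/1728`) and `g₃ = -g₂/18`
too: `L₁.lattice = L₂.lattice` (DET), so `℘`, `℘'` are the same functions (`Pool.Agent.MU3A.ta_SCP` with factor 1, or by definition) and `ActE σ m a' L L₁ mu'` (all of `kapE`, `IsQ`, `PME` depend only on the lattice). `uniq`. (5) `chg` for every `L`. (6) `triv`. (7) `Tor m' L z` implies `Tor m L z`; `IsCoprime a m'` from `m ≤ m'`.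
(8) `zeta`. -/
def Si_IAF_E : Prop :=
  ∀ (A B : ℤ), CQ A B → TorXE A B →
    (∃ (b : Ideal (OO A B)) (L : PeriodPair) (om : ℂ), IsNE b L om) →
    ∀ m : Ideal (OO A B), m ≠ ⊥ →
    (∀ σ : ℂ ≃+* ℂ, FixK A B σ → ∃ a, IA_E σ m a) ∧
    (∀ a, a ≠ ⊥ → IsCoprime a m → ∃ σ, IA_E σ m a) ∧
    (∀ σ τ a b, IA_E σ m a → IA_E τ m b → IA_E (σ.trans τ) m (a * b)) ∧
    (∀ σ a a', IA_E σ m a → IA_E σ m a' → RE m a a') ∧
    (∀ σ a a', IA_E σ m a → IsCoprime a' m → RE m a a' → IA_E σ m a') ∧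
    (m ≤ idl 2 ∨ m = ⊤ →
      ∀ σ a, IA_E σ m a → ((∀ y ∈ RFE m, σ y = y) ↔ ∃ c : OO A B, c - 1 ∈ m ∧ a = sp c)) ∧
    (∀ σ a m', m ≤ m' → IA_E σ m a → IA_E σ m' a) ∧
    (∀ (M : ℕ) σ a z, M ≠ 0 → m ≤ idl M → IA_E σ m a → z ^ M = 1 → z ∈ RFE m ∧ σ z = z ^ nI a)

/-- (IAG) facts on `IA_E`, second part.

USES IAF, Sx_ALG. PROOF. (1) `RingEquiv.refl`: it has some ideal `a` (IAF 1), is trivial on `RFE m`, so `a = sp c`, `c - 1 ∈ m` (IAF 6); `RE m (sp c) ⊤` with `x = 1`, `y = c` if `c ≠ 0`.. (`sp 1 * sp c = sp c * ⊤`); `c = 0` only if `1 ∈ m`: then take `x = y = 1` and note that `a = ⊥`; to avoid this case use that `IsQ a L L' mu` is impossible for `a = ⊥`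
(`mu z ∈ L'` for all `z`; a lattice is not `ℂ`). So `a ≠ ⊥` always. (IAF 5). (2) `σ.symm` has some ideal `b` (IAF 1), `σ.trans σ.symm = refl` has the ideal `a b` (IAF 3), so `a b = sp c` (IAF 6). (3) `→`: `b` for `σ'` as in (2): `a' b = sp c'`, `σ.trans σ'.symm` has the ideal `a b` (IAF 3), `RE m (a b) (a' b)` (multiply), so by (IAF 5) it has
the ideal `sp c'` (prime to `m` as `c' - 1 ∈ m`), so it is trivial on `RFE m` (IAF 6): `σ'.symm (σ y) = y`. `←`: `σ.trans σ'.symm` is trivial on `RFE m`: `a b = sp c`, `a' b = sp c'`: `sp c' * a = a a' b = sp c * a'`, `c' - c ∈ m`, `c, c' ≠ 0` (as in (1); `a b ≠ ⊥`). -/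
def Si_IAG_E : Prop :=
  ∀ (A B : ℤ), CQ A B → TorXE A B →
    (∃ (b : Ideal (OO A B)) (L : PeriodPair) (om : ℂ), IsNE b L om) →
    ∀ m : Ideal (OO A B), m ≠ ⊥ → m ≤ idl 2 ∨ m = ⊤ →
    IA_E (RingEquiv.refl ℂ) m ⊤ ∧
    (∀ σ a, IA_E σ m a → a ≠ ⊥ ∧ ∃ b c, IA_E σ.symm m b ∧ c - 1 ∈ m ∧ a * b = sp c) ∧
    (∀ σ σ' a a', IA_E σ m a → IA_E σ' m a' → (RE m a a' ↔ ∀ y ∈ RFE m, σ y = σ' y))

/-- (RPR) every ray class contains an ideal `x cjI (b i)`.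

USES Sx_ALG, Sx_IDL, Sx_NIM. PROOF. (1) `sp x` is prime to `idl m`, and `cjI (b i)` contains `nI (b i)` (NIM), which is prime to `m`. (2) `R.surj (cjI a)`: `sp u * cjI a = sp v * b i`, conjugate: `sp ū * a = sp v̄ * cjI (b i)`. Multiply by `b i`: `sp ū * (a b_i) = sp (v̄ N)`, `N = nI (b i)` (IDL), so `v̄ N ∈ sp ū`, `v̄ N = ū y`, `a b_i = sp y`, and
`sp N * a = a b_i cjI b_i = sp y * cjI (b i)`. `y` is prime to `m`: `a` and `b_i` are (ideals prime to `idl m`; `nI (b i) ∈ b i`). Let `N' N ≡ 1` modulo `m` (integers, `N' > 0`), `x = N' y`: `sp (N' N) * a = sp x * cjI (b i)`, so `RE (idl m) a (sp x * cjI (b i))` with the elements `N' N` and `1`. -/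
def Si_RPR_E : Prop :=
  ∀ (A B : ℤ), CQ A B → ∀ (n₀ : ℕ) (ι : Type) (R : RepsE A B n₀ ι) (m : ℕ), m ≠ 0 →
    (∀ i, (nI (R.b i)).Coprime m) →
    (∀ i, ∀ x : OO A B, IsCoprime x (m : OO A B) →
      IsCoprime (sp x * cjI (R.b i)) (idl (A := A) (B := B) m)) ∧
    ∀ a : Ideal (OO A B), a ≠ ⊥ → IsCoprime a (idl (A := A) (B := B) m) →
      ∃ (i : ι) (x : OO A B), IsCoprime x (m : OO A B) ∧ RE (idl m) a (sp x * cjI (R.b i))

/-- (HIT) `σ` hits the pair `(i, x)` iff it acts as the ideal `x cjI (b i)`.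

USES IAF, IAG, RPR, Sy_MUU, Sy_MUI, Sy_UNJ, Sx_ALG, Sx_IDL, Sx_NIM, Su_DET. PROOF. `L₀ = R.L R.i0` (lattice `om_0 emb O`, `R.b0`), `z₀ = ptE R m R.i0 1 = om_0/m ∉ L₀` (`m ≥ 2`; `nI ⊤ = 1`), `Tor (idl m) L₀ z₀`. (`←`) `ActE σ (idl m) a L₀ L' mu`, `a = sp x * cjI (b i)`, `L'` normalised. MUI: `IsQ (cjI b_i) L₀ L_i mu_i`, so
`IsQ a L₀ L_i (emb x mu_i)` (`emb x mu_i z ∈ L_i` iff `emb y (emb x z) ∈ L₀` for `y ∈ cjI b_i`; the elements of `sp x * cjI b_i` are the `x y`). So `s L' = L_i`, `s = emb x mu_i/mu`; both normalised, so `s² = 1` as in `Sy_MUU` (`Pool.Agent.MU3A.ta_SCP`), `L'.lattice = L_i.lattice` and `emb x mu_i = ± mu`. `kapE L_i = kapE L' = σ(kapE L₀)`. `act` at `z₀`: `z₀ ∉ L₀`, so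
`mu z₀ ∉ L'`, `σ (xnE L₀ z₀) = xnE L' (mu z₀) = xnE L_i (emb x mu_i z₀)` (`xnE` is even), and `emb x mu_i z₀ = om_i N(b_i) emb x/m = ptE R m i x`. (`→`) `σ` has an ideal `a` (IAF 1), so by RPR, IAF 5 the ideal `sp x' * cjI (b j)`, `x'` prime to `m`. By (`←`) `σ` hits `(j, x')`. `kapE L_i = kapE L_j`: `i = j` (UNJ). `xnE L_i (ptE i x) = xnE L_i (ptE i x')`, so
`ptE i x ∓ ptE i x' ∈ L_i` (`b_NEQ` of MU3), `N(b_i) (x ∓ x')/m ∈ b_i`, so `m ∣ N(b_i) (x ∓ x')`, `m ∣ x ∓ x'` (`N(b_i)` prime to `m`). `RE (idl m) (sp x' * c) (sp x * c)`, `c = cjI (b i)`, with the elements `x` and `± x'` (congruent modulo `m`, prime to `m`, not `0` as `m ≥ 2`; `sp (-x') = sp x'`). IAF 5. -/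
def Si_HIT_E : Prop :=
  ∀ (A B : ℤ), CaseE A B → TorXE A B → ∀ (n₀ : ℕ) (ι : Type) (R : RepsE A B n₀ ι) (m : ℕ), m ≠ 0 →
    2 ∣ m → ∀ (σ : ℂ ≃+* ℂ), FixK A B σ → ∀ (i : ι) (x : OO A B),
    IsCoprime x (m : OO A B) → (HitsE R m σ i x ↔
      x - 1 ∈ idl (A := A) (B := B) 2 ∧ IA_E σ (idl m) (sp x * cjI (R.b i)))

/-- (ARF) the Artin symbol for a field `D`, `k ≤ D ≤ RFE m`.

USES IAF, IAG. PROOF. `D / k` is normal, so every `σ` with `FixK` maps `D` to itself and has a restriction `τ ∈ Gal(D/k)`, `ExtC h τ σ` (`kk A B` is generated by `wC A B`, so `σ` is trivial on `kk A B`; Mathlib: `AlgEquiv.restrictNormal`, or `AlgHom.restrictNormal` of the embedding `D → ℂ`, its values are in `D`). (1) `refl`. (2) IAF 2. (3) `ext` of `TorXE` and IAF 1.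
(4) IAG 3: `σ`, `σ'` agree on `RFE m ⊇ D`. (5) IAF 3: `σ.trans σ'` extends `τ' * τ`; `Gal(D/k)` is commutative: it is a quotient of `Gal(RFE m/k)`; or directly: both `σ.trans σ'` and `σ'.trans σ` have the ideal `a a' = a' a`, so they agree on `D` by (4). (6) IAF 7: the same `σ`. (7) IAF 8: `z ≠ 0`, `σ (z + z⁻¹) = z^N + (z^N)⁻¹`. -/
def Si_ARF_E : Prop :=
  ∀ (A B : ℤ), CQ A B → TorXE A B →
    (∃ (b : Ideal (OO A B)) (L : PeriodPair) (om : ℂ), IsNE b L om) →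
    ∀ m : Ideal (OO A B), m ≠ ⊥ → m ≤ idl 2 → ∀ (D : IntermediateField ℚ ℂ) (h : kk A B ≤ D),
    (∀ y ∈ D, y ∈ RFE m) → letI := algC h
    ∀ _ : IsGalois (kk A B) D,
    AR_E h m 1 ⊤ ∧
    (∀ a, a ≠ ⊥ → IsCoprime a m → ∃ τ, AR_E h m τ a) ∧
    (∀ τ : D ≃ₐ[kk A B] D, ∃ a, IsCoprime a m ∧ AR_E h m τ a) ∧
    (∀ (τ τ' : D ≃ₐ[kk A B] D) a a', AR_E h m τ a → AR_E h m τ' a' → RE m a a' → τ = τ') ∧
    (∀ (τ τ' : D ≃ₐ[kk A B] D) a a', AR_E h m τ a → AR_E h m τ' a' → AR_E h m (τ * τ') (a * a')) ∧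
    (∀ (K : IntermediateField ℚ ℂ) (hK : kk A B ≤ K) (m' : Ideal (OO A B)), m ≤ m' → K ≤ D →
      letI := algC hK
      ∀ (τ : D ≃ₐ[kk A B] D) (τK : K ≃ₐ[kk A B] K) a,
      (∀ (x : K) (x' : D), (x' : ℂ) = x → ((τ x' : D) : ℂ) = (τK x : K)) →
      AR_E h m τ a → AR_E hK m' τK a) ∧
    ∀ (M : ℕ) (τ : D ≃ₐ[kk A B] D) a (z : ℂ) (y : D), M ≠ 0 → m ≤ idl M → AR_E h m τ a →
      z ^ M = 1 → (y : ℂ) = z + z⁻¹ → ((τ y : D) : ℂ) = z ^ nI a + (z ^ nI a)⁻¹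

/-- (XXF) the sets `XXE R m h τ` and the Artin symbol.

USES HIT, ARF, RPR, Sx_ALG. PROOF. Let `x' = Quotient.out (mk x)`: `x' - x ∈ idl m`, `x'` is prime to `m`. `AR_E h (idl m) τ (sp x * c) ↔ AR_E h (idl m) τ (sp x' * c)`, `c = cjI (b i)`: `RE (idl m) (sp x * c) (sp x' * c)` (elements `x'`, `x`, not `0`) and IAF 5 for the same `σ`. (1) then is HIT for `x'`. (2) `ex`: RPR (1), ARF 2; `uniq`: ARF 4
(`RE m a a` with `x = y = 1`). -/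
def Si_XXF_E : Prop :=
  ∀ (A B : ℤ), CaseE A B → TorXE A B → ∀ (n₀ : ℕ) (ι : Type) (R : RepsE A B n₀ ι) (m : ℕ), m ≠ 0 →
    2 ∣ m → ∀ (D : IntermediateField ℚ ℂ) (h : kk A B ≤ D),
    (∀ y ∈ D, y ∈ RFE (idl (A := A) (B := B) m)) → letI := algC h
    ∀ _ : IsGalois (kk A B) D,
    (∀ (τ : D ≃ₐ[kk A B] D) (i : ι) (x : OO A B), IsCoprime x (m : OO A B) →
      ((i, Ideal.Quotient.mk (idl (A := A) (B := B) m) x) ∈ XXE R m h τ ↔
        x - 1 ∈ idl (A := A) (B := B) 2 ∧ AR_E h (idl m) τ (sp x * cjI (R.b i)))) ∧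
    (∀ (τ : D ≃ₐ[kk A B] D), ∀ q ∈ XXE R m h τ,
      (Quotient.out q.2 : OO A B) - 1 ∈ idl (A := A) (B := B) 2) ∧
    ∀ q : ι × (OO A B ⧸ idl (A := A) (B := B) m),
      IsCoprime (Quotient.out q.2 : OO A B) (m : OO A B) →
      ((Quotient.out q.2 : OO A B) - 1 ∈ idl (A := A) (B := B) 2 → ∃ τ, q ∈ XXE R m h τ) ∧
      ∀ τ τ', q ∈ XXE R m h τ → q ∈ XXE R m h τ' → τ = τ'

/-! ## The fields -/

/-! ## The sums -/

/-- (PTP) periodicity of the points `ptE R m i x`.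

USES Sx_ALG, `b_PER` (block B of MU3: `ee` is odd and periodic). PROOF. `x - y = m z`: `ptE R m i x - ptE R m i y = om_i nI(b_i) emb z`, and `nI (b i) ∈ b i` (`Nat.card (O/b) • 1 = 0`, or Sx_NIM), so it is in `R.L i` (`R.nl i`, `IsLI.mem`). -/
def Si_PTP_E : Prop :=
  ∀ (A B : ℤ), CQ A B → ∀ (n₀ : ℕ) (ι : Type) (R : RepsE A B n₀ ι) (m : ℕ), m ≠ 0 → ∀ i : ι,
    (∀ x y : OO A B, x - y ∈ idl (A := A) (B := B) m →
      ptE R m i x - ptE R m i y ∈ (R.L i).lattice ∧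
      ee (R.L i) (ptE R m i x) = ee (R.L i) (ptE R m i y) ∧
      ∀ a : ℕ, dlX (R.L i) a (ptE R m i x) = dlX (R.L i) a (ptE R m i y)) ∧
    ∀ (a : ℕ) (x : OO A B), (a : ℂ) * ptE R m i x = ptE R m i (a * x)

/-! ## The result -/

end

end Pool.Agent.MUXI
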