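import Pool.Agent.ME.DefsE2
import Pool.Agent.ME.Lib
import Pool.Agent.MUX.I_HIT
import Pool.Agent.ME.X.StIX
/-!
# MUX, block IX, module HIT (helper28): `σ` hits the pair `(i, x)` iff it acts as the ideal `x cjI (b i)`
-/

set_option autoImplicit false

namespace Pool.Agent.MUXI

open _root_.MU3 Pool.Agent.MU3 Pool.Agent.MU3A Pool.Agent.MU3B Pool.Agent.RI Pool.Agent.RID
  Pool.Agent.MUX Pool.Agent.ME Pool.Agent.MUXE Pool.Agent.MUXK
open Pool.Agent.MU3I (w3 zt)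

noncomputable section

namespace Hit

/-- equal lattices have the same functions -/
lemma same_E (L L' : PeriodPair) (h : ∀ z : ℂ, z ∈ L.lattice ↔ z ∈ L'.lattice) (z : ℂ) :
    xnE L' z = xnE L z := by
  have hs := ta_SCP L L' 1 one_ne_zero (fun u => by rw [one_mul]; exact h u)
  unfold xnE
  simpa using hs.1 z

/-- there is only one class -/
lemma one_E {A B : ℤ} (hE : CaseE A B) (h6 : Pool.Agent.MUXY.Sy_UNJ_E) {n₀ : ℕ} {ι : Type}
    (R : RepsE A B n₀ ι) (i : ι) : i = R.i0 :=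
  h6 A B hE n₀ ι R i R.i0 ((R.nl i).nrm.g2_eq (R.nl R.i0).nrm) ((R.nl i).nrm.g3_eq (R.nl R.i0).nrm)

lemma bt_E {A B : ℤ} (hE : CaseE A B) (h6 : Pool.Agent.MUXY.Sy_UNJ_E) {n₀ : ℕ} {ι : Type}
    (R : RepsE A B n₀ ι) (i : ι) : R.b i = ⊤ := by
  rw [one_E hE h6 R i, R.b0]

lemma nb_E {A B : ℤ} (hE : CaseE A B) (h6 : Pool.Agent.MUXY.Sy_UNJ_E) {n₀ : ℕ} {ι : Type}
    (R : RepsE A B n₀ ι) (i : ι) : nI (R.b i) = 1 := by
  rw [bt_E hE h6 R i]
  change Nat.card (OO A B ⧸ (⊤ : Ideal (OO A B))) = 1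
  have : Subsingleton (OO A B ⧸ (⊤ : Ideal (OO A B))) :=
    Ideal.Quotient.subsingleton_iff.2 rfl
  exact Nat.card_unique

lemma cj_E {A B : ℤ} (hE : CaseE A B) (h6 : Pool.Agent.MUXY.Sy_UNJ_E) {n₀ : ℕ} {ι : Type}
    (R : RepsE A B n₀ ι) (i : ι) : cjI (R.b i) = ⊤ := by
  rw [bt_E hE h6 R i]
  unfold cjI
  exact Ideal.comap_top

/-- a point of level `m` in the lattice -/
lemma pt_mem_E {A B : ℤ} (hc : CQ A B) (hALG : Pool.Agent.MUXF.Sx_ALG) {n₀ : ℕ} {ι : Type}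
    (R : RepsE A B n₀ ι) (m : ℕ) (hm : m ≠ 0) (i : ι) (hcop : (nI (R.b i)).Coprime m)
    (y : OO A B) (h : ptE R m i y ∈ (R.L i).lattice) : y ∈ idl (A := A) (B := B) m := by
  obtain ⟨hmul, hz, hint, -, -⟩ := hALG A B (Pool.Agent.MUXY.cqF hc)
  have hem : ∀ x y : OO A B, emb (x * y) = emb x * emb y := fun x y => (hmul x y).1
  have heZ : ∀ k : ℤ, emb ((k : ℤ) : OO A B) = (k : ℂ) := fun k => (hint k).1
  have heN : ∀ k : ℕ, emb ((k : ℕ) : OO A B) = (k : ℂ) := fun k => by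
    have := heZ (k : ℤ)
    rwa [Int.cast_natCast, Int.cast_natCast] at this
  have hes : ∀ x y : OO A B, emb x = emb y → x = y := by
    intro x y hxy
    have h1 : emb ((x - y) + y) = emb (x - y) + emb y := (hmul (x - y) y).2.1
    rw [sub_add_cancel, hxy] at h1
    have h2 : emb (x - y) = 0 := by linear_combination -h1
    exact sub_eq_zero.1 ((hz _).1.1 h2)
  have hmC : (m : ℂ) ≠ 0 := by exact_mod_cast hm
  have hom : R.om i ≠ 0 := (R.nl i).om_ne
  obtain ⟨s, -, hs⟩ := ((R.nl i).mem _).1 h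
  have h1 : ((nI (R.b i) : ℕ) : OO A B) * y = (m : ℕ) * s := by
    apply hes
    rw [hem, hem, heN, heN]
    unfold ptE at hs
    field_simp at hs
    linear_combination hs
  obtain ⟨u, v, huv⟩ := Nat.isCoprime_iff_coprime.2 hcop
  have h2 : (u : OO A B) * ((nI (R.b i) : ℕ) : OO A B) + (v : OO A B) * (m : ℕ) = 1 := by
    have := congrArg (fun k : ℤ => (k : OO A B)) huv
    push_cast at this
    exact this
  refine Ideal.mem_span_singleton.2 ⟨(u : OO A B) * s + (v : OO A B) * y, ?_⟩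
  linear_combination (-y) * h2 + (u : OO A B) * h1

lemma idl_bot {A B : ℤ} {m : ℕ} (hm : m ≠ 0) : idl (A := A) (B := B) m ≠ ⊥ := by
  intro h
  have h4 : ((m : ℕ) : OO A B) = 0 := by
    have : ((m : ℕ) : OO A B) ∈ (idl (A := A) (B := B) m) := Ideal.mem_span_singleton_self _
    rw [h] at this
    exact this
  have h5 := congrArg QuadraticAlgebra.re h4
  simp at h5
  omega

lemma idl_le {A B : ℤ} {m : ℕ} (h2 : 2 ∣ m) :
    idl (A := A) (B := B) m ≤ idl (A := A) (B := B) 2 := by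
  obtain ⟨k, rfl⟩ := h2
  refine Ideal.span_singleton_le_span_singleton.2 ⟨(k : OO A B), ?_⟩
  push_cast
  rfl

/-- from the ideal to the point -/
lemma hit_of_E {A B : ℤ} (hE : CaseE A B) (hT : TorXE A B) (hALG : Pool.Agent.MUXF.Sx_ALG)
    (h6 : Pool.Agent.MUXY.Sy_UNJ_E) {n₀ : ℕ} {ι : Type}
    (R : RepsE A B n₀ ι) (m : ℕ) (hm0 : m ≠ 0) (h2 : 2 ∣ m)
    (σ : ℂ ≃+* ℂ) (i : ι) (x : OO A B) (hx2 : x - 1 ∈ idl (A := A) (B := B) 2)
    (hIA : IA_E σ (idl m) (sp x * cjI (R.b i))) : HitsE R m σ i x := by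
  have hc := hE.toCQ
  have hm : 2 ≤ m := Nat.le_of_dvd (Nat.pos_of_ne_zero hm0) h2
  obtain ⟨hmul, hz, hint, -, -⟩ := hALG A B (Pool.Agent.MUXY.cqF hc)
  have hem : ∀ x y : OO A B, emb (x * y) = emb x * emb y := fun x y => (hmul x y).1
  have heZ : ∀ k : ℤ, emb ((k : ℤ) : OO A B) = (k : ℂ) := fun k => (hint k).1
  have heN : ∀ k : ℕ, emb ((k : ℕ) : OO A B) = (k : ℂ) := fun k => by
    have := heZ (k : ℤ)
    rwa [Int.cast_natCast, Int.cast_natCast] at this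
  have he1 : emb (1 : OO A B) = 1 := by
    have := heN 1
    rwa [Nat.cast_one, Nat.cast_one] at this
  have hmC : (m : ℂ) ≠ 0 := by exact_mod_cast hm0
  have hi := one_E hE h6 R i
  subst hi
  obtain ⟨b', L', om', mu, hnl', hact⟩ := hIA.act _ _ _ (R.nl R.i0)
  obtain ⟨c, hmu, hac, hc2⟩ := hT.two (idl m) _ σ _ _ L' _ mu (idl_bot hm0) (idl_le h2) hIA.fix
    (R.nl R.i0) hact hnl'.nrm
  haveI := isDomain hc
  rw [cj_E hE h6, Ideal.mul_top] at hac
  obtain ⟨u, hu⟩ := Ideal.span_singleton_eq_span_singleton.1 hac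
  have hu2 : ((u : OO A B) - 1) ∈ idl (A := A) (B := B) 2 := by
    have h3 : (u : OO A B) - 1 = (c - 1) - (u : OO A B) * (x - 1) := by
      rw [← hu]
      ring
    rw [h3]
    exact sub_mem hc2 (Ideal.mul_mem_left _ _ hx2)
  have hlat : ∀ z : ℂ, z ∈ L'.lattice ↔ z ∈ (R.L R.i0).lattice := hnl'.nrm.lat (R.nl R.i0).nrm
  have hxn := same_E L' (R.L R.i0) hlat
  have hN0 : nI (R.b R.i0) = 1 := nb_E hE h6 R R.i0
  have hom0 : R.om R.i0 ≠ 0 := (R.nl R.i0).om_ne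
  have hz0 : ptE R m R.i0 1 = R.om R.i0 / m := by
    unfold ptE
    rw [hN0, he1]
    simp
  have hTor : Tor (idl (A := A) (B := B) m) (R.L R.i0) (ptE R m R.i0 1) := by
    intro y hy
    obtain ⟨t, rfl⟩ := Ideal.mem_span_singleton.1 hy
    refine ((R.nl R.i0).mem _).2 ⟨t, by rw [R.b0]; trivial, ?_⟩
    rw [hem, heN, hz0]
    field_simp
  have hz0L : ptE R m R.i0 1 ∉ (R.L R.i0).lattice := by
    intro h
    have h1 := pt_mem_E hc hALG R m hm0 R.i0 (by rw [hN0]; exact Nat.coprime_one_left m) 1 h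
    obtain ⟨t, ht⟩ := Ideal.mem_span_singleton.1 h1
    exact not_unit m hm t ht
  have hpt : emb x * ptE R m R.i0 1 = ptE R m R.i0 x := by
    rw [hz0]
    unfold ptE
    rw [hN0]
    push_cast
    ring
  have hk : kapE (R.L R.i0) = σ (kapE (R.L R.i0)) := (R.nl R.i0).nrm.kapc (R.nl R.i0).nrm σ
  rcases hact.act _ hTor with ⟨h1, -⟩ | ⟨-, h2, h3, -⟩
  · exact absurd h1 hz0L
  · rcases unit_two hE u.isUnit hu2 with e | e
    · have e1 : ptE R m R.i0 x = mu * ptE R m R.i0 1 := by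
        rw [← hpt, hmu, ← hu, e, mul_one]
      refine ⟨hk, ?_, ?_⟩
      · rw [h3, hxn, e1]
      · rw [e1, ← hlat]
        exact h2
    · have e1 : ptE R m R.i0 x = -(mu * ptE R m R.i0 1) := by
        rw [← hpt, hmu, ← hu, e, mul_neg, mul_one]
        have e2 : emb (-x) = -emb x := emb_neg hc x
        rw [e2]
        ring
      refine ⟨hk, ?_, ?_⟩
      · rw [h3, hxn, e1]
        unfold xnE
        rw [PeriodPair.weierstrassP_neg]
      · rw [e1, ← hlat, neg_mem_iff]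
        exact h2

end Hit

open Hit in
/-- (HIT) `σ` hits the pair `(i, x)` iff it acts as the ideal `x cjI (b i)` and `x ≡ 1` modulo `2`. -/
theorem ti_HIT_E (h1 : Si_IAF_E) (h2 : Si_IAG_E) (h3 : Si_RPR_E)
    (h6 : Pool.Agent.MUXY.Sy_UNJ_E) (h7 : Pool.Agent.MUXF.Sx_ALG) : Si_HIT_E := by
  intro A B hE hT n₀ ι R m hm0 hm2 σ hfix i x hx
  refine ⟨fun hh => ?_, fun h => hit_of_E hE hT h7 h6 R m hm0 hm2 σ i x h.1 h.2⟩
  have hc := hE.toCQ
  have hm : 2 ≤ m := Nat.le_of_dvd (Nat.pos_of_ne_zero hm0) hm2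
  obtain ⟨hmul, hz, hint, -, -⟩ := h7 A B (Pool.Agent.MUXY.cqF hc)
  have hmb := idl_bot (A := A) (B := B) hm0
  have hle := idl_le (A := A) (B := B) hm2
  have hcop : ∀ i, (nI (R.b i)).Coprime m := fun i => by
    rw [nb_E hE h6]
    exact Nat.coprime_one_left m
  have hex : ∃ (b : Ideal (OO A B)) (L : PeriodPair) (om : ℂ), IsNE b L om :=
    ⟨_, _, _, R.nl R.i0⟩
  obtain ⟨i1, -, -, -, i5, -⟩ := h1 A B hc hT hex _ hmb
  obtain ⟨-, j2, -⟩ := h2 A B hc hT hex _ hmb (Or.inl hle)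
  obtain ⟨a, ha⟩ := i1 σ hfix
  obtain ⟨p1, p2⟩ := h3 A B hc n₀ ι R m hm0 hcop
  obtain ⟨j, x'', hx'', hRE⟩ := p2 a (j2 σ a ha).1 ha.cop
  have hIA'' := i5 σ a _ ha (p1 j x'' hx'') hRE
  have h2m : ((2 : ℕ) : OO A B) ∣ ((m : ℕ) : OO A B) := by
    obtain ⟨k, rfl⟩ := hm2
    exact ⟨(k : OO A B), by push_cast; rfl⟩
  have hx2'' : IsCoprime x'' (2 : OO A B) := by
    have h5 := hx''.of_isCoprime_of_dvd_right h2m
    rwa [Nat.cast_ofNat] at h5
  obtain ⟨z, hz1, hz2⟩ := unit_ex hE hx2''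
  have hij : i = j := (one_E hE h6 R i).trans (one_E hE h6 R j).symm
  subst hij
  obtain ⟨x', rfl⟩ : ∃ x', x' = z * x'' := ⟨_, rfl⟩
  have hx' : IsCoprime (z * x'') (m : OO A B) := by
    obtain ⟨u, v, huv⟩ := hx''
    obtain ⟨z', hz'⟩ := hz1.exists_left_inv
    exact ⟨u * z', v, by linear_combination (u * x'') * hz' + huv⟩
  have hsz : sp (z * x'') = sp x'' := Ideal.span_singleton_mul_left_unit hz1 x''
  have hIA : IA_E σ (idl m) (sp (z * x'') * cjI (R.b i)) := by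
    rw [hsz]
    exact hIA''
  have hh' := hit_of_E hE hT h7 h6 R m hm0 hm2 σ i (z * x'') hz2 hIA
  have hP : (R.L i).weierstrassP (ptE R m i x) = (R.L i).weierstrassP (ptE R m i (z * x'')) := by
    have e1 := hh.2.1.symm.trans hh'.2.1
    unfold xnE at e1
    exact e1
  have hdiff : x - z * x'' ∈ idl (A := A) (B := B) m ∨ x + z * x'' ∈ idl (A := A) (B := B) m := by
    rcases b_NEQ (R.L i) _ _ hh'.2.2 hh.2.2 hP with e | e
    · left
      apply pt_mem_E hc h7 R m hm0 i (hcop i)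
      have e1 : ptE R m i (x - z * x'') = ptE R m i x - ptE R m i (z * x'') := by
        have e2 : emb ((x - z * x'') + z * x'') = emb (x - z * x'') + emb (z * x'') :=
          (hmul _ _).2.1
        rw [sub_add_cancel] at e2
        unfold ptE
        rw [e2]
        ring
      rw [e1]
      exact e
    · right
      apply pt_mem_E hc h7 R m hm0 i (hcop i)
      have e1 : ptE R m i (x + z * x'') = ptE R m i x + ptE R m i (z * x'') := by
        have e2 : emb (x + z * x'') = emb x + emb (z * x'') := (hmul _ _).2.1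
        unfold ptE
        rw [e2]
        ring
      rw [e1]
      exact e
  have h22 : (2 : OO A B) ∈ idl (A := A) (B := B) 2 := by
    have h8 : ((2 : ℕ) : OO A B) ∈ idl (A := A) (B := B) 2 := Ideal.mem_span_singleton_self _
    rwa [Nat.cast_ofNat] at h8
  have hx2 : x - 1 ∈ idl (A := A) (B := B) 2 := by
    rcases hdiff with e | e
    · have h8 := add_mem (hle e) hz2
      rwa [sub_add_sub_cancel] at h8
    · have h8 := sub_mem (sub_mem (hle e) hz2) h22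
      have h9 : x + z * x'' - (z * x'' - 1) - 2 = x - 1 := by ring
      rwa [h9] at h8
  have hx0 : x ≠ 0 := cop_ne m hm x hx
  have hx0' : z * x'' ≠ 0 := cop_ne m hm _ hx'
  have hcx : IsCoprime (sp x) (idl (A := A) (B := B) m) :=
    (Ideal.isCoprime_span_singleton_iff _ _).2 hx
  have hRE2 : RE (idl m) (sp (z * x'') * cjI (R.b i)) (sp x * cjI (R.b i)) := by
    rcases hdiff with e | e
    · exact ⟨x, z * x'', hx0, hx0', hcx, e, by rw [mul_left_comm]⟩
    · refine ⟨x, -(z * x''), hx0, neg_ne_zero.2 hx0', hcx, by rwa [sub_neg_eq_add], ?_⟩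
      have e3 : sp (-(z * x'')) = sp (z * x'') := Ideal.span_singleton_neg _
      rw [e3, mul_left_comm]
  exact ⟨hx2, i5 σ _ _ hIA (p1 i x hx) hRE2⟩

end

end Pool.Agent.MUXI
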