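import Pool.Agent.ME.DefsE2
import Pool.Agent.ME.Lib
import Pool.Agent.MUX.I_IAG
import Pool.Agent.ME.X.StIX
/-!
# MUX, block IX, module IAG (helper37): facts on `IA`, second part
-/

set_option autoImplicit false

namespace Pool.Agent.MUXI

open _root_.MU3 Pool.Agent.MU3 Pool.Agent.MU3A Pool.Agent.MU3B Pool.Agent.RI Pool.Agent.RID
  Pool.Agent.MUX Pool.Agent.ME Pool.Agent.MUXE Pool.Agent.MUXK
open Pool.Agent.MU3I (w3 zt)

noncomputable section

namespace IagX

variable {A B : ℤ}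

/-- the ideal of an automorphism is not zero -/
lemma ne_bot_E (hex : ∃ (b : Ideal (OO A B)) (L : PeriodPair) (om : ℂ), IsNE b L om)
    {m a : Ideal (OO A B)} {σ : ℂ ≃+* ℂ} (h : IA_E σ m a) : a ≠ ⊥ := by
  rintro rfl
  obtain ⟨b, L, om, hL⟩ := hex
  obtain ⟨b', L', om', mu, -, hA⟩ := h.act b L om hL
  obtain ⟨hmu, hq⟩ := hA.isq
  apply L'.ω₁_div_two_notMem_lattice
  have h1 := (hq (L'.ω₁ / 2 / mu)).2 (fun x hx => by
    have hx0 : x = 0 := hx
    rw [hx0, emb_zero', zero_mul]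
    exact zero_mem _)
  rwa [mul_div_cancel₀ _ hmu] at h1

end IagX

open IagX in
theorem ti_IAG_E (h1 : Si_IAF_E) : Si_IAG_E := by
  intro A B hcq T hex m hm hm2
  obtain ⟨I1, -, I3, I4, I5, I6', -, -⟩ := h1 A B hcq T hex m hm
  have I6 := I6' hm2
  have inv : ∀ σ a, IA_E σ m a → a ≠ ⊥ ∧ ∃ b c, IA_E σ.symm m b ∧ c - 1 ∈ m ∧ a * b = sp c := by
    intro σ a ha
    refine ⟨ne_bot_E hex ha, ?_⟩
    have hs : FixK A B σ.symm := by
      have h2 : σ (wC A B) = wC A B := ha.fix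
      show σ.symm (wC A B) = wC A B
      rw [RingEquiv.symm_apply_eq]
      exact h2.symm
    obtain ⟨b, hb⟩ := I1 σ.symm hs
    have h3 := I3 σ σ.symm a b ha hb
    obtain ⟨c, hc, hc'⟩ := (I6 _ _ h3).1 (fun y _ => by simp)
    exact ⟨b, c, hb, hc, hc'⟩
  refine ⟨?_, inv, ?_⟩
  · obtain ⟨a, ha⟩ := I1 (RingEquiv.refl ℂ) rfl
    obtain ⟨c, hc, hc'⟩ := (I6 _ _ ha).1 (fun y _ => rfl)
    have h0 := ne_bot_E hex ha
    rw [hc'] at h0
    have hc0 := ne_zero_of_sp h0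
    have hsp1 : (sp (1 : OO A B)) = ⊤ := Ideal.span_singleton_one
    refine I5 _ a ⊤ ha ?_ ⟨1, c, ?_, hc0, ?_, ?_, ?_⟩
    · rw [← Ideal.one_eq_top]
      exact isCoprime_one_left
    · intro h2
      apply hc0
      rw [← mul_one c, h2, mul_zero]
    · rw [hsp1, ← Ideal.one_eq_top]
      exact isCoprime_one_left
    · have := neg_mem hc
      rwa [neg_sub] at this
    · rw [hc', hsp1, Ideal.top_mul, Ideal.mul_top]
  · intro σ σ' a a' ha ha'
    obtain ⟨-, b, c', hb, hcm, hcb⟩ := inv σ' a' ha'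
    have h3 := I3 σ σ'.symm a b ha hb
    have h3' := I3 σ' σ'.symm a' b ha' hb
    constructor
    · rintro ⟨x, y, hx, hy, hxm, hxy, he⟩
      have h4 : RE m (a * b) (sp c') := ⟨x, y, hx, hy, hxm, hxy, by
        rw [← hcb, ← mul_assoc, ← mul_assoc, he]⟩
      have h5 := I5 _ _ _ h3 (cop_of_sub hcm) h4
      have h6 := (I6 _ _ h5).2 ⟨c', hcm, rfl⟩
      intro y hy
      have h7 := h6 y hy
      rw [RingEquiv.trans_apply, RingEquiv.symm_apply_eq] at h7
      exact h7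
    · intro hσ
      obtain ⟨c, hc, hc'⟩ := (I6 _ _ h3).1 (fun y hy => by
        rw [RingEquiv.trans_apply, RingEquiv.symm_apply_eq]
        exact hσ y hy)
      have n1 := ne_bot_E hex h3
      have n2 := ne_bot_E hex h3'
      rw [hc'] at n1
      rw [hcb] at n2
      refine ⟨c', c, ne_zero_of_sp n2, ne_zero_of_sp n1, cop_of_sub hcm, ?_, ?_⟩
      · have := sub_mem hcm hc
        rwa [sub_sub_sub_cancel_right] at this
      · rw [← hcb, ← hc', mul_comm (a * b) a', mul_comm a b, ← mul_assoc]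

end

end Pool.Agent.MUXI
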