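import Pool.Agent.ME.DefsE2
import Pool.Agent.ME.Lib
import Pool.Agent.MUX.I_PTP
import Pool.Agent.ME.X.StIX
import Pool.Agent.MU3.BAll
/-!
# MUX, block IX: module PTP, periodicity of the points `pt R m i x`
-/

set_option autoImplicit false

namespace Pool.Agent.MUXI

open _root_.MU3 Pool.Agent.MU3 Pool.Agent.MU3A Pool.Agent.MU3B Pool.Agent.RI Pool.Agent.RID
  Pool.Agent.MUX Pool.Agent.ME Pool.Agent.MUXE Pool.Agent.MUXK
open Pool.Agent.MU3I (w3 zt)

noncomputable section

private lemma ptp_nat {A B : ℤ} (a : ℕ) (x : OO A B) :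
    emb ((a : OO A B) * x) = (a : ℂ) * emb x := by
  simp only [emb, QuadraticAlgebra.re_mul, QuadraticAlgebra.im_mul,
    QuadraticAlgebra.re_natCast, QuadraticAlgebra.im_natCast]
  push_cast
  ring

private lemma ptp_sub {A B : ℤ} (x y : OO A B) : emb (x - y) = emb x - emb y := by
  simp only [emb, QuadraticAlgebra.re_sub, QuadraticAlgebra.im_sub]
  push_cast
  ring

private lemma ptp_mem {A B : ℤ} (b : Ideal (OO A B)) : ((nI b : ℕ) : OO A B) ∈ b := by
  have h1 : nI b • (1 : OO A B ⧸ b) = 0 := card_nsmul_eq_zero'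
  rw [nsmul_eq_mul, mul_one] at h1
  rw [← Ideal.Quotient.eq_zero_iff_mem, map_natCast]
  exact h1

theorem ti_PTP_E : Si_PTP_E := by
  intro A B hc n₀ ι R m hm i
  have hm' : (m : ℂ) ≠ 0 := by exact_mod_cast hm
  have key : ∀ (a : ℕ) (x : OO A B), (a : ℂ) * ptE R m i x = ptE R m i (a * x) := by
    intro a x
    unfold ptE
    rw [ptp_nat]
    ring
  have h1 : ∀ x y : OO A B, x - y ∈ idl (A := A) (B := B) m →
      ptE R m i x - ptE R m i y ∈ (R.L i).lattice := by
    intro x y hxy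
    obtain ⟨z, hz⟩ := Ideal.mem_span_singleton.1 hxy
    refine ((R.nl i).mem _).2 ⟨(nI (R.b i) : OO A B) * z,
      Ideal.mul_mem_right _ _ (ptp_mem _), ?_⟩
    have h2 : emb x - emb y = (m : ℂ) * emb z := by
      rw [← ptp_sub, hz, ptp_nat]
    unfold ptE
    rw [ptp_nat]
    have h3 : R.om i * (nI (R.b i) : ℂ) * emb x / m - R.om i * (nI (R.b i) : ℂ) * emb y / m =
        R.om i * (nI (R.b i) : ℂ) * (emb x - emb y) / m := by ring
    rw [h3, h2]
    field_simp
  have h2 : ∀ x y : OO A B, x - y ∈ idl (A := A) (B := B) m →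
      ee (R.L i) (ptE R m i x) = ee (R.L i) (ptE R m i y) := by
    intro x y hxy
    have h3 := (Pool.Agent.MU3B.b_PER (R.L i)).1 (ptE R m i y) _ (h1 x y hxy)
    rw [← h3]
    congr 1
    ring
  refine ⟨fun x y hxy => ⟨h1 x y hxy, h2 x y hxy, fun a => ?_⟩, key⟩
  have h4 : (a : OO A B) * x - (a : OO A B) * y ∈ idl (A := A) (B := B) m := by
    rw [← mul_sub]
    exact Ideal.mul_mem_left _ _ hxy
  unfold dlX
  rw [key, key, h2 _ _ h4, h2 x y hxy]

end

end Pool.Agent.MUXI
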