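import Pool.Agent.ME.DefsE2
import Pool.Agent.ME.Lib
import Pool.Agent.MUX.I_XXF
import Pool.Agent.ME.X.I_HIT
import Pool.Agent.ME.X.StIX
import Pool.Agent.MUX.XLib
/-!
# MUX, block IX, module XXF (helper65): the sets `XX R m h τ` and the Artin symbol
-/

set_option autoImplicit false

namespace Pool.Agent.MUXI

open _root_.MU3 Pool.Agent.MU3 Pool.Agent.MU3A Pool.Agent.MU3B Pool.Agent.RI Pool.Agent.RID
  Pool.Agent.MUX Pool.Agent.ME Pool.Agent.MUXE Pool.Agent.MUXK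
open Pool.Agent.MU3I (w3 zt)

noncomputable section

namespace XXF

end XXF

open XXF in
theorem ti_XXF_E (h1 : Si_HIT_E) (h2 : Si_ARF_E) (h3 : Si_RPR_E) (h4 : Si_IAF_E)
    (h6 : Pool.Agent.MUXY.Sy_UNJ_E) : Si_XXF_E := by
  intro A B hE T n₀ ι R m hm0' hm2 D h hD hG
  letI := algC h
  have hC := hE.toCQ
  have hm : 2 ≤ m := Nat.le_of_dvd (Nat.pos_of_ne_zero hm0') hm2
  have hle := Hit.idl_le (A := A) (B := B) hm2
  have hcop : ∀ i, (nI (R.b i)).Coprime m := fun i => by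
    rw [Hit.nb_E hE h6]
    exact Nat.coprime_one_left m
  have hm0 := idl_ne (A := A) (B := B) hm
  have hex : ∃ (b : Ideal (OO A B)) (L : PeriodPair) (om : ℂ), IsNE b L om :=
    ⟨_, _, _, R.nl R.i0⟩
  obtain ⟨-, -, -, -, hch, -, -, -⟩ := h4 A B hC T hex (idl m) hm0
  obtain ⟨-, hart, -, huni, -, -, -⟩ := h2 A B hC T hex (idl m) hm0 hle D h hD hG
  obtain ⟨hr, -⟩ := h3 A B hC n₀ ι R m (by omega) hcop
  have hit := h1 A B hE T n₀ ι R m hm0' hm2
  -- membership in `XXE` for the chosen representative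
  have key : ∀ (τ : D ≃ₐ[kk A B] D) (q : ι × (OO A B ⧸ idl (A := A) (B := B) m)),
      IsCoprime (Quotient.out q.2 : OO A B) (m : OO A B) →
      (q ∈ XXE R m h τ ↔ (Quotient.out q.2 : OO A B) - 1 ∈ idl (A := A) (B := B) 2 ∧
        AR_E h (idl m) τ (sp (Quotient.out q.2 : OO A B) * cjI (R.b q.1))) := by
    intro τ q hq
    constructor
    · rintro ⟨-, σ, hσ, hτ, hh⟩
      exact ⟨((hit σ hσ q.1 _ hq).1 hh).1, σ, ((hit σ hσ q.1 _ hq).1 hh).2, hτ⟩
    · rintro ⟨h5, σ, hσ, hτ⟩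
      exact ⟨hq, σ, hσ.fix, hτ, (hit σ hσ.fix q.1 _ hq).2 ⟨h5, hσ⟩⟩
  refine ⟨fun τ i x hx => ?_, fun τ q hq => ((key τ q hq.1).1 hq).1,
    fun q hq => ⟨fun hq2 => ?_, fun τ τ' hτ hτ' => ?_⟩⟩
  · set x' : OO A B := Quotient.out (Ideal.Quotient.mk (idl (A := A) (B := B) m) x) with hx'
    have e1 : Ideal.Quotient.mk (idl (A := A) (B := B) m) x' =
        Ideal.Quotient.mk (idl (A := A) (B := B) m) x := Quotient.out_eq _
    have e2 : x' - x ∈ idl (A := A) (B := B) m := Ideal.Quotient.eq.1 e1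
    have e3 : IsCoprime x' (m : OO A B) := by
      obtain ⟨y, hy⟩ := Ideal.mem_span_singleton'.1 e2
      have e4 : x' = x + y * (m : OO A B) := by rw [hy]; ring
      rw [e4]
      exact hx.add_mul_right_left y
    have e5 := re_swap hm (cjI (R.b i)) hx e3 e2
    have e6 : RE (idl m) (sp x' * cjI (R.b i)) (sp x * cjI (R.b i)) :=
      re_swap hm (cjI (R.b i)) e3 hx (by rw [← neg_sub]; exact neg_mem e2)
    have e7 : x' - 1 ∈ idl (A := A) (B := B) 2 ↔ x - 1 ∈ idl (A := A) (B := B) 2 := by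
      have e8 := hle e2
      constructor
      · intro e9
        have e10 := sub_mem e9 e8
        rwa [sub_sub_sub_cancel_left] at e10
      · intro e9
        have e10 := add_mem e8 e9
        rwa [sub_add_sub_cancel] at e10
    rw [key τ (i, Ideal.Quotient.mk (idl (A := A) (B := B) m) x) e3]
    refine and_congr e7 ?_
    constructor
    · rintro ⟨σ, hσ, hτ⟩
      exact ⟨σ, hch σ _ _ hσ (hr i x hx) e6, hτ⟩
    · rintro ⟨σ, hσ, hτ⟩
      exact ⟨σ, hch σ _ _ hσ (hr i x' e3) e5, hτ⟩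
  · have hne : sp (Quotient.out q.2 : OO A B) * cjI (R.b q.1) ≠ ⊥ := by
      refine Pool.Agent.MUX.mul_ne_bot hC ?_ (Pool.Agent.MUX.cjI_ne_bot hC (R.nl q.1).b_ne)
      rw [Ne, Ideal.span_singleton_eq_bot]
      exact not_coprime_zero hm hq
    obtain ⟨τ, hτ⟩ := hart _ hne (hr q.1 _ hq)
    exact ⟨τ, (key τ q hq).2 ⟨hq2, hτ⟩⟩
  · have a1 := ((key τ q hq).1 hτ).2
    have a2 := ((key τ' q hq).1 hτ').2
    refine huni τ τ' _ _ a1 a2 ⟨1, 1, ?_, ?_, ?_, ?_, rfl⟩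
    · exact not_coprime_zero hm isCoprime_one_left
    · exact not_coprime_zero hm isCoprime_one_left
    · exact (Ideal.isCoprime_span_singleton_iff _ _).2 isCoprime_one_left
    · rw [sub_self]; exact zero_mem _

end

end Pool.Agent.MUXI
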