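import Pool.Agent.ME.DefsE2
import Pool.Agent.ME.Lib
import Pool.Agent.MUX.Y_ALM
import Pool.Agent.ME.X.StYX
/-!
# MUX, section 9, module ALM: the multipliers are algebraic
-/

set_option autoImplicit false

namespace Pool.Agent.MUXY

open Pool.Agent.ME

open _root_.MU3 Pool.Agent.MU3A Pool.Agent.MU3B Pool.Agent.MUXU OnePoint
open Pool.Agent.MU3F (ex)
open Pool.Agent.MUXF (Sx_ALG Sx_IDL Sx_NIM Sx_QB Sx_SMB Sx_F4 qb sumB)

noncomputable section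

/-- two multipliers differ by a unit -/
lemma muu_E {A B : ℤ} (h : CaseE A B) (a : Ideal (OO A B)) (L L' : PeriodPair) (mu mu' : ℂ)
    (hL : NrmE A B L') (h1 : MUX.IsQ a L L' mu) (h2 : MUX.IsQ a L L' mu') :
    ∃ z : OO A B, IsUnit z ∧ mu' = emb z * mu := by
  obtain ⟨h0, h1⟩ := h1
  obtain ⟨h0', h1'⟩ := h2
  have hs : mu' / mu ≠ 0 := div_ne_zero h0' h0
  have key : ∀ z : ℂ, z ∈ L'.lattice ↔ mu' / mu * z ∈ L'.lattice := by
    intro z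
    have e1 : mu * (z / mu) = z := mul_div_cancel₀ z h0
    have e2 : mu' * (z / mu) = mu' / mu * z := by ring
    rw [← e2, h1', ← h1, e1]
  obtain ⟨z, hz, e⟩ := unit_scale h hL hL hs key
  exact ⟨z, hz, by rw [← e, div_mul_cancel₀ _ h0]⟩

/-- (ALM) -/
theorem ty_ALM_E (h1 : Sx_ALG) (h2 : Sx_IDL) (h3 : Sy_EXI_E) (h4 : Sy_MUC)
    (h6 : Sy_MUI_E) (h7 : Su_AUT) : Sy_ALM_E := by
  intro A B hcq hT n ι hι R i
  have key : IsAlgebraic ℚ (ME.muXE R i) := by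
    refine h7 (kk A B) (ALM.kk_alg h1 hcq) _ ?_
    have hfin : (⋃ l : ι, ⋃ j : ι, {s : ℂ | MUX.IsQ (MUX.cjI (R.b i)) (R.L l) (R.L j) s}).Finite := by
      refine Set.finite_iUnion fun l => Set.finite_iUnion fun j => ?_
      by_cases hex : ∃ s₀ : ℂ, MUX.IsQ (MUX.cjI (R.b i)) (R.L l) (R.L j) s₀
      · obtain ⟨s₀, hs₀⟩ := hex
        refine ((Set.toFinite ({1, -1, ⟨0, 1⟩, ⟨0, -1⟩, ⟨1, -1⟩, ⟨-1, 1⟩} : Set (OO A B))).image
          (fun z => emb z * s₀)).subset fun s hs => ?_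
        obtain ⟨z, hz, e⟩ := muu_E hcq (MUX.cjI (R.b i)) (R.L l) (R.L j) s₀ s (R.nl j).nrm hs₀ hs
        refine ⟨z, ?_, e.symm⟩
        rcases unit_list hcq hz with rfl | rfl | rfl | rfl | ⟨-, rfl | rfl⟩ <;> simp
      · refine Set.finite_empty.subset fun s hs => ?_
        exact absurd ⟨s, hs⟩ hex
    refine hfin.subset ?_
    rintro y ⟨σ, hσ, rfl⟩
    have hfix : MUX.FixK A B σ := ALM.fixK σ hσ
    obtain ⟨l, _, _, hl, _⟩ := h3 A B hcq hT n ι R σ hfix 1 one_ne_zero R.i0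
    obtain ⟨j, _, _, hj, _⟩ := h3 A B hcq hT n ι R σ hfix 1 one_ne_zero i
    have h8 := h4 A B hcq σ hfix (MUX.cjI (R.b i)) (R.b R.i0) (R.L R.i0) (R.L i) (R.L l) (R.L j)
      (R.om R.i0) (ME.muXE R i) (R.nl R.i0).toIsLI hl.cj hj.cj (h6 A B hcq n ι R i)
    exact Set.mem_iUnion.2 ⟨l, Set.mem_iUnion.2 ⟨j, h8⟩⟩
  refine ⟨key, ?_⟩
  have hN : ((MUX.nI (R.b i) : ℕ) : ℂ) ≠ 0 := by
    have h8 : MUX.nI (R.b i) ≠ 0 := (h2 A B (cqF hcq) (R.b i) (R.nl i).b_ne).1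
    exact_mod_cast h8
  have h9 : R.om i / R.om R.i0 = ME.muXE R i * ((MUX.nI (R.b i) : ℕ) : ℂ)⁻¹ := by
    unfold ME.muXE
    field_simp
  rw [h9]
  exact key.mul (isAlgebraic_natCast _).inv

end

end Pool.Agent.MUXY
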