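import Pool.Agent.ME.DefsE2
import Pool.Agent.ME.Lib
import Pool.Agent.MUX.Y_ALP
import Pool.Agent.ME.X.StYX
/-!
# MUX, section 9, module ALP: the values of the symbols are algebraic
-/

set_option autoImplicit false

namespace Pool.Agent.MUXY

open Pool.Agent.ME

open _root_.MU3 Pool.Agent.MU3A Pool.Agent.MU3B Pool.Agent.MUXU OnePoint
open Pool.Agent.MU3F (ex)
open Pool.Agent.MUXF (Sx_ALG Sx_IDL Sx_NIM Sx_QB Sx_SMB Sx_F4 qb sumB)

namespace Y_ALP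

end Y_ALP

open Y_ALP in
theorem ty_ALP_E (h1 : Sy_FIN_E) (h2 : Sy_FEC) (h3 : Sy_ALM_E) (h4 : Su_AUT) : Sy_ALP_E := by
  intro A B hc hT n ι hι R g e hg0 hg1 he hcop r hr hroot i x y
  obtain ⟨hE, hZ⟩ := h2 A B e r hr hroot
  have hP : IsAlgebraic ℚ (MUX.PhiI (R.b i) e x y / R.om i) := by
    refine h4 (kk A B) (kk_alg hc) _ ?_
    have hfin := (((Set.finite_univ (α := ι)).prod (hE.prod (hZ.prod hZ))).image
      (fun q : ι × (OO A B → ℂ) × ℂ × ℂ =>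
        (MUX.nI (R.b i) : ℂ) * q.2.2.1 / (MUX.nI (R.b q.1) * q.2.2.2) *
          (MUX.PhiI (R.b q.1) q.2.1 x y / R.om q.1)))
    refine hfin.subset ?_
    rintro z ⟨σ, hσ, rfl⟩
    have hfix : MUX.FixK A B σ := hσ _ (wC_mem A B)
    obtain ⟨j, C, -, -, ⟨x₁, x₂, -, -, hC⟩, hS⟩ :=
      h1 A B hc hT n ι R g e hg0 hg1 he hcop σ hfix i {(x, y)}
    refine ⟨(j, (fun x => σ (e x)), σ (e x₁), σ (e x₂)),
      ⟨Set.mem_univ _, ⟨σ, rfl⟩, ⟨σ, x₁, rfl⟩, ⟨σ, x₂, rfl⟩⟩, ?_⟩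
    have h5 := hS (x, y) (Finset.mem_singleton_self _)
    simp only at h5 ⊢
    rw [h5, hC]
  refine ⟨hP, ?_⟩
  have h6 := (h3 A B hc hT n ι hι R i).2
  have h7 : MUX.PhiI (R.b i) e x y / R.om R.i0 =
      MUX.PhiI (R.b i) e x y / R.om i * (R.om i / R.om R.i0) := by
    have h8 : R.om i ≠ 0 := (R.nl i).om_ne
    field_simp
  rw [h7]
  exact hP.mul h6

end Pool.Agent.MUXY
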