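import Pool.Agent.ME.DefsE2
import Pool.Agent.ME.Lib
import Pool.Agent.MUX.Y_CON
import Pool.Agent.ME.X.StYX
/-!
# MUX, section 9: module CON, conjugation of the symbols for all pairs of cusps at once
-/

set_option autoImplicit false

namespace Pool.Agent.MUXY

open Pool.Agent.ME

open _root_.MU3 Pool.Agent.MU3A Pool.Agent.MU3B Pool.Agent.MUXU OnePoint
open Pool.Agent.MU3F (ex)
open Pool.Agent.MUXF (Sx_ALG Sx_IDL Sx_NIM Sx_QB Sx_SMB Sx_F4 qb sumB)

theorem ty_CON_E (h1 : Sy_FIN_E) (h2 : Sy_UNJ_E) (h3 : Sy_EIC) : Sy_CON_E := by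
  intro A B hc hT n ι R g e hg0 hg1 he hcop σ hσ i
  refine ⟨?_, ?_⟩
  · have h4 := h3 A B σ g e (eiF he)
    exact ⟨h4.one, h4.mul, h4.per, h4.supp, h4.neg⟩
  have hom : ∀ k, R.om k ≠ 0 := fun k => (R.nl k).om_ne
  obtain ⟨j, -, hj, -, -, -⟩ := h1 A B hc hT n ι R g e hg0 hg1 he hcop σ hσ i ∅
  -- the statement of FIN with the index `j`
  have key : ∀ S : Finset (OnePoint ℚ × OnePoint ℚ), ∃ C : ℂ, C ≠ 0 ∧
      ∀ q ∈ S, σ (MUX.PhiI (R.b i) e q.1 q.2 / R.om i) =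
        C * (MUX.PhiI (R.b j) (fun x => σ (e x)) q.1 q.2 / R.om j) := by
    intro S
    obtain ⟨j', C, hj', hC, -, hS⟩ := h1 A B hc hT n ι R g e hg0 hg1 he hcop σ hσ i S
    have h4 : j' = j := h2 A B hc n ι R j' j (by rw [hj'.1, hj.1]) (by rw [hj'.2, hj.2])
    subst h4
    exact ⟨C, hC, hS⟩
  have main : ∃ C : ℂ, C ≠ 0 ∧ ∀ q : OnePoint ℚ × OnePoint ℚ,
      σ (MUX.PhiI (R.b i) e q.1 q.2 / R.om i) =
        C * (MUX.PhiI (R.b j) (fun x => σ (e x)) q.1 q.2 / R.om j) := by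
    by_cases h : ∃ q : OnePoint ℚ × OnePoint ℚ,
        MUX.PhiI (R.b j) (fun x => σ (e x)) q.1 q.2 / R.om j ≠ 0
    · obtain ⟨q0, hq0⟩ := h
      obtain ⟨C, hC, hS⟩ := key {q0}
      refine ⟨C, hC, fun q => ?_⟩
      classical
      obtain ⟨C', hC', hS'⟩ := key {q0, q}
      have h5 := hS q0 (by simp)
      have h6 := hS' q0 (by simp)
      have h7 := hS' q (by simp)
      have h8 : C = C' := mul_right_cancel₀ hq0 (h5.symm.trans h6)
      rw [h8]
      exact h7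
    · push Not at h
      refine ⟨1, one_ne_zero, fun q => ?_⟩
      obtain ⟨C, hC, hS⟩ := key {q}
      rw [hS q (by simp), h q, mul_zero, mul_zero]
  obtain ⟨C, hC, hall⟩ := main
  refine ⟨j, C * σ (R.om i / R.om R.i0) * (R.om R.i0 / R.om j), ?_, ?_, fun x y => ?_⟩
  · unfold ME.kapE
    rw [map_add, hj.1, hj.2]
  · refine mul_ne_zero (mul_ne_zero hC ?_) (div_ne_zero (hom _) (hom _))
    rw [Ne, map_eq_zero]
    exact div_ne_zero (hom _) (hom _)
  · have h5 : MUX.PhiI (R.b i) e x y / R.om R.i0 =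
        MUX.PhiI (R.b i) e x y / R.om i * (R.om i / R.om R.i0) := by
      have := hom i
      field_simp
    rw [h5, map_mul, hall (x, y)]
    have h6 := hom R.i0
    have h7 := hom j
    field_simp

end Pool.Agent.MUXY
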