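import Pool.Agent.ME.DefsE2
import Pool.Agent.ME.Lib
import Pool.Agent.MUX.Y_EXI
import Pool.Agent.ME.X.StYX
/-!
# MUX, section 9, module EXI (helper9): existence of the action for the lattices `R.L i`
-/

set_option autoImplicit false

namespace Pool.Agent.MUXY

open Pool.Agent.ME

open _root_.MU3 Pool.Agent.MU3A Pool.Agent.MU3B Pool.Agent.MUXU OnePoint

theorem ty_EXI_E (h1 : Sy_SAM_E) (h2 : Sy_BRI_E) : Sy_EXI_E := by
  intro A B h T n ι R σ hσ m hm i
  have hid : MUX.idl (A := A) (B := B) m ≠ ⊥ := by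
    intro h0
    have h3 : ((m : ℕ) : OO A B) = 0 := by
      have h4 : ((m : ℕ) : OO A B) ∈ MUX.idl (A := A) (B := B) m :=
        Ideal.mem_span_singleton_self _
      rw [h0] at h4
      exact (Ideal.mem_bot).1 h4
    have h5 := congrArg QuadraticAlgebra.re h3
    rw [QuadraticAlgebra.re_natCast, QuadraticAlgebra.re_zero] at h5
    exact hm (by exact_mod_cast h5)
  obtain ⟨a, ha, hact⟩ := T.act (MUX.idl m) hid σ hσ
  obtain ⟨b', L', om', mu, hN, hA⟩ := hact (R.b i) (R.L i) (R.om i) (R.nl i)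
  obtain ⟨j, x, y, hx, hy, hxy⟩ := R.surj b' hN.b_ne
  refine ⟨j, a, mu, ?_, ?_⟩
  · exact h2 A B h σ m a (R.b i) b' (R.L i) L' (R.L j) (R.om i) om' mu (R.nl i) hN hA
      (h1 A B h b' (R.b j) L' (R.L j) om' (R.om j) x y hN (R.nl j) hx hy hxy)
  · intro z hz
    exact (T.zeta m (MUX.idl m) a σ (R.b i) (R.L i) L' (R.om i) mu hid hσ hm le_rfl
      (R.nl i) hA z hz).2

end Pool.Agent.MUXY
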