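import Pool.Agent.ME.DefsE2
import Pool.Agent.ME.Lib
import Pool.Agent.MUX.Y_MUI
import Pool.Agent.ME.X.StYX
/-!
# MUX, section 9, module MUI (helper96): the multiplier of `L_(i0) → L_i`
-/

set_option autoImplicit false

namespace Pool.Agent.MUXY

open Pool.Agent.ME

open _root_.MU3 Pool.Agent.MU3A Pool.Agent.MU3B Pool.Agent.MUXU OnePoint
open Pool.Agent.MU3F (ex)
open Pool.Agent.MUXF (Sx_ALG Sx_IDL Sx_NIM Sx_QB Sx_SMB Sx_F4 qb sumB)

noncomputable section

/-- (MUI) the multiplier of `L_(i0) → L_i`. -/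
theorem ty_MUI_E (h1 : Sx_ALG) (h2 : Sx_IDL) : Sy_MUI_E := by
  intro A B hc n ι R i
  have hcF := cqF hc
  obtain ⟨hmul, -, hint, -, -⟩ := h1 A B hcF
  obtain ⟨hN0, hbc⟩ := h2 A B hcF (R.b i) (R.nl i).b_ne
  have hN0' : ((MUX.nI (R.b i) : ℕ) : ℂ) ≠ 0 := by exact_mod_cast hN0
  have hnat : emb ((MUX.nI (R.b i) : ℕ) : OO A B) = ((MUX.nI (R.b i) : ℕ) : ℂ) := by
    have := (hint ((MUX.nI (R.b i) : ℕ) : ℤ)).1
    simpa using this
  have hOm := (R.nl R.i0).om_ne
  have hom := (R.nl i).om_ne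
  have hmu : ME.muXE R i = R.om i * ((MUX.nI (R.b i) : ℕ) : ℂ) / R.om R.i0 := rfl
  refine ⟨?_, ?_⟩
  · rw [hmu]
    exact div_ne_zero (mul_ne_zero hom hN0') hOm
  · intro z
    constructor
    · intro hz x hx
      obtain ⟨s, hs, hs2⟩ := ((R.nl i).mem _).1 hz
      have hxs : s * x ∈ R.b i * MUXF.cjI (R.b i) := Ideal.mul_mem_mul hs hx
      rw [hbc] at hxs
      obtain ⟨r, hr⟩ := Ideal.mem_span_singleton'.1 hxs
      have e1 : emb r * ((MUX.nI (R.b i) : ℕ) : ℂ) = emb s * emb x := by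
        rw [← (hmul s x).1, ← hr, (hmul _ _).1]
        rw [← hnat]
        rfl
      have e2 : ((MUX.nI (R.b i) : ℕ) : ℂ) * z = R.om R.i0 * emb s := by
        rw [hmu] at hs2
        field_simp at hs2
        rw [hs2]
      refine ((R.nl R.i0).mem _).2 ⟨r, ?_, ?_⟩
      · rw [R.b0]; trivial
      · apply mul_left_cancel₀ hN0'
        linear_combination emb x * e2 - R.om R.i0 * e1
    · intro hz
      have key : ∀ r ∈ R.b i * MUXF.cjI (R.b i), ∃ y ∈ R.b i, emb r * z = R.om R.i0 * emb y := by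
        intro r hr
        refine Submodule.mul_induction_on hr ?_ ?_
        · intro s hs x hx
          obtain ⟨y, -, hy⟩ := ((R.nl R.i0).mem _).1 (hz x hx)
          refine ⟨s * y, Ideal.mul_mem_right _ _ hs, ?_⟩
          rw [(hmul s x).1, (hmul s y).1, mul_assoc, hy]
          ring
        · rintro r1 r2 ⟨y1, hy1, e1⟩ ⟨y2, hy2, e2⟩
          refine ⟨y1 + y2, add_mem hy1 hy2, ?_⟩
          rw [(hmul r1 r2).2.1, (hmul y1 y2).2.1]
          linear_combination e1 + e2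
      obtain ⟨y, hy, e⟩ := key ((MUX.nI (R.b i) : ℕ) : OO A B) (by
        rw [hbc]; exact Ideal.mem_span_singleton_self _)
      refine ((R.nl i).mem _).2 ⟨y, hy, ?_⟩
      rw [hnat] at e
      rw [hmu]
      field_simp
      linear_combination e

end

end Pool.Agent.MUXY
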