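import Pool.Agent.ME.DefsE2
import Pool.Agent.ME.Lib
import Pool.Agent.MUX.Y_SAM
import Pool.Agent.ME.X.StYX
import Pool.Agent.MU3.BAll
import Pool.Agent.MU3.A_SCP
/-!
# MUX, section 9, module SAM: normalised lattices of the same class are equal
-/

set_option autoImplicit false

namespace Pool.Agent.MUXY

open Pool.Agent.ME

open _root_.MU3 Pool.Agent.MU3A Pool.Agent.MU3B Pool.Agent.MUXU OnePoint
open Pool.Agent.MU3F (ex)
open Pool.Agent.MUXF (Sx_ALG Sx_IDL Sx_NIM Sx_QB Sx_SMB Sx_F4 qb sumB)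

/-- all normalised lattices are equal -/
theorem ty_SAM_E : Sy_SAM_E := by
  intro A B hc b b' L L' om om' x y hL hL' hx hy hxy z
  exact hL.nrm.lat hL'.nrm z

end Pool.Agent.MUXY
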