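import Pool.Agent.ME.DefsE2
import Pool.Agent.ME.Lib
import Pool.Agent.MUX.Y_UNJ
import Pool.Agent.ME.X.StYX
/-!
# MUX, section 9: module UNJ (helper19)
-/

set_option autoImplicit false

namespace Pool.Agent.MUXY

open Pool.Agent.ME

open _root_.MU3 Pool.Agent.MU3A Pool.Agent.MU3B Pool.Agent.MUXU OnePoint
open Pool.Agent.MU3F (ex)
open Pool.Agent.MUXF (Sx_ALG Sx_IDL Sx_NIM Sx_QB Sx_SMB Sx_F4 qb sumB)

namespace UNJ19

end UNJ19

open UNJ19 in
theorem ty_UNJ_E (h1 : Sx_ALG) (_h2 : Sx_IDL) (h3 : Su_DET) : Sy_UNJ_E := by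
  intro A B hC n ι R j j' hg2 hg3
  obtain ⟨a1, a2, _, _, _⟩ := h1 A B (cqF hC)
  have hmul : ∀ x y : OO A B, emb (x * y) = emb x * emb y := fun x y => (a1 x y).1
  have hadd : ∀ x y : OO A B, emb (x + y) = emb x + emb y := fun x y => (a1 x y).2.1
  have h0 : ∀ x : OO A B, emb x = 0 ↔ x = 0 := fun x => (a2 x).1
  have hinj : ∀ x y : OO A B, emb x = emb y → x = y := by
    intro x y h
    have e1 := hadd (x - y) y
    rw [sub_add_cancel, h] at e1
    have e2 : emb (x - y) = 0 := by linear_combination -e1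
    exact sub_eq_zero.1 ((h0 _).1 e2)
  have hlat := h3 _ _ hg2 hg3
  have hj := (R.nl j).toIsLI
  have hj' := (R.nl j').toIsLI
  obtain ⟨t, ht, ht0⟩ := Submodule.exists_mem_ne_zero_of_ne_bot hj.b_ne
  obtain ⟨t', ht', he⟩ := (hj'.mem _).1 (hlat ▸ ((hj.mem _).2 ⟨t, ht, rfl⟩))
  have ht0' : t' ≠ 0 := by
    intro h
    rw [h, (h0 0).2 rfl, mul_zero] at he
    rcases mul_eq_zero.1 he with h4 | h4
    · exact hj.om_ne h4
    · exact ht0 ((h0 t).1 h4)
  refine R.inj j j' t' t ht0' ht0 (le_antisymm ?_ ?_)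
  · exact le_of hmul hinj hj hj' (fun z hz => hlat ▸ hz) t t' he
  · exact le_of hmul hinj hj' hj (fun z hz => hlat ▸ hz) t' t he.symm

end Pool.Agent.MUXY
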