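import Pool.Agent.ME.DefsE2
import Pool.Agent.ME.Lib
import Pool.Agent.MUX.YAll
import Pool.Agent.MUX.XFAll
import Pool.Agent.MUX.UAll
import Pool.Agent.ME.X.Y_ALM
import Pool.Agent.ME.X.Y_ALP
import Pool.Agent.MUX.Y_BIJ
import Pool.Agent.ME.X.Y_BRI
import Pool.Agent.ME.X.Y_CON
import Pool.Agent.ME.X.Y_COP
import Pool.Agent.MUX.Y_EE
import Pool.Agent.MUX.Y_EIC
import Pool.Agent.ME.X.Y_EXI
import Pool.Agent.MUX.Y_FEC
import Pool.Agent.ME.X.Y_FIN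
import Pool.Agent.MUX.Y_IDF
import Pool.Agent.MUX.Y_MAP
import Pool.Agent.MUX.Y_MUC
import Pool.Agent.ME.X.Y_MUI
import Pool.Agent.MUX.Y_MUU
import Pool.Agent.MUX.Y_PR4
import Pool.Agent.MUX.Y_QBF
import Pool.Agent.MUX.Y_RA1
import Pool.Agent.MUX.Y_RAT
import Pool.Agent.ME.X.Y_SAM
import Pool.Agent.MUX.Y_SUM
import Pool.Agent.MUX.Y_TER
import Pool.Agent.ME.X.Y_UNJ
import Pool.Agent.MUX.Y_UV
/-!
# MUX, section 9 (rationality): all statements of `StYX.lean`, without hypotheses (helper41)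

`TorX A B` remains a hypothesis inside the statements EXI, FIN, CON, ALM, ALP.
-/

set_option autoImplicit false

namespace Pool.Agent.MUXY

open Pool.Agent.ME

open Pool.Agent.MUXF Pool.Agent.MUXU

theorem y_SAM_E : Sy_SAM_E := ty_SAM_E
theorem y_COP_E : Sy_COP_E := ty_COP_E
theorem y_BRI_E : Sy_BRI_E := ty_BRI_E xf_ALG
theorem y_EXI_E : Sy_EXI_E := ty_EXI_E y_SAM_E y_BRI_E
theorem y_UNJ_E : Sy_UNJ_E := ty_UNJ_E xf_ALG xf_IDL u_DET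
theorem y_FIN_E : Sy_FIN_E := ty_FIN_E xf_IDL xf_NIM y_RAT y_EXI_E
theorem y_MUI_E : Sy_MUI_E := ty_MUI_E xf_ALG xf_IDL
theorem y_CON_E : Sy_CON_E := ty_CON_E y_FIN_E y_UNJ_E y_EIC
theorem y_ALM_E : Sy_ALM_E := ty_ALM_E xf_ALG xf_IDL y_EXI_E y_MUC y_MUI_E u_AUT
theorem y_ALP_E : Sy_ALP_E := ty_ALP_E y_FIN_E y_FEC y_ALM_E u_AUT
end Pool.Agent.MUXY
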