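import Pool.Agent.ME.DefsE2
import Pool.Agent.ME.Lib
import Pool.Agent.MUX.XFAll
import Pool.Agent.ME.X.YAll
import Pool.Agent.ME.X.I_IAF
import Pool.Agent.ME.X.I_IAG
import Pool.Agent.ME.X.I_RPR
import Pool.Agent.ME.X.I_HIT
import Pool.Agent.ME.X.I_ARF
import Pool.Agent.ME.X.I_XXF
import Pool.Agent.ME.X.I_PTP
/-!
# MUX, block IX: all statements of `ME/X/StIX.lean` (frame ME)
-/

set_option autoImplicit false

namespace Pool.Agent.MUXI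

open Pool.Agent.ME

open Pool.Agent.MUXF Pool.Agent.MUXU Pool.Agent.MUXY Pool.Agent.MUXK

theorem i_IAF_E : Si_IAF_E := ti_IAF_E
theorem i_IAG_E : Si_IAG_E := ti_IAG_E i_IAF_E
theorem i_RPR_E : Si_RPR_E := ti_RPR_E xf_ALG xf_IDL xf_NIM
theorem i_HIT_E : Si_HIT_E := ti_HIT_E i_IAF_E i_IAG_E i_RPR_E y_UNJ_E xf_ALG
theorem i_ARF_E : Si_ARF_E := ti_ARF_E i_IAF_E i_IAG_E
theorem i_XXF_E : Si_XXF_E := ti_XXF_E i_HIT_E i_ARF_E i_RPR_E i_IAF_E y_UNJ_E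
theorem i_PTP_E : Si_PTP_E := ti_PTP_E
end Pool.Agent.MUXI
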