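import Pool.Agent.ME.DefsE2
import Pool.Agent.MUX.StXE
import Pool.Agent.MUX.StU
import Pool.Agent.MUX.VX
import Pool.Agent.MU3.BAll
import Pool.Agent.MU3.StE
/-!
# MUX, block E: a `p`-th power has a small logarithmic derivative (helper66), `p = 2` and `p = 3`

`k` imaginary quadratic, `p = P P̄` split, `V` a valuation ring of `ℂ` above `P`; `v = V.valuation`; `v x ≤ 1` iff `x ∈ V`
(`ValuationSubring.valuation_le_one_iff`), `v x < 1` iff `x ∈ V.nonunits`. `E₁ = {InEn V L _}` (kernel of reduction), `t = tE L`
the local parameter, `E[m] = {Tor m L _}`. `GX`, `CtxE`, `GalE` collect the facts of the other blocks which are used here; they are proved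
there. Every statement is a `def Sxe_X : Prop`; the module proves `theorem te_X (h : ...) : Sxe_X` in
`Pool/Agent/MUX/E_X.lean`, namespace `Pool.Agent.MUXE`. The corresponding files of MU3 are `Pool/Agent/MU3/E_X.lean` (statements
in `Pool/Agent/MU3/StE.lean`).
-/

set_option autoImplicit false

open WeierstrassCurve Polynomial NumberField IsDedekindDomain

namespace Pool.Agent.MUXE

open _root_.MU3 Pool.Agent.MU3A Pool.Agent.MU3B Pool.Agent.MUX Pool.Agent.ME Pool.Agent.MUXU Pool.Agent.RI

noncomputable section

/-! ## Definitions -/

/-- `L` is a normalised lattice with complex multiplication by `O` -/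
def NL_E (A B : ℤ) (L : PeriodPair) : Prop := ∃ (b : Ideal (OO A B)) (om : ℂ), IsNE b L om

/-! ## Elementary facts -/

/-! ## The kernel of reduction -/

/-! ## The fields -/

/-! ## The functions `Θ_a` -/

/-! ## The points of level `m` -/

/-! ## The result -/

end

end Pool.Agent.MUXE
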