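import Pool.Agent.ME.DefsE2
import Pool.Agent.MUX.StJX
import Pool.Agent.MUX.StKX
import Pool.Agent.ME.X.StXE
import Pool.Agent.MU3.StP
import Pool.Agent.RID.St
/-!
# MUX, block J: the field theory of the last glue (helper34)

From the inputs `InpX` (`StKX.lean`) for a pair `K₀ ≤ K` to the theorem for all fields. Every `def Sj_X : Prop` is the
statement of a module, which proves `theorem t_X (h : Sj_Y) ... : Sj_X` (namespace `Pool.Agent.MUXJ`, file
`Pool/Agent/MUX/J_X.lean`); the doc string contains the proof, `Uses` names the hypotheses. `k = kk A B`, `RF m` the ray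
class fields (`DefsX.lean`), `H = RF ⊤`, `TorX A B` the main theorem of complex multiplication (`DefsX2.lean`). `p` is `2` or `3`; `q0 p = 4` or `3`.
-/

set_option autoImplicit false

open NumberField IsDedekindDomain
open scoped nonZeroDivisors Pointwise

namespace Pool.Agent.MUXJ

open _root_.MU3 Pool.Agent.MU3 Pool.Agent.MU3A Pool.Agent.MU3B Pool.Agent.RI Pool.Agent.RID
  Pool.Agent.MUX Pool.Agent.ME Pool.Agent.MUXK Pool.Agent.MUXE

noncomputable section

/-! ## Definitions -/

/-- all elements of `K` are in ray class fields -/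
def TorU_E (A B : ℤ) (K : IntermediateField ℚ ℂ) : Prop :=
  ∀ x ∈ K, ∃ m : Ideal (OO A B), m ≠ ⊥ ∧ x ∈ RFE m

/-- there is a normalised lattice with complex multiplication -/
def NLex_E (A B : ℤ) : Prop := ∃ (b : Ideal (OO A B)) (L : PeriodPair) (om : ℂ), IsNE b L om

/-- the Hilbert class field `RFE ⊤` is unramified at `V`: the form of (7.2) of `PAPER_X.md` which is needed here -/
def UnrH_E (A B : ℤ) (V : ValuationSubring ℂ) : Prop :=
  ∀ σ : ℂ ≃+* ℂ, FixK A B σ →
    (∀ y ∈ RFE (⊤ : Ideal (OO A B)), y ∈ V → σ y - y ∈ V.nonunits) →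
    ∀ y ∈ RFE (⊤ : Ideal (OO A B)), σ y = y

/-! ## The prime above `p` -/

/-- JINJ: the inertia group of the composite of `K₁` with `H` injects into `Gal(K₁/k)`.
Uses `TorXE` (only `fin`, `gal`), `exists_ext` (extension of `σ` to `ℂ`: `Pool/Agent/MU3/ADefs.lean` or `IsAlgClosed.lift`, an automorphism of a subfield of `ℂ` over which `ℂ` is algebraic or not extends: `Pool/Agent/MU3/A_FEX.lean`). PROOF. The set is a subgroup `I` of `Gal(K/k)`: closed under
products: `στx - x = (σ(τx) - τx) + (τx - x)`, `v(τ x) ≤ 1`; inverses: finite group. Restriction `I → Gal(K₁/k)` is injective: let `σ ∈ I` be trivial on `K₁`. Extend `σ` to an automorphism `σ'` of `ℂ`; `σ'` is trivial on `k`; for `y ∈ RFE ⊤ ≤ K`, `v y ≤ 1`: `v(σ y - y) < 1`, so by `UnrH_E` `σ'` is trivial on `RFE ⊤`,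
and `σ` is trivial on `K₁ ⊔ RFE ⊤ = K`. So `|I|` divides `|Gal(K₁/k)| = [K₁ : k]`. -/
def Sj_INJ_E : Prop := ∀ (A B : ℤ) (V : ValuationSubring ℂ), UnrH_E A B V → TorXE A B →
    ∀ (K₁ K : IntermediateField (kk A B) ℂ) [FiniteDimensional (kk A B) K₁]
    [IsGalois (kk A B) K₁] [FiniteDimensional (kk A B) K] [IsGalois (kk A B) K],
    K = K₁ ⊔ RFE (⊤ : Ideal (OO A B)) →
    Nat.card {σ : K ≃ₐ[kk A B] K //
      ∀ x : K, V.valuation (x : ℂ) ≤ 1 → V.valuation ((σ x : ℂ) - x) < 1} ∣
    Module.finrank (kk A B) K₁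

/-! ## Layers -/

/-! ## The fields -/

/-- JDIR: a finite extension in the union of the ray class fields is in one of them, of integral level.
PROOF. `K/ℚ` is generated by finitely many elements, each in some `RFE m`; the product `m₀` of these `m` is `≠ ⊥` (`O` is a domain: `CQ`), contains a nonzero natural number `M` (the norm of an element), `idl M ≤ m₀ ≤ m`, and `mono`. -/
def Sj_DIR_E : Prop := ∀ (A B : ℤ), CQ A B → TorXE A B →
    ∀ (K : IntermediateField ℚ ℂ) [FiniteDimensional ℚ K], TorU_E A B K →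
    ∃ M : ℕ, M ≠ 0 ∧ ∀ x ∈ K, x ∈ RFE (idl (A := A) (B := B) M)

/-- JGAL: subfields of the ray class fields are abelian.
PROOF. `fin`, `gal`, `comm` of `TorXE`, as `Z_ZGAL.lean` of MU3. -/
def Sj_GAL_E : Prop := ∀ (A B : ℤ), TorXE A B → ∀ (m : Ideal (OO A B)), m ≠ ⊥ →
    ∀ (K : IntermediateField ℚ ℂ) (hk : kk A B ≤ K), (∀ x ∈ K, x ∈ RFE m) →
    IsGalois (kk A B) (IntermediateField.extendScalars hk) ∧
    FiniteDimensional (kk A B) (IntermediateField.extendScalars hk) ∧
    ∀ σ τ : (IntermediateField.extendScalars hk) ≃ₐ[kk A B] (IntermediateField.extendScalars hk),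
      σ * τ = τ * σ

/-! ## The main theorem from the inputs -/

end

end Pool.Agent.MUXJ
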