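import Pool.Agent.ME.DefsE2
import Pool.Agent.MUX.StWX
import Pool.Agent.MUX.StQX
import Pool.Agent.MUX.XK0
import Pool.Agent.MUX.I2AbsP
import Pool.Agent.MU3.WK7
import Pool.Agent.RID.Defs
import Pool.Agent.ME.StCE
/-!
# MUX, block W: the elements `c`, the norm relation, the inputs of block K (helper59)

`k = kk A B`, any imaginary quadratic field (`CQ A B`), `TorX A B` = the main theorem of complex multiplication (contract with block XC). `L`, `Om`: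
`IsNL ⊤ L Om`, the normalised lattice `L = Om O` (`L = R.L R.i0`). `m : OO A B`, `F_m = RF (sp m)` the ray class field, `H = RF ⊤` the Hilbert
class field. `D` a field, `k ≤ D ≤ F_m` (`Sub D (RF (sp m))`), Galois group `D ≃ₐ[kk A B] D` for `algC h`. `Ext1 h τ σ`: `σ ∈ Gal(F_m/k)` extends `τ ∈ Gal(D/k)`.
`GD h F` = the automorphisms of `F/k` trivial on `D`. `θ ∈ F_m` with `θ = Θ_a(Om/m)`: `cW h θ = N_(F_m/D)(θ)`, `cWt h θ τ = τ(cW h θ)`.
Every `def Sy_X : Prop` is the statement of a module, which proves `theorem ty_X (h : ..) .. : Sy_X` in `Pool/Agent/MUX/W_X.lean`, namespace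
`Pool.Agent.MUXW`. `cls m x` (MU3, `StV2.lean`) is the class of `x` in `O/m`.
-/

set_option autoImplicit false

open WeierstrassCurve Polynomial NumberField IsDedekindDomain

namespace Pool.Agent.MUXW

open _root_.MU3 Pool.Agent.MU3A Pool.Agent.MU3B Pool.Agent.MU3C Pool.Agent.RI Pool.Agent.RID
open Pool.Agent.MUX Pool.Agent.ME Pool.Agent.MUXU
open Pool.Agent.MU3V (cls Sub GD algDF)
open Pool.Agent.MUXV (GR InK tX CMO Ovr)

noncomputable section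

/-! ### Definitions -/

/-- `σ` is trivial on `H` and acts on the points of level `m` of all normalised lattices as multiplication by `a` -/
structure ActH_E {A B : ℤ} {F : IntermediateField (kk A B) ℂ} (σ : F ≃ₐ[kk A B] F)
    (m a : OO A B) : Prop where
  cop : IsCoprime a m
  kapE : ∀ (b : Ideal (OO A B)) (L : PeriodPair) (om : ℂ), IsNE b L om → ∀ h : kapE L ∈ F,
    ((σ ⟨kapE L, h⟩ : F) : ℂ) = kapE L
  ptE : ∀ (b : Ideal (OO A B)) (L : PeriodPair) (om : ℂ), IsNE b L om → ∀ z : ℂ,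
    emb m * z ∈ L.lattice → z ∉ L.lattice → emb a * z ∉ L.lattice ∧
      ∀ h : xnE L z ∈ F, ((σ ⟨xnE L z, h⟩ : F) : ℂ) = xnE L (emb a * z)

/-- `σ` is trivial on `H` -/
def TrH_E {A B : ℤ} {F : IntermediateField (kk A B) ℂ} (σ : F ≃ₐ[kk A B] F) : Prop :=
  ∀ x : F, (x : ℂ) ∈ (RFE (⊤ : Ideal (OO A B)) : IntermediateField (kk A B) ℂ) → σ x = x

/-- `D` contains `H` -/
def HasH_E (A B : ℤ) (D : IntermediateField ℚ ℂ) : Prop :=
  ∀ x : ℂ, x ∈ (RFE (⊤ : Ideal (OO A B)) : IntermediateField (kk A B) ℂ) → x ∈ D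

/-! ### From `TorX` to `ActH` -/

/-- (ACM) elementary properties of `ActH_E`.

Uses Sq_EMB, St_NEQ. PROOF. As `W_XXM.lean`, `A_ACT.lean` of MU3 (for `xx` only). (1) `z = Om/m`: `xnE L (a z) = σ(xnE L z) = xnE L (a' z)`, both arguments not in `L`, so (`b_NEQ`) `(a ∓ a') z ∈ L`, `m ∣ a ∓ a'`
(`emb x * (Om/emb m) ∈ L` iff `m ∣ x`); if `m` is a unit: trivial. (2) `xnE` is even and periodic, `emb a' * z ≡ ± emb a * z`. (3) `E[m'] ⊆ E[m]`. (4) `(σ τ)(xnE L z) = σ(xnE L (b z)) = xnE L (a b z)`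
(`b z ∈ E[m]`, `xnE L (b z) ∈ RFE (sp m) ≤ F`). (5) `RFE (sp m)` is generated over `k` by the `kapE L`, `xnE L z`. (7) `RFE ⊤` is generated by the `kapE L` (a point of level `⊤` is in `L`), and `RFE ⊤ ≤ RFE (sp m) ≤ F`.
(8) from the definitions (`RFE (sp m') ≤ RFE (sp m)`). -/
def Sy_ACM_E : Prop :=
  ∀ A B : ℤ, CQ A B → ∀ (L : PeriodPair) (Om : ℂ), IsNE (⊤ : Ideal (OO A B)) L Om →
    ∀ m : OO A B, m ≠ 0 →
    (∀ (F : IntermediateField (kk A B) ℂ) (σ : F ≃ₐ[kk A B] F) (a a' : OO A B), RFE (sp m) ≤ F →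
      ActH_E σ m a → ActH_E σ m a' → m ∣ a - a' ∨ m ∣ a + a') ∧
    (∀ (F : IntermediateField (kk A B) ℂ) (σ : F ≃ₐ[kk A B] F) (a a' : OO A B),
      m ∣ a - a' ∨ m ∣ a + a' → ActH_E σ m a → ActH_E σ m a') ∧
    (∀ (F : IntermediateField (kk A B) ℂ) (σ : F ≃ₐ[kk A B] F) (m' a : OO A B), m' ∣ m →
      ActH_E σ m a → ActH_E σ m' a) ∧
    (∀ (F : IntermediateField (kk A B) ℂ) (σ τ : F ≃ₐ[kk A B] F) (a b : OO A B),
      RFE (sp m) ≤ F → ActH_E σ m a → ActH_E τ m b → ActH_E (σ * τ) m (a * b)) ∧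
    (∀ (σ τ : (RFE (sp m) : IntermediateField (kk A B) ℂ) ≃ₐ[kk A B] RFE (sp m)) (a : OO A B),
      ActH_E σ m a → ActH_E τ m a → σ = τ) ∧
    (∀ F : IntermediateField (kk A B) ℂ, ActH_E (1 : F ≃ₐ[kk A B] F) m 1) ∧
    (∀ (F : IntermediateField (kk A B) ℂ) (σ : F ≃ₐ[kk A B] F) (a : OO A B), RFE (sp m) ≤ F →
      ActH_E σ m a → TrH_E σ) ∧
    ∀ (m' : OO A B) (σ : (RFE (sp m) : IntermediateField (kk A B) ℂ) ≃ₐ[kk A B] RFE (sp m))
      (σ' : (RFE (sp m') : IntermediateField (kk A B) ℂ) ≃ₐ[kk A B] RFE (sp m')) (a : OO A B),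
      m' ∣ m → (∀ (x : (RFE (sp m') : IntermediateField (kk A B) ℂ))
        (hx : (x : ℂ) ∈ (RFE (sp m) : IntermediateField (kk A B) ℂ)),
        ((σ ⟨x, hx⟩ : (RFE (sp m) : IntermediateField (kk A B) ℂ)) : ℂ) = (σ' x : ℂ)) →
      ActH_E σ m a → ActH_E σ' m' a

/-- (KER) the automorphisms of `F_m / H`.

Uses Su_DET, Sq_EMB. PROOF. `T : TorXE A B`. First part: extend `σ` to `s ∈ Aut(ℂ)`, `FixK` (`T.ext` for the field `D = RFE (sp m)` restricted to `ℚ`). `T.act (sp m) s`: an ideal `a`. `s` is trivial on `RFE ⊤`; `ActE s ⊤ a L L' mu` (from level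
`m`: `Tor ⊤ L z` means `z ∈ L`), so by `T.triv` for `⊤` `a = sp c`, `c` prime to `m`. For every normalised `L` there is `L'`, `mu` with `ActE s (sp m) (sp c) L L' mu`: `kapE L' = s (kapE L) = kapE L`, so `g₂`, `g₃ = -g₂/18` agree and `L'` has the
same lattice (DET). `mu z ∈ L` iff `c z ∈ L`: `u = mu/emb c` satisfies `u L = L`, so (homogeneity `Pool.Agent.MU3A.ta_SCP`) `g₂ = g₂/u⁴`, `g₃ = g₃/u⁶`, and `g₂ = -18 g₃ ≠ 0` (`b_DSC`): `u² = 1`, `mu = ± emb c`. So `σ(xnE L z) = xnE L (mu z) = xnE L (c z)`.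
Second part: `T.surj (sp m) (sp a)` gives `s`; `RFE (sp m)` is normal over `k` (`T.gal`): `s` maps it onto itself, the restriction is `σ`. For every normalised `L` there are `L'`, `mu`, `IsQ (sp a) L L' mu`: `L' = (mu/a) L` is normalised as `L` is, so `(mu/a)² = 1`
(`g₂' = g₂/u⁴`, `g₃' = g₃/u⁶`, both normalised: `u² = 1`), so `kapE L' = kapE L` and `mu = ± a`. -/
def Sy_KER_E : Prop :=
  ∀ A B : ℤ, CaseE A B → TorXE A B → ∀ m : OO A B, m ≠ 0 →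
    (∀ σ : (RFE (sp m) : IntermediateField (kk A B) ℂ) ≃ₐ[kk A B] RFE (sp m), TrH_E σ →
      ∃ a : OO A B, ActH_E σ m a) ∧
    ∀ a : OO A B, IsCoprime a m → (2 : OO A B) ∣ m → (2 : OO A B) ∣ a - 1 →
      ∃ σ : (RFE (sp m) : IntermediateField (kk A B) ℂ) ≃ₐ[kk A B] RFE (sp m), ActH_E σ m a

/-- (THG) the values of `Θ_a` at points of level `m` are in `F_m`; Galois action.

Uses THC, Su_AUE, Su_AUF, ACM. PROOF. `F = RFE (sp m)` as a field over `ℚ` is algebraic (`T.fin`, `kk A B` is finite over `ℚ`). (i) If `s ∈ Aut(ℂ)` is trivial on `F` then `s(kapE L) = kapE L`, so `s g₂ = g₂`, `s g₃ = g₃` (`g₂ = (1 + 1728 kapE)/12`, `g₃ = -g₂/18`), `IsCj s L L`,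
and `s(xnE L z) = xnE L z`: (THC) with `L' = L`, `z' = z` gives `s(Θ) = Θ`; (AUF): `Θ ∈ F`. (ii) `σ` extends to `s ∈ Aut(ℂ)` (AUE), `IsCj s L L'` from `s(kapE L) = kapE L'`, both normalised; (THC). (iii) is (ii) with `L' = L`, `z' = emb b * z`, `H' = H`. -/
def Sy_THG_E : Prop :=
  ∀ A B : ℤ, CQ A B → TorXE A B → ∀ (b₀ : Ideal (OO A B)) (L : PeriodPair) (om : ℂ), IsNE b₀ L om →
    ∀ m : OO A B, m ≠ 0 → ∀ (a : ℤ) (H : Finset ℂ), a ≠ 0 → IsHalf L a H →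
    ∀ z : ℂ, emb m * z ∈ L.lattice → z ∉ L.lattice →
    ∃ (hk : kapE L ∈ (RFE (sp m) : IntermediateField (kk A B) ℂ))
      (hx : xnE L z ∈ (RFE (sp m) : IntermediateField (kk A B) ℂ))
      (hz : ThetaH L H z ∈ (RFE (sp m) : IntermediateField (kk A B) ℂ)),
      (∀ (σ : (RFE (sp m) : IntermediateField (kk A B) ℂ) ≃ₐ[kk A B] RFE (sp m))
        (b' : Ideal (OO A B)) (L' : PeriodPair) (om' : ℂ) (H' : Finset ℂ) (z' : ℂ),
        IsNE b' L' om' → IsHalf L' a H' → z' ∉ L'.lattice →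
        ((σ ⟨kapE L, hk⟩ : (RFE (sp m) : IntermediateField (kk A B) ℂ)) : ℂ) = kapE L' →
        ((σ ⟨xnE L z, hx⟩ : (RFE (sp m) : IntermediateField (kk A B) ℂ)) : ℂ) = xnE L' z' →
        ((σ ⟨ThetaH L H z, hz⟩ : (RFE (sp m) : IntermediateField (kk A B) ℂ)) : ℂ) =
          ThetaH L' H' z') ∧
      ∀ (σ : (RFE (sp m) : IntermediateField (kk A B) ℂ) ≃ₐ[kk A B] RFE (sp m)) (b : OO A B),
        ActH_E σ m b →
        ((σ ⟨ThetaH L H z, hz⟩ : (RFE (sp m) : IntermediateField (kk A B) ℂ)) : ℂ) =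
          ThetaH L H (emb b * z)

/-! ### Reduction -/

/-- (GRB) good reduction outside finitely many primes.

Uses Sx_NGR, Sq_ALU. PROOF. `kapE L ∈ RFE ⊤`, algebraic (`T.fin ⊤`; `kk A B` is finite over `ℚ`). `12 g₂ = 1 + 1728 kapE L`. `b_DSC`: `0 ≠ g₂³ - 27 g₃² = g₂³ - g₂²/12 = 144 kapE g₂²`, so `kapE L ≠ 0`, `g₂ ≠ 0`. (ALU) for `kapE L` and `12 g₂`: `n₁`, `n₂`; `n = 6 n₁ n₂`. (NGR); `kp L = kapE L`
by definition. -/
def Sy_GRB_E : Prop :=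
  ∀ A B : ℤ, CaseE A B → ∀ L : PeriodPair, NrmE A B L →
    ∃ n : ℕ, n ≠ 0 ∧ ∀ V : ValuationSubring ℂ, V.valuation (n : ℂ) = 1 →
      V.valuation 2 = 1 ∧ V.valuation 3 = 1 ∧ MEC.GRE V L

/-- (INV) an automorphism of `F ≥ F_m` which is trivial modulo `V` acts on `E[m]` as `± 1`, if `E[m]` meets the
kernel of reduction trivially.

Uses Sq_EMB, `VX.lean`. PROOF. If `m` is a unit: clear. `z = Om/m`: `z, a z ∉ L`, both in `E[m]`, so not in the kernel of reduction, `xnE L z ∈ V ∩ F`, `xnE L (a z) = σ(xnE L z) ≡ xnE L z`; so (`v_X_sub`) `a z + z` or `a z - z` is in the kernel of reduction, hence in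
`L`: `m ∣ a ± 1`. -/
def Sy_INV_E : Prop :=
  ∀ A B : ℤ, CQ A B → ∀ (L : PeriodPair) (Om : ℂ), IsNE (⊤ : Ideal (OO A B)) L Om →
    ∀ m : OO A B, m ≠ 0 → ∀ V : ValuationSubring ℂ, MEC.GRE V L →
    (∀ z, emb m * z ∈ L.lattice → InK V L (xnE L) z → z ∈ L.lattice) →
    ∀ (F : IntermediateField (kk A B) ℂ), RFE (sp m) ≤ F → ∀ σ : F ≃ₐ[kk A B] F,
      (∀ x : F, (x : ℂ) ∈ V → V.valuation (((σ x : F) : ℂ) - (x : ℂ)) < 1) →
      ∀ a : OO A B, ActH_E σ m a → m ∣ a - 1 ∨ m ∣ a + 1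

/-- (FRH) Frobenius automorphisms which are trivial on `H`.

Uses Sq_FRX, Sq_VQI, Sq_ALU, Sq_TOR, Sq_EMB, GRB, KER, ACM, Su_DET, Sq_CYQ. PROOF. `R : RepsE`, `ι` finite: every normalised lattice `L'` has `kapE L' = kapE (R.L i)` for some `i` (`L' = om b`, `x b = y b_i`, so `L'` is homothetic to `R.L i`, both are normalised: `u² = 1` as in KER).
`n₀` = the product of the numbers of GRB for the `R.L i`, of ALU for the nonzero differences `kapE (R.L i) - kapE (R.L j)`, and of `|B² + 4A|`. Let `L = Om O`, `z = Om/m` or any point of level `m`. `T.surj (sp m) Q` (`Q` is prime to `m`: `q ∤ nm m`) gives a normalised `M` and `mu` with `IsQ Q L M mu`.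
(FRX): `kapE M ≡ (kapE L)^q ≡ σ(kapE L) = kapE L`, so `kapE M = kapE L` (the difference is `0` or a unit at `V`), `M` has the lattice `L` (DET). `mu z ∈ L` iff `x z ∈ L` for all `x ∈ Q`; `z = Om/mu`: `x/mu ∈ emb O` for `x ∈ Q`, `z = Om`: `mu = emb lam`; so `Q ⊆ (lam)`,
and `(lam) ≠ O` since `Q⁻¹ L ≠ L` (CYQ); `Q` is maximal, so `Q = (lam)`, `nm lam = q` (`nm lam > 0`, `lam ∣ q`, `nm lam ∣ q²`, and `nm lam = q²` would make `q/lam` a unit). (KER): `ActH_E σ m a`. For `z = Om/m` (`m` not a unit; otherwise trivial): `xnE L (a z) = σ(xnE L z) ≡ (xnE L z)^q ≡ xnE L (lam z)`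
(FRX; `z` is not in the kernel of reduction: TOR, `q ∤ nm m`), so `a ≡ ± lam` modulo `m` (`v_X_sub`, TOR), (ACM)(2). -/
def Sy_FRH_E : Prop :=
  ∀ A B : ℤ, CaseE A B → TorXE A B → ∀ (n : ℕ) (ι : Type) [Finite ι] (_ : RepsE A B n ι), ∃ n₀ : ℕ,
    n₀ ≠ 0 ∧ ∀ m : OO A B, m ≠ 0 → (2 : OO A B) ∣ m → ∀ (Q : Ideal (OO A B)) (q : ℕ), q.Prime → ¬ q ∣ n₀ →
    ¬ (q : ℤ) ∣ nm m → Nat.card (OO A B ⧸ Q) = q → ∀ V : ValuationSubring ℂ, Ovr Q V →
    ∀ σ : (RFE (sp m) : IntermediateField (kk A B) ℂ) ≃ₐ[kk A B] RFE (sp m),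
      (∀ x : (RFE (sp m) : IntermediateField (kk A B) ℂ), (x : ℂ) ∈ V →
        V.valuation (((σ x : (RFE (sp m) : IntermediateField (kk A B) ℂ)) : ℂ) - (x : ℂ) ^ q) < 1) →
      TrH_E σ → ∃ lam : OO A B, Q = Ideal.span {lam} ∧ nm lam = q ∧ ActH_E σ m lam

/-! ### The elements `cW` -/

/-- (HIT) every automorphism of `F_m / k` hits exactly two pairs `± (i, x)`.

Uses Sq_EMB, ACM, Su_DET. PROOF. `T : TorXE A B`, `R : RepsE A B n ι`, `L = R.L R.i0 = om O` (`R.b0`), `m` a natural number with `nI (R.b i)` prime to `m` for all `i`, `¬ m ∣ 2` in `O`, `m ≠ 0`. Extend `σ` to `s ∈ Aut(ℂ)` (`T.ext`), `T.act`: the ideal `a`, `ActE s (idl m) a L L' mu`, `L'` normalised. `R.surj` for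
`a⁻¹`-class of `L'`: `L' = mu a⁻¹ L` is homothetic to `R.L i` for one `i` (`a * c = (N)`, `c = cjI a`; `a⁻¹ = c/N`; `x c = y b_i`), so `L'` has the same lattice as `R.L i` (both normalised). So `kapE (R.L i) = s(kapE L)`, and `mu om/m` is a point of `R.L i` of exact level `m` (`ActE.act`; `z ↦ mu z` is an isomorphism
of the points of level `m`), so `± ptE R m i x` with `x` prime to `m` (the points of level `m` of `R.L i = om_i b_i` are `om_i b_i/m`, and `b_i/m b_i ≅ O/m` by `x ↦ N(b_i) x`, because `N(b_i) ∈ b_i` is prime to `m`). Uniqueness: `kapE (R.L i) = kapE (R.L j)` gives `i = j` (DET, `R.inj`); `xnE` equal gives `± x` (`b_NEQ`).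
`x ≢ -x` since `m ∤ 2`. -/
def Sy_HIT_E : Prop :=
  ∀ A B : ℤ, CaseE A B → TorXE A B → ∀ (n : ℕ) (ι : Type) (R : RepsE A B n ι) (m : ℕ), m ≠ 0 →
    (∀ i, (nI (R.b i)).Coprime m) → ¬ ((m : ℕ) : OO A B) ∣ 2 →
    ∀ s : ℂ ≃+* ℂ, FixK A B s → ∃ (i : ι) (x : OO A B), IsCoprime x ((m : ℕ) : OO A B) ∧
      HitsE R m s i x ∧ ¬ ((m : ℕ) : OO A B) ∣ 2 * x ∧
      ∀ (j : ι) (y : OO A B), HitsE R m s j y ↔
        j = i ∧ (((m : ℕ) : OO A B) ∣ y - x ∨ ((m : ℕ) : OO A B) ∣ y + x)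

/-- (CXW) the product over `XXE` is the square of `cWt`.

Uses HIT, THG, MEM. PROOF. `L = R.L R.i0`, `θ = Θ_a(ptE R m i0 1)` in `F = RFE (idl m)`. `XXE R m h τ` is the disjoint union, over the automorphisms `σ` of `F/k` which extend `τ`, of the sets `{(i, x), (i, -x)}` hit by the extensions `s` of `σ` to `ℂ` (HIT; `HitsE R m s` depends only on the restriction of `s` to `F`, and it determines this
restriction: if `s`, `s'` hit the same `(i, x)`, then `s⁻¹ s'` hits `(i0, 1)`: trivial on `kapE L`, so its ideal is principal `(c)` (DET as in KER) and `c ≡ ± 1` modulo `m`: trivial on `RFE (idl m)` by `T.triv`; both have a restriction to `F` as `F/k` is normal). By (THG) `Θ_a(ptE R m i x; L_i) = σ(θ)`, also for `-x`. -/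
def Sy_CXW_E : Prop :=
  ∀ A B : ℤ, CaseE A B → TorXE A B → ∀ (n : ℕ) (ι : Type) (R : RepsE A B n ι) (m : ℕ), m ≠ 0 →
    2 ∣ m →
    (∀ i, (nI (R.b i)).Coprime m) → ¬ ((m : ℕ) : OO A B) ∣ 2 →
    ∀ (a : ℕ) (H : ι → Finset ℂ), a ≠ 0 → a.Coprime m → (∀ i, IsHalf (R.L i) a (H i)) →
    ∀ θ : (RFE (idl m) : IntermediateField (kk A B) ℂ),
    (θ : ℂ) = ThetaH (R.L R.i0) (H R.i0) (Pool.Agent.ME.ptE R m R.i0 1) →
    ∀ (D : IntermediateField ℚ ℂ) (h : kk A B ≤ D),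
    Sub D (RFE (idl m) : IntermediateField (kk A B) ℂ) → letI := algC h
    ∀ τ : D ≃ₐ[kk A B] D, cXE R m H h τ = cWt h θ τ ^ 2

/-- (SUC) `cW h θ` is a unit outside `S`.

Uses Sv_EXT, Sq_THU, Sq_TOR, Sq_EMB, GRB, THG, MEM. PROOF. As `W_SUC.lean` of MU3. `n₀` from GRB for `L`. `w` a prime of `D` not above `S`; extend it to `V` (EXT). `v n₀ = v a = v (nm m) = 1`: good reduction. Every factor of `cW` is `σ(Θ(u))`, `u = Om/m`; `V' = V.comap`-conjugate: let `s ∈ Aut(ℂ)` extend `σ`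
(`T.ext`, or AUE); `v(s x)` for `x ∈ ℂ` is the valuation of `s⁻¹ V`, again with `v n₀ = v a = v(nm m) = 1`, so `v(s(Θ(u))) = 1` by (THU)(1) for `s⁻¹ V`: `a u ∉ L`, in `E[m]`, not in the kernel of reduction (TOR). -/
def Sy_SUC_E : Prop :=
  ∀ A B : ℤ, CaseE A B → TorXE A B → ∀ (L : PeriodPair) (Om : ℂ), IsNE (⊤ : Ideal (OO A B)) L Om →
    ∃ n₀ : ℕ, n₀ ≠ 0 ∧ ∀ m : OO A B, m ≠ 0 → ¬ IsUnit m → ∀ (a : ℤ) (H : Finset ℂ), a ≠ 0 →
    IsCoprime (a : OO A B) m → IsHalf L a H →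
    ∀ S : Finset ℕ, (∀ p : ℕ, p.Prime → p ∣ n₀ → p ∈ S) → (∀ p : ℕ, p.Prime → (p : ℤ) ∣ a → p ∈ S) →
    (∀ p : ℕ, p.Prime → (p : ℤ) ∣ nm m → p ∈ S) →
    ∀ θ : (RFE (sp m) : IntermediateField (kk A B) ℂ), (θ : ℂ) = ThetaH L H (Om / emb m) →
    ∀ (D : IntermediateField ℚ ℂ) [FiniteDimensional ℚ D] (h : kk A B ≤ D),
      Sub D (RFE (sp m) : IntermediateField (kk A B) ℂ) →
      ∀ c : D, (c : ℂ) = cW h θ → Pool.Agent.MU3.SU S D c

/-- (DIS) distribution relation over `E[b]`, with constant in `H`.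

Uses St_TDI, St_TIN, THG, KER, ACM, Sq_EMB. PROOF. As `W_DISI.lean` of MU3. `C = b^(2|H|) ∏_(r ∈ R) Θ(r) ≠ 0`, `R` = representatives of `E[b] - 0`. The product `∏ Θ(r)` is in `RFE (sp b)` (THG) and fixed by all automorphisms of `RFE (sp b)/k` which are trivial on `RFE ⊤`: they act as some `c` prime to `b` (KER), `σ(Θ(r)) = Θ(c r)`, and
`r ↦ c r` permutes the classes. So it is in `RFE ⊤` (Galois theory, `RFE ⊤ ≤ RFE (sp b)`). -/
def Sy_DIS_E : Prop :=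
  ∀ A B : ℤ, CaseE A B → TorXE A B → ∀ (L : PeriodPair) (Om : ℂ), IsNE (⊤ : Ideal (OO A B)) L Om →
    ∀ b : OO A B, b ≠ 0 → ∀ (a : ℤ) (H : Finset ℂ), a ≠ 0 → IsCoprime (a : OO A B) b →
    IsHalf L a H → ∃ C ∈ (RFE (⊤ : Ideal (OO A B)) : IntermediateField (kk A B) ℂ), C ≠ 0 ∧
      ∀ z, emb b * a * z ∉ L.lattice →
      ∏ᶠ t : OO A B ⧸ Ideal.span {b}, ThetaH L H (z + emb (Quotient.out t) * (Om / emb b)) =
        C * ThetaH L H (emb b * z)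

/-- (NRM) the norm from `F_(b m)` to `F_m`, for `b ∣ m`.

Uses DIS, KER, ACM, THG, St_TIN, Sq_EMB. PROOF. `b ∣ m`, so a number prime to `m` is prime to `b m`. The automorphisms of `F_(b m)/k` which are trivial on `F_m` are trivial on `H`, so they act as some `c` prime to `b m` (KER) and `c ≡ ± 1` modulo `m` (ACM)(8),(1) (compare with `1`), by (ACM)(2) `c ≡ 1` modulo `m`; conversely every `c = 1 + m t`
occurs (KER), acts trivially on `F_m` (ACM)(8), (5). As `m ∤ 2`, `c ↦ t` modulo `b` is a bijection of this group with `O/b`. `σ(Θ(Om/(b m))) = Θ(Om/(b m) + t Om/b)` (THG). (DIS) for `z = Om/(b m)` (`b a z = a Om/m ∉ L`: `m` is not a unit, `a` prime to `m`). -/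
def Sy_NRM_E : Prop :=
  ∀ A B : ℤ, CaseE A B → TorXE A B → ∀ (L : PeriodPair) (Om : ℂ), IsNE (⊤ : Ideal (OO A B)) L Om →
    ∀ m b : OO A B, m ≠ 0 → (2 : OO A B) ∣ m → b ∣ m → ¬ m ∣ 2 → ∀ (a : ℤ) (H : Finset ℂ), a ≠ 0 →
    IsCoprime (a : OO A B) m → IsHalf L a H →
    ∀ (θ : (RFE (sp m) : IntermediateField (kk A B) ℂ))
      (θ' : (RFE (sp (b * m)) : IntermediateField (kk A B) ℂ)),
    (θ : ℂ) = ThetaH L H (Om / emb m) → (θ' : ℂ) = ThetaH L H (Om / emb (b * m)) →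
    ∃ C ∈ (RFE (⊤ : Ideal (OO A B)) : IntermediateField (kk A B) ℂ), C ≠ 0 ∧
      ∏ᶠ σ : {σ : (RFE (sp (b * m)) : IntermediateField (kk A B) ℂ) ≃ₐ[kk A B] RFE (sp (b * m)) //
        ∀ x : (RFE (sp (b * m)) : IntermediateField (kk A B) ℂ),
          (x : ℂ) ∈ (RFE (sp m) : IntermediateField (kk A B) ℂ) → σ x = x},
        ((σ.1 θ' : (RFE (sp (b * m)) : IntermediateField (kk A B) ℂ)) : ℂ) = C * θ

/-- (I1) the norm relation.

Uses NRM, MEM. PROOF. `m' = b m`, `F = RFE (sp m)`, `F' = RFE (sp m')`, `D ≤ D' ≤ F'`, `D ≤ F`, `D` contains `H`. `∏_(i<p) σ^i(cW h' θ')` is the product of the `s θ'` over all `s ∈ Gal(F'/k)` whose restriction to `D'` is in `⟨σ⟩`, that is trivial on `D` (Galois correspondence: `σ` has the fixed field `D`, order `p`). On the other hand every `s ∈ GD h F'`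
restricts to an element of `GD h F` (restriction is surjective), and the fibres are the cosets of the group in (NRM): `∏_(s ∈ GD h F') s θ' = ∏_(σ ∈ GD h F) σ~(C θ) = C^(|GD h F|) ∏ σ θ`, since `C ∈ H ≤ D` is fixed (`σ~` an extension of `σ`; use an extension for every `σ`). -/
def Sy_I1_E : Prop :=
  ∀ A B : ℤ, CaseE A B → TorXE A B → ∀ (L : PeriodPair) (Om : ℂ), IsNE (⊤ : Ideal (OO A B)) L Om →
    ∀ m b : OO A B, m ≠ 0 → (2 : OO A B) ∣ m → b ∣ m → ¬ m ∣ 2 → ∀ (a : ℤ) (H : Finset ℂ), a ≠ 0 →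
    IsCoprime (a : OO A B) m → IsHalf L a H →
    ∀ (θ : (RFE (sp m) : IntermediateField (kk A B) ℂ))
      (θ' : (RFE (sp (b * m)) : IntermediateField (kk A B) ℂ)),
    (θ : ℂ) = ThetaH L H (Om / emb m) → (θ' : ℂ) = ThetaH L H (Om / emb (b * m)) →
    ∀ (D D' : IntermediateField ℚ ℂ) (h : kk A B ≤ D) (h' : kk A B ≤ D'), D ≤ D' → HasH_E A B D →
    Sub D (RFE (sp m) : IntermediateField (kk A B) ℂ) →
    Sub D' (RFE (sp (b * m)) : IntermediateField (kk A B) ℂ) → letI := algC h; letI := algC h'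
    ∀ (p : ℕ) (σ : D' ≃ₐ[kk A B] D'), (∀ x : D', σ x = x ↔ (x : ℂ) ∈ D) → orderOf σ = p → p ≠ 0 →
    ∀ c' : D', (c' : ℂ) = cW h' θ' →
      ∃ C ∈ (RFE (⊤ : Ideal (OO A B)) : IntermediateField (kk A B) ℂ), C ≠ 0 ∧
        ∏ i ∈ Finset.range p, (((σ ^ i) c' : D') : ℂ) = C * cW h θ

/-! ### Good primes -/

/-- (FRD) a good prime `v` of `D` (trivial decomposition group over `k`, degree one, `D` contains `H`) lies over a principal
prime `(lam)`, and `lam` is the action on `E[m]` of an automorphism of `F_m/k` trivial on `D`.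

Uses FRH, PRQ, Sw_LOC, Sv_EXT, Sa_FEX or Mathlib. PROOF. As `W_FRD.lean` of MU3. `P = v ∩ 𝓞 k`, `#𝓞 k/P = q` (it embeds in `𝓞 D/v`, `q` prime); (PRQ) gives `Q`. `F = RFE (sp m)`, `w` a prime of `𝓞 F` above `v`, `σ` an arithmetic Frobenius at `w` (`IsArithFrobAt.exists_of_isInvariant`): `σ x - x^q ∈ w` for `x ∈ 𝓞 F`. `V` extends `w` (EXT); (LOC) gives the congruence on `F ∩ V`;
`Ovr Q V`. `σ` extends some `τ` of `D` which maps `v` into itself, so `τ = 1` (`GoodPrP.free`), so `σ` is trivial on `D`, hence on `H`. (FRH). -/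
def Sy_FRD_E : Prop :=
  ∀ A B : ℤ, CaseE A B → TorXE A B → ∀ (n : ℕ) (ι : Type) [Finite ι] (_ : RepsE A B n ι), ∃ n₀ : ℕ,
    n₀ ≠ 0 ∧ ∀ (p : ℕ) (m : OO A B), m ≠ 0 → (2 : OO A B) ∣ m → ∀ (D : IntermediateField ℚ ℂ)
      [FiniteDimensional ℚ D] (h : kk A B ≤ D), HasH_E A B D →
      Sub D (RFE (sp m) : IntermediateField (kk A B) ℂ) → letI := algC h
    ∀ (S : Finset ℕ) (v : HeightOneSpectrum (𝓞 D)) (q : ℕ),
      Pool.Agent.MUXK.GoodPrP p (kk A B) D S v q → ¬ q ∣ n₀ → ¬ (q : ℤ) ∣ nm m →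
      ∃ lam : OO A B, nm lam = q ∧
        (∃ σ ∈ GD h (RFE (sp m) : IntermediateField (kk A B) ℂ), ActH_E σ m lam) ∧
        ∀ (x : 𝓞 (kk A B)) (y : OO A B), ((x : kk A B) : ℂ) = emb y →
          (x ∈ v.asIdeal.under (𝓞 (kk A B)) ↔ lam ∣ y)

/-- (KOL) the input (I2), for every prime `p`. (helper59) -/
def Sy_KOL_E : Prop :=
  ∀ A B : ℤ, CaseE A B → TorXE A B → ∀ (n : ℕ) (ι : Type) [Finite ι] (R : RepsE A B n ι), ∃ n₀ : ℕ,
    n₀ ≠ 0 ∧ ∀ p : ℕ, p.Prime → ∀ m : OO A B, m ≠ 0 → (2 : OO A B) ∣ m → ¬ m ∣ 2 → ∀ (a : ℤ) (H : Finset ℂ),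
    a ≠ 0 → IsCoprime (a : OO A B) m → IsHalf (R.L R.i0) a H →
    ∀ S : Finset ℕ, (∀ p : ℕ, p.Prime → p ∣ n₀ → p ∈ S) → (∀ p : ℕ, p.Prime → (p : ℤ) ∣ a → p ∈ S) →
    (∀ p : ℕ, p.Prime → (p : ℤ) ∣ nm m → p ∈ S) →
    ∀ θ : (RFE (sp m) : IntermediateField (kk A B) ℂ),
    (θ : ℂ) = ThetaH (R.L R.i0) H (R.om R.i0 / emb m) →
    ∀ (D : IntermediateField ℚ ℂ) [FiniteDimensional ℚ D] [FiniteDimensional ℚ (kk A B)]
      (h : kk A B ≤ D), HasH_E A B D → Sub D (RFE (sp m) : IntermediateField (kk A B) ℂ) →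
      letI := algC h
      ∀ c : D, (c : ℂ) = cW h θ →
        Pool.Agent.MUXK.KolInP p (kk A B) D
          {g | ∀ x : D, (x : ℂ) ∈ (RFE (⊤ : Ideal (OO A B)) : IntermediateField (kk A B) ℂ) →
            g x = x} S c

end

end Pool.Agent.MUXW
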