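import Pool.Agent.ME.DefsE2
import Pool.Agent.MUX.StZX
import Pool.Agent.ME.X.StWX2
import Pool.Agent.ME.X.StJX
/-!
# MUX, last glue (helper3): from blocks W, E, I to the inputs `InpAll` of block J

`D_n = K ⊔ B n`, `m_n = lvX p f n = f q0 p^n`, `θ_n = Θ_a(om/m_n) ∈ RF m_n`, `a = aX p f`, `c n = cW θ_n` = the norm of `θ_n` to
`K B_n`, `c₀ n` = the norm to `K₀ B_n`. Every `def Sz_X : Prop` is the statement of a module `MUXZ_X`: `theorem tz_X (h : ..) .. : Sz_X` in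
`Pool/Agent/MUX/Z_X.lean`, namespace `Pool.Agent.MUXZ`.
-/

set_option autoImplicit false

open NumberField IsDedekindDomain

namespace Pool.Agent.MUXZ

open _root_.MU3 Pool.Agent.MU3 Pool.Agent.MU3A Pool.Agent.MU3B Pool.Agent.RI Pool.Agent.RID
  Pool.Agent.MUX Pool.Agent.ME Pool.Agent.MUXK Pool.Agent.MUXJ Pool.Agent.MUXW
open Pool.Agent.MU3V (Sub GD)

noncomputable section

/-- (LVF) the fields `K B_n` are in the ray class fields of level `m_n`.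

Uses Sj_LAY. PROOF. `F = (RFE (idl (lvX p f n))).restrictScalars ℚ`. `K ≤ F`: `T.mono` (`lvX p f n` is a multiple of `lvX p f 0`). `M = q0 p * p ^ n`, `ζ = exp (2 π i/M)`: `ζ ∈ F` by `T.zeta` (`lvX p f n ∈ idl M`; `T.act` for `RingEquiv.refl ℂ` and the lattice of `NLex_E` gives the `ActE` needed). The field
`ℚ(ζ + ζ⁻¹)` is a layer `IsLayer p n` (see the proof of Sj_LAY; `p = 3`: `t_ILAY`, `Z_ZLAY.lean` of MU3), so it is `Bn` (uniqueness in Sj_LAY): `Bn ≤ F`. -/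
def Sz_LVF_E : Prop :=
  ∀ (p : ℕ) (A B : ℤ) (_ : CaseP p A B) (_ : TorXE A B) (_ : NLex_E A B) (f : ℕ) (_ : f ≠ 0)
    (K : IntermediateField ℚ ℂ)
    (_ : ∀ y ∈ K, y ∈ RFE (idl (A := A) (B := B) (lvX p f 0))) (n : ℕ)
    (Bn : IntermediateField ℚ ℂ) (_ : IsLayer p n Bn),
    ∀ y ∈ K ⊔ Bn, y ∈ RFE (idl (A := A) (B := B) (lvX p f n))

/-- (THN) the half systems and the values `θ`.

Uses `Pool.Agent.MU3B.b_HAL`, Sy_THG_E. PROOF. Half systems for `a` on `R.L i`: HAL (`a` odd: `a z ∈ L`, `2 z ∈ L` give `z = a z - ((a - 1)/2) (2 z) ∈ L`). THG for `L = R.L R.i0`, `z = ptE R m R.i0 1 = om/m` (`nI ⊤ = 1`, `emb 1 = 1`, `emb (m : O) = m`): `emb m * z = om ∈ L`, `z ∉ L` as `m` is not a unit. `θ ≠ 0`: `Θ_a(z) = 0`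
only for `a z ∈ L` (`b_TNZ`), and `a om/m = om emb x` means `a = m x`, impossible as `a` is prime to `m` and `m` is not a unit. -/
def Sz_THN_E : Prop :=
  ∀ (A B : ℤ) (_ : CQ A B) (_ : TorXE A B) (n : ℕ) (ι : Type) (R : RepsE A B n ι) (a : ℕ)
    (_ : Odd a), ∃ H : ι → Finset ℂ, (∀ i, IsHalf (R.L i) a (H i)) ∧
      ∀ m : ℕ, m ≠ 0 → ¬ IsUnit ((m : ℕ) : OO A B) → a.Coprime m →
        ∃ θ : (RFE (idl (A := A) (B := B) m) : IntermediateField (kk A B) ℂ),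
          (θ : ℂ) = ThetaH (R.L R.i0) (H R.i0) (ptE R m R.i0 1) ∧
          (θ : ℂ) = ThetaH (R.L R.i0) (H R.i0) (R.om R.i0 / emb ((m : ℕ) : OO A B)) ∧ θ ≠ 0

/-- the choice of `θ_n` at all levels -/
structure ThN_E {A B : ℤ} {ι : Type} (p f : ℕ) (R : RepsE A B (p * f) ι) (H : ι → Finset ℂ)
    (θ : ∀ n : ℕ, (RFE (idl (A := A) (B := B) (lvX p f n)) : IntermediateField (kk A B) ℂ)) :
    Prop where
  half : ∀ i, IsHalf (R.L i) (aX p f : ℕ) (H i)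
  ptE : ∀ n, (θ n : ℂ) = ThetaH (R.L R.i0) (H R.i0) (ptE R (lvX p f n) R.i0 1)
  om : ∀ n, (θ n : ℂ) =
    ThetaH (R.L R.i0) (H R.i0) (R.om R.i0 / emb ((lvX p f n : ℕ) : OO A B))
  ne : ∀ n, θ n ≠ 0

/-- (INW) the inputs from block W.

Uses LVX, LVF, Sy_MEM, Sy_TOW, Sy_SUC_E, Sy_I1_E, Sy_KOL_E. PROOF. `T : TorXE A B`; `idl m = sp ((m : ℕ) : O)` by definition. `RFE (idl m_n)` is finite, Galois, abelian over `k` (`T.fin`, `T.gal`, `T.comm`). `Sub (K ⊔ Bn n) (RFE (idl m_n))`, `Sub (K₀ ⊔ Bn n) ..` (LVF, for `K` and `K₀ ≤ K`; `NLex_E` from `R.nl R.i0`). `mem`, `ne`, `mem₀`: MEM (`cW = cWt 1`).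
`norm`: TOW. `S` = the prime divisors of `n₀ n₀' a p f` (`n₀` from SUC for `L = R.L R.i0` — `IsNE ⊤` by `R.b0`, `R.nl R.i0` —, `n₀'` from KOL for `R`, `a = aX p f`), `n₁ = 0`. `su`: SUC with `m = m_n`. `kol`: KOL (`HasH_E A B (K ⊔ Bn n)`: `RFE ⊤ ≤ K`) and `KolInP.mono` (`KDefsP.lean`): an automorphism which is trivial on `K` is trivial on
`RFE ⊤`. `nrm`: I1 with `m = m_n`, `b = p` (`b ∣ m`, `m_(n+1) = p m_n`: rewrite the level, e.g. generalise `θ` along the equality `lvX p f (n+1) = p * lvX p f n`, and `((p * m : ℕ) : O) = (p : O) * m`), `D = K ⊔ Bn n`, `D' = K ⊔ Bn (n + 1)`, `HasH_E A B D`; `orderOf σ = p`: the fixed field of `σ` is `K ⊔ Bn n`, and `[K ⊔ Bn (n+1) : K ⊔ Bn n] = p` by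
`hS.b.deg` (Artin: `IntermediateField.finrank_fixedField_eq_card` for the group generated by `σ`; see also `S_GENX`, `S_GALX` of `StKX.lean`). The constant `C ∈ RFE ⊤ ≤ K`. -/
def Sz_INW_E : Prop :=
  ∀ (p : ℕ) (A B : ℤ) (P : Ideal (OO A B)) (V : ValuationSubring ℂ) (f : ℕ)
    (_ : SetP p A B P V f) (_ : TorXE A B) (ι : Type) [Finite ι] (R : RepsE A B (p * f) ι)
    (H : ι → Finset ℂ)
    (θ : ∀ n : ℕ, (RFE (idl (A := A) (B := B) (lvX p f n)) : IntermediateField (kk A B) ℂ))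
    (_ : ThN_E p f R H θ)
    (K₀ K : IntermediateField ℚ ℂ) (Bn : ℕ → IntermediateField ℚ ℂ)
    [FiniteDimensional ℚ (kk A B)] [FiniteDimensional ℚ K] [∀ n, FiniteDimensional ℚ ↥(K ⊔ Bn n)]
    (_ : SetX p (kk A B) K₀ K Bn) (_ : ∀ y ∈ K, y ∈ RFE (idl (A := A) (B := B) (lvX p f 0)))
    (_ : ∀ y ∈ RFE (⊤ : Ideal (OO A B)), y ∈ K)
    (hk : ∀ n, kk A B ≤ K ⊔ Bn n) (hk₀ : ∀ n, kk A B ≤ K₀ ⊔ Bn n),
    ∃ S : Finset ℕ, InpW p (kk A B) K₀ K Bn hk hk₀ S (fun n => cW (hk n) (θ n))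
      (fun n => cW (hk₀ n) (θ n)) 0

end

end Pool.Agent.MUXZ
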