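import Pool.Agent.ME.DefsE2
import Pool.Agent.ME.Lib
import Pool.Agent.MUX.I_TH
import Pool.Agent.ME.X.StIX
/-!
# MUX, block IX: module TH, the sums `That_j`: the sets `XM_E` (frame ME)
-/

set_option autoImplicit false

namespace Pool.Agent.MUXI

open _root_.MU3 Pool.Agent.MU3 Pool.Agent.MU3A Pool.Agent.MU3B Pool.Agent.RI Pool.Agent.RID
  Pool.Agent.MUX Pool.Agent.ME Pool.Agent.MUXE Pool.Agent.MUXK
open Pool.Agent.MU3I (w3 zt)

noncomputable section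

namespace TH

section

variable {A B : ℤ} {p f n : ℕ} {ι : Type} {R : RepsE A B (p * f) ι} {G : Type} [Group G]
  {γ : G} {Δ : Subgroup G} {X : G → Set (ι × (OO A B ⧸ idl (A := A) (B := B) (lvX p f n)))}

lemma mem_iff_E (hM : XM_E R p f n γ Δ X)
    (q : ι × (OO A B ⧸ idl (A := A) (B := B) (lvX p f n))) (j : ℕ) :
    (∃ δ : Δ, q ∈ X (γ ^ j * (δ : G))) ↔
      (Quotient.out q.2 : OO A B) - 1 ∈ idl (A := A) (B := B) 2 ∧
      (IsCoprime (Quotient.out q.2 : OO A B) ((lvX p f n : ℕ) : OO A B) ∧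
      (((q0 p * p ^ n : ℕ) : ℤ) ∣ nm (Quotient.out q.2) * nI (R.b q.1) - (1 + (q0 p : ℤ)) ^ j ∨
      ((q0 p * p ^ n : ℕ) : ℤ) ∣ nm (Quotient.out q.2) * nI (R.b q.1) + (1 + (q0 p : ℤ)) ^ j)) := by
  constructor
  · rintro ⟨δ, hδ⟩
    refine ⟨hM.two _ _ hδ, hM.cop _ _ hδ, (hM.nrm q _ hδ j).1 ?_⟩
    rw [hM.comm (γ ^ j) δ, mul_inv_cancel_right]
    exact δ.2
  · rintro ⟨h2, hc, hC⟩
    obtain ⟨τ, hτ⟩ := hM.ex q hc h2
    have h1 := (hM.nrm q τ hτ j).2 hC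
    refine ⟨⟨_, h1⟩, ?_⟩
    have h2 : γ ^ j * (τ * (γ ^ j)⁻¹) = τ := by
      rw [hM.comm (γ ^ j), inv_mul_cancel_right]
    rw [h2]
    exact hτ

end

end TH

end

end Pool.Agent.MUXI
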