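import Pool.Agent.ME.DefsE2
import Pool.Agent.ME.Lib
import Pool.Agent.MUX.W_ACM
import Pool.Agent.ME.X.StWX
import Pool.Agent.MU3.BAll
/-!
# MUX, block W: elementary properties of `ActH` (ACM)
-/

set_option autoImplicit false

open WeierstrassCurve Polynomial NumberField IsDedekindDomain

namespace Pool.Agent.MUXW

open _root_.MU3 Pool.Agent.MU3A Pool.Agent.MU3B Pool.Agent.MU3C Pool.Agent.RI Pool.Agent.RID
open Pool.Agent.MUX Pool.Agent.ME Pool.Agent.MUXU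
open Pool.Agent.MU3V (cls Sub GD algDF)
open Pool.Agent.MUXV (GR InK tX CMO Ovr)

noncomputable section

namespace ACM

variable {A B : ℤ}

lemma emb_mem_E (E : EmbF A B) {b : Ideal (OO A B)} {L : PeriodPair} {om : ℂ} (hL : IsNE b L om)
    (x : OO A B) {z : ℂ} (hz : z ∈ L.lattice) : emb x * z ∈ L.lattice := by
  obtain ⟨y, hy, rfl⟩ := (hL.mem z).1 hz
  refine (hL.mem _).2 ⟨x * y, b.mul_mem_left x hy, ?_⟩
  rw [E.mul]
  ring

lemma kap_mem_E {m : OO A B} {F : IntermediateField (kk A B) ℂ} (hF : RFE (sp m) ≤ F)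
    {b : Ideal (OO A B)} {L : PeriodPair} {om : ℂ} (hL : IsNE b L om) : kapE L ∈ F :=
  hF (IntermediateField.subset_adjoin _ _ ⟨b, L, om, hL, Or.inl rfl⟩)

lemma xn_mem_E (E : EmbF A B) {m : OO A B} {F : IntermediateField (kk A B) ℂ} (hF : RFE (sp m) ≤ F)
    {b : Ideal (OO A B)} {L : PeriodPair} {om : ℂ} (hL : IsNE b L om) {z : ℂ}
    (h1 : emb m * z ∈ L.lattice) (h2 : z ∉ L.lattice) : xnE L z ∈ F := by
  refine hF (IntermediateField.subset_adjoin _ _ ⟨b, L, om, hL, Or.inr ⟨z, ?_, h2, rfl⟩⟩)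
  intro x hx
  obtain ⟨c, rfl⟩ := Ideal.mem_span_singleton.1 hx
  rw [E.mul, mul_comm (emb m), mul_assoc]
  exact emb_mem_E E hL c h1

lemma xn_neg_E (L : PeriodPair) (z : ℂ) : xnE L (-z) = xnE L z := by
  rw [xnE, xnE, L.weierstrassP_neg]

lemma xn_add_E (L : PeriodPair) (z l : ℂ) (hl : l ∈ L.lattice) : xnE L (z + l) = xnE L z := by
  rw [xnE, xnE, L.weierstrassP_add_coe z ⟨l, hl⟩]

lemma pt_down_E (E : EmbF A B) {b : Ideal (OO A B)} {L : PeriodPair} {om : ℂ} (hL : IsNE b L om)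
    {m m' : OO A B} (hd : m' ∣ m) {z : ℂ} (hz : emb m' * z ∈ L.lattice) :
    emb m * z ∈ L.lattice := by
  obtain ⟨c, rfl⟩ := hd
  rw [E.mul, mul_comm (emb m'), mul_assoc]
  exact emb_mem_E E hL c hz

lemma act_mul_E (E : EmbF A B) {m : OO A B} (F : IntermediateField (kk A B) ℂ)
    (σ τ : F ≃ₐ[kk A B] F) (a b : OO A B) (hF : RFE (sp m) ≤ F) (ha : ActH_E σ m a)
    (hb : ActH_E τ m b) : ActH_E (σ * τ) m (a * b) := by
  refine ⟨ha.cop.mul_left hb.cop, ?_, ?_⟩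
  · intro c L om hL h
    have e1 : τ ⟨kapE L, h⟩ = ⟨kapE L, h⟩ := Subtype.ext (hb.kapE c L om hL h)
    have e2 : (σ * τ) ⟨kapE L, h⟩ = σ (τ ⟨kapE L, h⟩) := rfl
    rw [e2, e1]
    exact ha.kapE c L om hL h
  · intro c L om hL z hz hzL
    obtain ⟨b1, b2⟩ := hb.ptE c L om hL z hz hzL
    have hbz : emb m * (emb b * z) ∈ L.lattice := by
      rw [mul_left_comm]
      exact emb_mem_E E hL b hz
    obtain ⟨a1, a2⟩ := ha.ptE c L om hL _ hbz b1
    have e : emb (a * b) * z = emb a * (emb b * z) := by rw [E.mul]; ring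
    rw [e]
    refine ⟨a1, fun hx => ?_⟩
    have e1 : (σ * τ) ⟨xnE L z, hx⟩ = σ (τ ⟨xnE L z, hx⟩) := rfl
    have e2 : τ ⟨xnE L z, hx⟩ = ⟨xnE L (emb b * z), xn_mem_E E hF hL hbz b1⟩ := Subtype.ext (b2 hx)
    rw [e1, e2, a2]

lemma act_ext_E (E : EmbF A B) {m : OO A B}
    {σ τ : (RFE (sp m) : IntermediateField (kk A B) ℂ) ≃ₐ[kk A B] RFE (sp m)} {a : OO A B}
    (hσ : ActH_E σ m a) (hτ : ActH_E τ m a) : σ = τ := by
  refine AlgEquiv.ext fun x => Subtype.ext ?_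
  obtain ⟨x, hx⟩ := x
  refine IntermediateField.adjoin_induction (F := kk A B)
    (p := fun x hx => ((σ ⟨x, hx⟩ : (RFE (sp m) : IntermediateField (kk A B) ℂ)) : ℂ) =
      ((τ ⟨x, hx⟩ : (RFE (sp m) : IntermediateField (kk A B) ℂ)) : ℂ)) ?_ ?_ ?_ ?_ ?_ hx
  · rintro x ⟨b, L, om, hL, rfl | ⟨z, hz, hzL, rfl⟩⟩
    · rw [hσ.kapE b L om hL, hτ.kapE b L om hL]
    · have hz' := tor_sp hz
      rw [(hσ.ptE b L om hL z hz' hzL).2, (hτ.ptE b L om hL z hz' hzL).2]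
  · intro r
    exact congrArg Subtype.val ((σ.commutes r).trans (τ.commutes r).symm)
  · intro x y hx hy h1 h2
    have e : (⟨x + y, add_mem hx hy⟩ : (RFE (sp m) : IntermediateField (kk A B) ℂ)) =
      ⟨x, hx⟩ + ⟨y, hy⟩ := rfl
    rw [e, map_add, map_add]
    exact congrArg₂ (· + ·) h1 h2
  · intro x hx h1
    have e : (⟨x⁻¹, inv_mem hx⟩ : (RFE (sp m) : IntermediateField (kk A B) ℂ)) = (⟨x, hx⟩)⁻¹ := rfl
    rw [e, map_inv₀, map_inv₀]
    exact congrArg (·⁻¹) h1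
  · intro x y hx hy h1 h2
    have e : (⟨x * y, mul_mem hx hy⟩ : (RFE (sp m) : IntermediateField (kk A B) ℂ)) =
      ⟨x, hx⟩ * ⟨y, hy⟩ := rfl
    rw [e, map_mul, map_mul]
    exact congrArg₂ (· * ·) h1 h2

lemma act_trH_E (E : EmbF A B) {m : OO A B} (F : IntermediateField (kk A B) ℂ)
    (σ : F ≃ₐ[kk A B] F) (a : OO A B) (hF : RFE (sp m) ≤ F) (ha : ActH_E σ m a) : TrH_E σ := by
  have key : ∀ x : ℂ, x ∈ (RFE (⊤ : Ideal (OO A B)) : IntermediateField (kk A B) ℂ) →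
      ∃ h : x ∈ F, σ ⟨x, h⟩ = ⟨x, h⟩ := by
    intro x hx
    refine IntermediateField.adjoin_induction (F := kk A B)
      (p := fun x _ => ∃ h : x ∈ F, σ ⟨x, h⟩ = ⟨x, h⟩) ?_ ?_ ?_ ?_ ?_ hx
    · rintro x ⟨b, L, om, hL, rfl | ⟨z, hz, hzL, rfl⟩⟩
      · exact ⟨kap_mem_E hF hL, Subtype.ext (ha.kapE b L om hL _)⟩
      · exact absurd (by simpa [E.one] using hz 1 trivial) hzL
    · intro r
      exact ⟨F.algebraMap_mem r, σ.commutes r⟩
    · rintro x y hx hy ⟨hx1, h1⟩ ⟨hy1, h2⟩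
      refine ⟨add_mem hx1 hy1, ?_⟩
      have e : (⟨x + y, add_mem hx1 hy1⟩ : F) = ⟨x, hx1⟩ + ⟨y, hy1⟩ := rfl
      rw [e, map_add, h1, h2]
    · rintro x hx ⟨hx1, h1⟩
      refine ⟨inv_mem hx1, ?_⟩
      have e : (⟨x⁻¹, inv_mem hx1⟩ : F) = (⟨x, hx1⟩)⁻¹ := rfl
      rw [e, map_inv₀, h1]
    · rintro x y hx hy ⟨hx1, h1⟩ ⟨hy1, h2⟩
      refine ⟨mul_mem hx1 hy1, ?_⟩
      have e : (⟨x * y, mul_mem hx1 hy1⟩ : F) = ⟨x, hx1⟩ * ⟨y, hy1⟩ := rfl
      rw [e, map_mul, h1, h2]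
  intro x hx
  obtain ⟨h, h1⟩ := key x hx
  exact h1

lemma act_uniq_E (E : EmbF A B) {L : PeriodPair} {Om : ℂ} (hL : IsNE (⊤ : Ideal (OO A B)) L Om)
    {m : OO A B} (hm : m ≠ 0) (F : IntermediateField (kk A B) ℂ) (σ : F ≃ₐ[kk A B] F)
    (a a' : OO A B) (hF : RFE (sp m) ≤ F) (ha : ActH_E σ m a) (ha' : ActH_E σ m a') :
    m ∣ a - a' ∨ m ∣ a + a' := by
  have hm0 : emb m ≠ 0 := fun h0 => hm (E.inj _ _ (h0.trans E.zero.symm))
  have hdiv : ∀ x : OO A B, emb x * (Om / emb m) ∈ L.lattice → m ∣ x := by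
    intro x hx
    obtain ⟨y, -, hy⟩ := (hL.mem _).1 hx
    refine ⟨y, E.inj _ _ ?_⟩
    rw [E.mul]
    have h0 := hL.om_ne
    field_simp at hy
    rw [hy]
  by_cases hz : Om / emb m ∈ L.lattice
  · left
    have h1 : m ∣ 1 := hdiv 1 (by rw [E.one, one_mul]; exact hz)
    exact h1.trans (one_dvd _)
  · have hz' : emb m * (Om / emb m) ∈ L.lattice := by
      rw [mul_div_cancel₀ _ hm0]
      exact (hL.mem _).2 ⟨1, trivial, by rw [E.one, mul_one]⟩
    obtain ⟨a1, a2⟩ := ha.ptE ⊤ L Om hL _ hz' hz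
    obtain ⟨b1, b2⟩ := ha'.ptE ⊤ L Om hL _ hz' hz
    have e1 := (a2 (xn_mem_E E hF hL hz' hz)).symm.trans (b2 (xn_mem_E E hF hL hz' hz))
    have e2 : L.weierstrassP (emb a * (Om / emb m)) = L.weierstrassP (emb a' * (Om / emb m)) := by
      simpa [xnE] using e1
    rcases b_NEQ L _ _ b1 a1 e2 with h | h
    · left
      apply hdiv
      rw [E.sub, sub_mul]
      exact h
    · right
      apply hdiv
      rw [E.add, add_mul]
      exact h

lemma act_congr_E (E : EmbF A B) {m : OO A B} (F : IntermediateField (kk A B) ℂ)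
    (σ : F ≃ₐ[kk A B] F) (a a' : OO A B) (hd : m ∣ a - a' ∨ m ∣ a + a') (ha : ActH_E σ m a) :
    ActH_E σ m a' := by
  rcases hd with ⟨c, hc⟩ | ⟨c, hc⟩
  · have e : a' = a + m * (-c) := by linear_combination -hc
    refine ⟨?_, ha.kapE, fun b L om hL z hz hzL => ?_⟩
    · rw [e]
      exact ha.cop.add_mul_left_left _
    · obtain ⟨a1, a2⟩ := ha.ptE b L om hL z hz hzL
      have hmem : emb (-c) * (emb m * z) ∈ L.lattice := emb_mem_E E hL (-c) hz
      have e2 : emb a' * z = emb a * z + emb (-c) * (emb m * z) := by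
        rw [e, E.add, E.mul]
        ring
      rw [e2, xn_add_E L _ _ hmem]
      refine ⟨fun hc' => a1 ?_, a2⟩
      have := sub_mem hc' hmem
      simpa using this
  · have e : a' = -(a + m * (-c)) := by linear_combination hc
    have hneg : ∀ x : OO A B, emb (-x) = -emb x := by
      intro x
      have := E.sub 0 x
      rw [zero_sub, E.zero, zero_sub] at this
      exact this
    refine ⟨?_, ha.kapE, fun b L om hL z hz hzL => ?_⟩
    · rw [e]
      exact (ha.cop.add_mul_left_left _).neg_left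
    · obtain ⟨a1, a2⟩ := ha.ptE b L om hL z hz hzL
      have hmem : emb (-c) * (emb m * z) ∈ L.lattice := emb_mem_E E hL (-c) hz
      have e2 : emb a' * z = -(emb a * z + emb (-c) * (emb m * z)) := by
        rw [e, hneg, E.add, E.mul]
        ring
      rw [e2, xn_neg_E, xn_add_E L _ _ hmem]
      refine ⟨fun hc' => a1 ?_, a2⟩
      have := sub_mem (neg_mem hc') hmem
      simpa using this

end ACM

open ACM in
theorem ty_ACM_E (h : Pool.Agent.MUXV.Sq_EMB) : Sy_ACM_E := by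
  intro A B hC L Om hL m hm
  have E := embF h hC
  refine ⟨fun F σ a a' hF => act_uniq_E E hL hm F σ a a' hF, fun F σ a a' => act_congr_E E F σ a a',
    ?_, fun F σ τ a b => act_mul_E E F σ τ a b, fun σ τ a => act_ext_E E, ?_,
    fun F σ a hF => act_trH_E E F σ a hF, ?_⟩
  · intro F σ m' a hd ha
    refine ⟨ha.cop.of_isCoprime_of_dvd_right hd, ha.kapE, fun b L om hL z hz hzL => ?_⟩
    exact ha.ptE b L om hL z (pt_down_E E hL hd hz) hzL
  · intro F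
    refine ⟨isCoprime_one_left, fun b L om hL h => rfl, fun b L om hL z hz hzL => ?_⟩
    rw [E.one, one_mul]
    exact ⟨hzL, fun hx => rfl⟩
  · intro m' σ σ' a hd hσ ha
    refine ⟨ha.cop.of_isCoprime_of_dvd_right hd, fun b L om hL h => ?_,
      fun b L om hL z hz hzL => ?_⟩
    · have hx : kapE L ∈ (RFE (sp m) : IntermediateField (kk A B) ℂ) := kap_mem_E le_rfl hL
      rw [← hσ ⟨kapE L, h⟩ hx]
      exact ha.kapE b L om hL hx
    · have hz' := pt_down_E E hL hd hz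
      obtain ⟨a1, a2⟩ := ha.ptE b L om hL z hz' hzL
      refine ⟨a1, fun h => ?_⟩
      have hx : xnE L z ∈ (RFE (sp m) : IntermediateField (kk A B) ℂ) := xn_mem_E E le_rfl hL hz' hzL
      rw [← hσ ⟨xnE L z, h⟩ hx]
      exact a2 hx

end

end Pool.Agent.MUXW
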