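import Pool.Agent.ME.DefsE2
import Pool.Agent.ME.Lib
import Pool.Agent.MUX.W_CXS
import Pool.Agent.ME.X.StWX2
import Pool.Agent.MUX.UAll
import Pool.Agent.MUX.F_NIM
import Pool.Agent.MUX.F_IDL
import Pool.Agent.MUX.F_ALG
import Pool.Agent.MUX.Q_EMB
import Pool.Agent.MU3.BAll
import Pool.Agent.MU3.A_SCP
/-!
# MUX, block W, module CXS (helper1): half systems of `XX`
-/

set_option autoImplicit false

open WeierstrassCurve Polynomial NumberField IsDedekindDomain

namespace Pool.Agent.MUXW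

open _root_.MU3 Pool.Agent.MU3A Pool.Agent.MU3B Pool.Agent.MU3C Pool.Agent.RI Pool.Agent.RID
open Pool.Agent.MUX Pool.Agent.ME Pool.Agent.MUXU
open Pool.Agent.MU3V (cls Sub GD algDF)
open Pool.Agent.MUXV (GR InK tX CMO Ovr Sq_EMB)

noncomputable section

namespace Cxs

variable {A B : ℤ}

/-- normalised lattices with the same `kapE` are equal -/
lemma lat_eq_E {L L' : PeriodPair} (h : NrmE A B L) (h' : NrmE A B L')
    (hk : kapE L' = kapE L) : L'.lattice = L.lattice := by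
  exact h'.lat_eq h

/-- automorphisms of `RFE I / k` extend_E to `ℂ` -/
lemma extend_E (T : TorXE A B) (I : Ideal (OO A B)) (hI : I ≠ ⊥)
    (σ : (RFE I : IntermediateField (kk A B) ℂ) ≃ₐ[kk A B] RFE I) :
    ∃ s : ℂ ≃+* ℂ, FixK A B s ∧
      ∀ y : (RFE I : IntermediateField (kk A B) ℂ), s (y : ℂ) = ((σ y : RFE I) : ℂ) := by
  have h' : kk A B ≤ (RFE I).restrictScalars ℚ := fun x hx => (RFE I).algebraMap_mem ⟨x, hx⟩
  let τ : letI := algC h'; (RFE I).restrictScalars ℚ ≃ₐ[kk A B] (RFE I).restrictScalars ℚ :=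
    letI := algC h'
    AlgEquiv.ofRingEquiv (f := (σ : RFE I ≃+* RFE I)) (fun r => σ.commutes r)
  obtain ⟨s, hs, hs1⟩ := T.ext I hI ((RFE I).restrictScalars ℚ) h' (fun y hy => hy) τ
  exact ⟨s, hs, fun y => hs1 y⟩

/-- an ideal `a` with `mu L = a L`, `L = om O`, is principal, `mu = emb c`, `a = (c)` -/
lemma princ_E (hq : CQ A B) (L : PeriodPair) (om : ℂ) (hL : IsNE (⊤ : Ideal (OO A B)) L om)
    (a : Ideal (OO A B)) (ha : a ≠ ⊥) (mu : ℂ) (hmu : mu ≠ 0)
    (hisq : ∀ z : ℂ, mu * z ∈ L.lattice ↔ ∀ x ∈ a, emb x * z ∈ L.lattice) :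
    ∃ c : OO A B, mu = emb c ∧ a = sp c := by
  obtain ⟨eM, -, -, -, eN, eI, -, -, -, -, -, -, -⟩ := Pool.Agent.MUXV.tq_EMB A B (toCQ hq)
  have hom : om ≠ 0 := hL.om_ne
  have hmem : ∀ w : ℂ, w ∈ L.lattice ↔ ∃ y : OO A B, w = om * emb y := by
    intro w
    rw [hL.mem]
    constructor
    · rintro ⟨y, -, hy⟩
      exact ⟨y, hy⟩
    · rintro ⟨y, hy⟩
      exact ⟨y, Submodule.mem_top, hy⟩
  have e1 : emb (1 : OO A B) = 1 := by
    have := eN 1
    rwa [Nat.cast_one, Nat.cast_one] at this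
  obtain ⟨c, hc⟩ : ∃ c : OO A B, mu = emb c := by
    have h3 : mu * om ∈ L.lattice :=
      (hisq om).2 (fun x _ => (hmem _).2 ⟨x, mul_comm _ _⟩)
    obtain ⟨c, hc⟩ := (hmem _).1 h3
    exact ⟨c, mul_left_cancel₀ hom (by rw [← hc]; ring)⟩
  have hc0 : emb c ≠ 0 := by rw [← hc]; exact hmu
  have hq' := toCQ hq
  obtain ⟨-, -, hcj, hcan⟩ := MUXF.tx_NIM MUXF.tx_ALG (MUXF.tx_IDL MUXF.tx_ALG) A B hq'
  obtain ⟨hn0, hnn⟩ := MUXF.tx_IDL MUXF.tx_ALG A B hq' a ha
  refine ⟨c, hc, le_antisymm ?_ ?_⟩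
  · intro x hx
    have h3 := (hisq (om / mu)).1 (by
      rw [mul_div_cancel₀ om hmu]
      exact (hmem _).2 ⟨1, by rw [e1, mul_one]⟩) x hx
    obtain ⟨y, hy⟩ := (hmem _).1 h3
    rw [Ideal.mem_span_singleton']
    refine ⟨y, eI _ _ ?_⟩
    rw [eM]
    rw [hc] at hy
    field_simp at hy
    first | exact hy.symm | (rw [mul_comm] at hy; exact hy.symm)
  · have hcb : MUXF.cjI a ≠ ⊥ := (hcj a ha).2.2.1
    refine (hcan (MUXF.cjI a) (sp c) a hcb).1 ?_
    rw [Ideal.mul_le]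
    intro y hy r hr
    obtain ⟨u, rfl⟩ := Ideal.mem_span_singleton'.1 hr
    have h4 : c * y ∈ a * MUXF.cjI a := by
      rw [hnn]
      have hn0' : ((MUXF.nI a : ℕ) : ℂ) ≠ 0 := by exact_mod_cast hn0
      have h5 : mu * (om * emb y / (MUXF.nI a : ℕ)) ∈ L.lattice := by
        rw [hisq]
        intro x hx
        have h6 : x * y ∈ a * MUXF.cjI a := Ideal.mul_mem_mul hx hy
        rw [hnn] at h6
        obtain ⟨v, hv⟩ := Ideal.mem_span_singleton.1 h6
        have h7 := congrArg emb hv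
        rw [eM, eM, eN] at h7
        refine (hmem _).2 ⟨v, ?_⟩
        field_simp
        linear_combination h7
      obtain ⟨v, hv⟩ := (hmem _).1 h5
      refine Ideal.mem_span_singleton.2 ⟨v, eI _ _ ?_⟩
      rw [eM, eM, eN]
      rw [hc] at hv
      field_simp at hv
      apply mul_left_cancel₀ hom
      linear_combination om * hv
    have e : y * (u * c) = u * (c * y) := by ring
    rw [e, mul_comm (MUXF.cjI a) a]
    exact Ideal.mul_mem_left _ _ h4

/-- the base_E point -/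
lemma base_E (hq : CQ A B) {n : ℕ} {ι : Type} (R : RepsE A B n ι) (m : ℕ) (hm : m ≠ 0)
    (y : OO A B) : emb y * Pool.Agent.ME.ptE R m R.i0 1 ∈ (R.L R.i0).lattice ↔
      ((m : ℕ) : OO A B) ∣ y := by
  obtain ⟨eM, -, -, -, eN, eI, -, -, -, -, -, -, -⟩ := Pool.Agent.MUXV.tq_EMB A B (toCQ hq)
  have hom : R.om R.i0 ≠ 0 := (R.nl R.i0).om_ne
  have hm' : (m : ℂ) ≠ 0 := by exact_mod_cast hm
  have e1 : emb (1 : OO A B) = 1 := by
    have := eN 1
    rwa [Nat.cast_one, Nat.cast_one] at this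
  have en : nI (R.b R.i0) = 1 := by
    rw [R.b0]
    unfold nI
    exact Nat.card_unique
  rw [(R.nl R.i0).mem, R.b0]
  unfold Pool.Agent.ME.ptE
  rw [e1, en]
  constructor
  · rintro ⟨v, -, hv⟩
    refine ⟨v, eI _ _ ?_⟩
    rw [eM, eN]
    field_simp at hv
    apply mul_left_cancel₀ hom
    linear_combination (R.om R.i0) * hv
  · rintro ⟨v, rfl⟩
    refine ⟨v, Submodule.mem_top, ?_⟩
    rw [eM, eN]
    field_simp
    push_cast
    ring

/-- two automorphisms of `ℂ / k` which hit the same pair agree on `RFE m` -/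
theorem key_E (hq : CQ A B) (T : TorXE A B) {n : ℕ} {ι : Type} (R : RepsE A B n ι) (m : ℕ)
    (hm : m ≠ 0) (h2m : 2 ∣ m) (h2 : ¬ ((m : ℕ) : OO A B) ∣ 2) (s s' : ℂ ≃+* ℂ) (hs : FixK A B s)
    (hs' : FixK A B s') (i : ι) (x : OO A B) (hh : HitsE R m s i x) (hh' : HitsE R m s' i x) :
    ∀ z ∈ (RFE (idl m) : IntermediateField (kk A B) ℂ), s z = s' z := by
  have hbot := idl_ne (A := A) (B := B) hm
  obtain ⟨eM, eA, eS, -, eN, eI, -, -, -, -, -, -, -⟩ := Pool.Agent.MUXV.tq_EMB A B (toCQ hq)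
  have ht : ∀ y, (s.trans s'.symm) y = s'.symm (s y) := fun y => rfl
  have hk : (s.trans s'.symm) (kapE (R.L R.i0)) = kapE (R.L R.i0) := by
    rw [ht, ← hh.1, hh'.1, RingEquiv.symm_apply_apply]
  have hx : (s.trans s'.symm) (xnE (R.L R.i0) (Pool.Agent.ME.ptE R m R.i0 1)) =
      xnE (R.L R.i0) (Pool.Agent.ME.ptE R m R.i0 1) := by
    rw [ht, hh.2.1, ← hh'.2.1, RingEquiv.symm_apply_apply]
  have hw : FixK A B (s.trans s'.symm) := by
    unfold FixK at hs hs' ⊢
    rw [ht, hs, RingEquiv.symm_apply_eq, hs']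
  obtain ⟨a, hcop, hact⟩ := T.act (idl m) hbot (s.trans s'.symm) hw
  obtain ⟨b', L', om', mu, hL', hI⟩ := hact (R.b R.i0) (R.L R.i0) (R.om R.i0) (R.nl R.i0)
  have hlat : L'.lattice = (R.L R.i0).lattice :=
    lat_eq_E (R.nl R.i0).nrm hL'.nrm (by rw [hI.kapE, hk])
  obtain ⟨hmu, hisq⟩ := hI.isq
  have ha : a ≠ ⊥ := by
    rintro rfl
    have h3 : ((⊥ : Ideal (OO A B)) ⊔ idl m) = ⊤ := Ideal.isCoprime_iff_sup_eq.1 hcop
    rw [bot_sup_eq] at h3
    have h4 : (1 : OO A B) ∈ idl (A := A) (B := B) m := by rw [h3]; trivial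
    exact h2 ((Ideal.mem_span_singleton.1 h4).trans (one_dvd _))
  have hL0 : IsNE (⊤ : Ideal (OO A B)) (R.L R.i0) (R.om R.i0) := by
    have := R.nl R.i0
    rwa [R.b0] at this
  obtain ⟨c, hc, hac⟩ := princ_E hq (R.L R.i0) (R.om R.i0) hL0 a ha mu hmu
    (fun z => by have := hisq z; rwa [hlat] at this)
  have hz : Pool.Agent.ME.ptE R m R.i0 1 ∉ (R.L R.i0).lattice := by
    intro h0
    have h3 := (base_E hq R m hm 1).1 (by
      have e1 : emb (1 : OO A B) = 1 := by
        have := eN 1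
        rwa [Nat.cast_one, Nat.cast_one] at this
      rw [e1, one_mul]
      exact h0)
    exact h2 (h3.trans (one_dvd _))
  have hTz : Tor (idl (A := A) (B := B) m) (R.L R.i0) (Pool.Agent.ME.ptE R m R.i0 1) := by
    intro y hy
    rw [base_E hq R m hm]
    exact Ideal.mem_span_singleton.1 hy
  have hex : ∃ c : OO A B, c - 1 ∈ idl (A := A) (B := B) m ∧ a = sp c := by
    rcases hI.act _ hTz with ⟨h0, -⟩ | ⟨-, hmz, hxz, -⟩
    · exact absurd h0 hz
    · rw [hx] at hxz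
      rw [hlat] at hmz
      have e : (R.L R.i0).weierstrassP (mu * Pool.Agent.ME.ptE R m R.i0 1) =
          (R.L R.i0).weierstrassP (Pool.Agent.ME.ptE R m R.i0 1) := by
        unfold xnE at hxz
        rw [wp_eq hlat] at hxz
        linear_combination -hxz
      rcases b_NEQ _ _ _ hz hmz e with h3 | h3
      · refine ⟨c, ?_, hac⟩
        rw [Ideal.mem_span_singleton, ← base_E hq R m hm, eS]
        have e1 : emb (1 : OO A B) = 1 := by
          have := eN 1
          rwa [Nat.cast_one, Nat.cast_one] at this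
        rw [e1, ← hc, sub_mul, one_mul]
        exact h3
      · refine ⟨-c, ?_, ?_⟩
        · have e2 : -c - 1 = -(c + 1) := by ring
          rw [e2, neg_mem_iff, Ideal.mem_span_singleton, ← base_E hq R m hm, eA]
          have e1 : emb (1 : OO A B) = 1 := by
            have := eN 1
            rwa [Nat.cast_one, Nat.cast_one] at this
          rw [e1, ← hc, add_mul, one_mul]
          exact h3
        · rw [hac]
          exact (Ideal.span_singleton_neg c).symm
  have htr := (T.triv (idl m) a (s.trans s'.symm) (R.b R.i0) (R.L R.i0) L' (R.om R.i0) mu hbot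
    (Or.inl (Ideal.span_singleton_le_span_singleton.2 (Nat.cast_dvd_cast h2m)))
    hw (R.nl R.i0) hI hL'.nrm).2 hex
  intro z hz'
  have := htr z hz'
  rw [ht, RingEquiv.symm_apply_eq] at this
  exact this

end Cxs

open Cxs in
theorem ty_CXS_E (h1 : Sy_HIT_E) (h2 : Sy_THG_E) : Sy_CXS_E := by
  classical
  intro A B hq T n ι R m hm h2m hcop hm2 a H ha hac hH θ hθ D h hD
  letI := algC h
  intro τ
  have hbot := idl_ne (A := A) (B := B) hm
  haveI := T.fin _ hbot
  haveI := T.gal _ hbot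
  obtain ⟨eM, -, -, -, eN, eI, -, -, -, -, -, -, -⟩ := Pool.Agent.MUXV.tq_EMB A B (toCQ hq)
  have e1 : emb (1 : OO A B) = 1 := by
    have := eN 1
    rwa [Nat.cast_one, Nat.cast_one] at this
  -- the base_E point
  have hz : Pool.Agent.ME.ptE R m R.i0 1 ∉ (R.L R.i0).lattice := by
    intro h0
    have h3 := (base_E hq R m hm 1).1 (by rw [e1, one_mul]; exact h0)
    exact hm2 (h3.trans (one_dvd _))
  have hz1 : emb ((m : ℕ) : OO A B) * Pool.Agent.ME.ptE R m R.i0 1 ∈ (R.L R.i0).lattice :=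
    (base_E hq R m hm _).2 (dvd_refl _)
  obtain ⟨hk, hx, hth, hσ, -⟩ := h2 A B hq T (R.b R.i0) (R.L R.i0) (R.om R.i0) (R.nl R.i0)
    ((m : ℕ) : OO A B) (cast_ne hm) (a : ℤ) (H R.i0) (by exact_mod_cast ha) (hH R.i0)
    (Pool.Agent.ME.ptE R m R.i0 1) hz1 hz
  have hθ' : θ = ⟨_, hth⟩ := Subtype.ext hθ
  -- the automorphisms
  haveI : Finite {σ : (RFE (idl m) : IntermediateField (kk A B) ℂ) ≃ₐ[kk A B] RFE (idl m) //
    Ext1 h τ σ} := Subtype.finite
  letI : Fintype {σ : (RFE (idl m) : IntermediateField (kk A B) ℂ) ≃ₐ[kk A B] RFE (idl m) //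
    Ext1 h τ σ} := Fintype.ofFinite _
  choose s hs hsσ using fun σ : {σ : (RFE (idl m) : IntermediateField (kk A B) ℂ) ≃ₐ[kk A B]
    RFE (idl m) // Ext1 h τ σ} => extend_E T _ hbot σ.1
  choose i x hxc hit hx2 hiff using fun σ => h1 A B hq T n ι R m hm hcop hm2 (s σ) (hs σ)
  have hext : ∀ g, ExtC h τ (s g) := by
    intro g y
    have e := g.2 y (hD y y.2)
    rw [← e]
    exact hsσ g ⟨y, hD y y.2⟩
  have hinj : ∀ g g', (∃ j y, HitsE R m (s g) j y ∧ HitsE R m (s g') j y) → g = g' := by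
    rintro g g' ⟨j, y, h3, h4⟩
    have h5 := key_E hq T R m hm h2m hm2 (s g) (s g') (hs g) (hs g') j y h3 h4
    apply Subtype.ext
    apply AlgEquiv.ext
    intro w
    apply Subtype.ext
    rw [← hsσ g w, ← hsσ g' w]
    exact h5 w w.2
  let q : {σ : (RFE (idl m) : IntermediateField (kk A B) ℂ) ≃ₐ[kk A B] RFE (idl m) //
    Ext1 h τ σ} → ι × (OO A B ⧸ idl (A := A) (B := B) m) :=
    fun g => (i g, Ideal.Quotient.mk (idl m) (x g))
  have hqinj : Function.Injective q := by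
    intro g g' hgg
    have h3 : i g = i g' := congrArg Prod.fst hgg
    have h4 : Ideal.Quotient.mk (idl (A := A) (B := B) m) (x g) =
      Ideal.Quotient.mk (idl m) (x g') := congrArg Prod.snd hgg
    refine hinj g g' ⟨i g, x g, hit g, (hiff g' _ _).2 ⟨h3, Or.inl ?_⟩⟩
    exact Ideal.mem_span_singleton.1 (Ideal.Quotient.eq.1 h4)
  refine ⟨Finset.univ.image q, ?_, ?_, ?_⟩
  · intro p
    constructor
    · rintro ⟨hc, s', hs', he', hh'⟩
      let s'' : ℂ ≃ₐ[kk A B] ℂ := AlgEquiv.ofRingEquiv (f := s') (fun r => fixk hs' _ r.2)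
      have e2 : ∀ y : (RFE (idl m) : IntermediateField (kk A B) ℂ),
          ((s''.restrictNormal (RFE (idl m)) y : (RFE (idl m) : IntermediateField (kk A B) ℂ)) : ℂ)
            = s' y := fun y => AlgEquiv.restrictNormal_commutes s'' (RFE (idl m)) y
      let g : {σ : (RFE (idl m) : IntermediateField (kk A B) ℂ) ≃ₐ[kk A B] RFE (idl m) //
          Ext1 h τ σ} := ⟨s''.restrictNormal (RFE (idl m)), fun y hy => by
        rw [e2]
        exact he' y⟩
      have e3 : ∀ y : (RFE (idl m) : IntermediateField (kk A B) ℂ), s g y = s' y := by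
        intro y
        rw [hsσ g y]
        exact e2 y
      have e4 : HitsE R m (s g) p.1 (Quotient.out p.2) := by
        refine ⟨?_, ?_, hh'.2.2⟩
        · rw [hh'.1]
          exact (e3 ⟨_, hk⟩).symm
        · rw [← hh'.2.1]
          exact e3 ⟨_, hx⟩
      obtain ⟨e5, e6 | e6⟩ := (hiff g _ _).1 e4
      · left
        rw [Finset.mem_image]
        refine ⟨g, Finset.mem_univ _, Prod.ext e5.symm ?_⟩
        show Ideal.Quotient.mk (idl m) (x g) = p.2
        rw [← Ideal.Quotient.mk_out p.2]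
        exact (mk_eq e6).symm
      · right
        rw [Finset.mem_image]
        refine ⟨g, Finset.mem_univ _, Prod.ext e5.symm ?_⟩
        show Ideal.Quotient.mk (idl m) (x g) = -p.2
        rw [← Ideal.Quotient.mk_out p.2, ← map_neg]
        apply mk_eq
        have e : x g - -Quotient.out p.2 = Quotient.out p.2 + x g := by ring
        rw [e]
        exact e6
    · rintro (h3 | h3)
      · obtain ⟨g, -, hg⟩ := Finset.mem_image.1 h3
        have h4 : i g = p.1 := congrArg Prod.fst hg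
        have h5 : Ideal.Quotient.mk (idl m) (x g) = p.2 := congrArg Prod.snd hg
        have h6 := out_dvd p.2 (x g) h5.symm
        exact ⟨cop_of (hxc g) h6, s g, hs g, hext g, (hiff g _ _).2 ⟨h4.symm, Or.inl h6⟩⟩
      · obtain ⟨g, -, hg⟩ := Finset.mem_image.1 h3
        have h4 : i g = p.1 := congrArg Prod.fst hg
        have h5 : Ideal.Quotient.mk (idl m) (x g) = -p.2 := congrArg Prod.snd hg
        have h6 := out_dvd p.2 (-x g) (by rw [map_neg, h5, neg_neg])
        refine ⟨cop_of (hxc g).neg_left h6, s g, hs g, hext g,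
          (hiff g _ _).2 ⟨h4.symm, Or.inr ?_⟩⟩
        rwa [sub_neg_eq_add] at h6
  · intro p hp hp'
    obtain ⟨g, -, hg⟩ := Finset.mem_image.1 hp
    obtain ⟨g', -, hg'⟩ := Finset.mem_image.1 hp'
    have h4 : i g = p.1 := congrArg Prod.fst hg
    have h5 : Ideal.Quotient.mk (idl m) (x g) = p.2 := congrArg Prod.snd hg
    have h4' : i g' = p.1 := congrArg Prod.fst hg'
    have h5' : Ideal.Quotient.mk (idl m) (x g') = -p.2 := congrArg Prod.snd hg'
    have h6 : ((m : ℕ) : OO A B) ∣ x g' + x g := by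
      apply Ideal.mem_span_singleton.1
      apply Ideal.Quotient.eq_zero_iff_mem.1
      rw [map_add, h5, h5', neg_add_cancel]
    have h7 : g = g' := hinj g g' ⟨i g', x g', (hiff g _ _).2 ⟨by rw [h4, h4'], Or.inr h6⟩,
      hit g'⟩
    rw [← h7] at h6
    exact hx2 g (by rw [two_mul]; exact h6)
  · rw [cWt, finprod_eq_prod_of_fintype, Finset.prod_image hqinj.injOn]
    refine Finset.prod_congr rfl fun g _ => ?_
    have h3 : HitsE R m (s g) (i g) (Quotient.out (Ideal.Quotient.mk (idl m) (x g))) :=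
      (hiff g _ _).2 ⟨rfl, Or.inl (out_dvd _ _ rfl)⟩
    rw [hθ']
    refine hσ g.1 (R.b (i g)) (R.L (i g)) (R.om (i g)) (H (i g))
      (Pool.Agent.ME.ptE R m (i g) (Quotient.out (Ideal.Quotient.mk (idl m) (x g))))
      (R.nl _) (hH _) h3.2.2 ?_ ?_
    · rw [h3.1]
      exact (hsσ g ⟨_, hk⟩).symm
    · rw [← h3.2.1]
      exact (hsσ g ⟨_, hx⟩).symm

end

end Pool.Agent.MUXW
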