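import Pool.Agent.ME.DefsE2
import Pool.Agent.ME.Lib
import Pool.Agent.MUX.W_CXW
import Pool.Agent.ME.X.StWX
/-!
# MUX, block W, module CXW: the product over `XX` is the square of `cWt` (helper86)
-/

set_option autoImplicit false

open WeierstrassCurve Polynomial NumberField IsDedekindDomain

namespace Pool.Agent.MUXW

open _root_.MU3 Pool.Agent.MU3A Pool.Agent.MU3B Pool.Agent.MU3C Pool.Agent.RI Pool.Agent.RID
open Pool.Agent.MUX Pool.Agent.ME Pool.Agent.MUXU
open Pool.Agent.MU3V (cls Sub GD algDF cls_out cls_eq_iff)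
open Pool.Agent.MUXV (Sq_EMB)

noncomputable section

namespace CXW

variable {A B : ℤ}

/-- restriction to `F_m` -/
lemma restr_E (hT : TorXE A B) {m : Ideal (OO A B)} (hm : m ≠ ⊥) {s : ℂ ≃+* ℂ}
    (hs : FixK A B s) :
    ∃ σ : (RFE m : IntermediateField (kk A B) ℂ) ≃ₐ[kk A B] RFE m,
      ∀ y : (RFE m : IntermediateField (kk A B) ℂ),
        ((σ y : (RFE m : IntermediateField (kk A B) ℂ)) : ℂ) = s y := by
  haveI := hT.fin m hm
  haveI := hT.gal m hm
  let s' : ℂ ≃ₐ[kk A B] ℂ := AlgEquiv.ofRingEquiv (f := s) (fun r => fixk hs _ r.2)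
  exact ⟨s'.restrictNormal (RFE m), fun y => AlgEquiv.restrictNormal_commutes s' (RFE m) y⟩

/-- extension to `ℂ` -/
lemma extn_E (hT : TorXE A B) {m : Ideal (OO A B)} (hm : m ≠ ⊥)
    (σ : (RFE m : IntermediateField (kk A B) ℂ) ≃ₐ[kk A B] RFE m) :
    ∃ s : ℂ ≃+* ℂ, FixK A B s ∧ ∀ y : (RFE m : IntermediateField (kk A B) ℂ),
      s y = ((σ y : (RFE m : IntermediateField (kk A B) ℂ)) : ℂ) := by
  let D : IntermediateField ℚ ℂ :=
    (RFE m : IntermediateField (kk A B) ℂ).restrictScalars ℚ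
  have hkD : kk A B ≤ D := fun x hx =>
    (RFE m : IntermediateField (kk A B) ℂ).algebraMap_mem ⟨x, hx⟩
  letI := algC hkD
  let f : D ≃+* D :=
    { toFun := fun y => σ y
      invFun := fun y => σ.symm y
      left_inv := fun y => σ.symm_apply_apply y
      right_inv := fun y => σ.apply_symm_apply y
      map_mul' := fun x y => map_mul σ x y
      map_add' := fun x y => map_add σ x y }
  let τ : D ≃ₐ[kk A B] D := AlgEquiv.ofRingEquiv (f := f) (fun r => σ.commutes r)
  obtain ⟨s, hs, h1⟩ := hT.ext m hm D hkD (fun y hy => hy) τ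
  exact ⟨s, hs, fun y => h1 ⟨y, y.2⟩⟩

/-- an automorphism fixing `κ` and the coordinate of the base point is trivial on `F_m` -/
lemma triv_of_E (hEMB : Sq_EMB) (hCQ : CQ A B) (hT : TorXE A B) {m : ℕ} (hm : m ≠ 0)
    (h2m : 2 ∣ m)
    {L : PeriodPair} {om : ℂ} (hL : IsNE (⊤ : Ideal (OO A B)) L om) {t : ℂ ≃+* ℂ}
    (ht : FixK A B t) (hk : t (kapE L) = kapE L) (hx : t (xnE L (om / m)) = xnE L (om / m))
    (hz : om / m ∉ L.lattice) :
    ∀ y ∈ (RFE (idl m) : IntermediateField (kk A B) ℂ), t y = y := by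
  obtain ⟨emul, eadd, esub, eint, enat, einj, -, -, -, -, -, -, hdom⟩ :=
    hEMB A B ⟨hCQ.hB, hCQ.neg, hCQ.fund1, hCQ.fund0⟩
  haveI := hdom
  have eone : emb (1 : OO A B) = 1 := by
    have := enat 1
    rwa [Nat.cast_one, Nat.cast_one] at this
  have ezero : emb (0 : OO A B) = 0 := by
    have := enat 0
    rwa [Nat.cast_zero, Nat.cast_zero] at this
  have mC : ((m : ℕ) : ℂ) ≠ 0 := Nat.cast_ne_zero.2 hm
  have mO : ((m : ℕ) : OO A B) ≠ 0 := by
    intro h
    apply mC
    rw [← enat m, h, ezero]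
  have hm' : idl (A := A) (B := B) m ≠ ⊥ := by
    intro h
    rw [Ideal.span_singleton_eq_bot] at h
    exact mO h
  obtain ⟨a, hac, hact⟩ := hT.act (idl m) hm' t ht
  obtain ⟨b', L', om', mu, hL', hA⟩ := hact ⊤ L om hL
  have e1 : kapE L' = kapE L := hA.kapE.trans hk
  have hlat : L'.lattice = L.lattice := hL'.nrm.lat_eq hL.nrm
  have hsc := (Pool.Agent.MU3A.ta_SCP L L' 1 one_ne_zero
    (fun u => by rw [one_mul, hlat])).1
  have hP : ∀ z, L'.weierstrassP z = L.weierstrassP z := fun z => by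
    have := hsc z
    rwa [one_mul, one_pow, div_one] at this
  have hmem : ∀ z ∈ L.lattice, ∀ x : OO A B, emb x * z ∈ L.lattice := by
    intro z hz x
    obtain ⟨y, -, rfl⟩ := (hL.mem z).1 hz
    exact (hL.mem _).2 ⟨x * y, trivial, by rw [emul]; ring⟩
  have hT1 : ActE t ⊤ a L L' mu :=
    ⟨hA.kapE, cop_top _, hA.isq, fun z hz => hA.act z (fun x _ => hz x trivial)⟩
  have hT2 : ActE t (⊤ : Ideal (OO A B)) ⊤ L L' 1 := by
    refine ⟨hA.kapE, cop_top _, ⟨one_ne_zero, fun z => ?_⟩, fun z hz => ?_⟩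
    · rw [one_mul, hlat]
      constructor
      · intro hz x _
        exact hmem z hz x
      · intro hz
        have := hz 1 trivial
        rwa [eone, one_mul] at this
    · have h1 := hz 1 trivial
      rw [eone, one_mul] at h1
      left
      rw [one_mul, hlat]
      exact ⟨h1, h1⟩
  obtain ⟨x, y, -, hx0, hy0, -, hxy, hmu⟩ := hT.uniq ⊤ a ⊤ t L L' mu 1 top_ne_bot
    ⟨⊤, om, hL⟩ hT1 hT2
  rw [Ideal.mul_top] at hxy
  have hyc : y ∈ sp x * a := by
    rw [hxy]
    exact Ideal.mem_span_singleton_self y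
  obtain ⟨c, hca, hc⟩ := Ideal.mem_span_singleton_mul.1 hyc
  have hasp : a = sp c := by
    rw [← hc] at hxy
    have hxy' : Ideal.span {x} * a = Ideal.span {x} * Ideal.span {c} := by
      rw [Ideal.span_singleton_mul_span_singleton]
      exact hxy
    exact (Ideal.span_singleton_mul_right_inj hx0).1 hxy'
  have hex : emb x ≠ 0 := fun h => hx0 (einj _ _ (h.trans ezero.symm))
  have hey : emb y ≠ 0 := fun h => hy0 (einj _ _ (h.trans ezero.symm))
  have hmuc : mu = emb c := by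
    rw [← hc, emul] at hmu hey
    rw [eq_div_iff hey, one_mul] at hmu
    have h1 := mul_left_cancel₀ hex (hmu.trans (mul_comm mu (emb x)))
    exact h1.symm
  have hTor : Tor (idl (A := A) (B := B) m) L (om / m) := by
    intro w hw
    obtain ⟨w', rfl⟩ := Ideal.mem_span_singleton'.1 hw
    refine (hL.mem _).2 ⟨w', trivial, ?_⟩
    rw [emul, enat]
    field_simp
  rw [hT.triv (idl m) a t ⊤ L L' om mu hm'
    (Or.inl (Ideal.span_singleton_le_span_singleton.2 (Nat.cast_dvd_cast h2m))) ht hL hA hL'.nrm]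
  rcases hA.act _ hTor with ⟨h1, -⟩ | ⟨-, h1, h2, -⟩
  · exact absurd h1 hz
  rw [hmuc, hlat] at h1
  rw [hx, hmuc] at h2
  have h3 : L.weierstrassP (emb c * (om / m)) = L.weierstrassP (om / m) := by
    unfold xnE at h2
    rw [hP] at h2
    linear_combination -h2
  have hdiv : ∀ w : OO A B, emb w * (om / m) ∈ L.lattice → w ∈ idl (A := A) (B := B) m := by
    intro w hw
    obtain ⟨v, -, hv⟩ := (hL.mem _).1 hw
    refine Ideal.mem_span_singleton'.2 ⟨v, einj _ _ ?_⟩
    rw [emul, enat]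
    have hom := hL.om_ne
    field_simp at hv
    linear_combination -hv
  rcases Pool.Agent.MU3B.b_NEQ L (om / m) (emb c * (om / m)) hz h1 h3 with h4 | h4
  · refine ⟨c, hdiv _ ?_, hasp⟩
    rw [esub, eone, sub_mul, one_mul]
    exact h4
  · refine ⟨-c, ?_, ?_⟩
    · have h5 : -c - 1 = -(c + 1) := by ring
      rw [h5]
      refine (idl (A := A) (B := B) m).neg_mem (hdiv _ ?_)
      rw [eadd, eone, add_mul, one_mul]
      exact h4
    · rw [hasp]
      exact (Ideal.span_singleton_neg c).symm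

/-- an automorphism hits one pair only, and is determined on `F_m` by it -/
lemma same_of_E (hEMB : Sq_EMB) (hCQ : CQ A B) (hT : TorXE A B) {n : ℕ} {ι : Type}
    (R : RepsE A B n ι) {m : ℕ} (hm : m ≠ 0) (h2m : 2 ∣ m)
    (hpt : Pool.Agent.ME.ptE R m R.i0 1 = R.om R.i0 / m)
    (hz : Pool.Agent.ME.ptE R m R.i0 1 ∉ (R.L R.i0).lattice) {s s' : ℂ ≃+* ℂ}
    (hs : FixK A B s) (hs' : FixK A B s') {i : ι} {x : OO A B} (h : HitsE R m s i x)
    (h' : HitsE R m s' i x) :
    ∀ y ∈ (RFE (idl m) : IntermediateField (kk A B) ℂ), s y = s' y := by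
  have hL : IsNE (⊤ : Ideal (OO A B)) (R.L R.i0) (R.om R.i0) := by
    have := R.nl R.i0
    rwa [R.b0] at this
  have h1 := triv_of_E hEMB hCQ hT hm h2m hL (t := s.trans s'.symm) ?_ ?_ ?_ ?_
  · intro y hy
    have h2 := h1 y hy
    rw [RingEquiv.trans_apply, RingEquiv.symm_apply_eq] at h2
    exact h2
  · unfold FixK at hs hs' ⊢
    rw [RingEquiv.trans_apply, hs, RingEquiv.symm_apply_eq, hs']
  · rw [RingEquiv.trans_apply, RingEquiv.symm_apply_eq, ← h.1, ← h'.1]
  · rw [← hpt, RingEquiv.trans_apply, RingEquiv.symm_apply_eq, h.2.1, h'.2.1]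
  · rwa [hpt] at hz

end CXW

open CXW in
theorem ty_CXW_E (h1 : Sy_HIT_E) (h2 : Sy_THG_E) (h4 : Sq_EMB) : Sy_CXW_E := by
  intro A B hCQ hT n ι R m hm h2m' hco h2m a H ha ham hH θ hθ D h hD
  letI := algC h
  intro τ
  obtain ⟨emul, eadd, esub, eint, enat, einj, -, -, -, -, -, -, hdom⟩ :=
    h4 A B ⟨hCQ.hB, hCQ.neg, hCQ.fund1, hCQ.fund0⟩
  haveI := hdom
  have eone : emb (1 : OO A B) = 1 := by
    have := enat 1
    rwa [Nat.cast_one, Nat.cast_one] at this
  have ezero : emb (0 : OO A B) = 0 := by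
    have := enat 0
    rwa [Nat.cast_zero, Nat.cast_zero] at this
  have mC : ((m : ℕ) : ℂ) ≠ 0 := Nat.cast_ne_zero.2 hm
  have mO : ((m : ℕ) : OO A B) ≠ 0 := by
    intro h
    apply mC
    rw [← enat m, h, ezero]
  have hm' : idl (A := A) (B := B) m ≠ ⊥ := by
    intro h
    rw [Ideal.span_singleton_eq_bot] at h
    exact mO h
  have hL : IsNE (⊤ : Ideal (OO A B)) (R.L R.i0) (R.om R.i0) := by
    have := R.nl R.i0
    rwa [R.b0] at this
  have hnI : nI (R.b R.i0) = 1 := by
    rw [R.b0]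
    unfold nI
    exact Nat.card_of_subsingleton (0 : OO A B ⧸ (⊤ : Ideal (OO A B)))
  have hpt : Pool.Agent.ME.ptE R m R.i0 1 = R.om R.i0 / m := by
    unfold Pool.Agent.ME.ptE
    rw [hnI, eone, Nat.cast_one, mul_one, mul_one]
  have hz : Pool.Agent.ME.ptE R m R.i0 1 ∉ (R.L R.i0).lattice := by
    rw [hpt]
    intro h0
    obtain ⟨w, -, hw⟩ := (hL.mem _).1 h0
    apply h2m
    have hom := hL.om_ne
    field_simp at hw
    have h5 : ((m : ℕ) : OO A B) * w = 1 := by
      apply einj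
      rw [emul, enat, eone]
      exact hw.symm
    exact ⟨w * 2, by rw [← mul_assoc, h5, one_mul]⟩
  have hzm : emb ((m : ℕ) : OO A B) * Pool.Agent.ME.ptE R m R.i0 1 ∈ (R.L R.i0).lattice := by
    rw [enat, hpt]
    refine (hL.mem _).2 ⟨1, trivial, ?_⟩
    rw [eone]
    field_simp
  obtain ⟨hk, hx, hzz, hTH, -⟩ := h2 A B hCQ hT ⊤ (R.L R.i0) (R.om R.i0) hL
    ((m : ℕ) : OO A B) mO (a : ℤ) (H R.i0) (by exact_mod_cast ha)
    (by rw [Int.cast_natCast]; exact hH R.i0) _ hzm hz
  -- `HitsE` depends only on the restriction to `F_m`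
  have htr : ∀ s s' : ℂ ≃+* ℂ,
      (∀ y : (RFE (idl m) : IntermediateField (kk A B) ℂ), s y = s' y) →
      ∀ i x, HitsE R m s i x → HitsE R m s' i x := by
    intro s s' hss i x hx'
    refine ⟨?_, ?_, hx'.2.2⟩
    · rw [hx'.1]; exact hss ⟨_, hk⟩
    · rw [← hx'.2.1]; exact (hss ⟨_, hx⟩).symm
  haveI := hT.fin _ hm'
  let S : Type := {σ : (RFE (idl m) : IntermediateField (kk A B) ℂ) ≃ₐ[kk A B]
    RFE (idl (A := A) (B := B) m) // Ext1 h τ σ}
  haveI : Finite S := Subtype.finite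
  haveI : Fintype S := Fintype.ofFinite S
  choose s hs hsv using fun σ : S => extn_E hT hm' σ.1
  choose I X hXc hXh hX2 hXi using fun σ : S => h1 A B hCQ hT n ι R m hm hco h2m (s σ) (hs σ)
  let sg : S → Bool → OO A B := fun σ b => if b then X σ else -X σ
  have hsg : ∀ (σ : S) (b : Bool) (y : OO A B), ((m : ℕ) : OO A B) ∣ y - sg σ b →
      HitsE R m (s σ) (I σ) y := by
    intro σ b y hy
    rw [hXi]
    refine ⟨rfl, ?_⟩
    cases b
    · right
      have : y - sg σ false = y + X σ := by simp [sg]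
      rwa [this] at hy
    · left
      have : y - sg σ true = y - X σ := by simp [sg]
      rwa [this] at hy
  let g : S × Bool → ι × (OO A B ⧸ idl (A := A) (B := B) m) := fun q =>
    (I q.1, cls ((m : ℕ) : OO A B) (sg q.1 q.2))
  have hout : ∀ (σ : S) (b : Bool), ((m : ℕ) : OO A B) ∣
      Quotient.out (cls ((m : ℕ) : OO A B) (sg σ b)) - sg σ b := fun σ b =>
    cls_eq_iff.1 (cls_out _)
  have hginj : Function.Injective g := by
    rintro ⟨σ, b⟩ ⟨σ', b'⟩ e
    obtain ⟨e1, e2⟩ := Prod.mk.inj e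
    have e3 := cls_eq_iff.1 e2
    have h5 : HitsE R m (s σ) (I σ) (sg σ b) := hsg σ b _ (by simp)
    have h6 : HitsE R m (s σ') (I σ) (sg σ b) := by
      have := hsg σ' b' (sg σ b) e3
      rwa [← e1] at this
    have h7 := same_of_E h4 hCQ hT R hm h2m' hpt hz (hs σ) (hs σ') h5 h6
    have h8 : σ = σ' := by
      apply Subtype.ext
      apply AlgEquiv.ext
      intro y
      apply Subtype.ext
      rw [← hsv, ← hsv]
      exact h7 y y.2
    subst h8
    rw [Prod.mk.injEq]
    refine ⟨rfl, ?_⟩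
    have h9 := hX2 σ
    cases b <;> cases b' <;> simp only [sg, if_true, if_false, Bool.false_eq_true] at e3 ⊢
    · exfalso
      apply h9
      have : -X σ - X σ = -(2 * X σ) := by ring
      rw [this, dvd_neg] at e3
      exact e3
    · exfalso
      apply h9
      have : X σ - -X σ = 2 * X σ := by ring
      rwa [this] at e3
  have hrange : XXE R m h τ = Set.range g := by
    ext ⟨j, c⟩
    constructor
    · rintro ⟨hc, σc, hσc, hE, hHit⟩
      obtain ⟨σ, hσ⟩ := restr_E hT hm' hσc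
      have hσE : Ext1 h τ σ := by
        intro y hy
        rw [hσ]
        exact hE y
      have h5 : ∀ y : (RFE (idl m) : IntermediateField (kk A B) ℂ), σc y = s ⟨σ, hσE⟩ y := by
        intro y
        rw [hsv, hσ]
      have h6 := htr σc (s ⟨σ, hσE⟩) h5 _ _ hHit
      rw [hXi] at h6
      obtain ⟨e1, e2⟩ := h6
      rcases e2 with e2 | e2
      · refine ⟨(⟨σ, hσE⟩, true), ?_⟩
        refine Prod.ext e1.symm ?_
        show cls ((m : ℕ) : OO A B) (sg ⟨σ, hσE⟩ true) = c
        rw [← cls_out c, eq_comm, cls_eq_iff]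
        simpa [sg] using e2
      · refine ⟨(⟨σ, hσE⟩, false), ?_⟩
        refine Prod.ext e1.symm ?_
        show cls ((m : ℕ) : OO A B) (sg ⟨σ, hσE⟩ false) = c
        rw [← cls_out c, eq_comm, cls_eq_iff]
        simpa [sg] using e2
    · rintro ⟨⟨σ, b⟩, hq⟩
      obtain ⟨rfl, rfl⟩ := Prod.mk.inj hq
      refine ⟨?_, s σ, hs σ, ?_, hsg σ b _ (hout σ b)⟩
      · obtain ⟨w, hw⟩ := hout σ b
        have e1 : Quotient.out (cls ((m : ℕ) : OO A B) (sg σ b)) =
            sg σ b + ((m : ℕ) : OO A B) * w := by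
          rw [← hw]; ring
        have e2 : IsCoprime (sg σ b) ((m : ℕ) : OO A B) := by
          cases b
          · simpa [sg] using (hXc σ).neg_left
          · simpa [sg] using hXc σ
        show IsCoprime (Quotient.out (cls ((m : ℕ) : OO A B) (sg σ b))) _
        rw [e1]
        exact e2.add_mul_left_left w
      · intro y
        have h5 := σ.2 y (hD y y.2)
        rw [← hsv] at h5
        exact h5
  have hval : ∀ q : S × Bool, ThetaH (R.L (g q).1) (H (g q).1)
      (Pool.Agent.ME.ptE R m (g q).1 (Quotient.out (g q).2)) =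
      ((q.1.1 θ : (RFE (idl m) : IntermediateField (kk A B) ℂ)) : ℂ) := by
    rintro ⟨σ, b⟩
    have h5 : HitsE R m (s σ) (I σ) (Quotient.out (cls ((m : ℕ) : OO A B) (sg σ b))) :=
      hsg σ b _ (hout σ b)
    have h6 := hTH σ.1 (R.b (I σ)) (R.L (I σ)) (R.om (I σ)) (H (I σ))
      (Pool.Agent.ME.ptE R m (I σ) (Quotient.out (cls ((m : ℕ) : OO A B) (sg σ b))))
      (R.nl _) (by rw [Int.cast_natCast]; exact hH _) h5.2.2
      (by rw [← hsv]; exact h5.1.symm) (by rw [← hsv]; exact h5.2.1)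
    have h7 : θ = ⟨_, hzz⟩ := Subtype.ext hθ
    show _ = ((σ.1 θ : (RFE (idl m) : IntermediateField (kk A B) ℂ)) : ℂ)
    rw [h7]
    exact h6.symm
  unfold cXE cWt
  rw [hrange, finprod_mem_range hginj, finprod_congr hval, finprod_eq_prod_of_fintype,
    Fintype.prod_prod_type, finprod_eq_prod_of_fintype]
  simp only [Finset.prod_const, Finset.card_univ, Fintype.card_bool]
  rw [Finset.prod_pow]

end

end Pool.Agent.MUXW
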