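import Pool.Agent.ME.DefsE2
import Pool.Agent.ME.Lib
import Pool.Agent.MUX.W_KER
import Pool.Agent.ME.X.StWX
import Pool.Agent.ME.WLib
/-!
# MUX, block W, module KER (helper65): the automorphisms of `F_m / H`
-/

set_option autoImplicit false

open WeierstrassCurve Polynomial NumberField IsDedekindDomain

namespace Pool.Agent.MUXW

open _root_.MU3 Pool.Agent.MU3A Pool.Agent.MU3B Pool.Agent.MU3C Pool.Agent.RI Pool.Agent.RID
open Pool.Agent.MUX Pool.Agent.ME Pool.Agent.MUXU
open Pool.Agent.MU3V (cls Sub GD algDF)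
open Pool.Agent.MUXV (GR InK tX CMO Ovr)

noncomputable section

namespace KER

/-- from `ActE` to `ActH_E` -/
lemma mk_E {A B : ℤ} (hC : CQ A B) {m c : OO A B} {a : Ideal (OO A B)}
    {F : IntermediateField (kk A B) ℂ}
    (σ : F ≃ₐ[kk A B] F) (s : ℂ ≃+* ℂ) (hσ : ∀ y : F, ((σ y : F) : ℂ) = s y)
    (hc : IsCoprime c m)
    (h : ∀ (M M' : PeriodPair), NrmE A B M → NrmE A B M' → ActE s (sp m) a M M' (emb c)) :
    ActH_E σ m c := by
  refine ⟨hc, fun b L om hL hk => ?_, fun b L om hL z hz hz' => ?_⟩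
  · rw [hσ]
    exact hL.nrm.fixk s
  · have ht : Tor (sp m) L z := by
      intro x hx
      obtain ⟨y, rfl⟩ := Ideal.mem_span_singleton'.1 hx
      rw [Pool.Agent.MUX.emb_mul hC, mul_assoc]
      exact hL.toIsLI.hasCM hC y _ hz
    obtain ⟨h8, h9, -⟩ := act_pt (h L L hL.nrm hL.nrm) ht hz'
    exact ⟨h8, fun hx => by rw [hσ]; exact h9⟩

end KER

open KER in
theorem ty_KER_E : Sy_KER_E := by
  intro A B hC T m hm
  have hQ := hC.toCQ
  have hm0 : (sp m : Ideal (OO A B)) ≠ ⊥ := by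
    rwa [Ne, Ideal.span_singleton_eq_bot]
  constructor
  · intro σ _
    let D : IntermediateField ℚ ℂ :=
      (RFE (sp m) : IntermediateField (kk A B) ℂ).restrictScalars ℚ
    have hle : kk A B ≤ D := fun x hx =>
      (RFE (sp m) : IntermediateField (kk A B) ℂ).algebraMap_mem ⟨x, hx⟩
    have hDy : ∀ y ∈ D, y ∈ (RFE (sp m) : IntermediateField (kk A B) ℂ) := fun y hy => hy
    letI := algC hle
    let τ : D ≃ₐ[kk A B] D := AlgEquiv.ofRingEquiv (f := (σ.toRingEquiv : D ≃+* D))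
      (fun r => σ.commutes r)
    obtain ⟨s, hs, hs1⟩ := T.ext (sp m) hm0 D hle hDy τ
    have hs2 : ∀ y : (RFE (sp m) : IntermediateField (kk A B) ℂ),
        ((σ y : (RFE (sp m) : IntermediateField (kk A B) ℂ)) : ℂ) = s y := fun y =>
      (hs1 y).symm
    obtain ⟨c, hcop, -, hA⟩ := actW hC T hm0 hs
    exact ⟨c, mk_E hQ σ s hs2 ((Ideal.isCoprime_span_singleton_iff c m).1 hcop) hA⟩
  · intro a ha h2m h2a
    have h2 : (sp m : Ideal (OO A B)) ≤ idl 2 := by
      rw [Ideal.span_singleton_le_span_singleton]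
      exact_mod_cast h2m
    have h2' : a - 1 ∈ idl (A := A) (B := B) 2 := by
      rw [Ideal.mem_span_singleton]
      exact_mod_cast h2a
    obtain ⟨s, hs, c, hc, hA⟩ := surjW hC T hm0 h2
      ((Ideal.isCoprime_span_singleton_iff a m).2 ha) h2'
    have := T.fin (sp m) hm0
    have := T.gal (sp m) hm0
    let s' : ℂ ≃ₐ[kk A B] ℂ := AlgEquiv.ofRingEquiv (f := s) (fun r => KER.fix hs _ r.2)
    have hs' : ∀ y : (RFE (sp m) : IntermediateField (kk A B) ℂ),
        ((s'.restrictNormal (RFE (sp m)) y : (RFE (sp m) : IntermediateField (kk A B) ℂ)) : ℂ) =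
          s y := fun y => AlgEquiv.restrictNormal_commutes s' (RFE (sp m)) y
    rcases hc with rfl | rfl
    · exact ⟨s'.restrictNormal (RFE (sp m)), mk_E hQ _ s hs' ha hA⟩
    · have ha' : IsCoprime (-a) m := ha.neg_left
      have h1 := mk_E hQ _ s hs' ha' hA
      refine ⟨s'.restrictNormal (RFE (sp m)), ha, h1.kapE, fun b L om hL z hz hz' => ?_⟩
      obtain ⟨g1, g2⟩ := h1.ptE b L om hL z hz hz'
      rw [Pool.Agent.MUX.emb_neg hQ, neg_mul] at g1 g2
      refine ⟨fun h => g1 (neg_mem h), fun hx => ?_⟩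
      rw [g2 hx]
      unfold xnE
      rw [L.weierstrassP_neg]

end

end Pool.Agent.MUXW
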