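import Pool.Agent.MUX.W_FRH
import Pool.Agent.ME.X.W_KER

/-!
# ME, block W, module FRH (helper21): Frobenius automorphisms
-/

set_option autoImplicit false

open WeierstrassCurve Polynomial NumberField IsDedekindDomain

namespace Pool.Agent.MUXW

open _root_.MU3 Pool.Agent.MU3A Pool.Agent.MU3B Pool.Agent.MU3C Pool.Agent.RI Pool.Agent.RID
open Pool.Agent.MUX Pool.Agent.ME Pool.Agent.MUXU
open Pool.Agent.MU3V (cls Sub GD algDF)
open Pool.Agent.MUXV (GR InK tX CMO Ovr Sq_EMB Sq_FRX Sq_VQI Sq_ALU Sq_TOR Sq_CYQ Sq_DGI Sq_DGL)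

noncomputable section

theorem ty_FRH_E (hVQI : Sq_VQI) : Sy_FRH_E := by
  intro A B hC T n ι hfin R
  have hQ := hC.toCQ
  obtain ⟨n₀, hn₀, hF⟩ := MEC.c_FRO A B hC
  refine ⟨n₀, hn₀, ?_⟩
  intro m hm h2m Q q hq hqn hqm hcard V hV σ hσ hTr
  have hmn : (sp m : Ideal (OO A B)) ≠ ⊥ := by rwa [Ne, Ideal.span_singleton_eq_bot]
  -- an extension of `σ`
  let D : IntermediateField ℚ ℂ :=
    (RFE (sp m) : IntermediateField (kk A B) ℂ).restrictScalars ℚ
  have hle : kk A B ≤ D := fun x hx =>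
    (RFE (sp m) : IntermediateField (kk A B) ℂ).algebraMap_mem ⟨x, hx⟩
  have hDy : ∀ y ∈ D, y ∈ (RFE (sp m) : IntermediateField (kk A B) ℂ) := fun y hy => hy
  let := algC hle
  let τ : D ≃ₐ[kk A B] D := AlgEquiv.ofRingEquiv (f := (σ.toRingEquiv : D ≃+* D))
    (fun r => σ.commutes r)
  obtain ⟨s, hs, hs1⟩ := T.ext (sp m) hmn D hle hDy τ
  have hs2 : ∀ y : (RFE (sp m) : IntermediateField (kk A B) ℂ),
      ((σ y : (RFE (sp m) : IntermediateField (kk A B) ℂ)) : ℂ) = s y := fun y =>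
    (hs1 y).symm
  have hnI : nI Q = q := hcard
  have hqm' : ¬ q ∣ nI (sp m : Ideal (OO A B)) := by
    rw [Pool.Agent.MUX.nI_sp hQ hm]
    exact fun h => hqm (Int.natCast_dvd.2 h)
  have hOv : OverI V Q := by
    obtain ⟨-, h1⟩ := hVQI A B (KER.cqF hQ) V
    obtain ⟨-, -, h2⟩ := h1 Q q hq hcard hV
    intro x
    rw [ValuationSubring.mem_nonunits_iff]
    constructor
    · intro h3
      by_contra h4
      exact absurd (h2 x h4) h3.ne
    · exact fun h3 => hV x h3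
  have hfr : ∀ x : ℂ, x ∈ (RFE (sp m) : IntermediateField (kk A B) ℂ) → x ∈ V →
      V.valuation (s x - x ^ q) < 1 := by
    intro x hx hxV
    have := hσ ⟨x, hx⟩ hxV
    rwa [hs2] at this
  have hact := hF (sp m) hmn Q q hq hnI hqn hqm' V hOv s hs hfr
  obtain ⟨L₀, om₀, hL₀⟩ := MEC.exists_isNE hC (⊤ : Ideal (OO A B)) top_ne_bot
  obtain ⟨b', L', om', mu, hL', hA⟩ := hact _ _ _ hL₀
  obtain ⟨c, -, hac, -, hc⟩ := act_shape hC hmn hs hL₀ hL'.nrm hA
  have hA' := hA.cop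
  rw [hac] at hA'
  have hcop : IsCoprime c m := (Ideal.isCoprime_span_singleton_iff c m).1 hA'
  refine ⟨c, hac, ?_, KER.mk_E hQ σ s hs2 hcop hc⟩
  have hc0 : c ≠ 0 := by
    rintro rfl
    refine MEC.FRO.ne_bot_of_prime Q hq hnI ?_
    rw [hac]
    exact Ideal.span_singleton_eq_bot.2 rfl
  have h1 : (nm c).natAbs = q := by
    rw [← Pool.Agent.MUX.nI_sp hQ hc0, ← hac]
    exact hnI
  have h2 : 0 ≤ nm c := nm_nonneg hQ c
  rw [← h1]
  exact (Int.natAbs_of_nonneg h2).symm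

end

end Pool.Agent.MUXW
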