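import Pool.Agent.ME.DefsE2
import Pool.Agent.ME.Lib
import Pool.Agent.MUX.W_GRB
import Pool.Agent.ME.X.StWX
import Pool.Agent.ME.WLib
/-!
# MUX, block W, module GRB: good reduction outside finitely many primes   (helper50)
-/

set_option autoImplicit false

open WeierstrassCurve Polynomial NumberField IsDedekindDomain

namespace Pool.Agent.MUXW

open _root_.MU3 Pool.Agent.MU3A Pool.Agent.MU3B Pool.Agent.MU3C Pool.Agent.RI Pool.Agent.RID
open Pool.Agent.MUX Pool.Agent.ME Pool.Agent.MUXU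
open Pool.Agent.MU3V (cls Sub GD algDF)
open Pool.Agent.MUXV (GR InK tX CMO Ovr)

noncomputable section

namespace GRB

/-- the elements of `F_m` are algebraic -/
lemma alg_RF_E {A B : ℤ} (h : CQ A B) (T : TorXE A B) (m : Ideal (OO A B)) (hm : m ≠ ⊥) {x : ℂ}
    (hx : x ∈ (RFE m : IntermediateField (kk A B) ℂ)) : IsAlgebraic ℚ x := by
  have hfd := T.fin m hm
  have halg := isAlgebraic_kk h
  have h1 : IsAlgebraic (kk A B) (⟨x, hx⟩ : (RFE m : IntermediateField (kk A B) ℂ)) :=
    Algebra.IsAlgebraic.isAlgebraic _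
  have h2 : IsAlgebraic (kk A B) x := by
    have := h1.algHom (RFE m : IntermediateField (kk A B) ℂ).val
    exact this
  exact h2.restrictScalars ℚ

end GRB

theorem ty_GRB_E : Sy_GRB_E := by
  intro A B hc L hL
  refine ⟨6, by norm_num, fun V hV => ?_⟩
  have h6 : V.valuation (((2 * 3 : ℕ)) : ℂ) = 1 := by
    rw [← hV]
  obtain ⟨v2, v3⟩ := GRB.val_mul V _ _ h6
  have v2' : V.valuation 2 = 1 := by simpa using v2
  have v3' : V.valuation 3 = 1 := by simpa using v3
  exact ⟨v2', v3', MEC.c_BAD A B hc V v2' v3' L hL⟩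

end

end Pool.Agent.MUXW
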