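import Pool.Agent.ME.DefsE2
import Pool.Agent.ME.Lib
import Pool.Agent.MUX.W_HIT
import Pool.Agent.ME.X.W_KER
/-!
# MUX, block W, module HIT (helper97): every automorphism of `F_m / k` hits exactly two pairs `± (i, x)`
-/

set_option autoImplicit false

open WeierstrassCurve Polynomial NumberField IsDedekindDomain

namespace Pool.Agent.MUXW

open _root_.MU3 Pool.Agent.MU3A Pool.Agent.MU3B Pool.Agent.MU3C Pool.Agent.RI Pool.Agent.RID
open Pool.Agent.MUX Pool.Agent.ME Pool.Agent.MUXU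
open Pool.Agent.MU3V (cls Sub GD algDF)
open Pool.Agent.MUXV (GR InK tX CMO Ovr)

noncomputable section

namespace HIT

/-- homothetic normalised lattices are equal -/
lemma homo_E {A B : ℤ} {b b' : Ideal (OO A B)} {L L' : PeriodPair} {om om' : ℂ} (hL : IsNE b L om)
    (hL' : IsNE b' L' om') {u : ℂ} (_ : u ≠ 0)
    (_ : ∀ z : ℂ, z ∈ L.lattice ↔ u * z ∈ L'.lattice) :
    kapE L' = kapE L ∧ (∀ z, z ∈ L.lattice ↔ z ∈ L'.lattice) ∧
      ∀ z, L'.weierstrassP z = L.weierstrassP z := by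
  exact ⟨hL'.nrm.kap_eq hL.nrm, fun z => nrm_lat hL.nrm hL'.nrm z, fun z => nrm_x hL'.nrm hL.nrm z⟩

section
variable {A B : ℤ} {n : ℕ} {ι : Type}

/-- every normalised lattice is one of the `L i` -/
lemma repr_E (he : Pool.Agent.MUXV.Sq_EMB) (hC : CQ A B) (R : RepsE A B n ι) {b' : Ideal (OO A B)}
    {L' : PeriodPair} {om' : ℂ} (hL' : IsNE b' L' om') :
    ∃ i, kapE L' = kapE (R.L i) ∧ (∀ z, z ∈ (R.L i).lattice ↔ z ∈ L'.lattice) ∧
      ∀ z, L'.weierstrassP z = (R.L i).weierstrassP z := by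
  obtain ⟨i, x, y, hx, hy, hxy⟩ := R.surj b' hL'.b_ne
  have h1 := (he A B (KER.cqF hC)).1
  have hx0 := ne0 he hC hx
  have hy0 := ne0 he hC hy
  have ho := (R.nl i).om_ne
  have ho' := hL'.om_ne
  refine ⟨i, homo_E (R.nl i) hL' (u := om' * emb y / (emb x * R.om i))
    (div_ne_zero (mul_ne_zero ho' hy0) (mul_ne_zero hx0 ho)) fun z => ?_⟩
  rw [(R.nl i).mem, hL'.mem]
  constructor
  · rintro ⟨β, hβ, rfl⟩
    have h2 : y * β ∈ sp x * b' := by
      rw [hxy]
      exact Ideal.mul_mem_mul (Ideal.mem_span_singleton_self y) hβ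
    obtain ⟨γ, hγ, h3⟩ := Ideal.mem_span_singleton_mul.1 h2
    refine ⟨γ, hγ, ?_⟩
    have h4 : emb x * emb γ = emb y * emb β := by rw [← h1, ← h1, h3]
    field_simp
    linear_combination -h4
  · rintro ⟨γ, hγ, h5⟩
    have h2 : x * γ ∈ sp y * R.b i := by
      rw [← hxy]
      exact Ideal.mul_mem_mul (Ideal.mem_span_singleton_self x) hγ
    obtain ⟨β, hβ, h3⟩ := Ideal.mem_span_singleton_mul.1 h2
    refine ⟨β, hβ, ?_⟩
    have h4 : emb y * emb β = emb x * emb γ := by rw [← h1, ← h1, h3]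
    field_simp at h5
    have h6 : emb y * (z - R.om i * emb β) = 0 := by
      linear_combination h5 + (-(R.om i)) * h4
    rcases mul_eq_zero.1 h6 with h | h
    · exact absurd h hy0
    · linear_combination h

/-- the invariant determines the class -/
lemma uniq_E (he : Pool.Agent.MUXV.Sq_EMB) (hDET : Su_DET) (hC : CQ A B) (R : RepsE A B n ι) {i j : ι}
    (_h : kapE (R.L i) = kapE (R.L j)) : i = j := by
  obtain ⟨h1, -, -, -, -, hinj, -, -, -, -, -, -, hdom⟩ := he A B (KER.cqF hC)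
  have hg2 : (R.L i).g₂ = (R.L j).g₂ := (R.nl i).nrm.g2_eq (R.nl j).nrm
  have hg3 : (R.L i).g₃ = (R.L j).g₃ := (R.nl i).nrm.g3_eq (R.nl j).nrm
  have hlat := hDET _ _ hg2 hg3
  have hsym : ∀ {i j : ι}, (R.L i).lattice = (R.L j).lattice → ∀ (β β' : OO A B), β ≠ 0 →
      R.om i * emb β = R.om j * emb β' → sp β' * R.b i ≤ sp β * R.b j := by
    intro i j hlat β β' hβ hβ'
    rw [Ideal.span_singleton_mul_le_iff]
    intro γ hγ
    have h4 : R.om i * emb γ ∈ (R.L j).lattice := by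
      rw [← hlat]
      exact ((R.nl i).mem _).2 ⟨γ, hγ, rfl⟩
    obtain ⟨γ', hγ', h5⟩ := ((R.nl j).mem _).1 h4
    refine Ideal.mem_span_singleton_mul.2 ⟨γ', hγ', ?_⟩
    apply hinj
    rw [h1, h1]
    have ho := (R.nl i).om_ne
    have ho' := (R.nl j).om_ne
    have h6 : R.om j * (emb β * emb γ' - emb β' * emb γ) = 0 := by
      linear_combination (-emb β) * h5 + emb γ * hβ'
    rcases mul_eq_zero.1 h6 with h | h
    · exact absurd h ho'
    · linear_combination h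
  obtain ⟨β, hβ, hβ0⟩ := Submodule.exists_mem_ne_zero_of_ne_bot (R.nl i).b_ne
  have h4 : R.om i * emb β ∈ (R.L j).lattice := by
    rw [← hlat]
    exact ((R.nl i).mem _).2 ⟨β, hβ, rfl⟩
  obtain ⟨β', hβ', h5⟩ := ((R.nl j).mem _).1 h4
  have hβ'0 : β' ≠ 0 := by
    intro h6
    have h7 : R.om i * emb β = 0 := by
      rw [h5, h6]
      simp [emb]
    exact mul_ne_zero (R.nl i).om_ne (ne0 he hC hβ0) h7
  exact R.inj i j β' β hβ'0 hβ0 (le_antisymm (hsym hlat β β' hβ0 h5)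
    (hsym hlat.symm β' β hβ'0 h5.symm))

lemma xn_congr_E {L : PeriodPair} {z w : ℂ} (h : z - w ∈ L.lattice) : xnE L z = xnE L w := by
  unfold xnE
  rw [wp_congr h]

lemma xn_congr'_E {L : PeriodPair} {z w : ℂ} (h : z + w ∈ L.lattice) : xnE L z = xnE L w := by
  have h1 : xnE L z = xnE L (-w) := xn_congr_E (by rwa [sub_neg_eq_add])
  rw [h1]
  unfold xnE
  rw [L.weierstrassP_neg]

end

end HIT

open HIT in
theorem ty_HIT_E (he : Pool.Agent.MUXV.Sq_EMB) (hDET : Su_DET) : Sy_HIT_E := by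
  intro A B hC T n ι R m hm hcop hm2 s hs
  obtain ⟨h1, h2, h3, h4, h5, hinj, -, -, -, -, -, -, hdom⟩ := he A B (KER.cqF hC)
  have hmC : (m : ℂ) ≠ 0 := Nat.cast_ne_zero.2 hm
  have hM0 : ((m : ℕ) : OO A B) ≠ 0 := by
    intro h
    apply hmC
    rw [← h5 m, h]
    simp [emb]
  have he1 : emb (1 : OO A B) = 1 := by
    have := h5 1
    rwa [Nat.cast_one, Nat.cast_one] at this
  have hMn : (idl m : Ideal (OO A B)) ≠ ⊥ := by rwa [Ne, Ideal.span_singleton_eq_bot]
  obtain ⟨a, ha, hact⟩ := T.act (idl m) hMn s hs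
  have hL := R.nl R.i0
  obtain ⟨b', L', om', mu, hL', hA⟩ := hact _ _ _ hL
  obtain ⟨i, hk, hlat, hP⟩ := repr_E he hC R hL'
  have hLmem : ∀ z, z ∈ (R.L R.i0).lattice ↔ ∃ x : OO A B, z = R.om R.i0 * emb x := by
    intro z
    rw [hL.mem, R.b0]
    simp
  have ho0 := hL.om_ne
  have hoi := (R.nl i).om_ne
  -- the base point
  have hpt0 : Pool.Agent.ME.ptE R m R.i0 1 = R.om R.i0 / m := by
    unfold Pool.Agent.ME.ptE
    have : nI (R.b R.i0) = 1 := by
      unfold nI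
      rw [R.b0]
      have : Subsingleton (OO A B ⧸ (⊤ : Ideal (OO A B))) := Ideal.Quotient.subsingleton_iff.2 rfl
      exact Nat.card_unique
    rw [this, he1]
    simp
  have htor : Tor (idl m : Ideal (OO A B)) (R.L R.i0) (R.om R.i0 / m) := by
    intro x hx
    obtain ⟨y, rfl⟩ := Ideal.mem_span_singleton'.1 hx
    rw [hLmem]
    refine ⟨y, ?_⟩
    rw [h1, h5]
    field_simp
  have hP0 : R.om R.i0 / m ∉ (R.L R.i0).lattice := by
    intro h
    obtain ⟨t, ht⟩ := (hLmem _).1 h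
    apply hm2
    refine (IsUnit.of_mul_eq_one t ?_).dvd
    apply hinj
    rw [h1, h5, he1]
    field_simp at ht
    rw [ht]
  have hPM := hA.act _ htor
  rcases hPM with ⟨h, -⟩ | ⟨-, hmuP, hxP, -⟩
  · exact absurd h hP0
  rw [← hlat] at hmuP
  have hxP' : s (xnE (R.L R.i0) (R.om R.i0 / m)) = xnE (R.L i) (mu * (R.om R.i0 / m)) := by
    rw [hxP]
    unfold xnE
    rw [hP]
  -- the multiplier
  obtain ⟨β, hβ, hmu⟩ : ∃ β ∈ R.b i, mu * R.om R.i0 = R.om i * emb β := by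
    rw [← (R.nl i).mem, hlat, hA.isq.2]
    intro x _
    rw [hLmem]
    exact ⟨x, by ring⟩
  set N : ℕ := nI (R.b i) with hN
  have hNmem : ((N : ℕ) : OO A B) ∈ R.b i := nI_mem _
  obtain ⟨u, v, huv⟩ := (Nat.isCoprime_iff_coprime.2 (hcop i))
  have huv' : (u : OO A B) * ((N : ℕ) : OO A B) + (v : OO A B) * ((m : ℕ) : OO A B) = 1 := by
    have : (((u * (N : ℤ) + v * (m : ℤ) : ℤ)) : OO A B) = 1 := by rw [huv]; norm_num
    push_cast at this
    exact this
  have hcu : IsCoprime (u : OO A B) ((m : ℕ) : OO A B) :=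
    ⟨((N : ℕ) : OO A B), (v : OO A B), by linear_combination huv'⟩
  have hcβ : IsCoprime β ((m : ℕ) : OO A B) := by
    apply cop_of_inj hM0
    rintro t ⟨w, hw⟩
    -- `om emb (t N) / m`
    have hz : mu * (R.om R.i0 * emb (t * ((N : ℕ) : OO A B)) / m) ∈ L'.lattice := by
      rw [← hlat, (R.nl i).mem]
      refine ⟨w * ((N : ℕ) : OO A B), Ideal.mul_mem_left _ _ hNmem, ?_⟩
      have h6 : emb t * emb β = m * emb w := by rw [← h1, hw, h1, h5]
      rw [h1, h1]
      field_simp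
      linear_combination (emb t * emb ((N : ℕ) : OO A B)) * hmu +
        (R.om i * emb ((N : ℕ) : OO A B)) * h6
    have hx : ∀ x ∈ a, ((m : ℕ) : OO A B) ∣ x * (t * ((N : ℕ) : OO A B)) := by
      intro x hx
      obtain ⟨y, hy⟩ := (hLmem _).1 ((hA.isq.2 _).1 hz x hx)
      refine ⟨y, ?_⟩
      apply hinj
      rw [h1, h1 ((m : ℕ) : OO A B), h5]
      field_simp at hy
      exact hy
    obtain ⟨α, hα, γ, hγ, hαγ⟩ := Ideal.isCoprime_iff_exists.1 ha
    obtain ⟨g, hg⟩ := Ideal.mem_span_singleton.1 hγ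
    obtain ⟨f, hf⟩ := hx α hα
    refine ⟨u * (f + g * (t * ((N : ℕ) : OO A B))) + v * t, ?_⟩
    linear_combination (u * (t * ((N : ℕ) : OO A B))) * (-hαγ) + u * hf +
      (u * (t * ((N : ℕ) : OO A B))) * hg - t * huv'
  have hx : IsCoprime ((u : OO A B) * β) ((m : ℕ) : OO A B) := hcu.mul_left hcβ
  have hdiff : mu * (R.om R.i0 / m) - Pool.Agent.ME.ptE R m i ((u : OO A B) * β) ∈
      (R.L i).lattice := by
    rw [(R.nl i).mem]
    refine ⟨v * β, Ideal.mul_mem_left _ _ hβ, ?_⟩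
    unfold Pool.Agent.ME.ptE
    rw [← hN]
    have h6 : emb (u : OO A B) * N + emb (v : OO A B) * m = 1 := by
      rw [← h5 N, ← h5 m, ← h1, ← h1, ← h2, huv', he1]
    rw [h1, h1]
    field_simp
    linear_combination hmu - (R.om i * emb β) * h6
  have hhit : HitsE R m s i ((u : OO A B) * β) := by
    refine ⟨?_, ?_, ?_⟩
    · rw [← hk]; exact hA.kapE
    · rw [hpt0, hxP']
      exact xn_congr_E hdiff
    · intro h
      apply hmuP
      have := add_mem hdiff h
      rwa [sub_add_cancel] at this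
  refine ⟨i, (u : OO A B) * β, hx, hhit, fun h => hm2 (hx.symm.dvd_of_dvd_mul_right h), ?_⟩
  have hptl : ∀ w : OO A B, R.om i * N * emb w / m ∈ (R.L i).lattice ↔
      ((m : ℕ) : OO A B) ∣ w := by
    intro w
    rw [(R.nl i).mem]
    constructor
    · rintro ⟨γ, hγ, h6⟩
      have h7 : ((N : ℕ) : OO A B) * w = ((m : ℕ) : OO A B) * γ := by
        apply hinj
        rw [h1, h1, h5, h5]
        field_simp at h6
        linear_combination h6
      exact ⟨u * γ + v * w, by linear_combination (-w) * huv' + (u : OO A B) * h7⟩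
    · rintro ⟨t, rfl⟩
      refine ⟨t * ((N : ℕ) : OO A B), Ideal.mul_mem_left _ _ hNmem, ?_⟩
      rw [h1, h1, h5, h5]
      field_simp
  have hsub : ∀ y : OO A B, Pool.Agent.ME.ptE R m i y -
      Pool.Agent.ME.ptE R m i ((u : OO A B) * β) ∈ (R.L i).lattice ↔
      ((m : ℕ) : OO A B) ∣ y - (u : OO A B) * β := by
    intro y
    rw [← hptl]
    unfold Pool.Agent.ME.ptE
    rw [← hN, h3, mul_sub, sub_div]
  have hadd : ∀ y : OO A B, Pool.Agent.ME.ptE R m i y +
      Pool.Agent.ME.ptE R m i ((u : OO A B) * β) ∈ (R.L i).lattice ↔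
      ((m : ℕ) : OO A B) ∣ y + (u : OO A B) * β := by
    intro y
    rw [← hptl]
    unfold Pool.Agent.ME.ptE
    rw [← hN, h2, mul_add, add_div]
  intro j y
  constructor
  · rintro ⟨hk', hx', hn'⟩
    have hji : j = i := uniq_E he hDET hC R (by rw [hk', hhit.1])
    subst hji
    refine ⟨rfl, ?_⟩
    have h6 : xnE (R.L j) (Pool.Agent.ME.ptE R m j y) =
        xnE (R.L j) (Pool.Agent.ME.ptE R m j ((u : OO A B) * β)) := by
      rw [← hx', hhit.2.1]
    unfold xnE at h6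
    rcases b_NEQ (R.L j) _ _ hhit.2.2 hn' (by linear_combination h6) with h | h
    · left; exact (hsub y).1 h
    · right; exact (hadd y).1 h
  · rintro ⟨rfl, h | h⟩
    · have h6 := (hsub y).2 h
      exact ⟨hhit.1, by rw [hhit.2.1, xn_congr_E h6], notMem_congr h6 hhit.2.2⟩
    · have h6 := (hadd y).2 h
      refine ⟨hhit.1, by rw [hhit.2.1, xn_congr'_E h6], fun h7 => hhit.2.2 ?_⟩
      have := sub_mem h6 h7
      rwa [add_sub_cancel_left] at this

end

end Pool.Agent.MUXW
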