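import Pool.Agent.ME.DefsE2
import Pool.Agent.ME.Lib
import Pool.Agent.MUX.W_I1
import Pool.Agent.ME.X.StWX
import Pool.Agent.MUX.Q_EMB
/-!
# MUX, block W, module I1 (helper4): the norm relation (I1)
-/

set_option autoImplicit false

open WeierstrassCurve Polynomial NumberField IsDedekindDomain

namespace Pool.Agent.MUXW

open _root_.MU3 Pool.Agent.MU3A Pool.Agent.MU3B Pool.Agent.MU3C Pool.Agent.RI Pool.Agent.RID
open Pool.Agent.MUX Pool.Agent.ME Pool.Agent.MUXU
open Pool.Agent.MU3V (cls Sub GD algDF)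
open Pool.Agent.MUXV (GR InK tX CMO Ovr)

noncomputable section

namespace I1W

end I1W

open I1W in
theorem ty_I1_E (hNRM : Sy_NRM_E) (hMEM : Sy_MEM) : Sy_I1_E := by
  classical
  intro A B hc T L Om hL m b hm h2m hbm hm2 a H ha ham hH θ θ' hθ hθ' D D' h h' hDD' hHD hsub hsub'
  letI := algC h
  letI := algC h'
  intro p σ hσ hord hp c' hc'
  obtain ⟨C, hCm, hC0, hC⟩ := hNRM A B hc T L Om hL m b hm h2m hbm hm2 a H ha ham hH θ θ' hθ hθ'
  -- the fields
  have hb0 : b ≠ 0 := fun h0 => hm (by rw [h0] at hbm; exact zero_dvd_iff.1 hbm)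
  obtain ⟨-, -, -, -, -, -, -, -, -, -, -, -, hdom⟩ :=
    Pool.Agent.MUXV.tq_EMB A B ⟨hc.hB, hc.neg, hc.fund1, hc.fund0⟩
  have hbotF : sp m ≠ (⊥ : Ideal (OO A B)) := by
    rw [Ne, Ideal.span_singleton_eq_bot]
    exact hm
  have hbotF' : sp (b * m) ≠ (⊥ : Ideal (OO A B)) := by
    rw [Ne, Ideal.span_singleton_eq_bot]
    exact mul_ne_zero hb0 hm
  have hFF' : (RFE (sp m) : IntermediateField (kk A B) ℂ) ≤ RFE (sp (b * m)) :=
    T.mono _ _ (Ideal.span_singleton_le_span_singleton.2 (Dvd.intro_left _ rfl))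
  have hfd' := T.fin _ hbotF'
  by_cases h0 : θ' = 0
  · -- degenerate case
    have hfin : Finite ((RFE (sp (b * m)) : IntermediateField (kk A B) ℂ) ≃ₐ[kk A B]
      RFE (sp (b * m))) := inferInstance
    have e1 : (C * θ : ℂ) = 0 := by
      rw [← hC]
      refine finprod_eq_zero _ ⟨1, fun x _ => rfl⟩ ?_ (Set.toFinite _)
      rw [h0, map_zero]
      rfl
    have e2 : (θ : ℂ) = 0 := by
      rcases mul_eq_zero.1 e1 with h1 | h1
      · exact absurd h1 hC0
      · exact h1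
    have e3 : θ = 0 := Subtype.ext e2
    have hfd := T.fin _ hbotF
    have hfin2 : Finite ((RFE (sp m) : IntermediateField (kk A B) ℂ) ≃ₐ[kk A B]
      RFE (sp m)) := inferInstance
    have e4 : cW h θ = 0 := by
      unfold cW
      refine finprod_eq_zero _ (1 : GD h (RFE (sp m) : IntermediateField (kk A B) ℂ)) ?_
        (Set.toFinite _)
      rw [e3, map_zero]
      rfl
    have e5 : cW h' θ' = 0 := by
      unfold cW
      refine finprod_eq_zero _ (1 : GD h' (RFE (sp (b * m)) : IntermediateField (kk A B) ℂ)) ?_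
        (Set.toFinite _)
      rw [h0, map_zero]
      rfl
    refine ⟨1, one_mem _, one_ne_zero, ?_⟩
    rw [e4, mul_zero]
    have e6 : c' = 0 := Subtype.ext (hc'.trans e5)
    refine Finset.prod_eq_zero (Finset.mem_range.2 (Nat.pos_of_ne_zero hp)) ?_
    rw [e6, map_zero]
    rfl
  · refine ⟨C ^ Nat.card (GD h (RFE (sp m) : IntermediateField (kk A B) ℂ)), pow_mem hCm _,
      pow_ne_zero _ hC0, ?_⟩
    exact core hMEM hFF' hfd' (T.gal _ hbotF) (T.gal _ hbotF') (T.comm _ hbotF') h h' hDD' hsub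
      hsub' θ θ' h0 (hHD C hCm) hC p σ hσ hord hp c' hc'

end

end Pool.Agent.MUXW
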