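import Pool.Agent.ME.DefsE2
import Pool.Agent.ME.Lib
import Pool.Agent.MUX.W_INV
import Pool.Agent.ME.X.StWX
/-!
# MUX, block W, module INV (helper23): automorphisms which are trivial modulo `V`
-/

set_option autoImplicit false

open WeierstrassCurve Polynomial NumberField IsDedekindDomain

namespace Pool.Agent.MUXW

open _root_.MU3 Pool.Agent.MU3A Pool.Agent.MU3B Pool.Agent.MU3C Pool.Agent.RI Pool.Agent.RID
open Pool.Agent.MUX Pool.Agent.ME Pool.Agent.MUXU
open Pool.Agent.MU3V (cls Sub GD algDF)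
open Pool.Agent.MUXV (GR InK tX CMO Ovr Sq_EMB)

noncomputable section

/-- an automorphism which is trivial modulo `V` acts as `1` or `-1` on `E[m]` -/
theorem ty_INV_E (hE : Sq_EMB) : Sy_INV_E := by
  intro A B h L Om hL m hm V hG hK F hF σ hσ a ha
  obtain ⟨emul, eadd, esub, eint, enat, einj, -⟩ := hE A B ⟨h.hB, h.neg, h.fund1, h.fund0⟩
  obtain ⟨W, ξ, G⟩ := hG
  by_cases hu : IsUnit m
  · exact Or.inl hu.dvd
  have e0 : emb (0 : OO A B) = 0 := by simpa using eint 0
  have e1 : emb (1 : OO A B) = 1 := by simpa using eint 1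
  have hm0 : emb m ≠ 0 := fun h0 => hm (einj _ _ (by rw [h0, e0]))
  have hOm := hL.om_ne
  have hmem : ∀ c : OO A B, Om * emb c ∈ L.lattice := fun c =>
    (hL.mem _).2 ⟨c, Submodule.mem_top, rfl⟩
  have hdvd : ∀ c : OO A B, emb c * (Om / emb m) ∈ L.lattice → m ∣ c := by
    intro c hc
    obtain ⟨x, -, hx⟩ := (hL.mem _).1 hc
    refine ⟨x, einj _ _ ?_⟩
    rw [emul]
    field_simp at hx
    exact hx
  have hz : Om / emb m ∉ L.lattice := by
    intro h0
    apply hu
    rw [isUnit_iff_dvd_one]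
    apply hdvd
    rw [e1, one_mul]
    exact h0
  have hmc : ∀ c : OO A B, emb m * (emb c * (Om / emb m)) ∈ L.lattice := by
    intro c
    have e : emb m * (emb c * (Om / emb m)) = Om * emb c := by field_simp
    rw [e]
    exact hmem c
  have hmz : emb m * (Om / emb m) ∈ L.lattice := by
    have := hmc 1
    rwa [e1, one_mul] at this
  obtain ⟨haz, hx⟩ := ha.ptE ⊤ L Om hL _ hmz hz
  have hxF : xnE L (Om / emb m) ∈ F := by
    apply hF
    refine IntermediateField.subset_adjoin _ _ ⟨⊤, L, Om, hL, Or.inr ⟨_, ?_, hz, rfl⟩⟩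
    intro x hx
    obtain ⟨y, rfl⟩ := Ideal.mem_span_singleton.1 hx
    rw [emul, mul_assoc]
    exact hmc y
  have hz1 : ¬ InK V L (xnE L) (Om / emb m) := fun h0 =>
    hz (hK _ hmz h0)
  have hz2 : ¬ InK V L (xnE L) (emb a * (Om / emb m)) := fun h0 =>
    haz (hK _ (hmc a) h0)
  have hx1 : V.valuation (xnE L (emb a * (Om / emb m)) - xnE L (Om / emb m)) < 1 := by
    have h3 := hσ ⟨_, hxF⟩
      ((ValuationSubring.valuation_le_one_iff _ _).1 (Pool.Agent.MUXV.int_X hz1).2)
    rwa [hx hxF] at h3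
  by_contra hcon
  rw [not_or] at hcon
  have hm1 : ¬ InK V L (xnE L)
      (emb a * (Om / emb m) - Om / emb m) := by
    intro h0
    have e : emb a * (Om / emb m) - Om / emb m = emb (a - 1) * (Om / emb m) := by
      rw [esub, e1]
      ring
    rw [e] at h0
    exact hcon.1 (hdvd _ (hK _ (hmc (a - 1)) h0))
  have hp1 : ¬ InK V L (xnE L)
      (emb a * (Om / emb m) + Om / emb m) := by
    intro h0
    have e : emb a * (Om / emb m) + Om / emb m = emb (a + 1) * (Om / emb m) := by
      rw [eadd, e1]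
      ring
    rw [e] at h0
    exact hcon.2 (hdvd _ (hK _ (hmc (a + 1)) h0))
  have h9 := Pool.Agent.MUXV.v_X_sub G hz2 hz1 hp1 hm1
  exact absurd h9 hx1.ne

end

end Pool.Agent.MUXW
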