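import Pool.Agent.MUX.XK1
import Pool.Agent.ME.X.StWX
import Pool.Agent.ME.WLib
import Pool.Agent.MU3.W_XXG

/-!
# MUX, block W, for (KOL): restriction of automorphisms, the group `Gal(F_(m lam) / D)` (helper59)
-/

set_option autoImplicit false

open WeierstrassCurve Polynomial NumberField IsDedekindDomain

namespace Pool.Agent.MUXW

open _root_.MU3 Pool.Agent.MU3A Pool.Agent.MU3B Pool.Agent.MU3C Pool.Agent.RI
open Pool.Agent.MUX Pool.Agent.ME Pool.Agent.MUXU
open Pool.Agent.MU3V (cls Sub GD algDF towDF rsHom rsHom_apply rsHom_mem rsHom_surj rsHom_inj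
  mem_GD rd rd_cls cls_eq_iff cls_mul cls_one cls_out isUnit_cls coprime_of_isUnit)
open Pool.Agent.MUXV (GR InK tX CMO Ovr)

noncomputable section

/-! ### Restriction to a subfield -/

variable {A B : ℤ}

lemma RF_mono_E {I J : Ideal (OO A B)} (h : J ≤ I) :
    (RFE I : IntermediateField (kk A B) ℂ) ≤ RFE J := by
  unfold RFE
  apply IntermediateField.adjoin.mono
  rintro c ⟨b, L, om, hL, hc⟩
  refine ⟨b, L, om, hL, ?_⟩
  rcases hc with hc | ⟨z, hz, hzL, hc⟩
  · exact Or.inl hc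
  · exact Or.inr ⟨z, fun x hx => hz x (h hx), hzL, hc⟩

lemma RF_dvd_E {m N : OO A B} (h : m ∣ N) :
    (RFE (sp m) : IntermediateField (kk A B) ℂ) ≤ RFE (sp N) := RF_mono_E (sp_le h)

/-- a group element trivial on `D`, seen in `Gal(F/k)`, is trivial on `H` if `H ≤ D` -/
lemma trH_of_GD_E {D : IntermediateField ℚ ℂ} (hk : kk A B ≤ D) (hH : HasH_E A B D)
    {F : IntermediateField (kk A B) ℂ} {σ : F ≃ₐ[kk A B] F} (hσ : σ ∈ GD hk F) : TrH_E σ := by
  intro x hx
  exact hσ x (hH x hx) x.2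

section
variable (hCQ : CaseE A B) {L : PeriodPair} {Om : ℂ} (hL : IsNE (⊤ : Ideal (OO A B)) L Om)
  {m lam : OO A B} (hm : m ≠ 0) (hlam : lam ≠ 0) (h2m : (2 : OO A B) ∣ m) (hm2 : ¬ m ∣ 2) (hcop : IsCoprime m lam)
  {D : IntermediateField ℚ ℂ} (hk : kk A B ≤ D) (hH : HasH_E A B D)
  (hD : Sub D (RFE (sp m) : IntermediateField (kk A B) ℂ))
  (hs : Sub D (RFE (sp (m * lam)) : IntermediateField (kk A B) ℂ))

include hCQ hL hm hlam h2m hm2 hcop hH hD in
/-- the group `Gal(F_(m lam) / D)` is in bijection with `Gal(F_m/D) × (O/lam)ˣ` -/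
theorem bijX_E [IsDomain (OO A B)] (hACM : Sy_ACM_E) (hKER : Sy_KER_E) (T : TorXE A B)
    {xs : GD hk (RFE (sp m) : IntermediateField (kk A B) ℂ) → OO A B}
    (hxs : ∀ s : GD hk (RFE (sp m) : IntermediateField (kk A B) ℂ),
      ActH_E (s : (RFE (sp m) : IntermediateField (kk A B) ℂ) ≃ₐ[kk A B] RFE (sp m)) m (xs s)) :
    letI := algDF hs
    ∃ (res : ((RFE (sp (m * lam)) : IntermediateField (kk A B) ℂ) ≃ₐ[D] RFE (sp (m * lam))) →
        GD hk (RFE (sp m) : IntermediateField (kk A B) ℂ))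
      (b : ((RFE (sp (m * lam)) : IntermediateField (kk A B) ℂ) ≃ₐ[D] RFE (sp (m * lam))) → OO A B)
      (bu : ((RFE (sp (m * lam)) : IntermediateField (kk A B) ℂ) ≃ₐ[D] RFE (sp (m * lam))) →
        (OO A B ⧸ Ideal.span {lam})ˣ),
      (∀ σ (x : (RFE (sp m) : IntermediateField (kk A B) ℂ))
        (hx : (x : ℂ) ∈ (RFE (sp (m * lam)) : IntermediateField (kk A B) ℂ)),
        ((rsHom hk hs σ ⟨x, hx⟩ : (RFE (sp (m * lam)) : IntermediateField (kk A B) ℂ)) : ℂ) =
          ((res σ).1 x : ℂ)) ∧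
      (∀ σ, ActH_E (rsHom hk hs σ) (m * lam) (b σ)) ∧ (∀ σ, m ∣ b σ - xs (res σ)) ∧
      (∀ σ, ((bu σ : (OO A B ⧸ Ideal.span {lam})ˣ) : OO A B ⧸ Ideal.span {lam}) =
        cls lam (b σ)) ∧
      Function.Bijective (fun σ => (res σ, bu σ)) ∧
      (∀ (p : ℕ) (ψ : (OO A B ⧸ Ideal.span {lam})ˣ →* Multiplicative (ZMod p)), ψ (-1) = 1 →
        ∃ χ : ((RFE (sp (m * lam)) : IntermediateField (kk A B) ℂ) ≃ₐ[D] RFE (sp (m * lam))) →*
          Multiplicative (ZMod p), ∀ σ, χ σ = ψ (bu σ)) := by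
  letI := algDF hs
  have hN : m * lam ≠ 0 := mul_ne_zero hm hlam
  obtain ⟨c1, c2, c3, c4, c5, c6, c7, c8⟩ := hACM A B hCQ L Om hL (m * lam) hN
  obtain ⟨d1, d2, d3, d4, d5, d6, d7, d8⟩ := hACM A B hCQ L Om hL m hm
  obtain ⟨k1, k2⟩ := hKER A B hCQ T (m * lam) hN
  have hbotN : (sp (m * lam) : Ideal (OO A B)) ≠ ⊥ := by
    rw [Ne, Ideal.span_singleton_eq_bot]; exact hN
  have hle : (RFE (sp m) : IntermediateField (kk A B) ℂ) ≤ RFE (sp (m * lam)) :=
    RF_dvd_E (dvd_mul_right m lam)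
  obtain ⟨r1, r2⟩ := res_exists hle (T.fin _ hbotN) (T.gal _ hbotN) (T.comm _ hbotN)
  -- restriction
  have hres : ∀ σ : (RFE (sp (m * lam)) : IntermediateField (kk A B) ℂ) ≃ₐ[D] RFE (sp (m * lam)),
      ∃ s : GD hk (RFE (sp m) : IntermediateField (kk A B) ℂ),
        ∀ (x : (RFE (sp m) : IntermediateField (kk A B) ℂ))
        (hx : (x : ℂ) ∈ (RFE (sp (m * lam)) : IntermediateField (kk A B) ℂ)),
        ((rsHom hk hs σ ⟨x, hx⟩ : (RFE (sp (m * lam)) : IntermediateField (kk A B) ℂ)) : ℂ) =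
          (s.1 x : ℂ) := by
    intro σ
    obtain ⟨s, hs'⟩ := r1 (rsHom hk hs σ)
    refine ⟨⟨s, ?_⟩, hs'⟩
    intro y hyD hyF
    apply Subtype.ext
    rw [← hs' ⟨y, hyF⟩ (hle hyF)]
    exact congrArg Subtype.val (rsHom_mem hk hs σ y hyD (hle hyF))
  choose res hres using hres
  have hact : ∀ σ : (RFE (sp (m * lam)) : IntermediateField (kk A B) ℂ) ≃ₐ[D] RFE (sp (m * lam)),
      ∃ b : OO A B, ActH_E (rsHom hk hs σ) (m * lam) b ∧ m ∣ b - xs (res σ) := by
    intro σ
    obtain ⟨a, ha⟩ := k1 (rsHom hk hs σ) (trH_of_GD_E hk hH (rsHom_mem hk hs σ))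
    have h1 : ActH_E (res σ).1 m a := c8 m _ _ a (dvd_mul_right m lam) (hres σ) ha
    rcases d1 _ _ _ _ le_rfl h1 (hxs (res σ)) with h2 | h2
    · exact ⟨a, ha, h2⟩
    · refine ⟨-a, c2 _ _ a (-a) (Or.inr (by rw [add_neg_cancel]; exact dvd_zero _)) ha, ?_⟩
      have : -a - xs (res σ) = -(a + xs (res σ)) := by ring
      rw [this]
      exact (dvd_neg.2 h2)
  choose b hb hbm using hact
  have hbu : ∀ σ : (RFE (sp (m * lam)) : IntermediateField (kk A B) ℂ) ≃ₐ[D] RFE (sp (m * lam)),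
      IsUnit (cls lam (b σ)) := fun σ => isUnit_cls ((hb σ).cop.of_mul_right_right)
  refine ⟨res, b, fun σ => (hbu σ).unit, hres, hb, hbm, fun σ => rfl, ⟨?_, ?_⟩, ?_⟩
  · -- injective
    intro σ τ e
    have e1 : res σ = res τ := congrArg Prod.fst e
    have e2 : (hbu σ).unit = (hbu τ).unit := congrArg Prod.snd e
    have e3 : cls lam (b σ) = cls lam (b τ) := congrArg Units.val e2
    rw [cls_eq_iff] at e3
    have e4 : m ∣ b σ - b τ := by
      have h1 := hbm σ
      have h2 := hbm τ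
      rw [e1] at h1
      have := dvd_sub h1 h2
      rwa [sub_sub_sub_cancel_right] at this
    have e5 : m * lam ∣ b τ - b σ := by
      have := hcop.mul_dvd e4 e3
      rw [← neg_sub]
      exact dvd_neg.2 this
    have e6 := c2 _ _ (b τ) (b σ) (Or.inl e5) (hb τ)
    exact rsHom_inj hk hs (c5 _ _ _ (hb σ) e6)
  · -- surjective
    rintro ⟨s, r⟩
    obtain ⟨r0, hr⟩ : ∃ r0, (r : OO A B ⧸ Ideal.span {lam}) = cls lam r0 :=
      ⟨_, (cls_out _).symm⟩
    obtain ⟨u, v, e⟩ := id hcop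
    set y := r0 * (u * m) + xs s * (v * lam) with hy
    have h1 : m ∣ y - xs s := ⟨u * (r0 - xs s), by rw [hy]; linear_combination xs s * e⟩
    have h2 : lam ∣ y - r0 := ⟨v * (xs s - r0), by rw [hy]; linear_combination r0 * e⟩
    have y1 : IsCoprime y m := by
      apply coprime_of_isUnit
      rw [(cls_eq_iff).2 h1]
      exact isUnit_cls (hxs s).cop
    have y2 : IsCoprime y lam := by
      apply coprime_of_isUnit
      rw [(cls_eq_iff).2 h2, ← hr]
      exact r.isUnit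
    have y3 : (2 : OO A B) ∣ y - 1 := by
      have e := dvd_add (h2m.trans h1) (actH_two hCQ T hACM hm h2m (hxs s))
      rwa [sub_add_sub_cancel] at e
    obtain ⟨σ₀, hσ₀⟩ := k2 y (y1.mul_right y2) (h2m.trans (dvd_mul_right m lam)) y3
    obtain ⟨s₀, hs₀⟩ := r1 σ₀
    have a1 : ActH_E s₀ m y := c8 m _ _ y (dvd_mul_right m lam) hs₀ hσ₀
    have h1' : m ∣ xs s - y := by rw [← neg_sub]; exact dvd_neg.2 h1
    have a2 : ActH_E s.1 m y := d2 _ _ (xs s) y (Or.inl h1') (hxs s)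
    have a3 : s₀ = s.1 := d5 _ _ _ a1 a2
    have hmem : σ₀ ∈ GD hk (RFE (sp (m * lam)) : IntermediateField (kk A B) ℂ) := by
      intro z hzD hzN
      apply Subtype.ext
      have := hs₀ ⟨z, hD z hzD⟩ hzN
      rw [this, a3]
      exact congrArg Subtype.val (s.2 z hzD (hD z hzD))
    obtain ⟨σ, hσ⟩ := rsHom_surj hk hs σ₀ hmem
    have hrs : res σ = s := by
      apply Subtype.ext
      rw [← a3]
      refine res_unique hle (hres σ) ?_
      rw [hσ]
      exact hs₀
    have hNy : m * lam ∣ b σ - y := by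
      have hb' := hb σ
      rw [hσ] at hb'
      rcases c1 _ _ _ _ le_rfl hb' hσ₀ with h3 | h3
      · exact h3
      · exfalso
        have h4 : m ∣ b σ + y := (dvd_mul_right m lam).trans h3
        have h5 := hbm σ
        rw [hrs] at h5
        have h6 : m ∣ 2 * xs s := by
          have h7 := dvd_sub (dvd_sub h4 h5) h1
          have e7 : b σ + y - (b σ - xs s) - (y - xs s) = 2 * xs s := by ring
          rwa [e7] at h7
        exact hm2 ((hxs s).cop.symm.dvd_of_dvd_mul_right h6)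
    refine ⟨σ, Prod.ext hrs (Units.ext ?_)⟩
    show cls lam (b σ) = r
    rw [hr, cls_eq_iff]
    have h8 := dvd_add ((dvd_mul_left lam m).trans hNy) h2
    have e8 : b σ - y + (y - r0) = b σ - r0 := by ring
    rwa [e8] at h8
  · -- the character
    intro p ψ hψ
    have hmul : ∀ σ τ : (RFE (sp (m * lam)) : IntermediateField (kk A B) ℂ) ≃ₐ[D]
        RFE (sp (m * lam)), (hbu (σ * τ)).unit = (hbu σ).unit * (hbu τ).unit ∨
        (hbu (σ * τ)).unit = -1 * ((hbu σ).unit * (hbu τ).unit) := by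
      intro σ τ
      have e1 := c4 _ _ _ _ _ le_rfl (hb σ) (hb τ)
      rw [← map_mul] at e1
      rcases c1 _ _ _ _ le_rfl (hb (σ * τ)) e1 with h1 | h1
      · left
        apply Units.ext
        show cls lam (b (σ * τ)) = cls lam (b σ) * cls lam (b τ)
        rw [← cls_mul, cls_eq_iff]
        exact (dvd_mul_left lam m).trans h1
      · right
        apply Units.ext
        show cls lam (b (σ * τ)) = -1 * (cls lam (b σ) * cls lam (b τ))
        have e2 : (-1 : OO A B ⧸ Ideal.span {lam}) = cls lam (-1) := by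
          unfold cls; rw [map_neg, map_one]
        rw [e2, ← cls_mul, ← cls_mul, cls_eq_iff]
        have : b (σ * τ) - -1 * (b σ * b τ) = b (σ * τ) + b σ * b τ := by ring
        rw [this]
        exact (dvd_mul_left lam m).trans h1
    have key : ∀ σ τ : (RFE (sp (m * lam)) : IntermediateField (kk A B) ℂ) ≃ₐ[D]
        RFE (sp (m * lam)), ψ (hbu (σ * τ)).unit = ψ (hbu σ).unit * ψ (hbu τ).unit := by
      intro σ τ
      rcases hmul σ τ with h1 | h1
      · rw [h1, map_mul]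
      · rw [h1, map_mul, hψ, one_mul, map_mul]
    have hone : ψ (hbu 1).unit = 1 := by
      have := key 1 1
      rw [mul_one] at this
      exact left_eq_mul.1 this
    exact ⟨{ toFun := fun σ => ψ (hbu σ).unit, map_one' := hone, map_mul' := key }, fun σ => rfl⟩

end

end

end Pool.Agent.MUXW
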