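import Pool.Agent.MUX.XK2
import Pool.Agent.ME.X.XK1
import Pool.Agent.MUX.RQ0

/-!
# MUX, block W, for (KOL): lattice facts, residue field of `lam`, values of `Θ_a`, norms (helper59)
-/

set_option autoImplicit false

open WeierstrassCurve Polynomial NumberField IsDedekindDomain

namespace Pool.Agent.MUXW

open _root_.MU3 Pool.Agent.MU3A Pool.Agent.MU3B Pool.Agent.MU3C Pool.Agent.RI
open Pool.Agent.MUX Pool.Agent.ME Pool.Agent.MUXU
open Pool.Agent.MU3V (cls Sub GD algDF towDF rsHom rsHom_apply rsHom_mem rsHom_surj rsHom_inj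
  mem_GD rd rd_cls cls_eq_iff cls_mul cls_one cls_out isUnit_cls coprime_of_isUnit)
open Pool.Agent.MUXV (GR InK tX CMO Ovr)

noncomputable section

variable {A B : ℤ}

/-! ### The lattice `Om O` -/

section
variable (h : CaseE A B) {L : PeriodPair} {Om : ℂ} (hL : IsNE (⊤ : Ideal (OO A B)) L Om)
include hL

lemma kx_mem_E {z : ℂ} : z ∈ L.lattice ↔ ∃ y : OO A B, z = Om * emb y :=
  (hL.mem z).trans ⟨fun ⟨y, _, hy⟩ => ⟨y, hy⟩, fun ⟨y, hy⟩ => ⟨y, Submodule.mem_top, hy⟩⟩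

include h

lemma kx_cmo_E : CMO A B L := by
  intro x z hz
  obtain ⟨y, rfl⟩ := (kx_mem_E hL).1 hz
  exact (kx_mem_E hL).2 ⟨x * y, by rw [kx_mul h]; ring⟩

lemma kx_div_E {m : OO A B} (hm : m ≠ 0) (x : OO A B) : emb x * (Om / emb m) ∈ L.lattice ↔ m ∣ x := by
  have hm0 := kx_ne h hm
  have hOm := hL.om_ne
  rw [kx_mem_E hL]
  constructor
  · rintro ⟨y, hy⟩
    refine ⟨y, kx_inj h ?_⟩
    rw [kx_mul h]
    field_simp at hy
    exact hy
  · rintro ⟨y, rfl⟩
    refine ⟨y, ?_⟩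
    rw [kx_mul h]
    field_simp

lemma kx_divsub_E {m : OO A B} (hm : m ≠ 0) (x y : OO A B) :
    emb x * (Om / emb m) - emb y * (Om / emb m) ∈ L.lattice ↔ m ∣ x - y := by
  rw [← sub_mul, ← kx_sub h]
  exact kx_div_E h hL hm _

lemma kx_tors_E {m : OO A B} (hm : m ≠ 0) (x : OO A B) :
    emb m * (emb x * (Om / emb m)) ∈ L.lattice := by
  have hm0 := kx_ne h hm
  refine (kx_mem_E hL).2 ⟨x, ?_⟩
  field_simp

lemma kx_torsN_E {m lam : OO A B} (hm : m ≠ 0) (hlam : lam ≠ 0) (s t : OO A B) :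
    emb (m * lam) * (emb s * (Om / emb m) + emb t * (Om / emb lam)) ∈ L.lattice := by
  have hm0 := kx_ne h hm
  have hl0 := kx_ne h hlam
  refine (kx_mem_E hL).2 ⟨lam * s + m * t, ?_⟩
  rw [kx_add h, kx_mul h, kx_mul h, kx_mul h]
  field_simp

lemma kx_notMem_E {m : OO A B} (hm : m ≠ 0) (hmu : ¬ IsUnit m) {x : OO A B} (hx : IsCoprime x m) :
    emb x * (Om / emb m) ∉ L.lattice := by
  rw [kx_div_E h hL hm]
  intro hd
  exact hmu (hx.symm.isUnit_of_dvd' dvd_rfl hd)

lemma kx_notMem2_E {m lam : OO A B} (hm : m ≠ 0) (hlam : lam ≠ 0) (hcop : IsCoprime m lam)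
    (hu : ¬ IsUnit lam) (s t : OO A B) (ht : IsCoprime t lam) :
    emb s * (Om / emb m) + emb t * (Om / emb lam) ∉ L.lattice := by
  intro hz
  have h1 := kx_cmo_E h hL m _ hz
  have hm0 := kx_ne h hm
  have h2 : emb m * (emb s * (Om / emb m) + emb t * (Om / emb lam)) =
      Om * emb s + emb (m * t) * (Om / emb lam) := by
    rw [kx_mul h]; field_simp
  rw [h2] at h1
  have h3 : Om * emb s ∈ L.lattice := (kx_mem_E hL).2 ⟨s, rfl⟩
  have h4 := sub_mem h1 h3
  rw [add_sub_cancel_left] at h4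
  have h5 := (kx_div_E h hL hlam (m * t)).1 h4
  exact hu ((hcop.mul_left ht).symm.isUnit_of_dvd' dvd_rfl h5)

omit h in
lemma kx_tcong_E {a : ℤ} {H : Finset ℂ} (hH : IsHalf L a H) {z z' : ℂ} (hz : z - z' ∈ L.lattice) :
    ThetaH L H z = ThetaH L H z' := by
  have := (b_TIN L a H H hH hH).2.2 z' (z - z') hz
  rwa [add_sub_cancel] at this

end

/-! ### Values of `Θ_a` -/

section
variable (h : CaseE A B) {L : PeriodPair} {Om : ℂ} (hL : IsNE (⊤ : Ideal (OO A B)) L Om)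
  {m lam : OO A B} (hm : m ≠ 0) (hlam : lam ≠ 0) (hcop : IsCoprime m lam) (hu : ¬ IsUnit lam)
  {a : ℤ} {H : Finset ℂ} (hH : IsHalf L a H)

include h hL hm hlam hH in
/-- Galois action on a value of `Θ_a` -/
lemma kx_sigma_E (hTHG : Sy_THG_E) (T : TorXE A B) [IsDomain (OO A B)] (ha : a ≠ 0) (s t : OO A B)
    (hz : emb s * (Om / emb m) + emb t * (Om / emb lam) ∉ L.lattice)
    (σ : (RFE (sp (m * lam)) : IntermediateField (kk A B) ℂ) ≃ₐ[kk A B] RFE (sp (m * lam)))
    {x y r : OO A B} (hx : ActH_E σ (m * lam) x) (hy : m ∣ x - y) (hr : lam ∣ x - r)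
    (hmem : ThetaH L H (emb s * (Om / emb m) + emb t * (Om / emb lam)) ∈
      (RFE (sp (m * lam)) : IntermediateField (kk A B) ℂ)) :
    ((σ ⟨_, hmem⟩ : (RFE (sp (m * lam)) : IntermediateField (kk A B) ℂ)) : ℂ) =
      ThetaH L H (emb (s * y) * (Om / emb m) + emb (t * r) * (Om / emb lam)) := by
  have hN : m * lam ≠ 0 := mul_ne_zero hm hlam
  obtain ⟨hk, hxx, hz1, -, hz2⟩ := hTHG A B h T ⊤ L Om hL (m * lam) hN a H ha hH _
    (kx_torsN_E h hL hm hlam s t) hz
  have e1 : ((σ ⟨_, hmem⟩ : (RFE (sp (m * lam)) : IntermediateField (kk A B) ℂ)) : ℂ) =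
      ThetaH L H (emb x * (emb s * (Om / emb m) + emb t * (Om / emb lam))) := hz2 σ x hx
  rw [e1]
  refine kx_tcong_E hL hH ?_
  have d1 : m ∣ x * s - s * y := by
    have h2 := hy.mul_left s
    rwa [mul_sub, mul_comm s x] at h2
  have d2 : lam ∣ x * t - t * r := by
    have h2 := hr.mul_left t
    rwa [mul_sub, mul_comm t x] at h2
  have m1 := (kx_divsub_E h hL hm _ _).2 d1
  have m2 := (kx_divsub_E h hL hlam _ _).2 d2
  have h9 := add_mem m1 m2
  have e : emb x * (emb s * (Om / emb m) + emb t * (Om / emb lam)) -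
      (emb (s * y) * (Om / emb m) + emb (t * r) * (Om / emb lam)) =
      emb (x * s) * (Om / emb m) - emb (s * y) * (Om / emb m) +
        (emb (x * t) * (Om / emb lam) - emb (t * r) * (Om / emb lam)) := by
    rw [kx_mul h x s, kx_mul h x t]
    ring
  rw [e]
  exact h9

/-! ### The fibre product -/

include h hL hm hlam hcop hH in
lemma kx_fibre_E (hDIS : Sy_DIS_E) (T : TorXE A B) (ha : a ≠ 0) (hcl : IsCoprime (a : OO A B) lam)
    (hcm : IsCoprime (a : OO A B) m) (hmu : ¬ IsUnit m)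
    (hf : IsField (OO A B ⧸ Ideal.span {lam})) [Finite (OO A B ⧸ Ideal.span {lam})] :
    ∃ C ∈ (RFE (⊤ : Ideal (OO A B)) : IntermediateField (kk A B) ℂ), C ≠ 0 ∧
      ∀ y : OO A B, IsCoprime y m →
      (∏ᶠ r : (OO A B ⧸ Ideal.span {lam})ˣ, ThetaH L H (emb y * (Om / emb m) +
        emb (Quotient.out (r : OO A B ⧸ Ideal.span {lam})) * (Om / emb lam))) *
          ThetaH L H (emb y * (Om / emb m)) =
        C * ThetaH L H (emb (lam * y) * (Om / emb m)) := by
  classical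
  obtain ⟨C, hC, hC0, hC2⟩ := hDIS A B h T L Om hL lam hlam a H ha hcl hH
  refine ⟨C, hC, hC0, fun y hy => ?_⟩
  set z := emb y * (Om / emb m) with hz
  have hz1 : emb lam * a * z ∉ L.lattice := by
    have e : emb lam * a * z = emb (lam * (a : OO A B) * y) * (Om / emb m) := by
      rw [kx_mul h, kx_mul h, kx_int h, hz]; ring
    rw [e, kx_div_E h hL hm]
    intro hd
    have c1 : IsCoprime (lam * (a : OO A B) * y) m := (hcop.symm.mul_left hcm).mul_left hy
    exact hmu (c1.symm.isUnit_of_dvd' dvd_rfl hd)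
  have e2 := hC2 z hz1
  have e3 : emb (lam * y) * (Om / emb m) = emb lam * z := by rw [kx_mul h, hz]; ring
  rw [e3, ← e2]
  have : Fintype (OO A B ⧸ Ideal.span {lam}) := Fintype.ofFinite _
  have : Fintype (OO A B ⧸ Ideal.span {lam})ˣ := Fintype.ofFinite _
  rw [finprod_eq_prod_of_fintype, finprod_eq_prod_of_fintype]
  set F : (OO A B ⧸ Ideal.span {lam}) → ℂ := fun t =>
    ThetaH L H (z + emb (Quotient.out t) * (Om / emb lam)) with hF
  have f0 : F 0 = ThetaH L H z := by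
    refine kx_tcong_E hL hH ?_
    rw [add_sub_cancel_left, kx_div_E h hL hlam]
    have : cls lam (Quotient.out (0 : OO A B ⧸ Ideal.span {lam})) = cls lam 0 := by
      rw [cls_out]; unfold cls; exact (map_zero _).symm
    rw [cls_eq_iff, sub_zero] at this
    exact this
  have e4 : ∏ t, F t = (∏ r : (OO A B ⧸ Ideal.span {lam})ˣ, F (r : OO A B ⧸ Ideal.span {lam})) * F 0 := by
    rw [← Finset.prod_erase_mul Finset.univ F (Finset.mem_univ 0)]
    congr 1
    refine (Finset.prod_bij (fun (r : (OO A B ⧸ Ideal.span {lam})ˣ) _ =>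
      (r : OO A B ⧸ Ideal.span {lam})) ?_ ?_ ?_ ?_).symm
    · intro r _
      rw [Finset.mem_erase]
      refine ⟨fun h0 => ?_, Finset.mem_univ _⟩
      obtain ⟨x, y, hxy⟩ := hf.exists_pair_ne
      have h1 := r.mul_inv
      rw [h0, zero_mul] at h1
      exact hxy (by rw [← one_mul x, ← h1, zero_mul, ← one_mul y, ← h1, zero_mul])
    · intro r _ s _ e
      exact Units.ext e
    · intro t ht
      obtain ⟨s, hs⟩ := hf.mul_inv_cancel (Finset.ne_of_mem_erase ht)
      exact ⟨⟨t, s, hs, by rw [mul_comm]; exact hs⟩, Finset.mem_univ _, rfl⟩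
    · intro r _; rfl
  rw [← f0]
  exact e4.symm

include h hL hm hlam hcop hH in
/-- the norm of `Θ_a(u + u')` is in the Hilbert class field -/
theorem kx_norm_E (hACM : Sy_ACM_E) (hDIS : Sy_DIS_E) (T : TorXE A B)
    (ha : a ≠ 0) (hcl : IsCoprime (a : OO A B) lam)
    (hcm : IsCoprime (a : OO A B) m) (hmu : ¬ IsUnit m)
    (hf : IsField (OO A B ⧸ Ideal.span {lam})) [Finite (OO A B ⧸ Ideal.span {lam})]
    {D : IntermediateField ℚ ℂ} (hk : kk A B ≤ D)
    [Finite (GD hk (RFE (sp m) : IntermediateField (kk A B) ℂ))]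
    {xs : GD hk (RFE (sp m) : IntermediateField (kk A B) ℂ) → OO A B}
    (hxs : ∀ s : GD hk (RFE (sp m) : IntermediateField (kk A B) ℂ),
      ActH_E (s : (RFE (sp m) : IntermediateField (kk A B) ℂ) ≃ₐ[kk A B] RFE (sp m)) m (xs s))
    (hfrob : ∃ σ ∈ GD hk (RFE (sp m) : IntermediateField (kk A B) ℂ), ActH_E σ m lam) :
    ∃ C ∈ (RFE (⊤ : Ideal (OO A B)) : IntermediateField (kk A B) ℂ), C ≠ 0 ∧
      (∏ᶠ s : GD hk (RFE (sp m) : IntermediateField (kk A B) ℂ),
      ∏ᶠ r : (OO A B ⧸ Ideal.span {lam})ˣ,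
        ThetaH L H (emb (xs s) * (Om / emb m) +
        emb (Quotient.out (r : OO A B ⧸ Ideal.span {lam})) * (Om / emb lam))) = C := by
  classical
  obtain ⟨C, hC, hC0, hfib⟩ := kx_fibre_E h hL hm hlam hcop hH hDIS T ha hcl hcm hmu hf
  have : Fintype (GD hk (RFE (sp m) : IntermediateField (kk A B) ℂ)) := Fintype.ofFinite _
  let X := GD hk (RFE (sp m) : IntermediateField (kk A B) ℂ)
  have hxs' : ∀ s : X, IsCoprime (xs s) m := fun s => (hxs s).cop
  obtain ⟨d1, d2, d3, d4, d5, d6, d7, d8⟩ := hACM A B h L Om hL m hm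
  set g : X → ℂ := fun y => ThetaH L H (emb (xs y) * (Om / emb m)) with hg
  set g' : X → ℂ := fun y => ThetaH L H (emb (lam * xs y) * (Om / emb m)) with hg'
  have hg0 : ∀ y : X, g y ≠ 0 := by
    intro y h0
    have hz : emb (xs y) * (Om / emb m) ∉ L.lattice := kx_notMem_E h hL hm hmu (hxs y).cop
    have h1 := (b_TNZ L a H (fun w hw => by
      have := kx_cmo_E h hL (a : OO A B) w hw
      rwa [kx_int h] at this) hH _ hz).1 h0
    have e : (a : ℂ) * (emb (xs y) * (Om / emb m)) =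
        emb ((a : OO A B) * xs y) * (Om / emb m) := by
      rw [kx_mul h, kx_int h]; ring
    rw [e, kx_div_E h hL hm] at h1
    exact hmu ((hcm.mul_left (hxs y).cop).symm.isUnit_of_dvd' dvd_rfl h1)
  -- the permutation
  have hperm : ∏ y, g' y = ∏ y, g y := by
    obtain ⟨σ, hσ, hσ1⟩ := hfrob
    let T' : X ≃ X := Equiv.mulLeft (⟨σ, hσ⟩ : X)
    rw [← Equiv.prod_comp T' g]
    refine Finset.prod_congr rfl fun y _ => ?_
    have a1 : ActH_E ((T' y : X) : (RFE (sp m) : IntermediateField (kk A B) ℂ) ≃ₐ[kk A B] RFE (sp m)) m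
        (lam * xs y) := d4 _ _ _ _ _ le_rfl hσ1 (hxs y)
    have hev := (b_TIN L a H H hH hH).2.1
    rcases d1 _ _ _ _ le_rfl a1 (hxs (T' y)) with e | e
    · refine kx_tcong_E hL hH ?_
      rwa [kx_divsub_E h hL hm]
    · show ThetaH L H _ = ThetaH L H _
      rw [← hev (emb (xs (T' y)) * (Om / emb m)), ← neg_mul, ← kx_neg h]
      refine kx_tcong_E hL hH ?_
      rw [kx_divsub_E h hL hm, sub_neg_eq_add]
      exact e
  set f : X → ℂ := fun y => ∏ᶠ r : (OO A B ⧸ Ideal.span {lam})ˣ,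
        ThetaH L H (emb (xs y) * (Om / emb m) +
        emb (Quotient.out (r : OO A B ⧸ Ideal.span {lam})) * (Om / emb lam)) with hfd
  have e1 : (∏ y, f y) * ∏ y, g y = C ^ Fintype.card X * ∏ y, g' y := by
    rw [← Finset.prod_mul_distrib, ← Finset.card_univ, ← Finset.prod_const,
      ← Finset.prod_mul_distrib]
    exact Finset.prod_congr rfl fun y _ => hfib _ (hxs y).cop
  rw [hperm] at e1
  have e2 := mul_right_cancel₀ (Finset.prod_ne_zero_iff.2 fun y _ => hg0 y) e1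
  refine ⟨C ^ Fintype.card X, pow_mem hC _, pow_ne_zero _ hC0, ?_⟩
  rw [finprod_eq_prod_of_fintype]
  exact e2

end

end

end Pool.Agent.MUXW
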