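import Pool.Agent.MUX.W_KOL
import Pool.Agent.ME.X.XK3
import Pool.Agent.MUX.XK4
import Pool.Agent.MU3.V_EXT
import Pool.Agent.MU3.W_LOC

/-!
# MUX, block W: (KOL), the Kolyvagin input, for every prime `p` (helper59)
-/

set_option autoImplicit false

open WeierstrassCurve Polynomial NumberField IsDedekindDomain

namespace Pool.Agent.MUXW

open _root_.MU3 Pool.Agent.MU3A Pool.Agent.MU3B Pool.Agent.MU3C Pool.Agent.RI
open Pool.Agent.MUX Pool.Agent.ME Pool.Agent.MUXU
open Pool.Agent.MU3V (cls Sub GD algDF towDF rsHom rsHom_apply rsHom_mem rsHom_surj rsHom_inj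
  mem_GD rd rd_cls cls_eq_iff cls_mul cls_one cls_out isUnit_cls coprime_of_isUnit val_int_S)
open Pool.Agent.MUXV (GR InK tX CMO Ovr)

noncomputable section

variable {A B : ℤ}

theorem ty_KOL_E (hACM : Sy_ACM_E) (hKER : Sy_KER_E) (hTHG : Sy_THG_E) (hGRB : Sy_GRB_E) (hINV : Sy_INV_E)
    (hDIS : Sy_DIS_E) (hPRQ : Sy_PRQ) (hFRD : Sy_FRD_E) (hURA : Sy_URA) : Sy_KOL_E := by
  intro A B h T n ι _ R
  have hL : IsNE (⊤ : Ideal (OO A B)) (R.L R.i0) (R.om R.i0) := by
    have := R.nl R.i0; rwa [R.b0] at this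
  generalize R.L R.i0 = L at hL ⊢
  generalize R.om R.i0 = Om at hL ⊢
  obtain ⟨n1, hn1, hF⟩ := hFRD A B h T n ι R
  obtain ⟨n2, hn2, hGR⟩ := hGRB A B h L hL.nrm
  have hdisc : (B ^ 2 + 4 * A).natAbs ≠ 0 := Int.natAbs_ne_zero.2 (ne_of_lt h.neg)
  refine ⟨2 * (n1 * (n2 * (B ^ 2 + 4 * A).natAbs)), mul_ne_zero (by norm_num)
    (mul_ne_zero hn1 (mul_ne_zero hn2 hdisc)), ?_⟩
  intro p hp m hm h2m hm2 a H ha hcm hH S hS0 hSa hSm θ hθ D _ _ hk hHas hD
  letI := algC hk
  intro c hc v q hg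
  haveI := kx_dom h.toCQ
  obtain ⟨hPR1, hPR2, -⟩ := hPRQ A B h
  have hq := hg.prime
  have hq0 : ¬ q ∣ 2 * (n1 * (n2 * (B ^ 2 + 4 * A).natAbs)) := fun hd => hg.notin (hS0 q hq hd)
  have hqm : ¬ (q : ℤ) ∣ nm m := fun hd => hg.notin (hSm q hq hd)
  have hqa : ¬ (q : ℤ) ∣ a := fun hd => hg.notin (hSa q hq hd)
  have hqn1 : ¬ q ∣ n1 := fun hd => hq0 ((hd.mul_right _).mul_left 2)
  have hqn2 : ¬ q ∣ n2 := fun hd => hq0 (((hd.mul_right _).mul_left n1).mul_left 2)
  have hqD : ¬ (q : ℤ) ∣ B ^ 2 + 4 * A := fun hd =>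
    hq0 ((((Int.natCast_dvd.1 hd).mul_left n2).mul_left n1).mul_left 2)
  have hq2 : q ≠ 2 := fun e => hq0 (by rw [e]; exact dvd_mul_right _ _)
  obtain ⟨lam, hnm, hfrob, hP⟩ := hF p m hm h2m D hk hHas hD S v q hg hqn1 hqm
  have hmu : ¬ IsUnit m := fun hu => hm2 hu.dvd
  have hlam : lam ≠ 0 := by
    rintro rfl
    rw [(kx_n0 h 0).2 rfl] at hnm
    exact hq.ne_zero (by exact_mod_cast hnm.symm)
  obtain ⟨hcardq, hmax, -, -, hZ⟩ := MUXV.q_DGL A B (kx_cq h) lam q hq hnm
  have hprl : Prime lam := (Ideal.span_singleton_prime hlam).1 hmax.isPrime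
  have hul : ¬ IsUnit lam := hprl.not_isUnit
  have hnmdvd : ∀ x y : OO A B, x ∣ y → nm x ∣ nm y := by
    rintro x y ⟨z, rfl⟩
    exact ⟨nm z, kx_nmul h x z⟩
  have hcop : IsCoprime m lam := by
    refine kx_cop hmax ?_
    intro hd
    apply hqm
    rw [← hnm]
    exact hnmdvd _ _ hd
  have hcl : IsCoprime (a : OO A B) lam := kx_cop hmax fun hd => hqa (hZ a hd)
  obtain ⟨hfld, hfin, hcyc, hcardU⟩ := kx_units h hq hnm
  have hpU : 2 * p ∣ Nat.card (OO A B ⧸ Ideal.span {lam})ˣ := by rw [hcardU]; exact hg.dvd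
  obtain ⟨ψ, hψ⟩ := exists_psi (p := p) (U := (OO A B ⧸ Ideal.span {lam})ˣ)
    ((dvd_mul_left p 2).trans hpU)
  have hψ1 : ψ (-1) = 1 := psi_two hpU ψ (by rw [neg_mul_neg, one_mul])
  have hN : m * lam ≠ 0 := mul_ne_zero hm hlam
  have hbN : (sp (m * lam) : Ideal (OO A B)) ≠ ⊥ := by
    rw [Ne, Ideal.span_singleton_eq_bot]; exact hN
  have hbm : (sp m : Ideal (OO A B)) ≠ ⊥ := by
    rw [Ne, Ideal.span_singleton_eq_bot]; exact hm
  have hfdM := T.fin _ hbN
  have hgalM := T.gal _ hbN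
  have hcomm := T.comm _ hbN
  have hkN : NumberField (kk A B) := ⟨⟩
  have hMQ : FiniteDimensional ℚ (RFE (sp (m * lam)) : IntermediateField (kk A B) ℂ) :=
    FiniteDimensional.trans ℚ (kk A B) _
  have hMN : NumberField (RFE (sp (m * lam)) : IntermediateField (kk A B) ℂ) := ⟨⟩
  have hle : (RFE (sp m) : IntermediateField (kk A B) ℂ) ≤ RFE (sp (m * lam)) :=
    RF_dvd_E (dvd_mul_right m lam)
  have hs : Sub D (RFE (sp (m * lam)) : IntermediateField (kk A B) ℂ) := fun x hx => hle (hD x hx)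
  letI := algDF hs
  haveI := towDF hk hs
  obtain ⟨c1, c2, c3, c4, c5, c6, c7, c8⟩ := hACM A B h L Om hL (m * lam) hN
  obtain ⟨d1, d2, d3, d4, d5, d6, d7, d8⟩ := hACM A B h L Om hL m hm
  -- the exponents on `F_m`
  have hxs0 : ∀ s : GD hk (RFE (sp m) : IntermediateField (kk A B) ℂ), ∃ x : OO A B,
      ActH_E (s : (RFE (sp m) : IntermediateField (kk A B) ℂ) ≃ₐ[kk A B] RFE (sp m)) m x := fun s =>
    (hKER A B h T m hm).1 s.1 (trH_of_GD_E hk hHas s.2)
  choose xs hxs using hxs0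
  obtain ⟨res, b, bu, hres, hb, hbm', hbu, hbij, hchi⟩ :=
    bijX_E h hL hm hlam h2m hm2 hcop hk hHas hD hs hACM hKER T hxs
  obtain ⟨χ, hχ⟩ := hchi p ψ hψ1
  have hfinm : Finite (GD hk (RFE (sp m) : IntermediateField (kk A B) ℂ)) := by
    haveI := T.fin _ hbm
    infer_instance
  have hfinG : Finite ((RFE (sp (m * lam)) : IntermediateField (kk A B) ℂ) ≃ₐ[D]
      RFE (sp (m * lam))) := Finite.of_injective _ (rsHom_inj hk hs)
  have hUfin : Finite (OO A B ⧸ Ideal.span {lam})ˣ := inferInstance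
  -- the values
  have hz1 : emb (1 : OO A B) * (Om / emb m) + emb (1 : OO A B) * (Om / emb lam) ∉ L.lattice :=
    kx_notMem2_E h hL hm hlam hcop hul 1 1 isCoprime_one_left
  have hz0 : emb (1 : OO A B) * (Om / emb m) + emb (0 : OO A B) * (Om / emb lam) ∉ L.lattice := by
    rw [kx_zero h, zero_mul, add_zero]
    exact kx_notMem_E h hL hm hmu isCoprime_one_left
  obtain ⟨-, -, hθM, -⟩ := hTHG A B h T ⊤ L Om hL (m * lam) hN a H ha hH _
    (kx_torsN_E h hL hm hlam 1 1) hz1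
  obtain ⟨-, -, hθ0, -⟩ := hTHG A B h T ⊤ L Om hL (m * lam) hN a H ha hH _
    (kx_torsN_E h hL hm hlam 1 0) hz0
  have hblam : ∀ σ, lam ∣ b σ - Quotient.out ((bu σ : (OO A B ⧸ Ideal.span {lam})ˣ) :
      OO A B ⧸ Ideal.span {lam}) := fun σ => cls_eq_iff.1 (by rw [cls_out, hbu])
  have hsig : ∀ σ : (RFE (sp (m * lam)) : IntermediateField (kk A B) ℂ) ≃ₐ[D] RFE (sp (m * lam)),
      ((σ ⟨_, hθM⟩ : (RFE (sp (m * lam)) : IntermediateField (kk A B) ℂ)) : ℂ) =
        ThetaH L H (emb (xs (res σ)) * (Om / emb m) +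
          emb (Quotient.out ((bu σ : (OO A B ⧸ Ideal.span {lam})ˣ) :
            OO A B ⧸ Ideal.span {lam})) * (Om / emb lam)) := by
    intro σ
    have h1 := kx_sigma_E h hL hm hlam hH hTHG T ha 1 1 hz1 (rsHom hk hs σ) (hb σ) (hbm' σ)
      (hblam σ) hθM
    rw [one_mul, one_mul] at h1
    exact h1
  have hsig0 : ∀ σ : (RFE (sp (m * lam)) : IntermediateField (kk A B) ℂ) ≃ₐ[D] RFE (sp (m * lam)),
      ((σ ⟨_, hθ0⟩ : (RFE (sp (m * lam)) : IntermediateField (kk A B) ℂ)) : ℂ) =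
        ThetaH L H (emb (xs (res σ)) * (Om / emb m)) := by
    intro σ
    have h1 := kx_sigma_E h hL hm hlam hH hTHG T ha 1 0 hz0 (rsHom hk hs σ) (hb σ) (hbm' σ)
      (hblam σ) hθ0
    refine h1.trans ?_
    rw [one_mul, zero_mul, kx_zero h, zero_mul, add_zero]
  have hcval : (c : ℂ) = ∏ᶠ s : GD hk (RFE (sp m) : IntermediateField (kk A B) ℂ),
      ThetaH L H (emb (xs s) * (Om / emb m)) := by
    rw [hc]
    unfold cW
    refine finprod_congr fun s => ?_
    have hz : emb (1 : OO A B) * (Om / emb m) ∉ L.lattice :=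
      kx_notMem_E h hL hm hmu isCoprime_one_left
    rw [kx_one h, one_mul] at hz
    have hkz := kx_tors_E h hL hm (1 : OO A B)
    rw [kx_one h, one_mul] at hkz
    obtain ⟨-, -, h3, -, h5⟩ := hTHG A B h T ⊤ L Om hL m hm a H ha hH _ hkz hz
    have e : θ = ⟨_, h3⟩ := Subtype.ext hθ
    rw [e]
    exact h5 s.1 (xs s) (hxs s)
  -- valuations
  have hVQ : ∀ w : HeightOneSpectrum (𝓞 (RFE (sp (m * lam)) : IntermediateField (kk A B) ℂ)),
      ∃ V : ValuationSubring ℂ,
      ∀ x : (RFE (sp (m * lam)) : IntermediateField (kk A B) ℂ),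
      ((algebraMap _ ℂ x) ∈ V ↔ w.valuation _ x ≤ 1) ∧
      (V.valuation (algebraMap _ ℂ x) < 1 ↔ w.valuation _ x < 1) ∧
      (V.valuation (algebraMap _ ℂ x) = 1 ↔ w.valuation _ x = 1) := fun w =>
    MU3V.tv_EXT _ (algebraMap (RFE (sp (m * lam)) : IntermediateField (kk A B) ℂ) ℂ) w
  have hnm0' : nm m ≠ 0 := fun h0 => hm ((kx_n0 h m).1 h0)
  -- `lam` as an element of the ring of integers of `M`
  obtain ⟨ℓ, hℓ⟩ : ∃ ℓ : 𝓞 (kk A B), ((ℓ : kk A B) : ℂ) = emb lam := hPR2 lam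
  have hℓ0 : ℓ ≠ 0 := by
    rintro rfl
    apply kx_ne h hlam
    rw [← hℓ]
    simp
  have hℓM : ((algebraMap (𝓞 (kk A B)) (𝓞 (RFE (sp (m * lam)) : IntermediateField (kk A B) ℂ)) ℓ :
      (RFE (sp (m * lam)) : IntermediateField (kk A B) ℂ)) : ℂ) = emb lam := by
    rw [← hℓ]; rfl
  have hℓv : ℓ ∈ v.asIdeal.under (𝓞 (kk A B)) := (hP ℓ lam hℓ).2 dvd_rfl
  have hvspan : v.asIdeal.under (𝓞 (kk A B)) = Ideal.span {ℓ} := by
    apply le_antisymm
    · intro x hx
      obtain ⟨y, hy⟩ := hPR1 x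
      obtain ⟨z, hz⟩ := (hP x y hy).1 hx
      obtain ⟨z', hz'⟩ := hPR2 z
      rw [Ideal.mem_span_singleton]
      refine ⟨z', ?_⟩
      apply RingOfIntegers.ext
      apply Subtype.ext
      rw [hy, hz, kx_mul h, ← hℓ, ← hz']
      rfl
    · rw [Ideal.span_singleton_le_iff_mem]
      exact hℓv
  have hvl : ∀ (w : HeightOneSpectrum (𝓞 (RFE (sp (m * lam)) : IntermediateField (kk A B) ℂ)))
      (V : ValuationSubring ℂ),
      (∀ x : (RFE (sp (m * lam)) : IntermediateField (kk A B) ℂ),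
      ((algebraMap _ ℂ x) ∈ V ↔ w.valuation _ x ≤ 1) ∧
      (V.valuation (algebraMap _ ℂ x) < 1 ↔ w.valuation _ x < 1) ∧
      (V.valuation (algebraMap _ ℂ x) = 1 ↔ w.valuation _ x = 1)) →
      w.asIdeal.under (𝓞 (kk A B)) = v.asIdeal.under (𝓞 (kk A B)) →
      V.valuation (emb lam) < 1 := by
    intro w V hV hw
    have hy : ℓ ∈ w.asIdeal.under (𝓞 (kk A B)) := by rw [hw]; exact hℓv
    rw [← hℓM]
    exact ((hV _).2.1).2 ((HeightOneSpectrum.valuation_lt_one_iff_mem w _).2 hy)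
  have hval2 : ∀ (V : ValuationSubring ℂ), V.valuation ((n2 : ℕ) : ℂ) = 1 → GR0 V L := fun V hV =>
    gre_zero (hGR V hV).2.2
  have hSn2 : ∀ {w : HeightOneSpectrum (𝓞 (RFE (sp (m * lam)) : IntermediateField (kk A B) ℂ))}
      {V : ValuationSubring ℂ},
      (∀ x : (RFE (sp (m * lam)) : IntermediateField (kk A B) ℂ),
      ((algebraMap _ ℂ x) ∈ V ↔ w.valuation _ x ≤ 1) ∧
      (V.valuation (algebraMap _ ℂ x) < 1 ↔ w.valuation _ x < 1) ∧
      (V.valuation (algebraMap _ ℂ x) = 1 ↔ w.valuation _ x = 1)) →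
      ¬ Pool.Agent.MU3.Above S w → GR0 V L := by
    intro w V hV hwS
    apply hval2
    have := val_int_S hV hwS (n := (n2 : ℤ)) (by exact_mod_cast hn2) (fun p hp hpd => by
      refine hS0 p hp (((Dvd.dvd.mul_right ?_ _).mul_left n1).mul_left 2)
      exact_mod_cast hpd)
    simpa using this
  have hINVc : ∀ {w : HeightOneSpectrum (𝓞 (RFE (sp (m * lam)) : IntermediateField (kk A B) ℂ))}
      {V : ValuationSubring ℂ},
      (∀ x : (RFE (sp (m * lam)) : IntermediateField (kk A B) ℂ),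
      ((algebraMap _ ℂ x) ∈ V ↔ w.valuation _ x ≤ 1) ∧
      (V.valuation (algebraMap _ ℂ x) < 1 ↔ w.valuation _ x < 1) ∧
      (V.valuation (algebraMap _ ℂ x) = 1 ↔ w.valuation _ x = 1)) →
      ∀ σ : (RFE (sp (m * lam)) : IntermediateField (kk A B) ℂ) ≃ₐ[D] RFE (sp (m * lam)),
      (∀ x : 𝓞 (RFE (sp (m * lam)) : IntermediateField (kk A B) ℂ), σ • x - x ∈ w.asIdeal) →
      ∀ x : (RFE (sp (m * lam)) : IntermediateField (kk A B) ℂ), (x : ℂ) ∈ V →
        V.valuation ((((rsHom hk hs σ) x :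
          (RFE (sp (m * lam)) : IntermediateField (kk A B) ℂ)) : ℂ) - (x : ℂ)) < 1 := by
    intro w V hV σ hσ x hx
    have h2 := MU3V.tw_LOC A B (RFE (sp (m * lam))) w V (fun y => ⟨(hV y).1, (hV y).2.1⟩)
      (rsHom hk hs σ) 1 one_pos (fun y => ⟨_, hσ y, by rw [pow_one]; rfl⟩) x hx
    rwa [pow_one] at h2
  have hAmem : ∀ σ : (RFE (sp (m * lam)) : IntermediateField (kk A B) ℂ) ≃ₐ[D] RFE (sp (m * lam)),
      σ ∈ kA hs (RFE (sp m) : IntermediateField (kk A B) ℂ) ↔ res σ = 1 := fun σ =>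
    (mem_kA' hk hs hle (res σ).1 σ (hres σ)).trans
      ⟨fun e => Subtype.ext e, fun e => by rw [e]; rfl⟩
  refine Pool.Agent.MUXK.I2ABSP_thm p hp (kk A B) D
    (RFE (sp (m * lam)) : IntermediateField (kk A B) ℂ) hcomm _ S c v q
    (kA hs (RFE (sp m) : IntermediateField (kk A B) ℂ)) χ ?_ ?_ ?_ ⟨_, hθM⟩ ⟨_, hθ0⟩ ?_ ?_ ?_ ?_
  · -- the character is not trivial on `A`
    obtain ⟨r, hr⟩ := hψ (Multiplicative.ofAdd 1)
    obtain ⟨σ, hσ⟩ := hbij.2 (1, r)
    have e1 : res σ = 1 := congrArg Prod.fst hσ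
    have e2 : bu σ = r := congrArg Prod.snd hσ
    refine ⟨σ, (hAmem σ).2 e1, ?_⟩
    rw [hχ, e2, hr]
    intro e
    have h1 : (1 : ZMod p) = 0 := congrArg Multiplicative.toAdd e
    haveI := Fact.mk hp
    exact one_ne_zero h1
  · -- unramified
    intro w hwS hwk σ hσ
    obtain ⟨V, hV⟩ := hVQ w
    have vm : V.valuation ((nm m : ℤ) : ℂ) = 1 := val_int_S hV hwS hnm0' hSm
    have hGV := hSn2 hV hwS
    have vl : V.valuation (emb lam) = 1 := by
      refine le_antisymm (kx_vle h V lam) (not_lt.1 fun hlt => hwk ?_)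
      have hℓw : ℓ ∈ w.asIdeal.under (𝓞 (kk A B)) := by
        show algebraMap (𝓞 (kk A B)) (𝓞 (RFE (sp (m * lam)) : IntermediateField (kk A B) ℂ)) ℓ ∈
          w.asIdeal
        rw [← HeightOneSpectrum.valuation_lt_one_iff_mem
          (K := (RFE (sp (m * lam)) : IntermediateField (kk A B) ℂ)) w]
        apply ((hV _).2.1).1
        have : algebraMap (RFE (sp (m * lam)) : IntermediateField (kk A B) ℂ) ℂ
          (algebraMap (𝓞 (RFE (sp (m * lam)) : IntermediateField (kk A B) ℂ))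
          (RFE (sp (m * lam)) : IntermediateField (kk A B) ℂ)
          (algebraMap (𝓞 (kk A B)) (𝓞 (RFE (sp (m * lam)) : IntermediateField (kk A B) ℂ)) ℓ)) =
            emb lam := hℓM
        rw [this]
        exact hlt
      have hsub : v.asIdeal.under (𝓞 (kk A B)) ≤ w.asIdeal.under (𝓞 (kk A B)) := by
        rw [hvspan, Ideal.span_singleton_le_iff_mem]
        exact hℓw
      have hmax' : (v.asIdeal.under (𝓞 (kk A B))).IsMaximal := by
        have hp : (v.asIdeal.under (𝓞 (kk A B))).IsPrime := Ideal.IsPrime.under _ _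
        exact hp.isMaximal (v.under (𝓞 (kk A B))).ne_bot
      have hne : w.asIdeal.under (𝓞 (kk A B)) ≠ ⊤ := by
        have hp : (w.asIdeal.under (𝓞 (kk A B))).IsPrime := Ideal.IsPrime.under _ _
        exact hp.ne_top
      exact (hmax'.eq_of_le hne hsub).symm
    have h1 := hINV A B h L Om hL (m * lam) hN V (gre_of hGV)
      (fun z hz hE => kx_torN_E h hL hGV hq hq2 hqD hnm hlam vm vl hz ((ink_zero V L z).2 hE)) _ le_rfl
      (rsHom hk hs σ) (hINVc hV σ hσ) (b σ) (hb σ)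
    have h2 := c2 _ _ (b σ) 1 h1 (hb σ)
    have h3 : rsHom hk hs σ = 1 := c5 _ _ 1 h2 (c6 _)
    exact rsHom_inj hk hs (by rw [h3, map_one])
  · -- totally ramified
    intro w hw σ hσ x
    obtain ⟨V, hV⟩ := hVQ w
    have hlt := hvl w V hV hw
    obtain ⟨vq, hint, -⟩ := kx_int1 h hq hnm hlt
    have vm : V.valuation ((nm m : ℤ) : ℂ) = 1 := hint _ hqm
    have hGV : GR0 V L := hval2 V (by
      have := hint (n2 : ℤ) (by exact_mod_cast hqn2)
      simpa using this)
    haveI : IsGalois D (RFE (sp (m * lam)) : IntermediateField (kk A B) ℂ) :=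
      IsGalois.tower_top_of_isGalois (kk A B) D _
    -- the prime of `D` below `w`
    have hv'k : (w.under (𝓞 D)).asIdeal.under (𝓞 (kk A B)) = v.asIdeal.under (𝓞 (kk A B)) := by
      rw [← hw]
      exact Ideal.under_under w.asIdeal
    haveI := kx_galD hgalM hfdM hcomm hk hs
    have hr := hURA p (kk A B) D S v q hg (w.under (𝓞 D)) hv'k
    have hlD := kx_val_lam (kk A B) D (w.under (𝓞 D)) hr ℓ hℓ0 (hv'k.trans hvspan)
    -- the element `x(u + u') - x(u)`
    have hu1 : Om / emb m + Om / emb lam ∉ L.lattice := by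
      have := hz1; rwa [kx_one h, one_mul, one_mul] at this
    have hk1 : emb (m * lam) * (Om / emb m + Om / emb lam) ∈ L.lattice := by
      have := kx_torsN_E h hL hm hlam 1 1; rwa [kx_one h, one_mul, one_mul] at this
    have hu2 : Om / emb m ∉ L.lattice := by
      have := kx_notMem_E h hL hm hmu (isCoprime_one_left (x := m))
      rwa [kx_one h, one_mul] at this
    have hk2 : emb (m * lam) * (Om / emb m) ∈ L.lattice := by
      have := kx_torsN_E h hL hm hlam 1 0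
      rwa [kx_one h, one_mul, kx_zero h, zero_mul, add_zero] at this
    have hmemx : ∀ z : ℂ, z ∉ L.lattice → emb (m * lam) * z ∈ L.lattice →
        xnE L z ∈ (RFE (sp (m * lam)) : IntermediateField (kk A B) ℂ) := by
      intro z hz hkz
      refine IntermediateField.subset_adjoin _ _ ⟨⊤, L, Om, hL, Or.inr ⟨z, ?_, hz, rfl⟩⟩
      intro y hy
      obtain ⟨t, rfl⟩ := Ideal.mem_span_singleton.1 hy
      have e : emb (m * lam * t) * z = emb t * (emb (m * lam) * z) := by
        rw [kx_mul h (m * lam) t]; ring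
      rw [e]
      exact kx_cmo_E h hL t _ hkz
    have htM := sub_mem (hmemx _ hu1 hk1) (hmemx _ hu2 hk2)
    have htra := kx_tra_E h hL hGV hq hq2 hqD hnm hm hlam hul hm2 vm hlt
    have hvt : w.valuation _ (⟨_, htM⟩ : (RFE (sp (m * lam)) : IntermediateField (kk A B) ℂ)) ^
        (q - 1) = w.valuation _ (algebraMap D (RFE (sp (m * lam)) : IntermediateField (kk A B) ℂ)
          (algebraMap (kk A B) D (ℓ : kk A B))) := by
      set t : (RFE (sp (m * lam)) : IntermediateField (kk A B) ℂ) := ⟨_, htM⟩ with ht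
      set lM : (RFE (sp (m * lam)) : IntermediateField (kk A B) ℂ) :=
        algebraMap D (RFE (sp (m * lam)) : IntermediateField (kk A B) ℂ)
          (algebraMap (kk A B) D (ℓ : kk A B)) with hlM
      have e1 : (lM : ℂ) = emb lam := hℓ
      have hne : lM ≠ 0 := by
        intro h0
        apply kx_ne h hlam
        rw [← e1, h0]
        rfl
      have h1 : V.valuation (((t ^ (q - 1) / lM :
          (RFE (sp (m * lam)) : IntermediateField (kk A B) ℂ))) : ℂ) = 1 := by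
        have e2 : (((t ^ (q - 1) / lM :
            (RFE (sp (m * lam)) : IntermediateField (kk A B) ℂ))) : ℂ) =
            (xnE L (Om / emb m + Om / emb lam) - xnE L (Om / emb m)) ^ (q - 1) / emb lam := by
          rw [IntermediateField.coe_div, IntermediateField.coe_pow, e1]
        rw [e2, map_div₀, map_pow, htra, div_self]
        exact (Valuation.ne_zero_iff _).2 (kx_ne h hlam)
      have h1' := (hV (t ^ (q - 1) / lM)).2.2.1 h1
      rw [map_div₀, map_pow] at h1'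
      have h3 : w.valuation _ lM ≠ 0 := (Valuation.ne_zero_iff _).2 hne
      rwa [div_eq_one_iff_eq h3] at h1'
    refine kx_full D _ w (w.under (𝓞 D)) rfl _ hlD _ (q - 1) hvt
      (kA hs (RFE (sp m) : IntermediateField (kk A B) ℂ) : Set _) ?_ ?_ σ hσ x
    · -- the number of elements of `A`
      rw [← hcardU, ← Set.ncard_univ]
      refine Set.ncard_le_ncard_of_injOn bu (fun _ _ => Set.mem_univ _) ?_ (Set.toFinite _)
      intro σ₁ h₁ σ₂ h₂ e
      apply hbij.1
      exact Prod.ext (((hAmem σ₁).1 h₁).trans ((hAmem σ₂).1 h₂).symm) e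
    · intro τ hτ
      have h0 : ActH_E (rsHom hk hs τ) m (b τ) := c3 _ _ m _ (dvd_mul_right m lam) (hb τ)
      have h1 := hINV A B h L Om hL m hm V (gre_of hGV)
        (fun z hz hE => kx_tor_E h hL hGV vm hz ((ink_zero V L z).2 hE)) _ hle
        (rsHom hk hs τ) (hINVc hV τ hτ) (b τ) h0
      have h2 := d2 _ _ (b τ) 1 h1 h0
      show τ ∈ kA hs (RFE (sp m) : IntermediateField (kk A B) ℂ)
      rw [hAmem]
      apply Subtype.ext
      have h3 : ActH_E (res τ).1 m 1 := by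
        have h4 : m ∣ b τ - xs (res τ) := hbm' τ
        have h5 : m ∣ xs (res τ) - 1 ∨ m ∣ xs (res τ) + 1 := by
          rcases h1 with h1 | h1
          · left
            have := dvd_sub h1 h4
            have e : b τ - 1 - (b τ - xs (res τ)) = xs (res τ) - 1 := by ring
            rwa [e] at this
          · right
            have := dvd_sub h1 h4
            have e : b τ + 1 - (b τ - xs (res τ)) = xs (res τ) + 1 := by ring
            rwa [e] at this
        exact d2 _ _ (xs (res τ)) 1 h5 (hxs (res τ))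
      exact d5 _ _ 1 h3 (d6 _)
  · -- unit outside `S`
    intro w hwS
    obtain ⟨V, hV⟩ := hVQ w
    have vm : V.valuation ((nm m : ℤ) : ℂ) = 1 := val_int_S hV hwS hnm0' hSm
    have va : V.valuation (a : ℂ) = 1 := val_int_S hV hwS ha hSa
    apply ((hV _).2.2).1
    exact kx_unit_E h hL (hSn2 hV hwS) hq hq2 hqD hnm hm hlam hcop hul hmu vm hH va hcm hcl
  · -- the congruence
    intro w hw σ
    obtain ⟨V, hV⟩ := hVQ w
    have hlt := hvl w V hV hw
    obtain ⟨vq, hint, -⟩ := kx_int1 h hq hnm hlt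
    have vm : V.valuation ((nm m : ℤ) : ℂ) = 1 := hint _ hqm
    have va : V.valuation (a : ℂ) = 1 := hint _ hqa
    have hGV : GR0 V L := hval2 V (by
      have := hint (n2 : ℤ) (by exact_mod_cast hqn2)
      simpa using this)
    obtain ⟨k1, k2⟩ := kx_cong_E h hL hGV hq hq2 hqD hnm hm hlam hmu vm hH va hlt
      (y := xs (res σ)) (r := Quotient.out ((bu σ : (OO A B ⧸ Ideal.span {lam})ˣ) :
            OO A B ⧸ Ideal.span {lam})) (hxs (res σ)).cop
    constructor
    · apply ((hV _).1).1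
      rw [← ValuationSubring.valuation_le_one_iff]
      have e : algebraMap (RFE (sp (m * lam)) : IntermediateField (kk A B) ℂ) ℂ (σ ⟨_, hθ0⟩) = _ :=
        hsig0 σ
      rw [e]
      exact k1
    · apply ((hV _).2.1).1
      rw [map_sub]
      have e : algebraMap (RFE (sp (m * lam)) : IntermediateField (kk A B) ℂ) ℂ (σ ⟨_, hθ0⟩) = _ :=
        hsig0 σ
      have e' : algebraMap (RFE (sp (m * lam)) : IntermediateField (kk A B) ℂ) ℂ (σ ⟨_, hθM⟩) = _ :=
        hsig σ
      rw [e, e']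
      exact k2
  · -- the norm
    obtain ⟨C, hC, -, hCe⟩ := kx_norm_E h hL hm hlam hcop hH hACM hDIS T ha hcl hcm hmu hfld hk hxs
      hfrob
    intro y hy g hg'
    apply hg'
    have : Fintype ((RFE (sp (m * lam)) : IntermediateField (kk A B) ℂ) ≃ₐ[D] RFE (sp (m * lam))) :=
      Fintype.ofFinite _
    have e1 := prod_all_abs (fun σ => res σ) (fun σ => bu σ) hbij
      (fun (s : GD hk (RFE (sp m) : IntermediateField (kk A B) ℂ))
        (r : (OO A B ⧸ Ideal.span {lam})ˣ) =>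
        ThetaH L H (emb (xs s) * (Om / emb m) +
          emb (Quotient.out (r : OO A B ⧸ Ideal.span {lam})) * (Om / emb lam)))
    rw [hCe, finprod_eq_prod_of_fintype] at e1
    have e2 := congrArg (algebraMap (RFE (sp (m * lam)) : IntermediateField (kk A B) ℂ) ℂ) hy
    rw [finprod_eq_prod_of_fintype, map_prod] at e2
    have e3 : (y : ℂ) = C := by
      refine e2.trans ?_
      refine (Finset.prod_congr rfl fun σ _ => ?_).trans e1
      exact hsig σ
    rw [e3]
    exact hC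
  · -- the product over the kernel
    have : Fintype χ.ker := Fintype.ofFinite _
    apply (algebraMap (RFE (sp (m * lam)) : IntermediateField (kk A B) ℂ) ℂ).injective
    have e1 := prod_ker_abs hp (fun σ => res σ) (fun σ => bu σ) hbij ψ hψ χ hχ
      (fun (s : GD hk (RFE (sp m) : IntermediateField (kk A B) ℂ)) =>
        ThetaH L H (emb (xs s) * (Om / emb m)))
    rw [← hcval, hcardU, finprod_eq_prod_of_fintype] at e1
    rw [finprod_eq_prod_of_fintype, map_prod, map_pow]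
    refine (Finset.prod_congr rfl fun σ _ => ?_).trans e1
    exact hsig0 σ

end

end Pool.Agent.MUXW
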