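import Pool.Agent.ME.DefsE2
import Pool.Agent.ME.Lib
import Pool.Agent.MUX.W_SUC
import Pool.Agent.ME.X.StWX
import Pool.Agent.ME.WLib
/-!
# MUX, block W: module SUC, the element `cW h θ` is a unit outside `S`
-/

set_option autoImplicit false

open WeierstrassCurve Polynomial NumberField IsDedekindDomain

namespace Pool.Agent.MUXW

open _root_.MU3 Pool.Agent.MU3A Pool.Agent.MU3B Pool.Agent.MU3C Pool.Agent.RI Pool.Agent.RID
open Pool.Agent.MUX Pool.Agent.ME Pool.Agent.MUXU
open Pool.Agent.MU3V (cls Sub GD algDF)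
open Pool.Agent.MUXV (GR InK tX CMO Ovr)

noncomputable section

namespace SUC

end SUC

open SUC in
/-- `cW h θ` is a unit outside `S` -/
theorem ty_SUC_E (hEXT : Pool.Agent.MU3V.Sv_EXT) (hTHU : Pool.Agent.MUXV.Sq_THU)
    (hTOR : Pool.Agent.MUXV.Sq_TOR) (hEMB : Pool.Agent.MUXV.Sq_EMB) (hGRB : Sy_GRB_E)
    (hAUE : Su_AUE) : Sy_SUC_E := by
  intro A B hC T L Om hL
  obtain ⟨n₀, hn₀, hg⟩ := hGRB A B hC L hL.nrm
  refine ⟨n₀, hn₀, ?_⟩
  intro m hm hmu a H ha ham hH S h2S haS hmS θ hθ D _ hk _ c hc v hv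
  obtain ⟨emul, -, -, eint, -, einj, -, -, -, -, -, nm0, -⟩ := hEMB A B (cqF hC)
  have embm : emb m ≠ 0 := by
    intro h0
    apply hm
    apply einj
    rw [h0]
    have := eint 0
    simpa using this.symm
  obtain ⟨V, hV⟩ := hEXT D (algebraMap D ℂ) v
  have hS : ∀ p ∈ S, V.valuation (p : ℂ) = 1 := by
    intro p hp
    have h1 : v.valuation D (p : D) = 1 := by
      have h3 : ¬ (v.valuation D (p : D) < 1) := by
        intro h4
        apply hv
        refine ⟨p, hp, ?_⟩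
        rw [← HeightOneSpectrum.valuation_lt_one_iff_mem (K := D) v (p : 𝓞 D)]
        simpa using h4
      refine le_antisymm ?_ (not_lt.1 h3)
      have h5 := HeightOneSpectrum.valuation_le_one (K := D) v (p : 𝓞 D)
      simpa using h5
    have h2 := ((hV (p : D)).2.2).2 h1
    simpa using h2
  have vn : V.valuation (n₀ : ℂ) = 1 := v_nat n₀ hn₀ (fun p hp1 hp2 => hS p (h2S p hp1 hp2))
  have va : V.valuation (a : ℂ) = 1 := v_int ha (fun p hp1 hp2 => hS p (haS p hp1 hp2))
  have hm' : nm m ≠ 0 := fun h0 => hm ((nm0 m).1 h0)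
  have vm : V.valuation ((nm m : ℤ) : ℂ) = 1 := v_int hm' (fun p hp1 hp2 => hS p (hmS p hp1 hp2))
  have hcmo : CMO A B L := by
    intro x z hz
    obtain ⟨y, -, rfl⟩ := (hL.mem z).1 hz
    exact (hL.mem _).2 ⟨x * y, trivial, by rw [emul]; ring⟩
  have key : ∀ s : ℂ ≃+* ℂ, V.valuation (s (ThetaH L H (Om / emb m))) = 1 := by
    intro s
    rw [← v_comap]
    have vn' : (V.comap (s : ℂ →+* ℂ)).valuation (n₀ : ℂ) = 1 := by
      rw [v_comap, map_natCast]; exact vn
    have va' : (V.comap (s : ℂ →+* ℂ)).valuation (a : ℂ) = 1 := by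
      rw [v_comap, map_intCast]; exact va
    have vm' : (V.comap (s : ℂ →+* ℂ)).valuation ((nm m : ℤ) : ℂ) = 1 := by
      rw [v_comap, map_intCast]; exact vm
    obtain ⟨W, ξ, hGR⟩ := gre_zero (hg _ vn').2.2
    refine (hTHU _ L 0 W ξ hGR a H va' hH).1 _ ?_
    intro hE
    have h3 := hTOR A B (cqF hC) _ W L _ _ ξ hGR hcmo m vm' _ (by
      rw [mul_left_comm, mul_div_cancel₀ _ embm, ← eint]
      exact hcmo _ _ ((hL.mem _).2 ⟨1, trivial, by
        have := eint 1
        rw [Int.cast_one, Int.cast_one] at this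
        rw [this, mul_one]⟩)) hE
    obtain ⟨y, -, hy⟩ := (hL.mem _).1 h3
    have h4 : (a : ℂ) = emb (m * y) := by
      rw [emul]
      have h5 : Om * (a : ℂ) = Om * (emb m * emb y) := by
        have h6 : (a : ℂ) * (Om / emb m) * emb m = Om * emb y * emb m := by rw [hy]
        rw [mul_assoc, div_mul_cancel₀ _ embm] at h6
        rw [mul_comm, h6]
        ring
      exact mul_left_cancel₀ hL.om_ne h5
    have h7 : (a : OO A B) = m * y := einj _ _ ((eint a).trans h4)
    exact hmu (ham.isUnit_of_dvd' ⟨y, h7⟩ dvd_rfl)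
  have : FiniteDimensional (kk A B) (RFE (sp m)) := T.fin (sp m) (by
    rw [Ne, Ideal.span_singleton_eq_bot]; exact hm)
  have hFa := alg hEMB hC (RFE (sp m))
  rw [← (hV c).2.2]
  change V.valuation (c : ℂ) = 1
  rw [hc]
  refine finprod_induction (fun y => V.valuation y = 1) (map_one _) ?_ ?_
  · intro y z hy hz
    rw [map_mul, hy, hz, one_mul]
  · intro σ
    obtain ⟨s, hs⟩ := extA hAUE (RFE (sp m)) hFa (σ : RFE (sp m) ≃ₐ[kk A B] RFE (sp m))
    rw [← hs θ, hθ]
    exact key s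

end

end Pool.Agent.MUXW
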