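import Pool.Agent.ME.DefsE2
import Pool.Agent.ME.Lib
import Pool.Agent.MUX.W_THG
import Pool.Agent.ME.X.StWX
/-!
# MUX, block W: module THG, the values of `Θ_a` at points of level `m`
-/

set_option autoImplicit false

open WeierstrassCurve Polynomial NumberField IsDedekindDomain

namespace Pool.Agent.MUXW

open _root_.MU3 Pool.Agent.MU3A Pool.Agent.MU3B Pool.Agent.MU3C Pool.Agent.RI Pool.Agent.RID
open Pool.Agent.MUX Pool.Agent.ME Pool.Agent.MUXU
open Pool.Agent.MU3V (cls Sub GD algDF)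
open Pool.Agent.MUXV (GR InK tX CMO Ovr)

noncomputable section

private lemma thg_wC {A B : ℤ} (h : CQ A B) : wC A B * wC A B = A + B * wC A B := by
  have h1 : (0 : ℝ) ≤ (absD A B : ℝ) := by
    have := h.neg
    have h0 : 0 ≤ absD A B := by
      unfold absD
      omega
    exact_mod_cast h0
  have h2 : ((Real.sqrt (absD A B) : ℝ) : ℂ) ^ 2 = (absD A B : ℂ) := by
    rw [← Complex.ofReal_pow, Real.sq_sqrt h1]
    norm_num
  have h3 : Complex.I ^ 2 = -1 := Complex.I_sq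
  have h4 : (absD A B : ℂ) = -((B : ℂ) ^ 2 + 4 * A) := by simp [absD]
  unfold wC
  linear_combination (Complex.I ^ 2 / 4) * h2 + ((absD A B : ℂ) / 4) * h3 - (1 / 4) * h4

private lemma thg_mul {A B : ℤ} (h : CQ A B) (x y : OO A B) :
    emb (x * y) = emb x * emb y := by
  have h1 := thg_wC h
  simp only [emb, QuadraticAlgebra.re_mul, QuadraticAlgebra.im_mul]
  push_cast
  linear_combination (-(x.im : ℂ) * y.im) * h1

private lemma thg_fin {A B : ℤ} (hc : CQ A B) : FiniteDimensional ℚ (kk A B) := by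
  have h0 : IsIntegral ℤ (wC A B) := by
    refine ⟨Polynomial.X ^ 2 - Polynomial.C B * Polynomial.X - Polynomial.C A, ?_, ?_⟩
    · monicity!
    · have := thg_wC hc
      simp only [Polynomial.eval₂_sub, Polynomial.eval₂_mul, Polynomial.eval₂_pow,
        Polynomial.eval₂_X, Polynomial.eval₂_C]
      simp only [algebraMap_int_eq, eq_intCast]
      linear_combination this
  have h1 : IsIntegral ℚ (wC A B) := h0.tower_top
  exact IntermediateField.adjoin.finiteDimensional h1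

private lemma thg_cj (s : ℂ ≃+* ℂ) {A B : ℤ} {b b' : Ideal (OO A B)} {L L' : PeriodPair}
    {om om' : ℂ} (hL : IsNE b L om) (hL' : IsNE b' L' om') (_ : s (kapE L) = kapE L') :
    IsCj s L L' := by
  exact ⟨by rw [hL.nrm.fix2 s]; exact hL'.nrm.g2_eq hL.nrm,
    by rw [hL.nrm.fix3 s]; exact hL'.nrm.g3_eq hL.nrm⟩

private lemma thg_wp (s : ℂ ≃+* ℂ) (L L' : PeriodPair) (z z' : ℂ) (h : s (xnE L z) = xnE L' z') :
    L'.weierstrassP z' = s (L.weierstrassP z) := h.symm

theorem ty_THG_E (hTHC : Sy_THC) (hAUE : Su_AUE) (hAUF : Su_AUF) : Sy_THG_E := by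
  intro A B hc T b₀ L om hL m hm a H ha hH z hz hz0
  have htor : Tor (sp m) L z := by
    intro x hx
    obtain ⟨t, rfl⟩ := Ideal.mem_span_singleton.1 hx
    obtain ⟨y, hy, hy'⟩ := (hL.mem _).1 hz
    rw [mul_comm m t, thg_mul hc, mul_assoc, hy']
    refine (hL.mem _).2 ⟨t * y, Ideal.mul_mem_left _ _ hy, ?_⟩
    rw [thg_mul hc]
    ring
  have hk : kapE L ∈ (RFE (sp m) : IntermediateField (kk A B) ℂ) :=
    IntermediateField.subset_adjoin _ _ ⟨b₀, L, om, hL, Or.inl rfl⟩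
  have hx : xnE L z ∈ (RFE (sp m) : IntermediateField (kk A B) ℂ) :=
    IntermediateField.subset_adjoin _ _ ⟨b₀, L, om, hL, Or.inr ⟨z, htor, hz0, rfl⟩⟩
  have hfk := thg_fin hc
  have hsp : sp m ≠ ⊥ := by
    rwa [Ne, Ideal.span_singleton_eq_bot]
  have hfF := T.fin (sp m) hsp
  let F : IntermediateField ℚ ℂ :=
    (RFE (sp m) : IntermediateField (kk A B) ℂ).restrictScalars ℚ
  have hFalg : Algebra.IsAlgebraic ℚ F := by
    have h1 : FiniteDimensional ℚ (RFE (sp m) : IntermediateField (kk A B) ℂ) :=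
      FiniteDimensional.trans ℚ (kk A B) (RFE (sp m) : IntermediateField (kk A B) ℂ)
    have h2 : Algebra.IsAlgebraic ℚ (RFE (sp m) : IntermediateField (kk A B) ℂ) := inferInstance
    exact h2
  have hz' : ThetaH L H z ∈ (RFE (sp m) : IntermediateField (kk A B) ℂ) := by
    have h1 : ThetaH L H z ∈ F := by
      refine hAUF F hFalg _ fun s hs => ?_
      have h2 : s (kapE L) = kapE L := hs _ hk
      have h3 : s (xnE L z) = xnE L z := hs _ hx
      exact hTHC s L L (thg_cj s hL hL h2) a H H ha hH hH z z hz0 hz0 (thg_wp s L L z z h3)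
    exact h1
  refine ⟨hk, hx, hz', ?_⟩
  have main : ∀ (σ : (RFE (sp m) : IntermediateField (kk A B) ℂ) ≃ₐ[kk A B] RFE (sp m))
        (b' : Ideal (OO A B)) (L' : PeriodPair) (om' : ℂ) (H' : Finset ℂ) (z' : ℂ),
        IsNE b' L' om' → IsHalf L' a H' → z' ∉ L'.lattice →
        ((σ ⟨kapE L, hk⟩ : (RFE (sp m) : IntermediateField (kk A B) ℂ)) : ℂ) = kapE L' →
        ((σ ⟨xnE L z, hx⟩ : (RFE (sp m) : IntermediateField (kk A B) ℂ)) : ℂ) = xnE L' z' →
        ((σ ⟨ThetaH L H z, hz'⟩ : (RFE (sp m) : IntermediateField (kk A B) ℂ)) : ℂ) =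
          ThetaH L' H' z' := by
    intro σ b' L' om' H' z' hL' hH' hz'' h1 h2
    let τ : F →+* ℂ :=
      ((algebraMap (RFE (sp m) : IntermediateField (kk A B) ℂ) ℂ).comp (σ : _ →+* _) :
        (RFE (sp m) : IntermediateField (kk A B) ℂ) →+* ℂ)
    obtain ⟨s, hs⟩ := hAUE F hFalg τ
    have h3 : s (kapE L) = kapE L' := (hs ⟨kapE L, hk⟩).trans h1
    have h4 : s (xnE L z) = xnE L' z' := (hs ⟨xnE L z, hx⟩).trans h2
    have h5 := hTHC s L L' (thg_cj s hL hL' h3) a H H' ha hH hH' z z' hz0 hz''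
      (thg_wp s L L' z z' h4)
    rw [← h5]
    exact (hs ⟨ThetaH L H z, hz'⟩).symm
  refine ⟨main, ?_⟩
  intro σ b hσ
  obtain ⟨h1, h2⟩ := hσ.ptE b₀ L om hL z hz hz0
  exact main σ b₀ L om H (emb b * z) hL hH h1 (hσ.kapE b₀ L om hL hk) (h2 hx)

end

end Pool.Agent.MUXW
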