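import Pool.Agent.MUX.WAll
import Pool.Agent.ME.X.W_ACM
import Pool.Agent.ME.X.W_KER
import Pool.Agent.ME.X.W_THG
import Pool.Agent.ME.X.W_GRB
import Pool.Agent.ME.X.W_INV
import Pool.Agent.ME.X.W_FRH
import Pool.Agent.ME.X.W_HIT
import Pool.Agent.ME.X.W_CXW
import Pool.Agent.ME.X.W_CXS
import Pool.Agent.ME.X.W_SUC
import Pool.Agent.ME.X.W_DIS
import Pool.Agent.ME.X.W_NRM
import Pool.Agent.ME.X.W_I1
import Pool.Agent.ME.X.W_FRD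
import Pool.Agent.ME.X.W_KOL

/-!
# ME, block W: all statements of `ME/X/StWX.lean`, `StWX2.lean`, without hypotheses (helper21)
-/

set_option autoImplicit false

namespace Pool.Agent.MUXW

open Pool.Agent.MU3B Pool.Agent.MUXU Pool.Agent.MUXV

theorem y_ACM_E : Sy_ACM_E := ty_ACM_E q_EMB
theorem y_KER_E : Sy_KER_E := ty_KER_E
theorem y_THG_E : Sy_THG_E := ty_THG_E y_THC u_AUE u_AUF
theorem y_GRB_E : Sy_GRB_E := ty_GRB_E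
theorem y_INV_E : Sy_INV_E := ty_INV_E q_EMB
theorem y_FRH_E : Sy_FRH_E := ty_FRH_E q_VQI
theorem y_HIT_E : Sy_HIT_E := ty_HIT_E q_EMB u_DET
theorem y_CXW_E : Sy_CXW_E := ty_CXW_E y_HIT_E y_THG_E q_EMB
theorem y_CXS_E : Sy_CXS_E := ty_CXS_E y_HIT_E y_THG_E
theorem y_SUC_E : Sy_SUC_E := ty_SUC_E Pool.Agent.MU3V.tv_EXT q_THU q_TOR q_EMB y_GRB_E u_AUE
theorem y_DIS_E : Sy_DIS_E := ty_DIS_E b_TDI b_TIN y_THG_E y_KER_E q_EMB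
theorem y_NRM_E : Sy_NRM_E := ty_NRM_E y_DIS_E y_KER_E y_ACM_E y_THG_E q_EMB
theorem y_I1_E : Sy_I1_E := ty_I1_E y_NRM_E y_MEM
theorem y_FRD_E : Sy_FRD_E := ty_FRD_E y_FRH_E y_PRQ y_MEM Pool.Agent.MU3V.tw_LOC Pool.Agent.MU3V.tv_EXT
theorem y_KOL_E : Sy_KOL_E := ty_KOL_E y_ACM_E y_KER_E y_THG_E y_GRB_E y_INV_E y_DIS_E y_PRQ y_FRD_E y_URA

end Pool.Agent.MUXW
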