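import Pool.Agent.ME.DefsE2
import Pool.Agent.ME.Lib
import Pool.Agent.MUX.HY_BRG
import Pool.Agent.ME.X.StHX2
/-!
# MUX, block HY: the hypotheses of the abstract part (module BRG, glue)
-/

set_option autoImplicit false

namespace Pool.Agent.MUXHY

open _root_.MU3 Pool.Agent.MU3A Pool.Agent.MU3B Pool.Agent.MU3F Pool.Agent.MUX Pool.Agent.ME Pool.Agent.MUXH
  Pool.Agent.MuSym OnePoint
open scoped ComplexConjugate

noncomputable section

namespace Brg

variable {A B : ℤ}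

lemma PP_zero_E {n : ℕ} {ι : Type} [Fintype ι] (R : RepsE A B n ι) (P : Ideal (OO A B))
    (e : OO A B → ℂ) (kk : ι → ℂ) (x y : OnePoint ℚ) :
    PP_E R P e kk 0 x y =
      PhiKE R e (fun c => kk c / e ((nI (R.b c) : ℕ) : OO A B)) x y / R.om R.i0 := by
  unfold PP_E PhiKE
  simp only [pow_zero, mul_one]

lemma e_nI_E {n : ℕ} {ι : Type} (R : RepsE A B n ι) {g : Ideal (OO A B)} {e : OO A B → ℂ}
    (he : IsEI g e) (hn : ((n : ℕ) : OO A B) ∈ g) (c : ι) :
    e ((nI (R.b c) : ℕ) : OO A B) ≠ 0 := by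
  rw [he.supp]
  have h1 : IsCoprime ((nI (R.b c) : ℕ) : ℤ) (n : ℤ) := Nat.isCoprime_iff_coprime.mpr (R.cop c)
  obtain ⟨u, w, huw⟩ := h1
  rw [Ideal.isCoprime_iff_exists]
  refine ⟨(u : OO A B) * ((nI (R.b c) : ℕ) : OO A B), ?_, (w : OO A B) * ((n : ℕ) : OO A B), ?_, ?_⟩
  · exact Ideal.mul_mem_left _ _ (Ideal.mem_span_singleton_self _)
  · exact Ideal.mul_mem_left _ _ hn
  · have := congrArg (fun z : ℤ => (z : OO A B)) huw
    push_cast at this
    exact this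

end Brg

end

end Pool.Agent.MUXHY
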