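import Pool.Agent.ME.DefsE2
import Pool.Agent.ME.Lib
import Pool.Agent.MUX.HY_PRX
import Pool.Agent.ME.X.StHX2
/-!
# MUX, block H, bridge: the projector with integral coefficients
-/

set_option autoImplicit false

namespace Pool.Agent.MUXHY

open _root_.MU3 Pool.Agent.MU3A Pool.Agent.MU3B Pool.Agent.MU3F Pool.Agent.MUX Pool.Agent.ME Pool.Agent.MUXH
  Pool.Agent.MuSym OnePoint
open scoped ComplexConjugate

namespace Prx

lemma sgn_PP_E {A B : ℤ} {n : ℕ} {ι : Type} [Fintype ι] (R : RepsE A B n ι) (P : Ideal (OO A B))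
    (e : OO A B → ℂ) (kk : ι → ℂ) (s : ℂ) (x y : OnePoint ℚ) :
    sgnPart s (PP_E R P e kk 0) x y =
      (∑ c, kk c / e ((nI (R.b c) : ℕ) : OO A B) * sgnPart s (PhiI (R.b c) e) x y) /
        R.om R.i0 := by
  unfold sgnPart PP_E
  simp only [pow_zero, mul_one]
  rw [← mul_div_assoc, ← add_div, Finset.mul_sum, ← Finset.sum_add_distrib]
  congr 1
  refine Finset.sum_congr rfl fun c _ => ?_
  ring

end Prx

end Pool.Agent.MUXHY
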