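import Pool.Agent.ME.DefsE2
import Pool.Agent.ME.Lib
import Pool.Agent.MUX.HY_QSX
import Pool.Agent.ME.X.StHX2
import Pool.Agent.MU3.H_QS
/-!
# MUX, block HY, QSX: the quantity of the final statement as a character sum
-/

set_option autoImplicit false

namespace Pool.Agent.MUXHY

open _root_.MU3 Pool.Agent.MU3A Pool.Agent.MU3B Pool.Agent.MU3F Pool.Agent.MUX Pool.Agent.ME Pool.Agent.MUXH
  Pool.Agent.MuSym OnePoint
open scoped ComplexConjugate

noncomputable section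

namespace Qsx

open Pool.Agent.MU3H.Qs

theorem PP_per_E (h2 : MUXF.Sx_PRD) {A B : ℤ} (hC : CQ A B) {m : ℕ} {ι : Type} [Fintype ι]
    (R : RepsE A B m ι) (P : Ideal (OO A B)) (e : OO A B → ℂ) (kk : ι → ℂ) (r : ℚ) (k : ℤ) :
    PP_E R P e kk 0 ∞ ((r + k : ℚ) : OnePoint ℚ) = PP_E R P e kk 0 ∞ ((r : ℚ) : OnePoint ℚ) := by
  unfold PP_E
  congr 1
  refine Finset.sum_congr rfl fun c _ => ?_
  rw [PhiI_per h2 hC]
  rw [pow_zero, mul_one]
  exact (R.nl c).b_ne

theorem SnX_eq_E (h1 : MUXF.Sx_F5) {A B : ℤ} (hC : CQ A B) {p f : ℕ} (hp : p.Prime) (hf : f ≠ 0)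
    {ι : Type} (R : RepsE A B (p * f) ι) {g : Ideal (OO A B)} {e : OO A B → ℂ} (he : IsEI g e)
    (hg : ((p * f : ℕ) : OO A B) ∈ g) (n : ℕ) (i : ι) (c : ℤ) :
    SnXE R (lvX p f n) (q0 p * p ^ n) e i c =
      (2 * f / R.om R.i0) * ((1 / e ((nI (R.b i) : ℕ) : OO A B)) *
        ∑ β ∈ Finset.range (q0 p * p ^ n), ex (-(β * c) / ((q0 p * p ^ n : ℕ) : ℚ)) *
          PhiI (R.b i) e ∞ (((β / ((q0 p * p ^ n : ℕ) : ℚ) : ℚ) : ℚ) : OnePoint ℚ)) := by
  have hM0 : q0 p * p ^ n ≠ 0 := mul_ne_zero (q0_ne hp) (pow_ne_zero _ hp.ne_zero)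
  have hm : lvX p f n = f * (q0 p * p ^ n) := by unfold lvX; ring
  have hm0 : lvX p f n ≠ 0 := by rw [hm]; exact mul_ne_zero hf hM0
  obtain ⟨t, ht⟩ := q0_dvd p
  have hmg : ((lvX p f n : ℕ) : OO A B) ∈ g := by
    have h3 : ((lvX p f n : ℕ) : OO A B) = ((p * f : ℕ) : OO A B) * ((t * p ^ n : ℕ) : OO A B) := by
      rw [← Nat.cast_mul, hm, ht]
      congr 1
      ring
    rw [h3]
    exact Ideal.mul_mem_right _ _ hg
  have hcop : (nI (R.b i)).Coprime (lvX p f n) := by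
    have hc := R.cop i
    have hcp : (nI (R.b i)).Coprime p := Nat.Coprime.coprime_mul_right_right hc
    have hcf : (nI (R.b i)).Coprime f := Nat.Coprime.coprime_mul_left_right hc
    rw [hm]
    exact Nat.Coprime.mul_right hcf (Nat.Coprime.mul_right (cop_q0 hcp)
      (Nat.Coprime.pow_right n hcp))
  have hN0 : nI (R.b i) ≠ 0 := by
    intro h0
    have hc := R.cop i
    rw [h0, Nat.coprime_zero_left] at hc
    have h5 := Nat.eq_one_of_mul_eq_one_right hc
    exact hp.one_lt.ne' h5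
  obtain ⟨heN, h5⟩ := h1 A B (toCQ hC) (R.b i) (R.L i) (R.om i) (toLI (R.nl i).toIsLI) g e
    (toEI he) (lvX p f n) (q0 p * p ^ n) hm0 hmg hM0 ⟨f, by rw [hm]; ring⟩ hcop
  have h6 := h5 c
  have h7 : SnXE R (lvX p f n) (q0 p * p ^ n) e i c = muXE R i *
      (2 * (lvX p f n : ℂ) / (R.om i * (nI (R.b i) : ℕ) * ((q0 p * p ^ n : ℕ) : ℂ) *
        e ((nI (R.b i) : ℕ) : OO A B)) * ∑ β ∈ Finset.range (q0 p * p ^ n),
        ex (-(β * c) / ((q0 p * p ^ n : ℕ) : ℚ)) *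
          PhiI (R.b i) e ∞ (((β / ((q0 p * p ^ n : ℕ) : ℚ) : ℚ) : ℚ) : OnePoint ℚ)) := by
    unfold SnXE
    rw [← PhiI_eq]
    refine congrArg (muXE R i * ·) ?_
    refine Eq.trans ?_ h6
    unfold sumMod
    refine finsum_congr fun q => ?_
    beta_reduce
    have hiff : ((q0 p * p ^ n : ℕ) : ℤ) ∣ nm (Quotient.out q) * (nI (R.b i) : ℤ) - c ↔
        ((q0 p * p ^ n : ℕ) : ℤ) ∣ (MUXF.nI (R.b i) : ℤ) * nm (Quotient.out q) - c := by
      rw [nI_eq, mul_comm (nm (Quotient.out q))]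
    by_cases hd : ((q0 p * p ^ n : ℕ) : ℤ) ∣ nm (Quotient.out q) * (nI (R.b i) : ℤ) - c
    · rw [if_pos hd, if_pos (hiff.1 hd)]
      rfl
    · rw [if_neg hd, if_neg (mt hiff.2 hd)]
  rw [h7]
  have ho := (R.nl i).om_ne
  have ho0 := (R.nl R.i0).om_ne
  have hMc : ((q0 p * p ^ n : ℕ) : ℂ) ≠ 0 := Nat.cast_ne_zero.2 hM0
  have hNc : ((nI (R.b i) : ℕ) : ℂ) ≠ 0 := Nat.cast_ne_zero.2 hN0
  have hmc : ((lvX p f n : ℕ) : ℂ) = f * ((q0 p * p ^ n : ℕ) : ℂ) := by
    rw [hm]; push_cast; ring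
  rw [hmc]
  unfold muXE
  generalize (∑ β ∈ Finset.range (q0 p * p ^ n), ex (-(β * c) / ((q0 p * p ^ n : ℕ) : ℚ)) *
          PhiI (R.b i) e ∞ (((β / ((q0 p * p ^ n : ℕ) : ℚ) : ℚ) : ℚ) : OnePoint ℚ)) = S
  generalize ((q0 p * p ^ n : ℕ) : ℂ) = M at hMc ⊢
  have heN' : e ((nI (R.b i) : ℕ) : OO A B) ≠ 0 := heN
  field_simp

end Qsx

open Qsx Pool.Agent.MU3H.Qs in
/-- (QSX) the quantity of the final statement as a character sum -/
theorem ty_QSX_E (h1 : MUXF.Sx_F5) (h2 : MUXF.Sx_PRD) : Sy_QSX_E := by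
  intro p hp A B hC P f hf ι hι R g e he hg kk s N n
  have hMdef : q0 p * p ^ n ≠ 0 := mul_ne_zero (q0_ne hp) (pow_ne_zero _ hp.ne_zero)
  have hSnX := fun i c => SnX_eq_E h1 hC hp hf R he hg n i c
  have hMp : ∀ u : ℤ, (p : ℤ) ∣ u - 1 → IsCoprime u ((q0 p * p ^ n : ℕ) : ℤ) := by
    intro u hu
    have h3 : IsCoprime u (p : ℤ) := by
      obtain ⟨t, ht⟩ := hu
      exact ⟨1, -t, by linear_combination ht⟩
    have h4 : IsCoprime u ((q0 p : ℕ) : ℤ) := by
      unfold q0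
      by_cases h2' : p = 2
      · rw [if_pos h2']
        rw [h2'] at h3
        have : (((4 : ℕ) : ℤ)) = ((2 : ℕ) : ℤ) ^ 2 := by norm_num
        rw [this]
        exact h3.pow_right
      · rw [if_neg h2']
        exact h3
    push_cast
    exact h4.mul_right h3.pow_right
  have hq0p : (p : ℤ) ∣ (q0 p : ℤ) := Int.natCast_dvd_natCast.2 (q0_dvd p)
  generalize hMM : q0 p * p ^ n = M at *
  have : NeZero M := ⟨hMdef⟩
  have hMQ : (M : ℚ) ≠ 0 := Nat.cast_ne_zero.2 hMdef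
  -- the values
  set F : ℤ → ℂ := fun b => PP_E R P e kk 0 ∞ ((b / (M : ℚ) : ℚ) : OnePoint ℚ) with hFdef
  set Q : ℤ → ℂ := fun b => sgnPart (s : ℂ) (PP_E R P e kk 0) ∞ ((b / (M : ℚ) : ℚ) : OnePoint ℚ)
    with hQdef
  set E : ℤ → ℂ := fun k => ex (k / (M : ℚ)) with hEdef
  have hPF : ∀ b : ℤ, Q b = F b + s * F (-b) := by
    intro b
    simp only [hQdef, hFdef, sgnPart]
    rw [mob_inf, mob_neg]
    congr 4
    push_cast
    ring
  have hFper : ∀ b k : ℤ, F (b + M * k) = F b := by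
    intro b k
    simp only [hFdef]
    have h := PP_per_E h2 hC R P e kk (b / (M : ℚ)) k
    rw [← h]
    congr 3
    push_cast
    field_simp
  have hPper : ∀ b k : ℤ, Q (b + M * k) = Q b := by
    intro b k
    rw [hPF, hPF, hFper]
    congr 2
    have := hFper (-b) (-k)
    rw [← this]
    congr 1
    ring
  have hEadd : ∀ k l : ℤ, E (k + l) = E k * E l := by
    intro k l
    simp only [hEdef]
    rw [← ex_add]
    congr 1
    push_cast
    ring
  have hEq : ∀ k : ℤ, E (M * k) = 1 := by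
    intro k
    simp only [hEdef]
    rw [← ex_int k]
    congr 1
    push_cast
    field_simp
  have hEper : ∀ b k : ℤ, E (b + M * k) = E b := by
    intro b k
    rw [hEadd, hEq, mul_one]
  -- the transform
  set S : ℤ → ℂ := fun c => ∑ i, kk i * SnXE R (lvX p f n) M e i c with hSdef
  have hSn : ∀ c : ℤ, S c = (2 * f) * ∑ b ∈ Finset.range M, E (-(b * c)) * F b := by
    intro c
    have h3 : ∀ i, kk i * SnXE R (lvX p f n) M e i c = ∑ b ∈ Finset.range M, (2 * f) *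
        (E (-(b * c)) * (kk i / e ((nI (R.b i) : ℕ) : OO A B) *
          PhiI (R.b i) e ∞ (((b / (M : ℚ) : ℚ) : ℚ) : OnePoint ℚ) / R.om R.i0)) := by
      intro i
      rw [hSnX i c, Finset.mul_sum, Finset.mul_sum, Finset.mul_sum]
      refine Finset.sum_congr rfl fun b _ => ?_
      have h4 : E (-(b * c)) = ex (-(b * c) / (M : ℚ)) := by
        simp only [hEdef]
        push_cast
        rfl
      rw [h4]
      ring
    simp only [hSdef]
    rw [Finset.sum_congr rfl (fun i _ => h3 i), Finset.sum_comm, Finset.mul_sum]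
    refine Finset.sum_congr rfl fun b _ => ?_
    rw [← Finset.mul_sum, ← Finset.mul_sum, ← Finset.sum_div]
    congr 2
    simp only [hFdef, PP_E]
    rw [pow_zero]
    simp only [mul_one]
    rfl
  set W : ℤ → ℂ := fun c => ∑ b ∈ Finset.range M, E (-(b * c)) * Q b with hWdef
  have hSW : ∀ c : ℤ, S c + s * S (-c) = (2 * f) * W c := by
    intro c
    rw [hSn c, hSn (-c)]
    have h1 : ∑ b ∈ Finset.range M, E (-(b * (-c))) * F b =
        ∑ b ∈ Finset.range M, E (-(b * c)) * F (-b) := by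
      have hG : ∀ b k : ℤ, (fun b : ℤ => E (-(b * (-c))) * F b) (b + M * k) =
          (fun b : ℤ => E (-(b * (-c))) * F b) b := by
        intro b k
        show E (-((b + M * k) * (-c))) * F (b + M * k) = E (-(b * (-c))) * F b
        rw [hFper, show -((b + M * k) * (-c)) = -(b * (-c)) + M * (k * c) by ring, hEper]
      have h := sum_mul (G := fun b : ℤ => E (-(b * (-c))) * F b) hG (u := -1)
        (by exact (isCoprime_one_left).neg_left)
      rw [← h]
      refine Finset.sum_congr rfl (fun b _ => ?_)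
      show E (-((-1 * (b : ℤ)) * (-c))) * F (-1 * (b : ℤ)) = _
      rw [show -((-1 * (b : ℤ)) * (-c)) = -(b * c) by ring, show -1 * (b : ℤ) = -b by ring]
    rw [h1]
    simp only [hWdef]
    have h5 : ∑ b ∈ Finset.range M, E (-(b * c)) * Q b =
        ∑ b ∈ Finset.range M, E (-(b * c)) * F b +
          s * ∑ b ∈ Finset.range M, E (-(b * c)) * F (-b) := by
      rw [Finset.mul_sum, ← Finset.sum_add_distrib]
      refine Finset.sum_congr rfl fun b _ => ?_
      rw [hPF]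
      ring
    rw [h5]
    ring
  -- substitution
  have hsub : ∀ (c u : ℤ), IsCoprime u (M : ℤ) →
      W c = ∑ b ∈ Finset.range M, E (-(b * (u * c))) * Q (u * b) := by
    intro c u hu
    have hG : ∀ b k : ℤ, (fun b : ℤ => E (-(b * c)) * Q b) (b + M * k) =
        (fun b : ℤ => E (-(b * c)) * Q b) b := by
      intro b k
      show E (-((b + M * k) * c)) * Q (b + M * k) = E (-(b * c)) * Q b
      rw [hPper, show -((b + M * k) * c) = -(b * c) + M * (-(k * c)) by ring, hEper]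
    have h := sum_mul (G := fun b : ℤ => E (-(b * c)) * Q b) hG hu
    simp only [hWdef]
    rw [← h]
    refine Finset.sum_congr rfl (fun b _ => ?_)
    show E (-((u * (b : ℤ)) * c)) * Q (u * (b : ℤ)) = _
    rw [show -((u * (b : ℤ)) * c) = -(b * (u * c)) by ring]
  -- coprimality
  set a : ℤ := (aX p f : ℤ) with ha
  set u : ℤ := 1 + (q0 p : ℤ) with hu
  have h3mul : ∀ x y : ℤ, (p : ℤ) ∣ x - 1 → (p : ℤ) ∣ y - 1 → (p : ℤ) ∣ x * y - 1 := by
    intro x y hx hy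
    have h1 : x * y - 1 = (x - 1) * y + (y - 1) := by ring
    rw [h1]
    exact dvd_add (Dvd.dvd.mul_right hx y) hy
  have h4 : ∀ j : ℕ, (p : ℤ) ∣ u ^ j - 1 := by
    intro j
    have := sub_dvd_pow_sub_pow u 1 j
    rw [one_pow] at this
    refine dvd_trans ?_ this
    rw [hu]
    simpa using hq0p
  have h3a : (p : ℤ) ∣ a - 1 := by
    rw [ha]
    unfold aX
    have : (((1 + 2 * q0 p * f : ℕ) : ℤ)) - 1 = (q0 p : ℤ) * (2 * f) := by push_cast; ring
    rw [this]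
    exact Dvd.dvd.mul_right hq0p _
  have h3a2 : (p : ℤ) ∣ a ^ 2 - 1 := by rw [sq]; exact h3mul a a h3a h3a
  have haC : ((a : ℤ) : ℂ) = ((aX p f : ℕ) : ℂ) := by rw [ha]; push_cast; rfl
  -- the left hand side
  have hST : ∀ c : ℤ, STXE R (lvX p f n) M (aX p f) e kk c +
      s * STXE R (lvX p f n) M (aX p f) e kk (-c) =
        (2 * f) * ((a : ℂ) * W (a ^ 2 * c) - (a : ℂ) ^ 2 * W c) := by
    intro c
    have e0 : ∀ c, STXE R (lvX p f n) M (aX p f) e kk c = (a : ℂ) * S (a ^ 2 * c) -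
        (a : ℂ) ^ 2 * S c := by
      intro c
      unfold STXE
      simp only [hSdef]
      rw [Finset.mul_sum, Finset.mul_sum, ← Finset.sum_sub_distrib]
      refine Finset.sum_congr rfl fun i _ => ?_
      rw [← haC]
      ring
    have e1 := hSW c
    have e2 := hSW (a ^ 2 * c)
    rw [e0, e0, show a ^ 2 * -c = -(a ^ 2 * c) by ring]
    linear_combination (a : ℂ) * e2 - (a : ℂ) ^ 2 * e1
  -- comparison term by term
  have hz : ∀ b : ℕ, ex (-((1 + (q0 p : ℚ)) ^ N * (aX p f : ℚ) ^ 2) / (M : ℚ)) ^ b =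
      E (-(b * (u ^ N * a ^ 2))) := by
    intro b
    rw [ex_pow]
    simp only [hEdef]
    congr 1
    rw [ha, hu]
    push_cast
    ring
  have hterm : ∀ j ∈ Finset.range (N + 1),
      (a : ℂ) * W (a ^ 2 * u ^ j) - (a : ℂ) ^ 2 * W (u ^ j) =
        ∑ b ∈ Finset.range M, E (-(b * (u ^ N * a ^ 2))) *
          ((a : ℂ) * Q (u ^ (N - j) * b) - (a : ℂ) ^ 2 * Q (u ^ (N - j) * a ^ 2 * b)) := by
    intro j hj
    have hjN : N - j + j = N := Nat.sub_add_cancel (Nat.lt_succ_iff.mp (Finset.mem_range.mp hj))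
    have e4 : u ^ (N - j) * u ^ j = u ^ N := by rw [← pow_add, hjN]
    rw [hsub (a ^ 2 * u ^ j) (u ^ (N - j)) (hMp _ (h4 _)),
      hsub (u ^ j) (u ^ (N - j) * a ^ 2) (hMp _ (h3mul _ _ (h4 _) h3a2)),
      Finset.mul_sum, Finset.mul_sum, ← Finset.sum_sub_distrib]
    refine Finset.sum_congr rfl (fun b _ => ?_)
    rw [show u ^ (N - j) * (a ^ 2 * u ^ j) = u ^ N * a ^ 2 by rw [← e4]; ring,
      show u ^ (N - j) * a ^ 2 * u ^ j = u ^ N * a ^ 2 by rw [← e4]; ring]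
    ring
  have hlhs : ∀ j ∈ Finset.range (N + 1),
      ((-1 : ℂ) ^ (N - j) * (N.choose j : ℂ)) *
        (STXE R (lvX p f n) M (aX p f) e kk (u ^ j) +
          s * STXE R (lvX p f n) M (aX p f) e kk (-u ^ j)) =
      (2 * f) * ∑ b ∈ Finset.range M, E (-(b * (u ^ N * a ^ 2))) *
        (((-1 : ℂ) ^ (N - j) * (N.choose j : ℂ)) *
          ((a : ℂ) * Q (u ^ (N - j) * b) - (a : ℂ) ^ 2 * Q (u ^ (N - j) * a ^ 2 * b))) := by
    intro j hj
    rw [hST (u ^ j), hterm j hj, Finset.mul_sum, Finset.mul_sum, Finset.mul_sum]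
    refine Finset.sum_congr rfl (fun b _ => ?_)
    ring
  rw [Finset.sum_congr rfl hlhs, ← Finset.mul_sum, Finset.sum_comm]
  congr 1
  refine Finset.sum_congr rfl (fun b _ => ?_)
  rw [hz b, ← Finset.mul_sum]
  congr 1

end

end Pool.Agent.MUXHY
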