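import Pool.Agent.ME.DefsE2
import Pool.Agent.ME.Lib
import Pool.Agent.MUX.J_DIR
import Pool.Agent.ME.X.StJX
import Pool.Agent.MUX.E_RNG
/-!
# MUX, block J, module DIR: a finite extension in the union of the ray class fields is in one of them
-/

set_option autoImplicit false

open NumberField IsDedekindDomain
open scoped nonZeroDivisors Pointwise

namespace Pool.Agent.MUXJ

open _root_.MU3 Pool.Agent.MU3 Pool.Agent.MU3A Pool.Agent.MU3B Pool.Agent.RI Pool.Agent.RID
  Pool.Agent.MUX Pool.Agent.ME Pool.Agent.MUXK Pool.Agent.MUXE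

noncomputable section

/-- JDIR. -/
theorem t_DIR_E : Sj_DIR_E := by
  intro A B hcq hT K _ hK
  let b := Module.finBasis ℚ K
  choose m hm0 hm using fun i => hK (b i) (b i).2
  have hR : RingE A B := te_RNG A B hcq
  choose N hN0 hN using fun i => hR.pos (m i) (hm0 i)
  refine ⟨∏ i, N i, Finset.prod_ne_zero_iff.2 fun i _ => (hN0 i).ne', ?_⟩
  intro x hx
  have h1 : ((∑ i, b.repr ⟨x, hx⟩ i • b i : K) : ℂ) = x :=
    congrArg (Subtype.val) (b.sum_repr ⟨x, hx⟩)
  have h2 : x = ∑ i, ((b.repr ⟨x, hx⟩ i : ℚ) : ℂ) * ((b i : K) : ℂ) := by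
    refine h1.symm.trans ?_
    rw [AddSubmonoidClass.coe_finsetSum]
    refine Finset.sum_congr rfl fun i _ => ?_
    rw [IntermediateField.coe_smul, Rat.smul_def]
  rw [h2]
  refine sum_mem fun i _ => mul_mem (SubfieldClass.ratCast_mem _ _) ?_
  refine hT.mono (m i) (idl (∏ i, N i)) ?_ (hm i)
  rw [Ideal.span_singleton_le_iff_mem]
  obtain ⟨c, hc⟩ := Finset.dvd_prod_of_mem N (Finset.mem_univ i)
  rw [hc, Nat.cast_mul]
  exact (m i).mul_mem_right _ (hN i)

end

end Pool.Agent.MUXJ
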