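import Pool.Agent.ME.DefsE2
import Pool.Agent.ME.Lib
import Pool.Agent.MUX.J_LEV
import Pool.Agent.ME.X.StJX
/-!
# MUX, block J, module LEV: a field of degree prime to `p` over `k` has a level `f q0` (helper2)
-/

set_option autoImplicit false

namespace Pool.Agent.MUXJ

open _root_.MU3 Pool.Agent.MU3 Pool.Agent.MU3A Pool.Agent.MU3B Pool.Agent.RI Pool.Agent.RID
  Pool.Agent.MUX Pool.Agent.ME Pool.Agent.MUXK Pool.Agent.MUXE

noncomputable section

namespace LEV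

variable {A B : ℤ}

/-- automorphisms of `RFE m` extend to `ℂ` -/
lemma lift_E (T : TorXE A B) {m : Ideal (OO A B)} (hm : m ≠ ⊥) (σ : RFE m ≃ₐ[kk A B] RFE m) :
    ∃ s : ℂ ≃+* ℂ, FixK A B s ∧ ∀ y : RFE m, s (y : ℂ) = (σ y : ℂ) := by
  let D : IntermediateField ℚ ℂ := (RFE m).restrictScalars ℚ
  have h : kk A B ≤ D := fun x hx => (RFE m).algebraMap_mem ⟨x, hx⟩
  let _ := algC h
  let τ : D ≃ₐ[kk A B] D :=
    { toFun := fun x => ⟨(σ ⟨x.1, x.2⟩ : ℂ), (σ ⟨x.1, x.2⟩).2⟩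
      invFun := fun x => ⟨(σ.symm ⟨x.1, x.2⟩ : ℂ), (σ.symm ⟨x.1, x.2⟩).2⟩
      left_inv := fun x => Subtype.ext
        (congrArg Subtype.val (σ.symm_apply_apply (⟨x.1, x.2⟩ : RFE m)))
      right_inv := fun x => Subtype.ext
        (congrArg Subtype.val (σ.apply_symm_apply (⟨x.1, x.2⟩ : RFE m)))
      map_mul' := fun x y => Subtype.ext (by
        have := map_mul σ ⟨x.1, x.2⟩ ⟨y.1, y.2⟩
        exact congrArg Subtype.val this)
      map_add' := fun x y => Subtype.ext (by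
        have := map_add σ ⟨x.1, x.2⟩ ⟨y.1, y.2⟩
        exact congrArg Subtype.val this)
      commutes' := fun r => Subtype.ext (by
        have := σ.commutes r
        exact congrArg Subtype.val this) }
  obtain ⟨s, hs, hs1⟩ := T.ext m hm D h (fun y hy => hy) τ
  exact ⟨s, hs, fun y => hs1 ⟨y.1, y.2⟩⟩

/-- lowering the level -/
lemma act_mono_E {σ : ℂ ≃+* ℂ} {m m' a : Ideal (OO A B)} {L L' : PeriodPair} {mu : ℂ}
    (h : m' ≤ m) (ha : ActE σ m' a L L' mu) : ActE σ m a L L' mu := by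
  refine ⟨ha.kapE, ?_, ha.isq, fun z hz => ha.act z fun x hx => hz x (h hx)⟩
  have h1 := ha.cop
  rw [Ideal.isCoprime_iff_sup_eq] at h1 ⊢
  exact top_unique (h1 ▸ sup_le_sup_left h a)

end LEV

end

end Pool.Agent.MUXJ
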