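import Pool.Agent.ME.DefsE2
import Pool.Agent.ME.Lib
import Pool.Agent.MUX.JAll
import Pool.Agent.ME.X.J_DIR
import Pool.Agent.MUX.J_DWN
import Pool.Agent.MUX.J_FIN
import Pool.Agent.MUX.J_FLD
import Pool.Agent.ME.X.J_GAL
import Pool.Agent.ME.X.J_INJ
import Pool.Agent.MUX.J_LAY
import Pool.Agent.MUX.J_LDX
import Pool.Agent.ME.X.J_LEV
import Pool.Agent.MUX.J_OMG
import Pool.Agent.MUX.J_RAM
import Pool.Agent.MUX.J_RES
import Pool.Agent.MUX.J_ROT
import Pool.Agent.MUX.J_SUB
import Pool.Agent.MUX.J_UNH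
import Pool.Agent.MUX.J_UP
import Pool.Agent.MUX.J_VEX
import Pool.Agent.MUX.K_EPX
import Pool.Agent.MUX.K_IDX
import Pool.Agent.MUX.K_NIX
import Pool.Agent.MU3.PAll
/-! # Block J of the project MUX, assembled

`StJX.lean` states the field theory of the last glue; the files `J_*.lean` prove the statements. Here they are put
together: `j_X : Sj_X` without hypotheses, except for `j_FIN`, which takes the main theorem of block K. -/

namespace Pool.Agent.MUXJ

open Pool.Agent.ME

open Pool.Agent.MUXK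

theorem j_INJ_E : Sj_INJ_E := t_INJ_E
theorem j_DIR_E : Sj_DIR_E := t_DIR_E
theorem j_GAL_E : Sj_GAL_E := t_GAL_E
end Pool.Agent.MUXJ
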