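import Pool.Agent.ME.DefsE2
import Pool.Agent.MUX.StJG
import Pool.Agent.ME.X.StJX
/-!
# MUX, block J, general prime above `p` (helper34)

The statements of `StJX.lean` in which the hypothesis that `p` splits was used, now for any prime ideal `P` above `p`: `p = 3`
split, inert or ramified, `p = 2` split or inert. `e` is `1` or `2`, with `p ∉ P²` if `e = 1`. The level `f` is divisible by a
given number `d` prime to `p`. The proofs are the files `J_X.lean`, with small changes.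
-/

set_option autoImplicit false

open NumberField IsDedekindDomain
open scoped nonZeroDivisors Pointwise

namespace Pool.Agent.MUXJ

open _root_.MU3 Pool.Agent.MU3 Pool.Agent.MU3A Pool.Agent.MU3B Pool.Agent.RI Pool.Agent.RID
  Pool.Agent.MUX Pool.Agent.ME Pool.Agent.MUXK

noncomputable section

/-- the inputs for all pairs `K₀ ≤ K`, all levels `f` prime to `p` and divisible by `d` -/
def InpG_E (p d : ℕ) (A B : ℤ) (V : ValuationSubring ℂ) : Prop :=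
  ∀ (f : ℕ), f ≠ 0 → ¬ p ∣ f → d ∣ f →
  ∀ (K₀ K : IntermediateField ℚ ℂ) (Bn : ℕ → IntermediateField ℚ ℂ)
    [FiniteDimensional ℚ (kk A B)] [FiniteDimensional ℚ K] [∀ n, FiniteDimensional ℚ ↥(K ⊔ Bn n)],
    SetX p (kk A B) K₀ K Bn → (∀ y ∈ K, y ∈ RFE (idl (A := A) (B := B) (lvX p f 0))) →
    (∀ y ∈ RFE (⊤ : Ideal (OO A B)), y ∈ K) →
    ∀ (hk : ∀ n, kk A B ≤ K ⊔ Bn n) (hk₀ : ∀ n, kk A B ≤ K₀ ⊔ Bn n) (hkK : kk A B ≤ K₀),
    ∃ (S : Finset ℕ) (c c₀ : ℕ → ℂ) (n₁ : ℕ),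
      InpX (IsLocalRing.ResidueField V) p (kk A B) K₀ K Bn hk hk₀ hkK S c c₀ n₁

/-- JLEVG: a field of degree prime to `p` over `k` is contained in a ray class field of level `f q0`.
PROOF. `J_LEV.lean`, with `f = d M'` (`M = p^j M'`, `p ∤ M'`). -/
def Sj_LEVG_E : Prop := ∀ (p d : ℕ) (A B : ℤ), CQ A B → p = 2 ∨ p = 3 → d ≠ 0 → ¬ p ∣ d →
    (p = 3 → 2 ∣ d) →
    TorXE A B → NLex_E A B →
    ∀ (K : IntermediateField ℚ ℂ) [FiniteDimensional ℚ K] (hk : kk A B ≤ K),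
    ¬ p ∣ Module.finrank (kk A B) (IntermediateField.extendScalars hk) → ∀ M : ℕ, M ≠ 0 →
    (∀ x ∈ K, x ∈ RFE (idl (A := A) (B := B) M)) →
    ∃ f : ℕ, f ≠ 0 ∧ ¬ p ∣ f ∧ d ∣ f ∧
      ∀ x ∈ K, x ∈ RFE (idl (A := A) (B := B) (lvX p f 0))

/-- JSETG: the large field `K`.
Uses Sj_DIR_E, Sj_RAMG, Sj_INJ_E, Sj_ROT, Sj_LDX, Sj_GAL_E, Sj_LEVG_E. PROOF. `J_SET.lean`. `2 p ∣ lvX p f 0` because `2 ∣ d ∣ f` for `p = 3` (hypothesis). The contradiction: `q0 p * (p - 1) ∣ e * |I| ∣ e * [K₁ : k]`. `p = 3`: `6 ∣ e [K₀ : k]`, `e ≤ 2`, so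
`3 ∣ [K₀ : k]`, false. `p = 2`: `e = 1`, `4 ∣ [K₁ : k]`, `[K₁ : K₀] ≤ 2`, so `2 ∣ [K₀ : k]`, false. -/
def Sj_SETG_E : Prop := ∀ (p e d : ℕ) (A B : ℤ) (P : Ideal (OO A B)) (V : ValuationSubring ℂ),
    AboX p e A B P V → d ≠ 0 → ¬ p ∣ d → (p = 3 → 2 ∣ d) → UnrH_E A B V → TorXE A B → NLex_E A B →
    ∀ (K₀ : IntermediateField ℚ ℂ) [FiniteDimensional ℚ K₀] (hk : kk A B ≤ K₀),
    ¬ p ∣ Module.finrank (kk A B) (IntermediateField.extendScalars hk) → TorU_E A B K₀ →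
    (∃ ω ∈ K₀, IsPrimitiveRoot ω p) →
    ∀ (Bn : ℕ → IntermediateField ℚ ℂ), (∀ n, IsLayer p n (Bn n)) → Monotone Bn →
    ∃ (K : IntermediateField ℚ ℂ) (_ : FiniteDimensional ℚ K) (f : ℕ),
      SetX p (kk A B) K₀ K Bn ∧ f ≠ 0 ∧ ¬ p ∣ f ∧ d ∣ f ∧
      (∀ y ∈ K, y ∈ RFE (idl (A := A) (B := B) (lvX p f 0))) ∧
      ∀ y ∈ RFE (⊤ : Ideal (OO A B)), y ∈ K

/-- JOMGG: adjoining the `p`-th roots of unity, `p = 2, 3`.
PROOF. `J_OMG.lean` (only `CQ` and `p = 2 ∨ p = 3` are used there). -/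
def Sj_OMGG_E : Prop := ∀ (p : ℕ) (A B : ℤ), CQ A B → p = 2 ∨ p = 3 → TorXE A B → NLex_E A B →
    ∀ (F : IntermediateField ℚ ℂ) [FiniteDimensional ℚ F] (hk : kk A B ≤ F), TorU_E A B F →
    ¬ p ∣ Module.finrank (kk A B) (IntermediateField.extendScalars hk) →
    ∃ (F₁ : IntermediateField ℚ ℂ) (h : F ≤ F₁) (_ : FiniteDimensional ℚ F₁), TorU_E A B F₁ ∧
      (∃ ω ∈ F₁, IsPrimitiveRoot ω p) ∧ IsGalois F (IntermediateField.extendScalars h) ∧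
      ¬ p ∣ Module.finrank F (IntermediateField.extendScalars h) ∧
      ¬ p ∣ Module.finrank (kk A B) (IntermediateField.extendScalars (hk.trans h))

/-- JFING: the main theorem for all fields, from the inputs.
Uses Sj_RES, Sj_LAY, Sj_DIR_E, Sj_GAL_E, Sj_SETG_E, Sj_UP, Sj_SUB, Sj_OMGG_E, Sj_FLD, S_MAINKX, P_SYL, P_PEX. PROOF. `J_FIN.lean`. -/
def Sj_FING_E : Prop := ∀ (p e d : ℕ) (A B : ℤ) (P : Ideal (OO A B)) (V : ValuationSubring ℂ),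
    AboX p e A B P V → d ≠ 0 → ¬ p ∣ d → (p = 3 → 2 ∣ d) → UnrH_E A B V → TorXE A B → NLex_E A B →
    InpG_E p d A B V →
    ∀ (F M K : IntermediateField ℚ ℂ) [FiniteDimensional ℚ M] (_ : kk A B ≤ F) (h : F ≤ M)
    (a : ℕ), TorU_E A B F → IsGalois F (IntermediateField.extendScalars h) →
    Module.finrank F (IntermediateField.extendScalars h) = p ^ a → K ≤ M →
    ∃ C : ℕ, ∀ (n : ℕ) (Q : IntermediateField ℚ ℂ), IsLayer p n Q →
      padicValNat p (classNo (K ⊔ Q)) ≤ C * (n + 1) ^ C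

end

end Pool.Agent.MUXJ
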