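import Pool.Agent.ME.DefsE2
import Pool.Agent.ME.Lib
import Pool.Agent.MUX.J_LEVG
import Pool.Agent.ME.X.StJG
import Pool.Agent.ME.X.J_LEV
/-!
# MUX, block J, module LEVG: a field of degree prime to `p` over `k` has a level `f q0`, `d ∣ f` (helper92)

The proof of `J_LEV.lean` with `f = d M'`.
-/

set_option autoImplicit false

namespace Pool.Agent.MUXJ

open _root_.MU3 Pool.Agent.MU3 Pool.Agent.MU3A Pool.Agent.MU3B Pool.Agent.RI Pool.Agent.RID
  Pool.Agent.MUX Pool.Agent.ME Pool.Agent.MUXK Pool.Agent.MUXE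

noncomputable section

open LEV in
/-- a field of degree prime to `p` over `k` is contained in a ray class field of level `f q0` -/
theorem t_LEVG_E : Sj_LEVG_E := by
  intro p d A B hC hp23 hd0 hdp hd2 T hN K _ hk hKp M hM0 hM
  have hp : p.Prime := by
    rcases hp23 with h | h
    · rw [h]; exact Nat.prime_two
    · rw [h]; exact Nat.prime_three
  obtain ⟨j, M', hM', hMj⟩ := Nat.exists_eq_pow_mul_and_not_dvd hM0 p hp.ne_one
  have hM'0 : M' ≠ 0 := by
    rintro rfl
    exact hM' (dvd_zero p)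
  set f : ℕ := d * M' with hf
  have hf0 : f ≠ 0 := mul_ne_zero hd0 hM'0
  have hfp : ¬ p ∣ f := by
    rw [hf, hp.dvd_mul]
    push Not
    exact ⟨hdp, hM'⟩
  have hq0 : q0 p ≠ 0 := by
    unfold q0
    split_ifs with h2
    · norm_num
    · exact hp.ne_zero
  have hpq0 : p ∣ q0 p := by
    unfold q0
    split_ifs with h2
    · rw [h2]; norm_num
    · exact dvd_rfl
  refine ⟨f, hf0, hfp, Dvd.intro _ rfl, ?_⟩
  -- the two levels
  set m1 : Ideal (OO A B) := idl (lvX p f j) with hm1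
  set m0 : Ideal (OO A B) := idl (lvX p f 0) with hm0
  have hm1' : m1 ≠ ⊥ := idl_ne (mul_ne_zero (mul_ne_zero hf0 hq0) (pow_ne_zero _ hp.ne_zero))
  have hm0' : m0 ≠ ⊥ := idl_ne (mul_ne_zero (mul_ne_zero hf0 hq0) (pow_ne_zero _ hp.ne_zero))
  have h2m0 : m0 ≤ idl 2 := idl_le (by
    unfold lvX q0
    rcases hp23 with h | h
    · rw [h]
      simp only [if_true, pow_zero, mul_one]
      exact Dvd.dvd.mul_left (by norm_num) f
    · have h9 : 2 ∣ f := (hd2 h).trans (Dvd.intro _ rfl)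
      exact (h9.mul_right _).mul_right _)
  have h01 : m1 ≤ m0 := idl_le (mul_dvd_mul_left _ (pow_dvd_pow p (Nat.zero_le j)))
  have hMm : m1 ≤ idl M := idl_le (by
    rw [hMj]
    exact ⟨d * q0 p, by unfold lvX; rw [hf]; ring⟩)
  have hK1 : ∀ x ∈ K, x ∈ RFE m1 := fun x hx => T.mono _ _ hMm (hM x hx)
  have hfin := T.fin m1 hm1'
  have hgal := T.gal m1 hm1'
  have h01' : RFE m0 ≤ RFE m1 := T.mono _ _ h01
  let K' : IntermediateField (kk A B) ℂ := IntermediateField.extendScalars hk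
  have hK' : K' ≤ RFE m1 := fun x hx => hK1 x hx
  let E : IntermediateField (kk A B) (RFE m1) := IntermediateField.restrict hK'
  let F0 : IntermediateField (kk A B) (RFE m1) := IntermediateField.restrict h01'
  have hcomm := T.comm m1 hm1'
  have hnorm : E.fixingSubgroup.Normal := by
    constructor
    intro n hn g
    rw [hcomm g n, mul_assoc, mul_inv_cancel, mul_one]
    exact hn
  have hidx : ¬ p ∣ E.fixingSubgroup.index := by
    rw [← IntermediateField.finrank_eq_fixingSubgroup_index,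
      ← (IntermediateField.restrictAlgEquiv hK').toLinearEquiv.finrank_eq]
    exact hKp
  -- elements which are trivial on `RFE m0`
  have hkey : F0.fixingSubgroup ≤ E.fixingSubgroup := by
    intro σ hσ
    rw [IntermediateField.mem_fixingSubgroup_iff] at hσ
    obtain ⟨s, hs, hsσ⟩ := lift_E T hm1' σ
    obtain ⟨a, hac, ha⟩ := T.act m1 hm1' s hs
    obtain ⟨b, L, om, hL⟩ := hN
    obtain ⟨b', L', om', mu, hL', hact⟩ := ha b L om hL
    have htr0 : ∀ y ∈ RFE m0, s y = y := by
      intro y hy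
      have h1 := hsσ ⟨y, h01' hy⟩
      have h2 := hσ ⟨y, h01' hy⟩ ((IntermediateField.mem_restrict h01' _).2 hy)
      rw [h2] at h1
      exact h1
    obtain ⟨x, hx, hax⟩ := (T.triv m0 a s b L L' om mu hm0' (Or.inl h2m0) hs hL (act_mono_E h01 hact) hL'.nrm).1 htr0
    -- powers
    have hpow : ∀ n : ℕ, ∃ t : ℂ ≃+* ℂ, FixK A B t ∧
        (∀ y : RFE m1, t (y : ℂ) = ((σ ^ (n + 1)) y : ℂ)) ∧
        ∃ (b' : Ideal (OO A B)) (L' : PeriodPair) (om' mu : ℂ), IsNE b' L' om' ∧
          ActE t m1 (a ^ (n + 1)) L L' mu := by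
      intro n
      induction n with
      | zero =>
        refine ⟨s, hs, fun y => ?_, b', L', om', mu, hL', ?_⟩
        · rw [zero_add, pow_one]; exact hsσ y
        · rw [zero_add, pow_one]; exact hact
      | succ n ih =>
        obtain ⟨t, ht, ht1, b₁, L₁, om₁, mu₁, hL₁, hact₁⟩ := ih
        obtain ⟨b₂, L₂, om₂, mu₂, hL₂, hact₂⟩ := ha b₁ L₁ om₁ hL₁
        refine ⟨t.trans s, ?_, fun y => ?_, b₂, L₂, om₂, mu₂ * mu₁, hL₂, ?_⟩
        · show s (t (wC A B)) = wC A B
          rw [show t (wC A B) = wC A B from ht]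
          exact hs
        · show s (t (y : ℂ)) = _
          rw [ht1 y, hsσ, pow_succ' σ (n + 1)]
          rfl
        · rw [pow_succ a (n + 1)]
          exact T.comp m1 _ a t s L L₁ L₂ mu₁ mu₂ hact₁ hact₂
    have hpj : 0 < p ^ j := pow_pos hp.pos j
    obtain ⟨t, ht, ht1, b₁, L₁, om₁, mu₁, hL₁, hact₁⟩ := hpow (p ^ j - 1)
    rw [Nat.sub_add_cancel hpj] at ht1 hact₁
    have h3 : x ^ p ^ j - 1 ∈ m1 := by
      have h4 : ((f * q0 p : ℕ) : OO A B) ∣ x - 1 := by
        have h5 := Ideal.mem_span_singleton.1 hx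
        simpa [lvX] using h5
      have h5 : ((p : ℕ) : OO A B) ∣ ((f * q0 p : ℕ) : OO A B) :=
        Nat.cast_dvd_cast (hpq0.mul_left f)
      have h6 := pow_dvd p _ x h5 h4 j
      rw [hm1, Ideal.mem_span_singleton]
      unfold lvX
      push_cast at h6 ⊢
      exact h6
    have h4 : σ ^ p ^ j = 1 := by
      have h5 := (T.triv m1 _ t b L L₁ om mu₁ hm1' (Or.inl (h01.trans h2m0)) ht hL hact₁ hL₁.nrm).2
        ⟨x ^ p ^ j, h3, by rw [hax, Ideal.span_singleton_pow]⟩
      refine AlgEquiv.ext fun y => Subtype.ext ?_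
      rw [← ht1 y, h5 y y.2]
      rfl
    have h5 : σ ^ E.fixingSubgroup.index ∈ E.fixingSubgroup := Subgroup.pow_index_mem _ σ
    refine mem_of_pow_mem _ (m := p ^ j) (by rw [h4]; exact one_mem _) h5 ?_
    exact Nat.Coprime.pow_left j ((Nat.Prime.coprime_iff_not_dvd hp).2 hidx)
  have hEF : E ≤ F0 := by
    rw [← IsGalois.fixedField_fixingSubgroup F0, IntermediateField.le_iff_le]
    exact hkey
  intro x hx
  have h1 : (⟨x, hK1 x hx⟩ : RFE m1) ∈ F0 :=
    hEF ((IntermediateField.mem_restrict hK' _).2 hx)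
  exact (IntermediateField.mem_restrict h01' _).1 h1

end

end Pool.Agent.MUXJ
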