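import Pool.Agent.ME.DefsE2
import Pool.Agent.ME.Lib
import Pool.Agent.MUX.JGAll
import Pool.Agent.MUX.KJAll
import Pool.Agent.MUX.J_RAMG
import Pool.Agent.ME.X.JAll
import Pool.Agent.ME.X.J_LEVG
import Pool.Agent.ME.X.J_SETG
import Pool.Agent.ME.X.J_OMGG
import Pool.Agent.ME.X.J_FING
/-! # Block J for any prime above `p`, assembled

`StJG.lean` states the last glue for `p = 3` (any prime above 3) and `p = 2` (unramified). Here the statements are put
together: `j_FING : Sj_FING` has no hypothesis. -/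

namespace Pool.Agent.MUXJ

open Pool.Agent.ME

open Pool.Agent.MUXK

theorem j_LEVG_E : Sj_LEVG_E := t_LEVG_E
theorem j_SETG_E : Sj_SETG_E := t_SETG_E j_DIR_E j_RAMG j_INJ_E j_ROT j_LDX j_GAL_E j_LEVG_E
theorem j_OMGG_E : Sj_OMGG_E := t_OMGG_E j_DIR_E
theorem j_FING_E : Sj_FING_E :=
  t_FING_E j_RES j_LAY j_DIR_E j_GAL_E j_SETG_E j_UP j_SUB j_OMGG_E j_FLD k_MAINKX MU3.u_SYL MU3.u_PEX

end Pool.Agent.MUXJ
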