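import Pool.Agent.ME.DefsE2
import Pool.Agent.ME.Lib
import Pool.Agent.MUX.W_FRD
import Pool.Agent.ME.X.StWX
import Pool.Agent.MU3.W_FRD
/-!
# MUX, block W: module FRD, a good prime of `D` lies over a principal prime
-/

set_option autoImplicit false

open WeierstrassCurve Polynomial NumberField IsDedekindDomain

namespace Pool.Agent.MUXW

open _root_.MU3 Pool.Agent.MU3A Pool.Agent.MU3B Pool.Agent.MU3C Pool.Agent.RI Pool.Agent.RID
open Pool.Agent.MUX Pool.Agent.ME Pool.Agent.MUXU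
open Pool.Agent.MU3V (cls Sub GD algDF Sw_LOC Sv_EXT)
open Pool.Agent.MUXV (GR InK tX CMO Ovr)

theorem ty_FRD_E (h1 : Sy_FRH_E) (h2 : Sy_PRQ) (h3 : Sy_MEM) (h4 : Sw_LOC) (h5 : Sv_EXT) : Sy_FRD_E := by
  intro A B hc T n ι _ R
  obtain ⟨n₀, hn₀, hF⟩ := h1 A B hc T n ι R
  refine ⟨n₀, hn₀, ?_⟩
  intro p m hm h2m D _ h hHas hsub
  letI := algC h
  intro S v q hgood hqn hqm
  have hkfd : FiniteDimensional ℚ (kk A B) :=
    FiniteDimensional.of_injective (IntermediateField.inclusion h).toLinearMap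
      (IntermediateField.inclusion h).injective
  have hk : NumberField (kk A B) := ⟨⟩
  have hDN : NumberField D := ⟨⟩
  have hspm : (sp m : Ideal (OO A B)) ≠ ⊥ := by
    rw [Ne, Ideal.span_singleton_eq_bot]
    exact hm
  have hTfd := T.fin (sp m) hspm
  have hTgal := T.gal (sp m) hspm
  have hTcomm := T.comm (sp m) hspm
  set F : IntermediateField (kk A B) ℂ := RFE (sp m) with hFdef
  have hFQ : FiniteDimensional ℚ F := FiniteDimensional.trans ℚ (kk A B) F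
  have hFN : NumberField F := ⟨⟩
  letI : Algebra D F := algDF hsub
  haveI : IsScalarTower (kk A B) D F := IsScalarTower.of_algebraMap_eq fun x => rfl
  obtain ⟨hcard, w, hw, hwb, hwv, hwk, σ, hσ⟩ :=
    Pool.Agent.MU3V.W_FRD.abs_frob (kk A B) D F v q hgood.prime hgood.card
  obtain ⟨-, hP2, hP3⟩ := h2 A B hc
  obtain ⟨Q, hQc, hQ⟩ := hP3 (v.asIdeal.under (𝓞 (kk A B)))
  -- the place `V`
  obtain ⟨V, hV⟩ := h5 F (algebraMap F ℂ) ⟨w, hw, hwb⟩
  have hcong : ∀ x : F, (x : ℂ) ∈ V → V.valuation (((σ x : F) : ℂ) - (x : ℂ) ^ q) < 1 :=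
    h4 A B F ⟨w, hw, hwb⟩ V (fun x => ⟨(hV x).1, (hV x).2.1⟩) σ q hgood.prime.pos hσ
  have hOvr : Ovr Q V := by
    intro y hy
    obtain ⟨x, hx⟩ := hP2 y
    have h6 : x ∈ v.asIdeal.under (𝓞 (kk A B)) := (hQ x y hx).mpr hy
    rw [← hwk] at h6
    have h7 : algebraMap (𝓞 (kk A B)) (𝓞 F) x ∈ w := h6
    have h8 : HeightOneSpectrum.valuation F (⟨w, hw, hwb⟩ : HeightOneSpectrum (𝓞 F))
        (algebraMap (𝓞 F) F (algebraMap (𝓞 (kk A B)) (𝓞 F) x)) < 1 :=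
      (HeightOneSpectrum.valuation_lt_one_iff_mem _ _).mpr h7
    have h9 := (hV _).2.1.mpr h8
    have h10 : algebraMap F ℂ (algebraMap (𝓞 F) F (algebraMap (𝓞 (kk A B)) (𝓞 F) x)) = emb y :=
      hx
    rwa [h10] at h9
  -- `σ` is trivial on `D`
  obtain ⟨-, -, -, -, hext⟩ := h3 A B F hTfd hTgal hTcomm D h hsub 1 one_ne_zero
  obtain ⟨τ, hτ⟩ := hext σ
  have hτ1 : τ = 1 := by
    apply hgood.free
    refine Pool.Agent.MU3V.W_FRD.abs_free (kk A B) D F v w hwv q hgood.prime.pos σ hσ τ ?_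
    intro y
    apply Subtype.ext
    exact hτ y (hsub y y.2)
  subst hτ1
  have hGD : σ ∈ GD h F := by
    intro y hyD hyF
    apply Subtype.ext
    exact hτ ⟨y, hyD⟩ hyF
  have hTr : TrH_E σ := by
    intro x hx
    exact hGD x (hHas x hx) x.2
  obtain ⟨lam, hlQ, hlam, hact⟩ := hF m hm h2m Q q hgood.prime hqn hqm (hQc.trans hcard) V hOvr σ
    hcong hTr
  refine ⟨lam, hlam, ⟨σ, hGD, hact⟩, fun x y hxy => ?_⟩
  rw [hQ x y hxy, hlQ, Ideal.mem_span_singleton]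

end Pool.Agent.MUXW
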