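import Pool.Agent.ME.DefsE2
import Pool.Agent.ME.Lib
import Pool.Agent.MUX.Y_FIN
import Pool.Agent.ME.X.StYX
/-!
# MUX, section 9: conjugation of the symbols at finitely many pairs of cusps
-/

set_option autoImplicit false

namespace Pool.Agent.MUXY

open Pool.Agent.ME

open _root_.MU3 Pool.Agent.MU3A Pool.Agent.MU3B Pool.Agent.MUXU OnePoint
open Pool.Agent.MU3F (ex)
open Pool.Agent.MUXF (Sx_ALG Sx_IDL Sx_NIM Sx_QB Sx_SMB Sx_F4 qb sumB)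

namespace Y_FIN

end Y_FIN

open Y_FIN in
theorem ty_FIN_E (h2 : Sx_IDL) (h3 : Sx_NIM) (h4 : Sy_RAT) (h5 : Sy_EXI_E) : Sy_FIN_E := by
  intro A B hQ hT n ι R g e hg hg1 he hcop σ hσ i S
  obtain ⟨m, hm, hmg, hS⟩ := level g (MUXF.nI g) (h2 A B (cqF hQ) g hg).1
    ((h3 A B (cqF hQ)).2.2.1 g hg).2.2.2 S
  obtain ⟨j, a, mu, hact, hz⟩ := h5 A B hQ hT n ι R σ hσ m hm i
  obtain ⟨C, hC, hx, hxy⟩ := h4 A B (cqF hQ) σ m a (R.b i) (R.b j) (R.L i) (R.L j) (R.om i)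
    (R.om j) mu (liF (R.nl i).toIsLI) (liF (R.nl j).toIsLI) hact hz g e (eiF he) hg1 hm hmg
    (hcop i) (hcop j)
  exact ⟨j, C, hact.cj, hC, hx, fun q hq => hxy q.1 q.2 (hS q hq).1 (hS q hq).2⟩

end Pool.Agent.MUXY
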