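import Pool.Agent.ME.DefsE2
import Pool.Agent.ME.Lib
import Pool.Agent.MUX.Z_THN
import Pool.Agent.ME.X.StZX
import Pool.Agent.MUX.F_ALG
import Pool.Agent.MU3.BAll
/-!
# MUX, last glue, module THN: half systems and the values `θ` (helper2)
-/

set_option autoImplicit false

namespace Pool.Agent.MUXZ

open _root_.MU3 Pool.Agent.MU3 Pool.Agent.MU3A Pool.Agent.MU3B Pool.Agent.RI Pool.Agent.RID
  Pool.Agent.MUX Pool.Agent.ME Pool.Agent.MUXK Pool.Agent.MUXJ Pool.Agent.MUXW

noncomputable section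

namespace THN

end THN

open THN Pool.Agent.MUXF.AlgX in
theorem tz_THN_E (hT : Sy_THG_E) : Sz_THN_E := by
  intro A B hC T n ι R a ha
  have hF : Pool.Agent.MUXF.CQ A B := ⟨hC.hB, hC.neg, hC.fund1, hC.fund0⟩
  have hdom := isDomain hF
  choose H hH using fun i => half (R.L i) ha
  refine ⟨H, hH, fun m hm hmu hcop => ?_⟩
  have hNL := R.nl R.i0
  have hom := hNL.om_ne
  have hmC : (m : ℂ) ≠ 0 := by exact_mod_cast hm
  have ha0 : a ≠ 0 := by
    obtain ⟨k, hk⟩ := ha
    omega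
  have embN : ∀ k : ℕ, emb ((k : ℕ) : OO A B) = k := by
    intro k
    have := emb_intCast hF (k : ℤ)
    simpa using this
  have emb1 : emb (1 : OO A B) = 1 := by
    have := emb_intCast hF 1
    simpa using this
  have hm0 : ((m : ℕ) : OO A B) ≠ 0 := by
    intro h
    have h1 := embN m
    rw [h, emb_zero hF] at h1
    exact hmC h1.symm
  have hL1 : ∀ z : ℂ, z ∈ (R.L R.i0).lattice ↔ ∃ x : OO A B, z = R.om R.i0 * emb x := by
    intro z
    rw [hNL.mem, R.b0]
    simp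
  have hpt : ptE R m R.i0 1 = R.om R.i0 / emb ((m : ℕ) : OO A B) := by
    unfold ptE
    have h1 : nI (⊤ : Ideal (OO A B)) = 1 := by
      unfold nI
      have : Subsingleton (OO A B ⧸ (⊤ : Ideal (OO A B))) := Ideal.Quotient.subsingleton_iff.2 rfl
      exact Nat.card_unique
    rw [R.b0, h1, emb1, embN]
    push_cast
    ring
  set z : ℂ := R.om R.i0 / emb ((m : ℕ) : OO A B) with hz
  have hz' : z = R.om R.i0 / m := by rw [hz, embN]
  have h1 : emb ((m : ℕ) : OO A B) * z ∈ (R.L R.i0).lattice := by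
    refine (hL1 _).2 ⟨1, ?_⟩
    rw [emb1, embN, hz']
    field_simp
  have h2 : z ∉ (R.L R.i0).lattice := by
    intro h
    obtain ⟨x, hx⟩ := (hL1 _).1 h
    apply hmu
    refine IsUnit.of_mul_eq_one x (emb_inj hF ?_)
    rw [emb_mul hF, embN, emb1]
    rw [hz'] at hx
    field_simp at hx
    linear_combination -hx
  obtain ⟨-, -, hmem, -⟩ := hT A B hC T (R.b R.i0) (R.L R.i0) (R.om R.i0) hNL
    ((m : ℕ) : OO A B) hm0 (a : ℤ) (H R.i0) (by exact_mod_cast ha0)
    (by rw [Int.cast_natCast]; exact hH R.i0) z h1 h2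
  refine ⟨⟨ThetaH (R.L R.i0) (H R.i0) z, hmem⟩, ?_, rfl, ?_⟩
  · rw [hpt]
  · intro h0
    have h3 : ThetaH (R.L R.i0) (H R.i0) z = 0 := congrArg Subtype.val h0
    rw [b_TNZ (R.L R.i0) (a : ℂ) (H R.i0) (fun w hw => nat_mul_mem _ hw a) (hH R.i0) z h2] at h3
    obtain ⟨x, hx⟩ := (hL1 _).1 h3
    have h4 : ((a : ℕ) : OO A B) = ((m : ℕ) : OO A B) * x := by
      apply emb_inj hF
      rw [emb_mul hF, embN, embN]
      rw [hz'] at hx
      field_simp at hx
      linear_combination hx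
    apply hmu
    obtain ⟨u, v, huv⟩ : IsCoprime ((a : ℕ) : ℤ) ((m : ℕ) : ℤ) := Nat.isCoprime_iff_coprime.2 hcop
    have h5 : ((u : ℤ) : OO A B) * ((a : ℕ) : OO A B) + ((v : ℤ) : OO A B) * ((m : ℕ) : OO A B) =
        1 := by
      have := congrArg (fun k : ℤ => ((k : ℤ) : OO A B)) huv
      simpa using this
    refine IsUnit.of_mul_eq_one (((u : ℤ) : OO A B) * x + ((v : ℤ) : OO A B)) ?_
    rw [← h5, h4]
    ring

end

end Pool.Agent.MUXZ
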